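import Mathlib

set_option autoImplicit false

open Complex Set Filter Topology Metric

namespace Pool.Agent.Helper87.HF

/-- an analytic nonvanishing function on a ball has an analytic logarithm -/
lemma exists_log_ball {h : ℂ → ℂ} {R : ℝ} (hR : 0 < R) (hd : DifferentiableOn ℂ h (ball 0 R))
    (hne : ∀ z ∈ ball (0 : ℂ) R, h z ≠ 0) :
    ∃ q : ℂ → ℂ, DifferentiableOn ℂ q (ball 0 R) ∧ (∀ z ∈ ball (0 : ℂ) R, exp (q z) = h z) ∧
      |(q 0).im| ≤ Real.pi := by
  have hdd : DifferentiableOn ℂ (fun z => deriv h z / h z) (ball 0 R) :=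
    (hd.deriv isOpen_ball).div hd hne
  obtain ⟨g, hg⟩ := hdd.isExactOn_ball
  have h0 : (0 : ℂ) ∈ ball (0 : ℂ) R := mem_ball_self hR
  set k : ℂ → ℂ := fun z => h z * exp (-g z) with hk
  have hkd : ∀ z ∈ ball (0 : ℂ) R, HasDerivAt k 0 z := by
    intro z hz
    have h1 : HasDerivAt h (deriv h z) z :=
      ((hd z hz).differentiableAt (isOpen_ball.mem_nhds hz)).hasDerivAt
    have h2 := (hg z hz).neg.cexp
    have h3 := h1.mul h2
    have e : deriv h z * exp (-g z) + h z * (exp (-g z) * -(deriv h z / h z)) = 0 := by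
      have := hne z hz
      field_simp
      ring
    have h4 : HasDerivAt k (deriv h z * exp (-g z) + h z * (exp (-g z) * -(deriv h z / h z))) z := h3
    rw [e] at h4
    exact h4
  have hconst : ∀ z ∈ ball (0 : ℂ) R, k z = k 0 := by
    intro z hz
    refine isOpen_ball.is_const_of_deriv_eq_zero (convex_ball (0 : ℂ) R).isPreconnected ?_ ?_ hz h0
    · exact fun z hz => (hkd z hz).differentiableAt.differentiableWithinAt
    · exact fun z hz => (hkd z hz).deriv
  refine ⟨fun z => g z - g 0 + log (h 0), ?_, ?_, ?_⟩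
  · intro z hz
    exact (((hg z hz).differentiableAt.sub_const _).add_const _).differentiableWithinAt
  · intro z hz
    have h1 := hconst z hz
    simp only [hk] at h1
    rw [exp_add, exp_log (hne 0 h0), exp_sub]
    rw [exp_neg, exp_neg] at h1
    have e1 := exp_ne_zero (g z)
    have e2 := exp_ne_zero (g 0)
    field_simp at h1 ⊢
    linear_combination -h1
  · simp only [sub_self, zero_add]
    rw [log_im]
    exact abs_arg_le_pi _

/-- a three circle estimate with explicit splitting index -/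
lemma three_circle {q : ℂ → ℂ} {R₁ R r ρ M m : ℝ} (hr : 0 < r) (hrρ : r ≤ ρ) (hρR : ρ < R)
    (hR : R < R₁) (hd : DifferentiableOn ℂ q (ball 0 R₁))
    (hM : ∀ z : ℂ, ‖z‖ ≤ R → ‖q z‖ ≤ M) (hm : ∀ z : ℂ, ‖z‖ ≤ r → ‖q z‖ ≤ m) (N : ℕ) :
    ∀ z : ℂ, ‖z‖ ≤ ρ → ‖q z‖ ≤ N * m * (ρ / r) ^ N + M * ((ρ / R) ^ N / (1 - ρ / R)) := by
  intro z hz
  have hρ0 : 0 < ρ := lt_of_lt_of_le hr hrρ
  have hR0 : 0 < R := hρ0.trans hρR
  have hM0 : 0 ≤ M := (norm_nonneg _).trans (hM 0 (by simpa using hR0.le))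
  have hm0 : 0 ≤ m := (norm_nonneg _).trans (hm 0 (by simpa using hr.le))
  have hzball : z ∈ ball (0 : ℂ) R₁ := by
    rw [mem_ball_zero_iff]; linarith
  have hsum := hasSum_taylorSeries_on_ball hd hzball
  have hθ : ρ / R < 1 := (div_lt_one hR0).2 hρR
  have hθ0 : 0 ≤ ρ / R := by positivity
  -- coefficient bounds
  have c1 : ∀ n : ℕ, ‖iteratedDeriv n q 0‖ ≤ n.factorial * M / R ^ n := by
    intro n
    refine norm_iteratedDeriv_le_of_forall_mem_sphere_norm_le n hR0 ?_ ?_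
    · refine (hd.mono ?_).diffContOnCl
      rw [closure_ball _ hR0.ne']
      exact closedBall_subset_ball hR
    · intro w hw
      exact hM w (by rw [mem_sphere_zero_iff_norm] at hw; exact hw.le)
  have c2 : ∀ n : ℕ, ‖iteratedDeriv n q 0‖ ≤ n.factorial * m / r ^ n := by
    intro n
    refine norm_iteratedDeriv_le_of_forall_mem_sphere_norm_le n hr ?_ ?_
    · refine (hd.mono ?_).diffContOnCl
      rw [closure_ball _ hr.ne']
      exact closedBall_subset_ball (by linarith)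
    · intro w hw
      exact hm w (by rw [mem_sphere_zero_iff_norm] at hw; exact hw.le)
  set a : ℕ → ℂ := fun n => (n.factorial : ℂ)⁻¹ • (z - 0) ^ n • iteratedDeriv n q 0 with ha
  have na : ∀ n, ‖a n‖ = (n.factorial : ℝ)⁻¹ * (‖z‖ ^ n * ‖iteratedDeriv n q 0‖) := by
    intro n
    simp only [ha, sub_zero, norm_smul, norm_inv, norm_pow, Complex.norm_natCast]
  have b1 : ∀ n, ‖a n‖ ≤ M * (ρ / R) ^ n := by
    intro n
    rw [na n]
    have hf : (0 : ℝ) < n.factorial := by exact_mod_cast n.factorial_pos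
    calc (n.factorial : ℝ)⁻¹ * (‖z‖ ^ n * ‖iteratedDeriv n q 0‖) ≤
        (n.factorial : ℝ)⁻¹ * (ρ ^ n * (n.factorial * M / R ^ n)) := by
          gcongr
          exact c1 n
      _ = M * (ρ / R) ^ n := by
          rw [div_pow]
          field_simp
  have b2 : ∀ n, ‖a n‖ ≤ m * (ρ / r) ^ n := by
    intro n
    rw [na n]
    have hf : (0 : ℝ) < n.factorial := by exact_mod_cast n.factorial_pos
    calc (n.factorial : ℝ)⁻¹ * (‖z‖ ^ n * ‖iteratedDeriv n q 0‖) ≤
        (n.factorial : ℝ)⁻¹ * (ρ ^ n * (n.factorial * m / r ^ n)) := by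
          gcongr
          exact c2 n
      _ = m * (ρ / r) ^ n := by
          rw [div_pow]
          field_simp
  have hsplit : q z = ∑ n ∈ Finset.range N, a n + ∑' n, a (n + N) := by
    rw [hsum.summable.sum_add_tsum_nat_add N]
    exact hsum.tsum_eq.symm
  rw [hsplit]
  refine (norm_add_le _ _).trans (add_le_add ?_ ?_)
  · refine (norm_sum_le _ _).trans ?_
    calc ∑ n ∈ Finset.range N, ‖a n‖ ≤ ∑ n ∈ Finset.range N, m * (ρ / r) ^ N := by
          refine Finset.sum_le_sum fun n hn => (b2 n).trans ?_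
          refine mul_le_mul_of_nonneg_left ?_ hm0
          exact pow_le_pow_right₀ ((one_le_div hr).2 hrρ) (Finset.mem_range.1 hn).le
      _ = N * m * (ρ / r) ^ N := by
          rw [Finset.sum_const, Finset.card_range, nsmul_eq_mul]; ring
  · have hg : HasSum (fun n : ℕ => M * (ρ / R) ^ N * (ρ / R) ^ n) (M * (ρ / R) ^ N * (1 - ρ / R)⁻¹) :=
      (hasSum_geometric_of_lt_one hθ0 hθ).mul_left _
    refine (tsum_of_norm_bounded hg ?_).trans (le_of_eq ?_)
    · intro n
      refine (b1 (n + N)).trans (le_of_eq ?_)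
      rw [pow_add]; ring
    · rw [div_eq_mul_inv]; ring

/-- Logarithms of zero-free functions of size `e^{O(L)}` which are bounded at one place. -/
lemma loc (A r R δ η : ℝ) (hA : 0 < A) (hr : 0 < r) (hδ : 0 < δ) (hrR : r < R - δ)
    (hη : 0 < η) :
    ∃ L0 : ℝ, ∀ L : ℝ, L0 ≤ L → ∀ h : ℂ → ℂ, DifferentiableOn ℂ h (ball 0 R) →
      (∀ z ∈ ball (0 : ℂ) R, h z ≠ 0) → (∀ z ∈ ball (0 : ℂ) R, ‖h z‖ ≤ Real.exp (A * L)) →
      (∀ z ∈ ball (0 : ℂ) r, Real.exp (-A) ≤ ‖h z‖ ∧ ‖h z‖ ≤ Real.exp A) →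
      ∃ q : ℂ → ℂ, DifferentiableOn ℂ q (ball 0 R) ∧ (∀ z ∈ ball (0 : ℂ) R, exp (q z) = h z) ∧
        ∀ z : ℂ, ‖z‖ ≤ R - δ → ‖q z‖ ≤ η * L := by
  have hR0 : 0 < R := by linarith
  set P : ℝ := A + 4 with hP
  have hP0 : 0 < P := by linarith
  -- bounds from Borel-Caratheodory
  set C1 : ℝ := 2 * A * R / (δ / 2) + P * (2 * R) / (δ / 2) with hC1
  set m : ℝ := 2 * A * r / (r / 2) + P * (2 * r) / (r / 2) with hm
  have hC10 : 0 < C1 := by positivity
  have hm0 : 0 < m := by positivity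
  set ρ := R - δ with hρ
  set R2 := R - δ / 2 with hR2
  have hR20 : 0 < R2 := by linarith
  have hθ : ρ / R2 < 1 := (div_lt_one hR20).2 (by linarith)
  have hρ0 : 0 < ρ := by linarith
  have hθ0 : 0 ≤ ρ / R2 := by positivity
  have h1θ : 0 < 1 - ρ / R2 := by linarith
  obtain ⟨N, hN⟩ : ∃ N : ℕ, C1 * ((ρ / R2) ^ N / (1 - ρ / R2)) ≤ η / 2 := by
    have h1 : Tendsto (fun N : ℕ => C1 * ((ρ / R2) ^ N / (1 - ρ / R2))) atTop
        (𝓝 (C1 * (0 / (1 - ρ / R2)))) :=
      ((tendsto_pow_atTop_nhds_zero_of_lt_one hθ0 hθ).div_const _).const_mul _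
    rw [zero_div, mul_zero] at h1
    exact (h1.eventually (ge_mem_nhds (show (0 : ℝ) < η / 2 by linarith))).exists
  refine ⟨max 1 (N * m * (ρ / (r / 2)) ^ N / (η / 2)), ?_⟩
  intro L hL h hd hne hub hlb
  have hL1 : 1 ≤ L := (le_max_left _ _).trans hL
  have hL2 : N * m * (ρ / (r / 2)) ^ N ≤ η / 2 * L := by
    have := (le_max_right 1 _).trans hL
    rw [div_le_iff₀ (by linarith)] at this
    linarith
  obtain ⟨q, hq, hqe, hq0⟩ := exists_log_ball hR0 hd hne
  refine ⟨q, hq, hqe, ?_⟩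
  have hre : ∀ z ∈ ball (0 : ℂ) R, Real.exp (q z).re = ‖h z‖ := by
    intro z hz
    rw [← hqe z hz, Complex.norm_exp]
  have n0 : ‖q 0‖ ≤ P := by
    have h00 : (0 : ℂ) ∈ ball (0 : ℂ) r := mem_ball_self hr
    have h1 := hlb 0 h00
    rw [← hre 0 (mem_ball_self hR0), Real.exp_le_exp, Real.exp_le_exp] at h1
    have h2 : |(q 0).re| ≤ A := abs_le.2 h1
    have h3 := Complex.norm_le_abs_re_add_abs_im (q 0)
    have h4 := Real.pi_le_four
    linarith
  have hAL : 0 < A * L := by positivity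
  have big : ∀ z : ℂ, ‖z‖ ≤ R2 → ‖q z‖ ≤ C1 * L := by
    intro z hz
    have hzR : ‖z‖ < R := by linarith
    have h1 := borelCaratheodory (z := z) hAL hq (fun w hw => by
      rw [mem_setOf_eq]
      have := hub w hw
      rw [← hre w hw, Real.exp_le_exp] at this
      exact this) hR0 (by rw [mem_ball_zero_iff]; exact hzR)
    have hden : δ / 2 ≤ R - ‖z‖ := by linarith
    have hδ2 : 0 < δ / 2 := by linarith
    calc ‖q z‖ ≤ 2 * (A * L) * ‖z‖ / (R - ‖z‖) + ‖q 0‖ * (R + ‖z‖) / (R - ‖z‖) := h1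
      _ ≤ 2 * (A * L) * R / (δ / 2) + P * (2 * R) / (δ / 2) := by
          gcongr
          linarith
      _ ≤ 2 * (A * L) * R / (δ / 2) + P * (2 * R) / (δ / 2) * L := by
          have : P * (2 * R) / (δ / 2) * 1 ≤ P * (2 * R) / (δ / 2) * L := by gcongr
          linarith
      _ = C1 * L := by rw [hC1]; ring
  have small : ∀ z : ℂ, ‖z‖ ≤ r / 2 → ‖q z‖ ≤ m := by
    intro z hz
    have h1 := borelCaratheodory (z := z) hA (hq.mono (ball_subset_ball (by linarith : r ≤ R)))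
      (fun w hw => by
      rw [mem_setOf_eq]
      have := (hlb w hw).2
      rw [← hre w (ball_subset_ball (by linarith) hw), Real.exp_le_exp] at this
      exact this) hr (by rw [mem_ball_zero_iff]; linarith)
    have hden : r / 2 ≤ r - ‖z‖ := by linarith
    calc ‖q z‖ ≤ 2 * A * ‖z‖ / (r - ‖z‖) + ‖q 0‖ * (r + ‖z‖) / (r - ‖z‖) := h1
      _ ≤ 2 * A * r / (r / 2) + P * (2 * r) / (r / 2) := by
          gcongr
          · linarith
          · linarith
      _ = m := by rw [hm]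
  intro z hz
  have h3 := three_circle (R₁ := R) (R := R2) (r := r / 2) (ρ := ρ) (M := C1 * L) (m := m)
    (by linarith) (by linarith) (by linarith) (by linarith) hq big small N z hz
  calc ‖q z‖ ≤ N * m * (ρ / (r / 2)) ^ N + C1 * L * ((ρ / R2) ^ N / (1 - ρ / R2)) := h3
    _ ≤ η / 2 * L + L * (C1 * ((ρ / R2) ^ N / (1 - ρ / R2))) := by
        have : C1 * L * ((ρ / R2) ^ N / (1 - ρ / R2)) = L * (C1 * ((ρ / R2) ^ N / (1 - ρ / R2))) := by
          ring
        linarith
    _ ≤ η / 2 * L + L * (η / 2) := by gcongr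
    _ = η * L := by ring

end Pool.Agent.Helper87.HF
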