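import Mathlib

set_option autoImplicit false

open Complex Set Filter Topology Metric MeasureTheory

namespace Pool.Agent.Helper87.HF

lemma deriv_bound {q : ℂ → ℂ} {R Q : ℝ} (hR : 0 < R)
    (hq : DifferentiableOn ℂ q (ball 0 R)) (hb : ∀ z ∈ ball (0 : ℂ) R, ‖q z‖ ≤ Q) {y : ℂ}
    (hy : ‖y‖ ≤ R / 4) : ‖deriv q y‖ ≤ 2 * Q / R := by
  have hsub : closedBall y (R / 2) ⊆ ball (0 : ℂ) R := by
    intro z hz
    rw [mem_closedBall, dist_eq_norm] at hz
    rw [mem_ball_zero_iff]
    have := norm_sub_norm_le z y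
    linarith
  have h1 := norm_deriv_le_of_forall_mem_sphere_norm_le (c := y) (R := R / 2) (C := Q) (f := q)
    (by linarith) ((hq.mono (by rw [closure_ball _ (by linarith)]; exact hsub)).diffContOnCl)
    (fun z hz => hb z (hsub (sphere_subset_closedBall hz)))
  refine h1.trans (le_of_eq ?_)
  field_simp

lemma deriv2_bound {q : ℂ → ℂ} {R Q : ℝ} (hR : 0 < R)
    (hq : DifferentiableOn ℂ q (ball 0 R)) (hb : ∀ z ∈ ball (0 : ℂ) R, ‖q z‖ ≤ Q) {y : ℂ}
    (hy : ‖y‖ ≤ R / 2) : ‖deriv (deriv q) y‖ ≤ 32 * Q / R ^ 2 := by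
  have hsub : closedBall y (R / 4) ⊆ ball (0 : ℂ) R := by
    intro z hz
    rw [mem_closedBall, dist_eq_norm] at hz
    rw [mem_ball_zero_iff]
    have := norm_sub_norm_le z y
    linarith
  have h1 := norm_iteratedDeriv_le_of_forall_mem_sphere_norm_le (c := y) (R := R / 4) (C := Q)
    (f := q) 2
    (by linarith) ((hq.mono (by rw [closure_ball _ (by linarith)]; exact hsub)).diffContOnCl)
    (fun z hz => hb z (hsub (sphere_subset_closedBall hz)))
  have e : iteratedDeriv 2 q = deriv (deriv q) := by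
    rw [iteratedDeriv_succ, iteratedDeriv_one]
  rw [e] at h1
  refine h1.trans (le_of_eq ?_)
  simp only [Nat.factorial]
  field_simp
  push_cast
  ring

/-- a critical point of `-y^2/t + q(y)` -/
lemma exists_saddle {q : ℂ → ℂ} {R Q t : ℝ} (hR : 0 < R) (ht : 0 < t) (hQ : 0 < Q)
    (hq : DifferentiableOn ℂ q (ball 0 R)) (hb : ∀ z ∈ ball (0 : ℂ) R, ‖q z‖ ≤ Q)
    (h1 : t * Q ≤ R ^ 2 / 200) :
    ∃ y : ℂ, ‖y‖ ≤ t * Q / R ∧ y = t / 2 * deriv q y := by
  have hs : ∀ y : ℂ, ‖y‖ ≤ R / 4 → ‖(t / 2 : ℂ) * deriv q y‖ ≤ t * Q / R := by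
    intro y hy
    rw [norm_mul]
    have e : ‖(t / 2 : ℂ)‖ = t / 2 := by
      rw [show (t / 2 : ℂ) = ((t / 2 : ℝ) : ℂ) by push_cast; rfl, Complex.norm_real,
        Real.norm_of_nonneg (by linarith)]
    rw [e]
    calc t / 2 * ‖deriv q y‖ ≤ t / 2 * (2 * Q / R) := by
          gcongr
          exact deriv_bound hR hq hb hy
      _ = _ := by field_simp
  have htQ : t * Q / R ≤ R / 4 := by
    rw [div_le_iff₀ hR]; nlinarith
  have hdd : DifferentiableOn ℂ (deriv q) (ball 0 R) := hq.deriv isOpen_ball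
  set s : Set ℂ := closedBall (0 : ℂ) (R / 4) with hsdef
  have hmaps : MapsTo (fun y : ℂ => (t / 2 : ℂ) * deriv q y) s s := by
    intro y hy
    rw [hsdef, mem_closedBall_zero_iff] at hy ⊢
    exact (hs y hy).trans htQ
  have hlip : ∀ x ∈ s, ∀ y ∈ s, ‖deriv q y - deriv q x‖ ≤ 32 * Q / R ^ 2 * ‖y - x‖ := by
    intro x hx y hy
    refine Convex.norm_image_sub_le_of_norm_deriv_le (𝕜 := ℂ) (s := s) ?_ ?_
      (convex_closedBall 0 (R / 4)) hx hy
    · intro z hz
      rw [hsdef, mem_closedBall_zero_iff] at hz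
      exact (hdd z (by rw [mem_ball_zero_iff]; linarith)).differentiableAt
        (isOpen_ball.mem_nhds (by rw [mem_ball_zero_iff]; linarith))
    · intro z hz
      rw [hsdef, mem_closedBall_zero_iff] at hz
      exact deriv2_bound hR hq hb (by linarith)
  have hcon : ContractingWith (1 / 2 : NNReal) (hmaps.restrict _ s s) := by
    refine ⟨by norm_num, ?_⟩
    refine LipschitzWith.of_dist_le_mul ?_
    rintro ⟨x, hx⟩ ⟨y, hy⟩
    rw [Subtype.dist_eq, Subtype.dist_eq]
    simp only [MapsTo.val_restrict_apply, dist_eq_norm]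
    rw [← mul_sub, norm_mul]
    have e : ‖(t / 2 : ℂ)‖ = t / 2 := by
      rw [show (t / 2 : ℂ) = ((t / 2 : ℝ) : ℂ) by push_cast; rfl, Complex.norm_real,
        Real.norm_of_nonneg (by linarith)]
    rw [e]
    calc t / 2 * ‖deriv q x - deriv q y‖ ≤ t / 2 * (32 * Q / R ^ 2 * ‖x - y‖) := by
          gcongr
          exact hlip y hy x hx
      _ = (16 * (t * Q) / R ^ 2) * ‖x - y‖ := by ring
      _ ≤ (1 / 2) * ‖x - y‖ := by
          refine mul_le_mul_of_nonneg_right ?_ (norm_nonneg _)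
          rw [div_le_iff₀ (by positivity)]
          nlinarith
      _ = _ := by push_cast; norm_num
  obtain ⟨y, hy, hfix, -⟩ := ContractingWith.exists_fixedPoint' (isCompact_closedBall (0 : ℂ) (R / 4)).isComplete
    hmaps hcon (x := 0) (by simp; linarith) (edist_ne_top _ _)
  have hfix' : (t / 2 : ℂ) * deriv q y = y := hfix
  refine ⟨y, ?_, hfix'.symm⟩
  rw [← hfix']
  rw [mem_closedBall_zero_iff] at hy
  exact hs y hy

lemma norm_exp_sub_one_le' (z : ℂ) : ‖exp z - 1‖ ≤ Real.exp ‖z‖ - 1 := by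
  have h1 : HasSum (fun n : ℕ => (z ^ (n + 1)) / ((n + 1).factorial : ℂ)) (exp z - 1) := by
    have h := NormedSpace.expSeries_div_hasSum_exp (𝔸 := ℂ) z
    rw [← Complex.exp_eq_exp_ℂ] at h
    have := (hasSum_nat_add_iff' 1).2 h
    simpa using this
  have h2 : HasSum (fun n : ℕ => (‖z‖ ^ (n + 1)) / ((n + 1).factorial : ℝ)) (Real.exp ‖z‖ - 1) := by
    have h := NormedSpace.expSeries_div_hasSum_exp (𝔸 := ℝ) ‖z‖
    rw [← Real.exp_eq_exp_ℝ] at h
    have := (hasSum_nat_add_iff' 1).2 h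
    simpa using this
  rw [← h1.tsum_eq]
  refine tsum_of_norm_bounded h2 fun n => ?_
  rw [norm_div, norm_pow, Complex.norm_natCast]

lemma gauss_int {t : ℝ} (ht : 0 < t) (α : ℝ) (hα : 0 < α) :
    Integrable (fun r : ℝ => Real.exp (-(α * r ^ 2 / t))) ∧
    ∫ r : ℝ, Real.exp (-(α * r ^ 2 / t)) = √(Real.pi * t / α) := by
  have e : (fun r : ℝ => Real.exp (-(α * r ^ 2 / t))) = fun r : ℝ => Real.exp (-(α / t) * r ^ 2) := by
    funext r; congr 1; ring
  constructor
  · rw [e]; exact integrable_exp_neg_mul_sq (by positivity)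
  · rw [e, integral_gaussian]
    congr 1
    field_simp

/-- The local part of the saddle point method. -/
lemma near {h q : ℂ → ℂ} {R Q t : ℝ} (hR : 0 < R) (ht : 0 < t) (hQ : 0 < Q)
    (hq : DifferentiableOn ℂ q (ball 0 R)) (hb : ∀ z ∈ ball (0 : ℂ) R, ‖q z‖ ≤ Q)
    (hh : ∀ z ∈ ball (0 : ℂ) R, exp (q z) = h z)
    (h1 : t * Q ≤ R ^ 2 / 200) (h2 : t ≤ R ^ 2 / 400) :
    ∃ y : ℂ, ‖y‖ ≤ t * Q / R ∧
      (1 / 2 * √(Real.pi * t) * Real.exp (-2 * Q) ≤
        ‖∫ r in (-(R / 4))..(R / 4), exp (-(y + r) ^ 2 / t) * h (y + r)‖) ∧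
      ‖∫ r in (-(R / 4))..(R / 4), exp (-(y + r) ^ 2 / t) * h (y + r)‖ ≤
        2 * √(Real.pi * t) * Real.exp (2 * Q) := by
  obtain ⟨y, hy, hfix⟩ := exists_saddle hR ht hQ hq hb h1
  refine ⟨y, hy, ?_⟩
  have htc : (t : ℂ) ≠ 0 := by exact_mod_cast ht.ne'
  have hyR : ‖y‖ ≤ R / 200 := by
    refine hy.trans ?_
    rw [div_le_iff₀ hR]; nlinarith
  have hdd : DifferentiableOn ℂ (deriv q) (ball 0 R) := hq.deriv isOpen_ball
  -- the remainder
  set ρ : ℝ → ℂ := fun r => q (y + r) - q y - deriv q y * r with hρdef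
  have hin : ∀ r : ℝ, |r| ≤ R / 4 → y + r ∈ ball (0 : ℂ) R := by
    intro r hr
    rw [mem_ball_zero_iff]
    have := norm_add_le y (r : ℂ)
    rw [Complex.norm_real, Real.norm_eq_abs] at this
    linarith
  have hρ : ∀ r : ℝ, |r| ≤ R / 4 → ‖ρ r‖ ≤ 4 / 25 * (r ^ 2 / t) := by
    intro r hr
    -- use the mean value inequality on the ball of radius |r| about y
    set s : Set ℂ := closedBall y |r| with hs
    have hsin : ∀ z ∈ s, ‖z‖ ≤ R / 2 := by
      intro z hz
      rw [hs, mem_closedBall, dist_eq_norm] at hz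
      have := norm_sub_norm_le z y
      linarith
    have hdq : ∀ z ∈ s, ‖deriv q z - deriv q y‖ ≤ 32 * Q / R ^ 2 * |r| := by
      intro z hz
      have h3 : ‖deriv q z - deriv q y‖ ≤ 32 * Q / R ^ 2 * ‖z - y‖ := by
        refine Convex.norm_image_sub_le_of_norm_deriv_le (𝕜 := ℂ) (s := s) ?_ ?_
          (convex_closedBall y |r|) (mem_closedBall_self (abs_nonneg _)) hz
        · intro w hw
          have := hsin w hw
          exact (hdd w (by rw [mem_ball_zero_iff]; linarith)).differentiableAt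
            (isOpen_ball.mem_nhds (by rw [mem_ball_zero_iff]; linarith))
        · intro w hw
          exact deriv2_bound hR hq hb (hsin w hw)
      refine h3.trans ?_
      have h4 : ‖z - y‖ ≤ |r| := by rw [← dist_eq_norm]; exact hz
      gcongr
    have hdqz : ∀ z ∈ s, DifferentiableAt ℂ q z := fun z hz => by
      have := hsin z hz
      exact (hq z (by rw [mem_ball_zero_iff]; linarith)).differentiableAt
        (isOpen_ball.mem_nhds (by rw [mem_ball_zero_iff]; linarith))
    set k : ℂ → ℂ := fun z => q z - deriv q y * z with hk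
    have h5 : ‖k (y + r) - k y‖ ≤ 32 * Q / R ^ 2 * |r| * ‖(y + r : ℂ) - y‖ := by
      refine Convex.norm_image_sub_le_of_norm_deriv_le (𝕜 := ℂ) (s := s) ?_ ?_
        (convex_closedBall y |r|) (mem_closedBall_self (abs_nonneg _)) ?_
      · intro w hw
        exact (hdqz w hw).sub ((differentiableAt_id).const_mul _)
      · intro w hw
        have e : deriv k w = deriv q w - deriv q y := by
          have := ((hdqz w hw).hasDerivAt.sub ((hasDerivAt_id w).const_mul (deriv q y))).deriv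
          rw [mul_one] at this
          exact this
        rw [e]
        exact hdq w hw
      · rw [hs, mem_closedBall, dist_eq_norm, add_sub_cancel_left, Complex.norm_real,
          Real.norm_eq_abs]
    have e6 : ρ r = k (y + r) - k y := by
      simp only [hρdef, hk]; ring
    rw [e6]
    refine h5.trans ?_
    rw [add_sub_cancel_left, Complex.norm_real, Real.norm_eq_abs]
    have e7 : 32 * Q / R ^ 2 * |r| * |r| = (32 * Q / R ^ 2 * t) * (r ^ 2 / t) := by
      rw [mul_assoc, ← abs_mul, ← sq, abs_of_nonneg (sq_nonneg r)]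
      field_simp
    rw [e7]
    refine mul_le_mul_of_nonneg_right ?_ (by positivity)
    rw [div_mul_eq_mul_div, div_le_iff₀ (by positivity)]
    nlinarith
  -- rewrite the integrand
  set φ0 : ℂ := -y ^ 2 / t + q y with hφ0
  have hint : ∀ r : ℝ, |r| ≤ R / 4 → exp (-(y + r) ^ 2 / t) * h (y + r) =
      exp φ0 * (exp (ρ r) * (Real.exp (-(1 * r ^ 2 / t)) : ℝ)) := by
    intro r hr
    rw [← hh _ (hin r hr), Complex.ofReal_exp, ← exp_add, ← exp_add, ← exp_add]
    congr 1
    have e8 : deriv q y = 2 * y / t := by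
      field_simp
      linear_combination -2 * hfix
    simp only [hρdef, hφ0, e8]
    push_cast
    field_simp
    ring
  have hmemabs : ∀ r ∈ Ioc (-(R / 4)) (R / 4), |r| ≤ R / 4 := by
    intro r hr
    exact abs_le.2 ⟨hr.1.le, hr.2⟩
  have hI : ∫ r in (-(R / 4))..(R / 4), exp (-(y + r) ^ 2 / t) * h (y + r) =
      exp φ0 * ∫ r in Ioc (-(R / 4)) (R / 4), exp (ρ r) * (Real.exp (-(1 * r ^ 2 / t)) : ℝ) := by
    rw [intervalIntegral.integral_of_le (by linarith), ← integral_const_mul]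
    refine setIntegral_congr_fun measurableSet_Ioc ?_
    intro r hr
    exact hint r (hmemabs r hr)
  -- compare with the Gaussian integral
  have hρc : ContinuousOn ρ (Icc (-(R / 4)) (R / 4)) := by
    have h3 : ContinuousOn (fun r : ℝ => q (y + r)) (Icc (-(R / 4)) (R / 4)) := by
      refine hq.continuousOn.comp (by fun_prop) ?_
      intro r hr
      exact hin r (abs_le.2 hr)
    exact (h3.sub continuousOn_const).sub (by fun_prop)
  set S := Ioc (-(R / 4)) (R / 4) with hS
  have i1 : IntegrableOn (fun r : ℝ => exp (ρ r) * (Real.exp (-(1 * r ^ 2 / t)) : ℝ)) S := by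
    refine (ContinuousOn.integrableOn_Icc ?_).mono_set Ioc_subset_Icc_self
    exact (hρc.cexp).mul (by fun_prop)
  obtain ⟨g1i, g1⟩ := gauss_int ht 1 one_pos
  obtain ⟨g2i, g2⟩ := gauss_int ht (21 / 25) (by norm_num)
  obtain ⟨g3i, g3⟩ := gauss_int ht (1 / 2) (by norm_num)
  have i2 : IntegrableOn (fun r : ℝ => ((Real.exp (-(1 * r ^ 2 / t)) : ℝ) : ℂ)) S :=
    g1i.ofReal.integrableOn
  set G : ℝ := √(Real.pi * t) with hG
  have hG0 : 0 < G := Real.sqrt_pos.2 (by positivity)
  have hG1 : √(Real.pi * t / 1) = G := by rw [div_one]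
  have hG2 : √(Real.pi * t / (21 / 25)) ≤ 11 / 10 * G := by
    rw [Real.sqrt_le_left (by positivity), mul_pow, hG, Real.sq_sqrt (by positivity)]
    have : 0 < Real.pi * t := by positivity
    rw [div_le_iff₀ (by norm_num)]
    nlinarith
  have hG3 : √(Real.pi * t / (1 / 2)) ≤ 3 / 2 * G := by
    rw [Real.sqrt_le_left (by positivity), mul_pow, hG, Real.sq_sqrt (by positivity)]
    have : 0 < Real.pi * t := by positivity
    rw [div_le_iff₀ (by norm_num)]
    nlinarith
  -- tail
  have htail : G - 1 / 10 * G ≤ ∫ r in S, Real.exp (-(1 * r ^ 2 / t)) := by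
    have h3 : ∫ r in Sᶜ, Real.exp (-(1 * r ^ 2 / t)) ≤ 1 / 10 * G := by
      calc ∫ r in Sᶜ, Real.exp (-(1 * r ^ 2 / t)) ≤
          ∫ r in Sᶜ, Real.exp (-12) * Real.exp (-(1 / 2 * r ^ 2 / t)) := by
            refine setIntegral_mono_on g1i.integrableOn (g3i.const_mul _).integrableOn
              measurableSet_Ioc.compl ?_
            intro r hr
            rw [← Real.exp_add, Real.exp_le_exp]
            have hr2 : (R / 4) ^ 2 ≤ r ^ 2 := by
              rw [hS, mem_compl_iff, mem_Ioc, not_and_or, not_lt, not_le] at hr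
              rcases hr with h | h
              · nlinarith
              · nlinarith
            have h4 : 24 ≤ r ^ 2 / t := by
              rw [le_div_iff₀ ht]
              nlinarith
            have e9 : 1 * r ^ 2 / t = r ^ 2 / t := by ring
            have e10 : 1 / 2 * r ^ 2 / t = (r ^ 2 / t) / 2 := by ring
            rw [e9, e10]
            linarith
        _ ≤ ∫ r : ℝ, Real.exp (-12) * Real.exp (-(1 / 2 * r ^ 2 / t)) := by
            refine setIntegral_le_integral (g3i.const_mul _) ?_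
            exact Eventually.of_forall fun r => by positivity
        _ = Real.exp (-12) * √(Real.pi * t / (1 / 2)) := by
            rw [integral_const_mul, g3]
        _ ≤ (1 / 15) * (3 / 2 * G) := by
            gcongr
            rw [Real.exp_neg]
            have : (15 : ℝ) ≤ Real.exp 12 := by
              have := Real.add_one_le_exp (6 : ℝ)
              have h2 : Real.exp 12 = Real.exp 6 * Real.exp 6 := by rw [← Real.exp_add]; norm_num
              rw [h2]; nlinarith
            rw [inv_le_comm₀ (Real.exp_pos _) (by norm_num)]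
            norm_num
            exact this
        _ = _ := by ring
    have h4 := integral_add_compl (s := S) measurableSet_Ioc g1i
    rw [g1, hG1] at h4
    linarith
  have hle : ∫ r in S, Real.exp (-(1 * r ^ 2 / t)) ≤ G := by
    rw [← hG1, ← g1]
    exact setIntegral_le_integral g1i (Eventually.of_forall fun r => by positivity)
  have hdiff : ‖(∫ r in S, exp (ρ r) * (Real.exp (-(1 * r ^ 2 / t)) : ℝ)) -
      ∫ r in S, ((Real.exp (-(1 * r ^ 2 / t)) : ℝ) : ℂ)‖ ≤ 1 / 10 * G := by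
    rw [← integral_sub i1 i2]
    calc ‖∫ r in S, (exp (ρ r) * (Real.exp (-(1 * r ^ 2 / t)) : ℝ) -
          ((Real.exp (-(1 * r ^ 2 / t)) : ℝ) : ℂ))‖ ≤
        ∫ r in S, (Real.exp (-(21 / 25 * r ^ 2 / t)) - Real.exp (-(1 * r ^ 2 / t))) := by
          refine norm_integral_le_of_norm_le (g2i.sub g1i).integrableOn ?_
          filter_upwards [ae_restrict_mem measurableSet_Ioc] with r hr
          have e11 : exp (ρ r) * (Real.exp (-(1 * r ^ 2 / t)) : ℝ) -
            ((Real.exp (-(1 * r ^ 2 / t)) : ℝ) : ℂ) =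
            (exp (ρ r) - 1) * ((Real.exp (-(1 * r ^ 2 / t)) : ℝ) : ℂ) := by ring
          rw [e11, norm_mul, Complex.norm_real, Real.norm_of_nonneg (Real.exp_pos _).le]
          have h5 := norm_exp_sub_one_le' (ρ r)
          have h6 := hρ r (hmemabs r hr)
          have h7 : Real.exp ‖ρ r‖ ≤ Real.exp (4 / 25 * (r ^ 2 / t)) := Real.exp_le_exp.2 h6
          calc ‖exp (ρ r) - 1‖ * Real.exp (-(1 * r ^ 2 / t)) ≤
              (Real.exp (4 / 25 * (r ^ 2 / t)) - 1) * Real.exp (-(1 * r ^ 2 / t)) := by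
                gcongr; linarith
            _ = _ := by
                have e12 : Real.exp (4 / 25 * (r ^ 2 / t)) * Real.exp (-(1 * r ^ 2 / t)) =
                    Real.exp (-(21 / 25 * r ^ 2 / t)) := by
                  rw [← Real.exp_add]; congr 1; ring
                rw [sub_mul, e12, one_mul]
      _ ≤ ∫ r : ℝ, (Real.exp (-(21 / 25 * r ^ 2 / t)) - Real.exp (-(1 * r ^ 2 / t))) := by
          refine setIntegral_le_integral (g2i.sub g1i) ?_
          refine Eventually.of_forall fun r => ?_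
          simp only [Pi.zero_apply, sub_nonneg]
          rw [Real.exp_le_exp]
          have : 0 ≤ r ^ 2 / t := by positivity
          have e9 : 1 * r ^ 2 / t = r ^ 2 / t := by ring
          have e10 : 21 / 25 * r ^ 2 / t = 21 / 25 * (r ^ 2 / t) := by ring
          rw [e9, e10]
          linarith
      _ = √(Real.pi * t / (21 / 25)) - G := by
          rw [integral_sub g2i g1i, g1, g2, hG1]
      _ ≤ 1 / 10 * G := by linarith
  have hS2 : ∫ r in S, ((Real.exp (-(1 * r ^ 2 / t)) : ℝ) : ℂ) =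
      ((∫ r in S, Real.exp (-(1 * r ^ 2 / t)) : ℝ) : ℂ) := integral_ofReal
  rw [hS2] at hdiff
  have hpos : 0 ≤ ∫ r in S, Real.exp (-(1 * r ^ 2 / t)) := integral_nonneg fun r => by positivity
  have hlow : 4 / 5 * G ≤ ‖∫ r in S, exp (ρ r) * (Real.exp (-(1 * r ^ 2 / t)) : ℝ)‖ := by
    have h5 := norm_sub_norm_le (((∫ r in S, Real.exp (-(1 * r ^ 2 / t)) : ℝ) : ℂ))
      (∫ r in S, exp (ρ r) * (Real.exp (-(1 * r ^ 2 / t)) : ℝ))
    rw [norm_sub_rev, Complex.norm_real, Real.norm_of_nonneg hpos] at h5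
    linarith
  have hup : ‖∫ r in S, exp (ρ r) * (Real.exp (-(1 * r ^ 2 / t)) : ℝ)‖ ≤ 11 / 10 * G := by
    have h5 := norm_sub_norm_le (∫ r in S, exp (ρ r) * (Real.exp (-(1 * r ^ 2 / t)) : ℝ))
      (((∫ r in S, Real.exp (-(1 * r ^ 2 / t)) : ℝ) : ℂ))
    rw [Complex.norm_real, Real.norm_of_nonneg hpos] at h5
    linarith
  -- size of exp φ0
  have hy2 : ‖(-y ^ 2 / t : ℂ)‖ ≤ Q := by
    rw [norm_div, norm_neg, norm_pow, Complex.norm_real, Real.norm_of_nonneg ht.le, div_le_iff₀ ht]
    calc ‖y‖ ^ 2 ≤ (t * Q / R) ^ 2 := by gcongr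
      _ = (t * Q) * (t * Q) / R ^ 2 := by ring
      _ ≤ (t * Q) * (R ^ 2 / 200) / R ^ 2 := by gcongr
      _ = t * Q / 200 := by field_simp
      _ ≤ Q * t := by nlinarith [mul_pos ht hQ]
  have hqy : ‖q y‖ ≤ Q := hb y (by rw [mem_ball_zero_iff]; linarith)
  have hφ : ‖φ0‖ ≤ 2 * Q := by
    rw [hφ0]
    refine (norm_add_le _ _).trans (by linarith)
  have hre := (Complex.abs_re_le_norm φ0).trans hφ
  rw [abs_le] at hre
  rw [hI, norm_mul, Complex.norm_exp]
  constructor
  · calc 1 / 2 * G * Real.exp (-2 * Q) ≤ Real.exp φ0.re * (4 / 5 * G) := by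
          have : Real.exp (-2 * Q) ≤ Real.exp φ0.re := Real.exp_le_exp.2 (by linarith [hre.1])
          nlinarith [mul_pos hG0 (Real.exp_pos φ0.re), mul_le_mul_of_nonneg_left this hG0.le]
      _ ≤ _ := by gcongr
  · calc Real.exp φ0.re * ‖∫ r in S, exp (ρ r) * (Real.exp (-(1 * r ^ 2 / t)) : ℝ)‖ ≤
        Real.exp (2 * Q) * (11 / 10 * G) := by
          gcongr
          exact hre.2
      _ ≤ _ := by
          have := Real.exp_pos (2 * Q)
          nlinarith [mul_pos this hG0]

end Pool.Agent.Helper87.HF
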