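import Pool.Agent.Helper87.HF.Abs3

set_option autoImplicit false

open Complex Set Filter Topology Metric MeasureTheory

namespace Pool.Agent.Helper87.HF

/-- unnormalised Gaussian average -/
noncomputable def GT (t : ℝ) (h : ℂ → ℂ) (c : ℂ) : ℂ :=
  ∫ x : ℝ, exp (-(x : ℂ) ^ 2 / t) * h (c + x)

lemma norm_gauss0 {t : ℝ} (x : ℝ) : ‖exp (-(x : ℂ) ^ 2 / t)‖ = Real.exp (-x ^ 2 / t) := by
  rw [show (-(x : ℂ) ^ 2 / t) = ((-x ^ 2 / t : ℝ) : ℂ) by push_cast; ring, ← Complex.ofReal_exp,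
    Complex.norm_real, Real.norm_of_nonneg (Real.exp_pos _).le]

lemma gauss_le {t : ℝ} (ht : 0 < t) (ht2 : t ≤ 1 / 40) (x : ℝ) :
    -x ^ 2 / t ≤ -(40 * x ^ 2) := by
  rw [div_le_iff₀ ht]
  nlinarith [sq_nonneg x]

lemma growth_shift {h : ℂ → ℂ} {C : ℝ} (hg : ∀ s : ℂ, ‖h s‖ ≤ C * Real.exp (4 * ‖s‖ ^ 2))
    (c z : ℂ) : ‖h (c + z)‖ ≤ C * Real.exp (8 * ‖c‖ ^ 2) * Real.exp (8 * ‖z‖ ^ 2) := by
  have hC : 0 ≤ C := by
    have := (norm_nonneg _).trans (hg 0)
    exact nonneg_of_mul_nonneg_left this (Real.exp_pos _)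
  refine (hg _).trans ?_
  rw [mul_assoc, ← Real.exp_add]
  refine mul_le_mul_of_nonneg_left (Real.exp_le_exp.2 ?_) hC
  have h1 : ‖c + z‖ ^ 2 ≤ (‖c‖ + ‖z‖) ^ 2 := by
    gcongr; exact norm_add_le _ _
  nlinarith [sq_nonneg (‖c‖ - ‖z‖)]

lemma int_gauss (A : ℝ) (hA : 0 < A) : Integrable (fun x : ℝ => Real.exp (-(A * x ^ 2))) := by
  have := integrable_exp_neg_mul_sq hA
  simpa using this

lemma GT_integrable {t C : ℝ} {h : ℂ → ℂ} (ht : 0 < t) (ht2 : t ≤ 1 / 40) (hh : Differentiable ℂ h)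
    (hg : ∀ s : ℂ, ‖h s‖ ≤ C * Real.exp (4 * ‖s‖ ^ 2)) (c : ℂ) :
    Integrable (fun x : ℝ => exp (-(x : ℂ) ^ 2 / t) * h (c + x)) := by
  refine ((int_gauss 32 (by norm_num)).const_mul (C * Real.exp (8 * ‖c‖ ^ 2))).mono' ?_ ?_
  · exact (Continuous.mul (by fun_prop) (hh.continuous.comp (by fun_prop))).aestronglyMeasurable
  · refine Eventually.of_forall fun x => ?_
    rw [norm_mul, norm_gauss0]
    have h1 := growth_shift hg c x
    rw [Complex.norm_real, Real.norm_eq_abs, sq_abs] at h1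
    have hC : 0 ≤ C * Real.exp (8 * ‖c‖ ^ 2) := by
      have := (norm_nonneg _).trans h1
      exact nonneg_of_mul_nonneg_left this (Real.exp_pos _)
    calc Real.exp (-x ^ 2 / t) * ‖h (c + x)‖ ≤ Real.exp (-(40 * x ^ 2)) *
        (C * Real.exp (8 * ‖c‖ ^ 2) * Real.exp (8 * x ^ 2)) := by
          gcongr
          exact gauss_le ht ht2 x
      _ = C * Real.exp (8 * ‖c‖ ^ 2) * (Real.exp (-(40 * x ^ 2)) * Real.exp (8 * x ^ 2)) := by ring
      _ = _ := by rw [← Real.exp_add]; congr 2; ring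

lemma growth_deriv {h : ℂ → ℂ} {C : ℝ} (hh : Differentiable ℂ h)
    (hg : ∀ s : ℂ, ‖h s‖ ≤ C * Real.exp (4 * ‖s‖ ^ 2)) (s : ℂ) :
    ‖deriv h s‖ ≤ C * Real.exp 8 * Real.exp (8 * ‖s‖ ^ 2) := by
  have hC : 0 ≤ C := by
    have := (norm_nonneg _).trans (hg 0)
    exact nonneg_of_mul_nonneg_left this (Real.exp_pos _)
  have h1 := norm_deriv_le_of_forall_mem_sphere_norm_le (c := s) (R := 1)
    (C := C * Real.exp 8 * Real.exp (8 * ‖s‖ ^ 2)) (f := h) one_pos hh.diffContOnCl (fun z hz => by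
      have h2 := growth_shift hg s (z - s)
      have h3 : ‖z - s‖ = 1 := by rw [← dist_eq_norm]; exact hz
      rw [add_sub_cancel, h3] at h2
      refine h2.trans (le_of_eq ?_)
      rw [one_pow, mul_one]; ring)
  rwa [div_one] at h1

lemma GT_diff {t C : ℝ} {h : ℂ → ℂ} (ht : 0 < t) (ht2 : t ≤ 1 / 40) (hh : Differentiable ℂ h)
    (hg : ∀ s : ℂ, ‖h s‖ ≤ C * Real.exp (4 * ‖s‖ ^ 2)) : Differentiable ℂ (GT t h) := by
  intro c0
  have hC : 0 ≤ C := by
    have := (norm_nonneg _).trans (hg 0)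
    exact nonneg_of_mul_nonneg_left this (Real.exp_pos _)
  have hdc : Continuous (deriv h) := (hh.contDiff (n := 1)).continuous_deriv_one
  have key := hasDerivAt_integral_of_dominated_loc_of_deriv_le (μ := volume)
    (F := fun (c : ℂ) (x : ℝ) => exp (-(x : ℂ) ^ 2 / t) * h (c + x))
    (F' := fun (c : ℂ) (x : ℝ) => exp (-(x : ℂ) ^ 2 / t) * deriv h (c + x))
    (x₀ := c0) (s := ball c0 1)
    (bound := fun x : ℝ => C * Real.exp 8 * Real.exp (16 * (‖c0‖ + 1) ^ 2) * Real.exp (-(24 * x ^ 2)))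
    (ball_mem_nhds _ one_pos) ?_ (GT_integrable ht ht2 hh hg c0) ?_ ?_ ?_ ?_
  · exact key.2.differentiableAt
  · refine Eventually.of_forall fun c => ?_
    exact (Continuous.mul (by fun_prop) (hh.continuous.comp (by fun_prop))).aestronglyMeasurable
  · exact (Continuous.mul (by fun_prop) (hdc.comp (by fun_prop))).aestronglyMeasurable
  · refine Eventually.of_forall fun x c hc => ?_
    rw [norm_mul, norm_gauss0]
    have h1 := growth_deriv hh hg (c + x)
    have hcn : ‖c‖ ≤ ‖c0‖ + 1 := by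
      rw [mem_ball, dist_eq_norm] at hc
      have := norm_sub_norm_le c c0
      linarith
    have h2 : ‖c + x‖ ^ 2 ≤ 2 * (‖c0‖ + 1) ^ 2 + 2 * x ^ 2 := by
      have h3 : ‖c + x‖ ≤ (‖c0‖ + 1) + |x| := by
        refine (norm_add_le _ _).trans ?_
        rw [Complex.norm_real, Real.norm_eq_abs]
        linarith
      have h4 : ‖c + x‖ ^ 2 ≤ ((‖c0‖ + 1) + |x|) ^ 2 := by gcongr
      have h5 : |x| ^ 2 = x ^ 2 := sq_abs x
      nlinarith [sq_nonneg ((‖c0‖ + 1) - |x|)]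
    calc Real.exp (-x ^ 2 / t) * ‖deriv h (c + x)‖ ≤ Real.exp (-(40 * x ^ 2)) *
        (C * Real.exp 8 * Real.exp (8 * (2 * (‖c0‖ + 1) ^ 2 + 2 * x ^ 2))) := by
          gcongr
          · exact gauss_le ht ht2 x
          · refine h1.trans ?_
            gcongr
      _ = C * Real.exp 8 * (Real.exp (-(40 * x ^ 2)) *
          Real.exp (8 * (2 * (‖c0‖ + 1) ^ 2 + 2 * x ^ 2))) := by ring
      _ = C * Real.exp 8 * (Real.exp (16 * (‖c0‖ + 1) ^ 2) * Real.exp (-(24 * x ^ 2))) := by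
          rw [← Real.exp_add, ← Real.exp_add]; congr 2; ring
      _ = _ := by ring
  · exact (int_gauss 24 (by norm_num)).const_mul _
  · refine Eventually.of_forall fun x c _ => ?_
    have h1 : HasDerivAt (fun c : ℂ => h (c + x)) (deriv h (c + x)) c := by
      have := (hh (c + x)).hasDerivAt.comp_add_const c (x : ℂ)
      exact this
    exact h1.const_mul _

/-- full line saddle point bound -/
lemma L_bound {h q : ℂ → ℂ} {R Q t C E : ℝ} (hh : Differentiable ℂ h)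
    (hg : ∀ s : ℂ, ‖h s‖ ≤ C * Real.exp (4 * ‖s‖ ^ 2))
    (ht : 0 < t) (ht2 : t ≤ 1 / 40) (hR : 0 < R) (hR1 : R ≤ 1) (hQ : 0 < Q)
    (hq : DifferentiableOn ℂ q (ball 0 R)) (hb : ∀ z ∈ ball (0 : ℂ) R, ‖q z‖ ≤ Q)
    (hqh : ∀ z ∈ ball (0 : ℂ) R, exp (q z) = h z)
    (h1 : t * Q ≤ R ^ 2 / 200) (h2 : t ≤ R ^ 2 / 400)
    (hE : E ≤ √t * Real.exp (-3 * Q) / 20)
    (far : ∀ s : ℂ, R / 5 ≤ |s.re| → |s.im| ≤ R →
      ‖h s‖ ≤ E * Real.exp (s.re ^ 2 / t - |s.re|)) :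
    1 / 4 * √(Real.pi * t) * Real.exp (-2 * Q) ≤ ‖∫ x : ℝ, exp (-(x : ℂ) ^ 2 / t) * h x‖ := by
  have hC : 0 ≤ C := by
    have := (norm_nonneg _).trans (hg 0)
    exact nonneg_of_mul_nonneg_left this (Real.exp_pos _)
  have hint : Integrable (fun x : ℝ => exp (-(x : ℂ) ^ 2 / t) * h x) := by
    have := GT_integrable ht ht2 hh hg 0
    simpa using this
  have hN : ∀ N : ℕ, 1 / 4 * √(Real.pi * t) * Real.exp (-2 * Q) ≤
      ‖∫ x in Ioi (-((N : ℝ) + 1)), exp (-(x : ℂ) ^ 2 / t) * h x‖ := by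
    intro N
    set M : ℝ := (N : ℝ) + 1 with hM
    have hM1 : 1 ≤ M := by rw [hM]; linarith [(Nat.cast_nonneg N : (0 : ℝ) ≤ N)]
    have h3 := (J_bound (h := fun s => h (s - M)) (q := q) (R := R) (Q := Q) (t := t)
      (Cg := C * Real.exp 4 * Real.exp (4 * M ^ 2)) (E := E) (c := (M : ℂ))
      (hh.comp (by fun_prop)) ?_ ht (by linarith) hR hR1 hQ hq hb ?_ ?_ ?_ h1 h2 hE ?_).1
    · have e1 : ∫ x in Ioi (-M), exp (-(x : ℂ) ^ 2 / t) * h x =
          ∫ x in Ioi (0 : ℝ), exp (-((x : ℂ) - M) ^ 2 / t) * h (x - M) := by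
        have h5 : ∀ x : ℝ, exp (-((x : ℂ) - M) ^ 2 / t) * h (x - M) =
            (fun x : ℝ => exp (-(x : ℂ) ^ 2 / t) * h x) (x - M) := by
          intro x; simp only [Complex.ofReal_sub]
        simp_rw [h5]
        have h6 := (measurePreserving_sub_right (volume : Measure ℝ) M).setIntegral_preimage_emb
          (MeasurableEquiv.subRight M).measurableEmbedding
          (fun x : ℝ => exp (-(x : ℂ) ^ 2 / t) * h x) (Ioi (-M))
        rw [← h6]
        congr 2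
        ext x
        simp
      rw [e1]
      exact h3
    · intro s hs0 hs1
      refine (hg _).trans ?_
      rw [mul_assoc, mul_assoc, ← Real.exp_add, ← Real.exp_add]
      refine mul_le_mul_of_nonneg_left (Real.exp_le_exp.2 ?_) hC
      have e2 : ‖s - (M : ℂ)‖ ^ 2 = (s.re - M) ^ 2 + s.im ^ 2 := by
        rw [← Complex.normSq_eq_norm_sq, Complex.normSq_apply]
        simp only [sub_re, ofReal_re, sub_im, ofReal_im, sub_zero]
        ring
      rw [e2]
      have h4 : s.im ^ 2 ≤ 1 := by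
        rw [← sq_abs]; nlinarith [abs_nonneg s.im]
      nlinarith [mul_nonneg hs0 (zero_le_one.trans hM1)]
    · intro z hz
      rw [hqh z hz]
      congr 1
      ring
    · rw [Complex.ofReal_re]; linarith
    · rw [Complex.ofReal_im, abs_zero]; exact ht.le
    · intro s hs0 hs1 hs2
      rw [Complex.ofReal_re] at hs1
      rw [Complex.ofReal_im, sub_zero] at hs2
      have h4 := far (s - M) (by simpa using hs1) (by simpa using hs2)
      simpa using h4
  have hlim : Tendsto (fun N : ℕ => ‖∫ x in Ioi (-((N : ℝ) + 1)), exp (-(x : ℂ) ^ 2 / t) * h x‖) atTop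
      (𝓝 ‖∫ x : ℝ, exp (-(x : ℂ) ^ 2 / t) * h x‖) := by
    refine Tendsto.norm ?_
    have h4 := tendsto_setIntegral_of_monotone (μ := volume)
      (s := fun N : ℕ => Ioi (-((N : ℝ) + 1))) (f := fun x : ℝ => exp (-(x : ℂ) ^ 2 / t) * h x)
      (fun _ => measurableSet_Ioi) ?_ hint.integrableOn
    · have h5 : (⋃ N : ℕ, Ioi (-((N : ℝ) + 1))) = (univ : Set ℝ) := by
        rw [eq_univ_iff_forall]
        intro x
        obtain ⟨n, hn⟩ := exists_nat_gt (-x)
        rw [mem_iUnion]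
        exact ⟨n, by rw [mem_Ioi]; linarith⟩
      rw [h5, setIntegral_univ] at h4
      exact h4
    · intro a b hab
      simp only
      apply Ioi_subset_Ioi
      have : (a : ℝ) ≤ b := by exact_mod_cast hab
      linarith
  exact ge_of_tendsto' hlim hN

end Pool.Agent.Helper87.HF
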