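import Pool.Agent.Helper87.HF.Abs4

set_option autoImplicit false

open Complex Set Filter Topology Metric MeasureTheory

namespace Pool.Agent.Helper87.HF

lemma mean_angle {h : ℂ → ℂ} (hh : Differentiable ℂ h) (s : ℂ) (r : ℝ) :
    ∫ θ in Ioo (-Real.pi) Real.pi, h (s + Complex.polarCoord.symm (r, θ)) = 2 * Real.pi * h s := by
  have h1 := (hh.diffContOnCl (s := ball s |r|)).circleAverage
  rw [Real.circleAverage_eq_integral_add (-Real.pi)] at h1
  have h2 := intervalIntegral.integral_comp_add_right (fun θ : ℝ => h (circleMap s r θ)) (-Real.pi)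
    (a := 0) (b := 2 * Real.pi)
  rw [h2, zero_add, show 2 * Real.pi + -Real.pi = Real.pi by ring,
    intervalIntegral.integral_of_le (by linarith [Real.pi_pos]),
    integral_Ioc_eq_integral_Ioo] at h1
  have h3 : ∀ θ : ℝ, s + Complex.polarCoord.symm (r, θ) = circleMap s r θ := by
    intro θ
    rw [Complex.polarCoord_symm_apply, circleMap, Complex.exp_mul_I, Complex.ofReal_cos,
      Complex.ofReal_sin]
  simp_rw [h3]
  rw [← h1, Complex.real_smul]
  have : (Real.pi : ℂ) ≠ 0 := by exact_mod_cast Real.pi_ne_zero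
  push_cast
  field_simp

lemma gauss_plane_int {t C : ℝ} {h : ℂ → ℂ} (ht : 0 < t) (ht2 : t ≤ 1 / 40)
    (hh : Differentiable ℂ h) (hg : ∀ s : ℂ, ‖h s‖ ≤ C * Real.exp (4 * ‖s‖ ^ 2)) (s : ℂ) :
    Integrable (fun z : ℂ => ((Real.exp (-‖z‖ ^ 2 / t) : ℝ) : ℂ) * h (s + z)) := by
  have e1 : Integrable (fun p : ℝ × ℝ => Real.exp (-(32 * p.1 ^ 2)) * Real.exp (-(32 * p.2 ^ 2))) :=
    (int_gauss 32 (by norm_num)).mul_prod (int_gauss 32 (by norm_num))
  have e2 : Integrable (fun z : ℂ => Real.exp (-(32 * z.re ^ 2)) * Real.exp (-(32 * z.im ^ 2))) := by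
    have := (Complex.volume_preserving_equiv_real_prod.integrable_comp_emb
      Complex.measurableEquivRealProd.measurableEmbedding).2 e1
    exact this
  refine (e2.const_mul (C * Real.exp (8 * ‖s‖ ^ 2))).mono' ?_ ?_
  · refine Continuous.aestronglyMeasurable ?_
    exact Continuous.mul (by fun_prop) (hh.continuous.comp (by fun_prop))
  · refine Eventually.of_forall fun z => ?_
    rw [norm_mul, Complex.norm_real, Real.norm_of_nonneg (Real.exp_pos _).le]
    have h1 := growth_shift hg s z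
    have hC : 0 ≤ C * Real.exp (8 * ‖s‖ ^ 2) := by
      have := (norm_nonneg _).trans h1
      exact nonneg_of_mul_nonneg_left this (Real.exp_pos _)
    have e3 : ‖z‖ ^ 2 = z.re ^ 2 + z.im ^ 2 := by
      rw [← Complex.normSq_eq_norm_sq, Complex.normSq_apply]; ring
    calc Real.exp (-‖z‖ ^ 2 / t) * ‖h (s + z)‖ ≤ Real.exp (-(40 * ‖z‖ ^ 2)) *
        (C * Real.exp (8 * ‖s‖ ^ 2) * Real.exp (8 * ‖z‖ ^ 2)) := by
          gcongr
          exact gauss_le ht ht2 _
      _ = C * Real.exp (8 * ‖s‖ ^ 2) * (Real.exp (-(40 * ‖z‖ ^ 2)) * Real.exp (8 * ‖z‖ ^ 2)) := by ring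
      _ = _ := by rw [← Real.exp_add, ← Real.exp_add, e3]; congr 2; ring

lemma radial_int {t : ℝ} (ht : 0 < t) :
    ∫ r in Ioi (0 : ℝ), r * Real.exp (-r ^ 2 / t) = t / 2 := by
  have h1 := integral_mul_cexp_neg_mul_sq (b := ((1 / t : ℝ) : ℂ)) (by simpa using ht)
  have h2 : ∫ r in Ioi (0 : ℝ), ((r * Real.exp (-r ^ 2 / t) : ℝ) : ℂ) = ((t / 2 : ℝ) : ℂ) := by
    have e : ∀ r : ℝ, ((r * Real.exp (-r ^ 2 / t) : ℝ) : ℂ) =
        (r : ℂ) * exp (-((1 / t : ℝ) : ℂ) * (r : ℂ) ^ 2) := by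
      intro r
      push_cast
      congr 2
      ring
    simp_rw [e]
    rw [h1]
    have htc : (t : ℂ) ≠ 0 := by exact_mod_cast ht.ne'
    push_cast
    field_simp
  have h3 : ∫ r in Ioi (0 : ℝ), ((r * Real.exp (-r ^ 2 / t) : ℝ) : ℂ) =
      ((∫ r in Ioi (0 : ℝ), r * Real.exp (-r ^ 2 / t) : ℝ) : ℂ) := integral_ofReal
  rw [h3] at h2
  exact_mod_cast h2

/-- two-dimensional Gaussian mean value property -/
lemma gauss_plane {t C : ℝ} {h : ℂ → ℂ} (ht : 0 < t) (ht2 : t ≤ 1 / 40)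
    (hh : Differentiable ℂ h) (hg : ∀ s : ℂ, ‖h s‖ ≤ C * Real.exp (4 * ‖s‖ ^ 2)) (s : ℂ) :
    ∫ z : ℂ, ((Real.exp (-‖z‖ ^ 2 / t) : ℝ) : ℂ) * h (s + z) = Real.pi * t * h s := by
  have hi := gauss_plane_int ht ht2 hh hg s
  rw [← Complex.integral_comp_polarCoord_symm]
  have htar : polarCoord.target = Ioi (0 : ℝ) ×ˢ Ioo (-Real.pi) Real.pi := rfl
  have hi2 : IntegrableOn (fun p : ℝ × ℝ => p.1 • (((Real.exp (-‖Complex.polarCoord.symm p‖ ^ 2 / t) : ℝ) : ℂ) *
      h (s + Complex.polarCoord.symm p))) (Ioi (0 : ℝ) ×ˢ Ioo (-Real.pi) Real.pi) := by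
    have hC : 0 ≤ C := by
      have := (norm_nonneg _).trans (hg 0)
      exact nonneg_of_mul_nonneg_left this (Real.exp_pos _)
    have hsymm : ∀ p : ℝ × ℝ, Complex.polarCoord.symm p = p.1 * (Real.cos p.2 + Real.sin p.2 * I) :=
      fun p => Complex.polarCoord_symm_apply p
    have hcont : Continuous (fun p : ℝ × ℝ => Complex.polarCoord.symm p) := by
      simp_rw [hsymm]
      fun_prop
    have b1 : Integrable (fun r : ℝ => C * Real.exp (8 * ‖s‖ ^ 2) * (r * Real.exp (-32 * r ^ 2)))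
        (volume.restrict (Ioi 0)) :=
      ((integrable_mul_exp_neg_mul_sq (b := 32) (by norm_num)).const_mul _).restrict
    have b2 : Integrable (fun _ : ℝ => (1 : ℝ)) (volume.restrict (Ioo (-Real.pi) Real.pi)) := by
      have := integrableOn_const (μ := volume) (s := Ioo (-Real.pi) Real.pi) (C := (1 : ℝ))
        (by simp)
      exact this
    have b3 := b1.mul_prod b2
    rw [Measure.prod_restrict] at b3
    refine Integrable.mono' b3 ?_ ?_
    · refine Continuous.aestronglyMeasurable ?_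
      exact continuous_fst.smul (Continuous.mul (by fun_prop) (hh.continuous.comp (by fun_prop)))
    · filter_upwards [ae_restrict_mem (measurableSet_Ioi.prod measurableSet_Ioo)] with p hp
      have hp0 : 0 < p.1 := hp.1
      rw [norm_smul, norm_mul, Complex.norm_real, Real.norm_of_nonneg hp0.le,
        Real.norm_of_nonneg (Real.exp_pos _).le, Complex.norm_polarCoord_symm, sq_abs]
      have h1 := growth_shift hg s (Complex.polarCoord.symm p)
      rw [Complex.norm_polarCoord_symm, sq_abs] at h1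
      calc p.1 * (Real.exp (-p.1 ^ 2 / t) * ‖h (s + Complex.polarCoord.symm p)‖) ≤
          p.1 * (Real.exp (-(40 * p.1 ^ 2)) * (C * Real.exp (8 * ‖s‖ ^ 2) * Real.exp (8 * p.1 ^ 2))) := by
            gcongr
            exact gauss_le ht ht2 _
        _ = C * Real.exp (8 * ‖s‖ ^ 2) * (p.1 * (Real.exp (-(40 * p.1 ^ 2)) * Real.exp (8 * p.1 ^ 2))) := by
            ring
        _ = _ := by
            rw [← Real.exp_add, mul_one]
            congr 3
            ring
  rw [htar, Measure.volume_eq_prod, setIntegral_prod _ hi2]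
  have e1 : ∀ r ∈ Ioi (0 : ℝ), ∫ θ in Ioo (-Real.pi) Real.pi, (r, θ).1 •
      (((Real.exp (-‖Complex.polarCoord.symm (r, θ)‖ ^ 2 / t) : ℝ) : ℂ) *
      h (s + Complex.polarCoord.symm (r, θ))) =
      ((r * Real.exp (-r ^ 2 / t) : ℝ) : ℂ) * (2 * Real.pi * h s) := by
    intro r hr
    rw [← mean_angle hh s r, ← integral_const_mul]
    refine setIntegral_congr_fun measurableSet_Ioo ?_
    intro θ _
    simp only [Complex.norm_polarCoord_symm, sq_abs, Complex.real_smul]
    push_cast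
    ring
  have e2 : ∫ r in Ioi (0 : ℝ), ((r * Real.exp (-r ^ 2 / t) : ℝ) : ℂ) =
      ((∫ r in Ioi (0 : ℝ), r * Real.exp (-r ^ 2 / t) : ℝ) : ℂ) := integral_ofReal
  rw [setIntegral_congr_fun measurableSet_Ioi e1, integral_mul_const, e2, radial_int ht]
  push_cast
  ring

/-- inverse of the Gaussian average -/
lemma GT_inv {t C : ℝ} {h : ℂ → ℂ} (ht : 0 < t) (ht2 : t ≤ 1 / 40)
    (hh : Differentiable ℂ h) (hg : ∀ s : ℂ, ‖h s‖ ≤ C * Real.exp (4 * ‖s‖ ^ 2)) (s : ℂ) :
    ∫ y : ℝ, exp (-(y : ℂ) ^ 2 / t) * GT t h (s + y * I) = Real.pi * t * h s := by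
  rw [← gauss_plane ht ht2 hh hg s]
  have hi := gauss_plane_int ht ht2 hh hg s
  have hi2 : Integrable (fun p : ℝ × ℝ => ((Real.exp (-‖(p.1 + p.2 * I : ℂ)‖ ^ 2 / t) : ℝ) : ℂ) *
      h (s + (p.1 + p.2 * I))) := by
    have := (Complex.volume_preserving_equiv_real_prod.symm.integrable_comp_emb
      Complex.measurableEquivRealProd.symm.measurableEmbedding).2 hi
    refine this.congr (Eventually.of_forall fun p => ?_)
    simp only [Function.comp, Complex.measurableEquivRealProd_symm_apply]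
    rw [Complex.mk_eq_add_mul_I]
  have e1 : ∫ z : ℂ, ((Real.exp (-‖z‖ ^ 2 / t) : ℝ) : ℂ) * h (s + z) =
      ∫ p : ℝ × ℝ, ((Real.exp (-‖(p.1 + p.2 * I : ℂ)‖ ^ 2 / t) : ℝ) : ℂ) * h (s + (p.1 + p.2 * I)) := by
    rw [← Complex.volume_preserving_equiv_real_prod.symm.integral_comp
      Complex.measurableEquivRealProd.symm.measurableEmbedding]
    refine integral_congr_ae (Eventually.of_forall fun p => ?_)
    simp only [Complex.measurableEquivRealProd_symm_apply]
    rw [Complex.mk_eq_add_mul_I]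
  rw [e1, Measure.volume_eq_prod, integral_prod_symm _ hi2]
  refine integral_congr_ae (Eventually.of_forall fun y => ?_)
  simp only [GT]
  rw [← integral_const_mul]
  refine integral_congr_ae (Eventually.of_forall fun x => ?_)
  simp only
  have e2 : ‖((x : ℂ) + y * I)‖ ^ 2 = x ^ 2 + y ^ 2 := by
    rw [← Complex.normSq_eq_norm_sq, Complex.normSq_add_mul_I]
  rw [e2, ← mul_assoc, ← Complex.exp_add, Complex.ofReal_exp]
  congr 2
  · push_cast; ring
  · ring

end Pool.Agent.Helper87.HF
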