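import Pool.Agent.Helper87.HF.Abs5

set_option autoImplicit false

open Complex Set Filter Topology Metric MeasureTheory

namespace Pool.Agent.Helper87.HF

/-- Phragmén-Lindelöf in a strip, localised by a Gaussian weight -/
lemma PL2 {k : ℂ → ℂ} (hk : Differentiable ℂ k) {x1 x2 M C0 y0 : ℝ} (hx : x1 < x2)
    (hgrow : ∀ v : ℂ, x1 ≤ v.re → v.re ≤ x2 → ‖k v‖ ≤ C0 * Real.exp (4 * v.im ^ 2))
    (h1 : ∀ v : ℂ, v.re = x1 → ‖k v‖ ≤ M * Real.exp (4 * (v.im - y0) ^ 2))
    (h2 : ∀ v : ℂ, v.re = x2 → ‖k v‖ ≤ M * Real.exp (4 * (v.im - y0) ^ 2))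
    {x : ℝ} (hx1 : x1 ≤ x) (hx2 : x ≤ x2) :
    ‖k (x + y0 * I)‖ ≤ M * Real.exp (5 * (x2 - x1) ^ 2) := by
  set p : ℂ := x + y0 * I with hp
  have hpre : p.re = x := by simp [hp]
  have hpim : p.im = y0 := by simp [hp]
  have hM : 0 ≤ M := by
    have h3 := (norm_nonneg _).trans (h1 (x1 : ℂ) (Complex.ofReal_re _))
    exact nonneg_of_mul_nonneg_left h3 (Real.exp_pos _)
  have hC0 : 0 ≤ C0 := by
    have h3 := (norm_nonneg _).trans (hgrow (x1 : ℂ) (by simp) (by simp; linarith))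
    exact nonneg_of_mul_nonneg_left h3 (Real.exp_pos _)
  set K : ℂ → ℂ := fun v => k v * exp (5 * (v - p) ^ 2) with hK
  have hKd : Differentiable ℂ K := by
    rw [hK]; fun_prop
  have hw : ∀ v : ℂ, ‖exp (5 * (v - p) ^ 2)‖ = Real.exp (5 * ((v.re - x) ^ 2 - (v.im - y0) ^ 2)) := by
    intro v
    rw [Complex.norm_exp]
    congr 1
    rw [show (5 * (v - p) ^ 2 : ℂ) = ((5 : ℝ) : ℂ) * (v - p) ^ 2 by push_cast; rfl,
      Complex.re_ofReal_mul]
    congr 1
    simp only [sq, mul_re, sub_re, sub_im, hpre, hpim]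
  have hsq : ∀ v : ℂ, x1 ≤ v.re → v.re ≤ x2 → (v.re - x) ^ 2 ≤ (x2 - x1) ^ 2 := by
    intro v ha hb
    exact sq_le_sq' (by linarith) (by linarith)
  have key := PhragmenLindelof.vertical_strip (a := x1) (b := x2)
    (C := M * Real.exp (5 * (x2 - x1) ^ 2)) (f := K) (z := p) hKd.diffContOnCl ?_ ?_ ?_
    (by rw [hpre]; exact hx1) (by rw [hpre]; exact hx2)
  · simpa [hK] using key
  · refine ⟨0, div_pos Real.pi_pos (by linarith), 0, ?_⟩
    refine Asymptotics.IsBigO.of_bound (C0 * Real.exp (20 * y0 ^ 2 + 5 * (x2 - x1) ^ 2)) ?_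
    filter_upwards [mem_inf_of_right (mem_principal_self _)] with v hv
    have hv' : v.re ∈ Ioo x1 x2 := hv
    rw [zero_mul, Real.exp_zero, norm_one, mul_one]
    simp only [hK]
    rw [norm_mul, hw]
    calc ‖k v‖ * Real.exp (5 * ((v.re - x) ^ 2 - (v.im - y0) ^ 2)) ≤
        C0 * Real.exp (4 * v.im ^ 2) * Real.exp (5 * ((v.re - x) ^ 2 - (v.im - y0) ^ 2)) := by
          gcongr
          exact hgrow v hv'.1.le hv'.2.le
      _ = C0 * Real.exp (4 * v.im ^ 2 + 5 * ((v.re - x) ^ 2 - (v.im - y0) ^ 2)) := by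
          rw [Real.exp_add]; ring
      _ ≤ _ := by
          refine mul_le_mul_of_nonneg_left (Real.exp_le_exp.2 ?_) hC0
          have := hsq v hv'.1.le hv'.2.le
          nlinarith [sq_nonneg (v.im - 5 * y0)]
  · intro v hv
    simp only [hK]
    rw [norm_mul, hw]
    calc ‖k v‖ * Real.exp (5 * ((v.re - x) ^ 2 - (v.im - y0) ^ 2)) ≤
        M * Real.exp (4 * (v.im - y0) ^ 2) * Real.exp (5 * ((v.re - x) ^ 2 - (v.im - y0) ^ 2)) := by
          gcongr
          exact h1 v hv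
      _ = M * Real.exp (4 * (v.im - y0) ^ 2 + 5 * ((v.re - x) ^ 2 - (v.im - y0) ^ 2)) := by
          rw [Real.exp_add]; ring
      _ ≤ _ := by
          refine mul_le_mul_of_nonneg_left (Real.exp_le_exp.2 ?_) hM
          have := hsq v hv.ge (by rw [hv]; exact hx.le)
          nlinarith [sq_nonneg (v.im - y0)]
  · intro v hv
    simp only [hK]
    rw [norm_mul, hw]
    calc ‖k v‖ * Real.exp (5 * ((v.re - x) ^ 2 - (v.im - y0) ^ 2)) ≤
        M * Real.exp (4 * (v.im - y0) ^ 2) * Real.exp (5 * ((v.re - x) ^ 2 - (v.im - y0) ^ 2)) := by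
          gcongr
          exact h2 v hv
      _ = M * Real.exp (4 * (v.im - y0) ^ 2 + 5 * ((v.re - x) ^ 2 - (v.im - y0) ^ 2)) := by
          rw [Real.exp_add]; ring
      _ ≤ _ := by
          refine mul_le_mul_of_nonneg_left (Real.exp_le_exp.2 ?_) hM
          have := hsq v (by rw [hv]; exact hx.le) hv.le
          nlinarith [sq_nonneg (v.im - y0)]

end Pool.Agent.Helper87.HF
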