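import Pool.Agent.Helper87.HF.LStrip

set_option autoImplicit false

open Complex Set Filter Topology Metric MeasureTheory

namespace Pool.Agent.Helper87.HF

lemma LocF_of_strip {κ a ε C T : ℝ} (hκ : 0 < κ) (ha : 0 ≤ a) (hε : 0 < ε) (hT : Real.exp (40 * κ) ≤ T)
    (hC : C ≤ T)
    (h : ∀ z : ℂ, |z.re - 2 * T| ≤ 2 * C → |z.im| ≤ 2 → Ht (κ / Real.log T) z = 0 → |z.im| < 2 * a + 2 * ε) :
    LocF κ a ε C T := by
  intro σ T' h1 h2 h3 hz
  have hTpos : 0 < T := (Real.exp_pos _).trans_le hT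
  have hL : 40 * κ ≤ Real.log T := by
    rw [Real.le_log_iff_exp_le hTpos]; exact hT
  have hL0 : 0 < Real.log T := by linarith
  set t := κ / Real.log T with ht
  have ht0 : 0 < t := by positivity
  have ht40 : t ≤ 1 / 40 := by
    rw [ht, div_le_iff₀ hL0]; linarith
  have h3' := abs_le.1 h3
  have hT' : 0 ≤ T' := by linarith [h3'.1]
  have hσ : 0 < σ := by linarith
  set z : ℂ := ((2 * T' : ℝ) : ℂ) - ((2 * σ : ℝ) : ℂ) * I with hzd
  have hre : z.re = 2 * T' := by simp [hzd]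
  have him : z.im = -(2 * σ) := by simp [hzd]
  have hre' : |z.re| = 2 * T' := by rw [hre, abs_of_nonneg (by linarith)]
  have him' : |z.im| = 2 * σ := by rw [him, abs_neg, abs_of_nonneg (by linarith)]
  have hzero : Ht t z = 0 := by
    rw [Ht_zero_iff ht0 ht40, hre', him', mul_div_cancel_left₀ _ (two_ne_zero),
      mul_div_cancel_left₀ _ (two_ne_zero)]
    exact hz
  have := h z (by
    rw [hre, abs_le]; constructor <;> linarith [h3'.1, h3'.2]) (by rw [him']; linarith) hzero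
  rw [him'] at this
  linarith

/-- Local form of the converse part, for strips. -/
theorem strip_inv (κ a ε : ℝ) (hκ : 0 < κ) (ha : 0 ≤ a) (ha1 : a ≤ 1 / 2) (hε : 0 < ε) :
    ∃ δ C T0 : ℝ, 0 < δ ∧ ∀ T : ℝ, T0 ≤ T →
    (∀ z : ℂ, |z.re - 2 * T| ≤ C → |z.im| ≤ 2 → Ht (κ / Real.log T) z = 0 → |z.im| < 2 * a + δ) →
    LocS κ a ε T := by
  obtain ⟨e1, C1, T1, he1, h1⟩ := inverse_ZL κ a ε hκ ha ha1 hε
  obtain ⟨e2, C2, T2, he2, h2⟩ := inverse_ML κ a ε hκ ha ha1 hε
  refine ⟨2 * min e1 e2, 2 * max C1 C2,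
    max (max T1 T2) (max (max C1 C2) (max (Real.exp (40 * κ)) (Real.exp (2 / ε)))), by positivity, ?_⟩
  intro T hT h
  have a1 : T1 ≤ T := (le_max_left _ _).trans ((le_max_left _ _).trans hT)
  have a2 : T2 ≤ T := (le_max_right _ _).trans ((le_max_left _ _).trans hT)
  have a3 : max C1 C2 ≤ T := (le_max_left _ _).trans ((le_max_right _ _).trans hT)
  have a4 : Real.exp (40 * κ) ≤ T :=
    (le_max_left _ _).trans ((le_max_right _ _).trans ((le_max_right _ _).trans hT))
  have a5 : Real.exp (2 / ε) ≤ T :=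
    (le_max_right _ _).trans ((le_max_right _ _).trans ((le_max_right _ _).trans hT))
  have hTpos : 0 < T := (Real.exp_pos _).trans_le a4
  have hL : 2 / ε ≤ Real.log T := by rw [Real.le_log_iff_exp_le hTpos]; exact a5
  rw [div_le_iff₀ hε] at hL
  have l1 := (LocF_of_strip hκ ha he1 a4 a3 fun z b1 b2 b3 => (h z b1 b2 b3).trans_le (by
    linarith [min_le_left e1 e2])).mono (le_max_left C1 C2)
  have l2 := (LocF_of_strip hκ ha he2 a4 a3 fun z b1 b2 b3 => (h z b1 b2 b3).trans_le (by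
    linarith [min_le_right e1 e2])).mono (le_max_right C1 C2)
  refine ⟨fun v hv => h1 T (a + v) a1 l1 (by linarith), fun v hv => ?_⟩
  rcases le_total v (3 / 2) with h3 | h3
  · exact h2 T v a2 l2 hv h3
  · refine (zeta_le_two (T := T) (x := a + v) (by linarith)).trans ?_
    have h6 : (2 : ℝ) ≤ Real.exp 1 := by linarith [Real.add_one_le_exp (1 : ℝ)]
    refine h6.trans (Real.exp_le_exp.2 ?_)
    have : 0 ≤ (max (κ / 4 - v) 0) ^ 2 / κ * Real.log T := by
      have : 0 ≤ Real.log T := by nlinarith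
      positivity
    linarith

/-- Local form of the direct part, for strips. -/
theorem strip_dir (κ a ε R : ℝ) (hκ : 0 < κ) (ha : 0 ≤ a) (ha1 : a ≤ 1 / 2) (hε : 0 < ε) (hR : 0 ≤ R) :
    ∃ ε' C T0 t0 : ℝ, 0 < ε' ∧ 0 < t0 ∧ ∀ T : ℝ, T0 ≤ T → (∀ T' : ℝ, |T' - T| ≤ C → LocS κ a ε' T') →
    ∀ t : ℝ, t ≤ t0 → κ / Real.log T ≤ t → ∀ z : ℂ, |z.re - 2 * T| ≤ R → |z.im| ≤ 2 → Ht t z = 0 →
      |z.im| < 2 * a + ε := by
  obtain ⟨ε', C, T0, t0, hε', ht0, h0⟩ := directS κ a (ε / 2) hκ ha ha1 (by linarith)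
  refine ⟨ε', C + R, max T0 0 + R + 3, min t0 (1 / 40), hε', by positivity, ?_⟩
  intro T hT hloc t htt hκt z hz1 hz2 hz3
  have hm1 := le_max_left T0 0
  have hm2 := le_max_right T0 0
  have hT3 : 3 ≤ T := by linarith
  have hL1 : 1 ≤ Real.log T := by
    rw [Real.le_log_iff_exp_le (by linarith)]
    have := Real.exp_one_lt_d9
    linarith
  have ht : 0 < t := lt_of_lt_of_le (by positivity) hκt
  have htb : t ≤ 1 / 40 := htt.trans (min_le_right _ _)
  have hz1' := abs_le.1 hz1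
  have hre : 0 < z.re := by linarith [hz1'.1]
  have hre' : |z.re| / 2 = z.re / 2 := by rw [abs_of_pos hre]
  have hd : |z.re| / 2 - T ≤ R ∧ -R ≤ |z.re| / 2 - T := by
    rw [hre']; constructor <;> linarith [hz1'.1, hz1'.2]
  have hlog : Real.log T - 1 ≤ Real.log (|z.re| / 2) := by
    have e1 : Real.log T - 1 = Real.log (T / Real.exp 1) := by
      rw [Real.log_div (by linarith) (Real.exp_ne_zero _), Real.log_exp]
    rw [e1]
    refine Real.log_le_log (by positivity) ?_
    rw [div_le_iff₀ (Real.exp_pos _), hre']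
    have h5 : 2 ≤ Real.exp 1 := by linarith [Real.add_one_le_exp (1 : ℝ)]
    have h6 : T / 2 ≤ z.re / 2 := by linarith [hz1'.1]
    nlinarith
  have hτ : κ - t ≤ t * Real.log (|z.re| / 2) := by
    rw [div_le_iff₀ (by linarith)] at hκt
    have : t * (Real.log T - 1) ≤ t * Real.log (|z.re| / 2) := by gcongr
    linarith
  by_contra hcon
  push Not at hcon
  exact h0 (|z.re| / 2) (by linarith [hd.2]) (fun T' hT' => hloc T' (by
    have := abs_le.1 hT'
    rw [abs_le]; constructor <;> linarith [hd.1, hd.2, this.1, this.2])) t ht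
    (htt.trans (min_le_left _ _)) hτ (|z.im| / 2) (by linarith) (by linarith) ((Ht_zero_iff ht htb z).1 hz3)

/-- A region without zeros near `T` gives the condition at `T`. -/
theorem loc_of_free (κ a d ε : ℝ) (hκ : 0 < κ) (ha : 0 ≤ a) (hd : 0 ≤ d) (hd1 : d ≤ 1 / 2)
    (hda : d - κ / 8 ≤ a) (hε : 0 < ε) : ∃ C T0 : ℝ, 0 ≤ C ∧ ∀ T : ℝ, T0 ≤ T →
    (∀ T' σ : ℝ, |T' - T| ≤ C → d < σ → riemannZeta (1 / 2 + T' * I + σ) ≠ 0) → LocS κ a ε T := by
  set e : ℝ := min (ε / 8) (1 / 8) with he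
  have he0 : 0 < e := by positivity
  have he1 : e ≤ ε / 8 := min_le_left _ _
  have he2 : e ≤ 1 / 8 := min_le_right _ _
  obtain ⟨C1, T1, hC1, hT1, h1⟩ := box_conv (d + 2 * e) 0 e (by positivity) le_rfl he0
  obtain ⟨T2, hT2, h2⟩ := zlogL d 10 e e C1 hd he0 (by linarith) he0 hC1
  obtain ⟨Tf, hTf1, hTf⟩ := exists_frame
  refine ⟨10 + C1, max (max T1 T2) (max Tf (max (3 ^ 3) (Real.exp (8 / ε)))), by positivity, ?_⟩
  intro T hT hz
  have hTa : T1 ≤ T := (le_max_left _ _).trans ((le_max_left _ _).trans hT)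
  have hTb : T2 ≤ T := (le_max_right _ _).trans ((le_max_left _ _).trans hT)
  have hTc : Tf ≤ T := (le_max_left _ _).trans ((le_max_right _ _).trans hT)
  have hTd : (3 : ℝ) ^ 3 ≤ T := (le_max_left _ _).trans ((le_max_right _ _).trans ((le_max_right _ _).trans hT))
  have hTe : Real.exp (8 / ε) ≤ T :=
    (le_max_right _ _).trans ((le_max_right _ _).trans ((le_max_right _ _).trans hT))
  have hTpos : 0 < T := (Real.exp_pos _).trans_le hTe
  have hL : 8 / ε ≤ Real.log T := by rw [Real.le_log_iff_exp_le hTpos]; exact hTe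
  rw [div_le_iff₀ hε] at hL
  set L := Real.log T with hLdef
  have hL0 : 0 < L := by
    by_contra hcon
    push Not at hcon
    nlinarith
  obtain ⟨B, u, h, hF⟩ := hTf T hTc
  -- the frame function to the right of `d`
  have hr : ∀ x y : ℝ, d + 2 * e ≤ x → x ≤ 3 → |y| ≤ C1 → ‖h (x + y * I)‖ ≤ Real.exp (e * L) := by
    intro x y hx1 hx2 hy
    obtain ⟨q, hq1, hq2, hq3⟩ := h2 T hTb (fun T' σ b1 b2 => hz T' σ b1 (by linarith)) B u h hF y hy
    have h3 : ‖((x - 10 : ℝ) : ℂ)‖ = 10 - x := by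
      rw [Complex.norm_real, Real.norm_eq_abs, abs_of_nonpos (by linarith)]; ring
    have h4 := hq2 ((x - 10 : ℝ) : ℂ) (by rw [mem_ball_zero_iff, h3]; linarith)
    have h5 := hq3 ((x - 10 : ℝ) : ℂ) (by rw [h3]; linarith)
    have e1 : ((10 : ℝ) + y * I + ((x - 10 : ℝ) : ℂ) : ℂ) = x + y * I := by push_cast; ring
    rw [e1] at h4
    rw [← h4, Complex.norm_exp]
    exact Real.exp_le_exp.2 ((Complex.re_le_norm _).trans h5)
  -- to the left
  have hl : ∀ x : ℝ, 0 ≤ x → x ≤ d + 2 * e → ‖h x‖ ≤ Real.exp ((e + (d + 2 * e - x) / 2 + e) * L) := by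
    intro x hx1 hx2
    have h3 := h1 T hTa B u h hF e he0.le (fun y hy => hr (d + 2 * e) y le_rfl (by linarith) hy)
      x 0 hx1 hx2 (by simp)
    rwa [Complex.ofReal_zero, zero_mul, add_zero] at h3
  -- zeta from the frame function
  have hze : ∀ x : ℝ, 0 ≤ x → x ≤ 3 → ‖riemannZeta (1 / 2 + T * I + x)‖ ≤ Real.exp 1 * ‖h x‖ := by
    intro x hx1 hx2
    have h3 := hF.h1 (x : ℂ) (by simpa using hx1) (by
      rw [Complex.norm_real, Real.norm_of_nonneg hx1]
      refine le_trans ?_ hTd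
      gcongr)
    have h4 := norm_sub_norm_le (riemannZeta (1 / 2 + T * I + x)) (h x)
    rw [norm_sub_rev] at h4
    have h6 : (2 : ℝ) ≤ Real.exp 1 := by linarith [Real.add_one_le_exp (1 : ℝ)]
    have h7 := norm_nonneg (h x)
    have h8 : ‖riemannZeta (1 / 2 + T * I + x)‖ ≤ 2 * ‖h x‖ := by linarith
    refine h8.trans ?_
    gcongr
  constructor
  · intro v hv
    refine hz T (a + v) (by rw [sub_self, abs_zero]; positivity) (by linarith)
  · intro v hv
    have hm0 : 0 ≤ (max (κ / 4 - v) 0) ^ 2 / κ := by positivity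
    rcases le_total (a + v) 3 with h3 | h3
    · refine (hze (a + v) (by positivity) h3).trans ?_
      rcases le_total (a + v) (d + 2 * e) with h4 | h4
      · have h5 := hl (a + v) (by positivity) h4
        calc Real.exp 1 * ‖h ((a + v : ℝ) : ℂ)‖
            ≤ Real.exp 1 * Real.exp ((e + (d + 2 * e - (a + v)) / 2 + e) * L) := by gcongr
          _ = Real.exp (1 + (e + (d + 2 * e - (a + v)) / 2 + e) * L) := by rw [Real.exp_add]
          _ ≤ _ := by
              apply Real.exp_le_exp.2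
              have h6 : (d - (a + v)) / 2 ≤ (max (κ / 4 - v) 0) ^ 2 / κ := by
                rcases le_total v (κ / 4) with h7 | h7
                · rw [max_eq_left (by linarith), le_div_iff₀ hκ]
                  nlinarith [sq_nonneg v]
                · refine le_trans ?_ hm0
                  linarith
              have h8 : (e + (d + 2 * e - (a + v)) / 2 + e) ≤ (max (κ / 4 - v) 0) ^ 2 / κ + 3 * e := by
                linarith
              have h9 : (e + (d + 2 * e - (a + v)) / 2 + e) * L ≤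
                ((max (κ / 4 - v) 0) ^ 2 / κ + 3 * e) * L := by gcongr
              have h10 : e * L ≤ ε / 8 * L := by gcongr
              nlinarith
      · have h5 := hr (a + v) 0 h4 h3 (by simpa using hC1)
        rw [Complex.ofReal_zero, zero_mul, add_zero] at h5
        calc Real.exp 1 * ‖h ((a + v : ℝ) : ℂ)‖ ≤ Real.exp 1 * Real.exp (e * L) := by gcongr
          _ = Real.exp (1 + e * L) := by rw [Real.exp_add]
          _ ≤ _ := by
              apply Real.exp_le_exp.2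
              have h10 : e * L ≤ ε / 8 * L := by gcongr
              have h11 : 0 ≤ (max (κ / 4 - v) 0) ^ 2 / κ * L := by positivity
              nlinarith
    · refine (zeta_le_two (T := T) (x := a + v) (by linarith)).trans ?_
      have h6 : (2 : ℝ) ≤ Real.exp 1 := by linarith [Real.add_one_le_exp (1 : ℝ)]
      refine h6.trans (Real.exp_le_exp.2 ?_)
      have h11 : 0 ≤ (max (κ / 4 - v) 0) ^ 2 / κ * L := by positivity
      nlinarith

lemma LocA_of_LocS {κ ε T : ℝ} (h : LocS κ 0 ε T) : LocA κ ε T := by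
  refine ⟨fun v hv => ?_, fun v hv => ?_⟩
  · have := h.1 v hv
    rwa [zero_add] at this
  · have := h.2 v hv
    rwa [zero_add] at this

/-- Zeta has no zeros with real part `> 1/2 + d` near the height `T`: then the zeros of `H_t` near `2T` are
real and simple from the time `(8d + ε)/log T` on. -/
theorem real_of_free (d ε R : ℝ) (hd : 0 ≤ d) (hd1 : d ≤ 1 / 2) (hε : 0 < ε) (hR : 0 ≤ R) :
    ∃ C T0 t0 : ℝ, 0 < t0 ∧ ∀ T : ℝ, T0 ≤ T →
    (∀ T' σ : ℝ, |T' - T| ≤ C → d < σ → riemannZeta (1 / 2 + T' * I + σ) ≠ 0) →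
    ∀ t : ℝ, t ≤ t0 → (8 * d + ε) / Real.log T ≤ t → ∀ z : ℂ, |z.re - 2 * T| ≤ R → |z.im| ≤ 2 →
      Ht t z = 0 → z.im = 0 ∧ deriv (Ht t) z ≠ 0 := by
  obtain ⟨e, C, T0, t0, he, ht0, h0⟩ := local_dir (8 * d + ε / 2) (8 * d + ε) R (by positivity)
    (by linarith) hR
  obtain ⟨C1, T1, hC1, h1⟩ := loc_of_free (8 * d + ε / 2) 0 d e (by positivity) le_rfl hd hd1
    (by linarith) he
  refine ⟨C1 + max C 0, max T0 (T1 + max C 0), t0, ht0, ?_⟩
  intro T hT hz
  refine h0 T ((le_max_left _ _).trans hT) (fun T' hT' => LocA_of_LocS (h1 T' ?_ ?_))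
  · have := (abs_le.1 hT').1
    have := (le_max_right _ _).trans hT
    have := le_max_left C 0
    linarith
  · intro T'' σ b1 b2
    refine hz T'' σ ?_ b2
    have c1 := abs_sub_abs_le_abs_sub (T'' - T') (T - T')
    have c2 := abs_le.1 b1
    have c3 := abs_le.1 hT'
    have := le_max_left C 0
    rw [abs_le]; constructor <;> linarith [c2.1, c2.2, c3.1, c3.2]

/-- The same for strips. -/
theorem strip_of_free (κ d ε R : ℝ) (hκ : 0 < κ) (hd : 0 ≤ d) (hd1 : d ≤ 1 / 2) (hε : 0 < ε) (hR : 0 ≤ R) :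
    ∃ C T0 t0 : ℝ, 0 < t0 ∧ ∀ T : ℝ, T0 ≤ T →
    (∀ T' σ : ℝ, |T' - T| ≤ C → d < σ → riemannZeta (1 / 2 + T' * I + σ) ≠ 0) →
    ∀ t : ℝ, t ≤ t0 → κ / Real.log T ≤ t → ∀ z : ℂ, |z.re - 2 * T| ≤ R → |z.im| ≤ 2 →
      Ht t z = 0 → |z.im| < max (2 * d - κ / 4) 0 + ε := by
  have ha : 2 * max (d - κ / 8) 0 = max (2 * d - κ / 4) 0 := by
    rw [mul_max_of_nonneg _ _ (by norm_num)]
    ring_nf
  obtain ⟨e, C, T0, t0, he, ht0, h0⟩ := strip_dir κ (max (d - κ / 8) 0) ε R hκ (le_max_right _ _)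
    (max_le (by linarith) (by norm_num)) hε hR
  obtain ⟨C1, T1, hC1, h1⟩ := loc_of_free κ (max (d - κ / 8) 0) d e hκ (le_max_right _ _) hd hd1
    (le_max_left _ _) he
  refine ⟨C1 + max C 0, max T0 (T1 + max C 0), t0, ht0, ?_⟩
  intro T hT hz
  rw [← ha]
  refine h0 T ((le_max_left _ _).trans hT) (fun T' hT' => h1 T' ?_ ?_)
  · have := (abs_le.1 hT').1
    have := (le_max_right _ _).trans hT
    have := le_max_left C 0
    linarith
  · intro T'' σ b1 b2
    refine hz T'' σ ?_ b2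
    have c2 := abs_le.1 b1
    have c3 := abs_le.1 hT'
    have := le_max_left C 0
    rw [abs_le]; constructor <;> linarith [c2.1, c2.2, c3.1, c3.2]

/-- The strip law in terms of the local condition. -/
theorem strip_loc (κ y : ℝ) (hκ : 0 < κ) (hy : 0 ≤ y) (hy1 : y ≤ 1) :
    InStrip κ y ↔ ∀ ε : ℝ, 0 < ε → ∃ T0 : ℝ, ∀ T : ℝ, T0 ≤ T → LocS κ (y / 2) ε T := by
  constructor
  · intro h ε hε
    obtain ⟨δ, C, T0, hδ, h0⟩ := strip_inv κ (y / 2) ε hκ (by linarith) (by linarith) hε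
    obtain ⟨t0, ht0, h1⟩ := h (y + δ) (by linarith)
    refine ⟨max (max T0 1) (max (max C 1) (Real.exp (κ / t0))), ?_⟩
    intro T hT
    have a1 : T0 ≤ T := (le_max_left _ _).trans ((le_max_left _ _).trans hT)
    have a2 : 1 ≤ T := (le_max_right _ _).trans ((le_max_left _ _).trans hT)
    have a3 : C ≤ T := (le_max_left _ _).trans ((le_max_left _ _).trans ((le_max_right _ _).trans hT))
    have a4 : Real.exp (κ / t0) ≤ T := (le_max_right _ _).trans ((le_max_right _ _).trans hT)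
    have hpos : 0 < κ / t0 := by positivity
    have hL : κ / t0 ≤ Real.log T := by
      rw [Real.le_log_iff_exp_le (by linarith)]; exact a4
    have hL0 : 0 < Real.log T := by linarith
    refine h0 T a1 fun z hz1 hz2 hz3 => ?_
    have ht : 0 < κ / Real.log T := by positivity
    have h4 := h1 (κ / Real.log T) ht (by
      rw [div_le_iff₀ hL0]
      rw [div_le_iff₀ ht0] at hL
      linarith) z (by
      have hz1' := abs_le.1 hz1
      have h5 : T ≤ z.re := by linarith
      refine le_trans ?_ (h5.trans (le_abs_self _))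
      have e1 : κ / (κ / Real.log T) = Real.log T := by field_simp
      rw [e1, Real.exp_log (by linarith)]) hz2 hz3
    linarith
  · intro h
    refine (horizon_strip κ y hκ hy hy1).2 ⟨?_, ?_⟩
    · intro ε hε
      obtain ⟨T0, h0⟩ := h ε hε
      refine ⟨T0, fun T σ hT hσ => ?_⟩
      have := (h0 T hT).1 (σ - y / 2) (by linarith)
      rwa [add_sub_cancel] at this
    · intro ε hε
      obtain ⟨T0, h0⟩ := h ε hε
      refine ⟨T0, fun T v hT hv0 hv1 => ?_⟩
      have := (h0 T hT).2 v hv0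
      rwa [max_eq_left (by linarith)] at this

end Pool.Agent.Helper87.HF
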