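import Pool.Agent.Helper87.HF.Closed
import Pool.Agent.Helper87.HF.LFree
import Pool.Agent.Helper54.Hf.S8

set_option autoImplicit false

/-!
# All zeros of `H_t`: removal of the restriction to a strip
(the strip theorem is from helper54's file `Pool/Agent/Helper54/Hf/S8.lean`)
-/

open Complex Set Filter Topology Metric MeasureTheory

namespace Pool.Agent.Helper87.HF

lemma Ph_eq (v : ℝ) : Pool.Agent.Helper242.KK.Ph (2 * v) = 2 * Phi v := by
  unfold Pool.Agent.Helper242.KK.Ph Pool.Agent.Helper242.RK.Phi Phi phiT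
  rw [mul_div_cancel_left₀ v (two_ne_zero)]
  congr 1
  refine tsum_congr fun n => ?_
  have e1 : -(((n : ℝ) + 1) ^ 2 * Real.pi * Real.exp (4 * v)) =
      -(Real.pi * ((n : ℝ) + 1) ^ 2 * Real.exp (4 * v)) := by ring
  rw [e1]
  ring

lemma Hx_eq {t : ℝ} (ht : t ≤ 1) (z : ℂ) :
    Pool.Agent.Helper54.Hf.Hx (t / 4) (I * z / 2) = 64 * Ht t z := by
  have h1 := KI_Ht ht z
  unfold Pool.Agent.Helper54.Hf.Hx Pool.Agent.Helper242.KK.FT
  set g : ℝ → ℂ := fun u : ℝ => ((Pool.Agent.Helper54.Hf.wt (t / 4) u : ℝ) : ℂ) *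
    cexp (I * (-(I * (I * z / 2))) * u) with hg
  have h2 := MeasureTheory.Measure.integral_comp_mul_left g 2
  have h3 : ∀ v : ℝ, g (2 * v) = 2 * KI t (I * z / 2) v := by
    intro v
    simp only [hg, Pool.Agent.Helper54.Hf.wt, KI]
    rw [Ph_eq]
    have e1 : I * (-(I * (I * z / 2))) * ((2 * v : ℝ) : ℂ) = 2 * (I * z / 2) * v := by
      push_cast
      linear_combination (-(I * z * v)) * I_sq
    rw [e1, show t / 4 * (2 * v) ^ 2 = t * v ^ 2 by ring]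
    push_cast
    ring
  simp only [h3] at h2
  rw [MeasureTheory.integral_const_mul, h1] at h2
  have h4 : (∫ u : ℝ, g u) = 8 * Ht t z := by
    have h5 : |(2 : ℝ)⁻¹| = 1 / 2 := by norm_num
    rw [h5, Complex.real_smul] at h2
    push_cast at h2
    linear_combination (-2) * h2
  rw [h4]
  ring

/-- all zeros of `H_t` far out lie in a strip -/
lemma strip34 : ∃ K : ℝ, 0 < K ∧ ∀ (t : ℝ) (z : ℂ), 0 < t → t ≤ 1 → Ht t z = 0 → K ≤ |z.re| →
    |z.im| ≤ 34 := by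
  obtain ⟨K, hK, h⟩ := Pool.Agent.Helper54.Hf.strip
  refine ⟨2 * K, by linarith, fun t z ht ht1 hz hre => ?_⟩
  rw [← Ht_zero_abs] at hz
  set z' : ℂ := ((|z.re| : ℝ) : ℂ) - ((|z.im| : ℝ) : ℂ) * I with hz'
  have h1 := Hx_eq ht1 z'
  rw [hz, mul_zero] at h1
  have e : I * z' / 2 = ((|z.im| / 2 : ℝ) : ℂ) + ((|z.re| / 2 : ℝ) : ℂ) * I := by
    rw [hz']
    push_cast
    linear_combination (-((|z.im| : ℝ) : ℂ) / 2) * I_sq
  have h2 := h (t / 4) (I * z' / 2) (by positivity) (by linarith) h1 (by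
    rw [e]
    simp
    linarith)
  rw [e] at h2
  simp at h2
  linarith

lemma real_simple_z120 {t : ℝ} (ht : 0 < t) (htb : t ≤ 1 / 40) {z : ℂ}
    (r1 : ∀ σ : ℝ, 0 < σ → σ ≤ 60 → GT t fx (((|z.re| / 2 : ℝ) : ℂ) * I + σ) ≠ 0)
    (r2 : GT t fx (((|z.re| / 2 : ℝ) : ℂ) * I) = 0 → deriv (GT t fx) (((|z.re| / 2 : ℝ) : ℂ) * I) ≠ 0)
    (h2 : |z.im| ≤ 120) (h3 : Ht t z = 0) : z.im = 0 ∧ deriv (Ht t) z ≠ 0 := by
  have h3' := (Ht_zero_iff ht htb z).1 h3
  have him : z.im = 0 := by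
    by_contra hne
    have hpos : 0 < |z.im| := abs_pos.2 hne
    exact r1 (|z.im| / 2) (by linarith) (by linarith) h3'
  exact real_simple_z ht htb r1 r2 (by rw [him]; norm_num) h3

/-- For each `κ' > κ` and all small `t`, all zeros with `|Re z| ≥ exp(κ'/t)` are real and simple. -/
def RealBeyondAll (κ : ℝ) : Prop :=
  ∀ κ' : ℝ, κ < κ' → ∃ t0 : ℝ, 0 < t0 ∧ ∀ t : ℝ, 0 < t → t ≤ t0 → ∀ z : ℂ,
    Real.exp (κ' / t) ≤ |z.re| → Ht t z = 0 → z.im = 0 ∧ deriv (Ht t) z ≠ 0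

lemma all_of_ZSide {κ κ' : ℝ} (hκ : 0 < κ) (hκ' : κ < κ') (hB : ZSide κ 0) :
    ∃ t0 : ℝ, 0 < t0 ∧ ∀ t : ℝ, 0 < t → t ≤ t0 → ∀ z : ℂ,
    Real.exp (κ' / t) ≤ |z.re| → Ht t z = 0 → z.im = 0 ∧ deriv (Ht t) z ≠ 0 := by
  obtain ⟨t0, ht0, h0⟩ := real_simple κ κ' hκ hκ' hB
  obtain ⟨K, hK, hs⟩ := strip34
  refine ⟨min (min t0 (1 / 40)) (κ' / K), by have : 0 < κ' := by linarith
                                             positivity, fun t ht htt z h1 h3 => ?_⟩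
  have hta : t ≤ t0 := htt.trans ((min_le_left _ _).trans (min_le_left _ _))
  have htb : t ≤ 1 / 40 := htt.trans ((min_le_left _ _).trans (min_le_right _ _))
  have htc : t ≤ κ' / K := htt.trans (min_le_right _ _)
  have hre : K ≤ |z.re| := by
    refine le_trans ?_ h1
    have h5 : K ≤ κ' / t := by
      rw [le_div_iff₀ hK] at htc
      rw [le_div_iff₀ ht]
      linarith
    linarith [Real.add_one_le_exp (κ' / t)]
  obtain ⟨r1, r2⟩ := h0 t ht hta (|z.re| / 2) (by rw [mul_div_cancel₀ _ (two_ne_zero)]; exact h1)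
  exact real_simple_z120 ht htb r1 r2 (by linarith [hs t z ht (by linarith) h3 hre]) h3

lemma all_iff {κ : ℝ} (hκ : 0 ≤ κ) : RealBeyondAll κ ↔ RealBeyond κ := by
  constructor
  · intro h κ' hκ'
    obtain ⟨t0, ht0, h0⟩ := h κ' hκ'
    exact ⟨t0, ht0, fun t ht htt z h1 _ h3 => h0 t ht htt z h1 h3⟩
  · intro h κ' hκ'
    have h1 : RealBeyond ((κ + κ') / 2) := fun κ'' hκ'' => h κ'' (by linarith)
    exact all_of_ZSide (κ := (κ + κ') / 2) (by linarith) (by linarith)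
      ((horizon_real _ (by linarith)).1 h1)

/-- Local form of the direct part, all zeros. -/
theorem local_dirAll (κ κ' R : ℝ) (hκ : 0 < κ) (hκ' : κ < κ') (hR : 0 ≤ R) :
    ∃ ε C T0 t0 : ℝ, 0 < ε ∧ 0 < t0 ∧ ∀ T : ℝ, T0 ≤ T → (∀ T' : ℝ, |T' - T| ≤ C → LocA κ ε T') →
    ∀ t : ℝ, t ≤ t0 → κ' / Real.log T ≤ t → ∀ z : ℂ, |z.re - 2 * T| ≤ R → Ht t z = 0 →
      z.im = 0 ∧ deriv (Ht t) z ≠ 0 := by
  obtain ⟨ε, C, T0, t0, hε, ht0, ht40, h0⟩ := real_simpleL κ κ' hκ hκ'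
  obtain ⟨K, hK, hs⟩ := strip34
  refine ⟨ε, C + R, max T0 K + R + 3, t0, hε, ht0, ?_⟩
  intro T hT hloc t htt hκt z hz1 hz3
  have hm1 := le_max_left T0 K
  have hm2 := le_max_right T0 K
  have hT3 : 3 ≤ T := by linarith
  have hL1 : 1 ≤ Real.log T := by
    rw [Real.le_log_iff_exp_le (by linarith)]
    have := Real.exp_one_lt_d9
    linarith
  have ht : 0 < t := lt_of_lt_of_le (by have : 0 < κ' := by linarith
                                        positivity) hκt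
  have htb : t ≤ 1 / 40 := htt.trans ht40
  have hz1' := abs_le.1 hz1
  have hre : 0 < z.re := by linarith [hz1'.1]
  have hre' : |z.re| / 2 = z.re / 2 := by rw [abs_of_pos hre]
  have hd : |z.re| / 2 - T ≤ R ∧ -R ≤ |z.re| / 2 - T := by
    rw [hre']; constructor <;> linarith [hz1'.1, hz1'.2]
  have hlog : Real.log T - 1 ≤ Real.log (|z.re| / 2) := by
    have e1 : Real.log T - 1 = Real.log (T / Real.exp 1) := by
      rw [Real.log_div (by linarith) (Real.exp_ne_zero _), Real.log_exp]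
    rw [e1]
    refine Real.log_le_log (by positivity) ?_
    rw [div_le_iff₀ (Real.exp_pos _), hre']
    have h5 : 2 ≤ Real.exp 1 := by linarith [Real.add_one_le_exp (1 : ℝ)]
    have h6 : T / 2 ≤ z.re / 2 := by linarith [hz1'.1]
    nlinarith
  have hτ : κ' - t ≤ t * Real.log (|z.re| / 2) := by
    rw [div_le_iff₀ (by linarith)] at hκt
    have : t * (Real.log T - 1) ≤ t * Real.log (|z.re| / 2) := by gcongr
    linarith
  obtain ⟨r1, r2⟩ := h0 (|z.re| / 2) (by linarith [hd.2]) (fun T' hT' => hloc T' (by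
    have := abs_le.1 hT'
    rw [abs_le]; constructor <;> linarith [hd.1, hd.2, this.1, this.2])) t ht htt hτ
  have h34 := hs t z ht (by linarith) hz3 (by
    rw [abs_of_pos hre]; linarith [hz1'.1])
  exact real_simple_z120 ht htb r1 r2 (by linarith) hz3

/-- Local form in terms of the zeros of zeta only, all zeros. -/
theorem real_of_freeAll (d ε R : ℝ) (hd : 0 ≤ d) (hd1 : d ≤ 1 / 2) (hε : 0 < ε) (hR : 0 ≤ R) :
    ∃ C T0 t0 : ℝ, 0 < t0 ∧ ∀ T : ℝ, T0 ≤ T →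
    (∀ T' σ : ℝ, |T' - T| ≤ C → d < σ → riemannZeta (1 / 2 + T' * I + σ) ≠ 0) →
    ∀ t : ℝ, t ≤ t0 → (8 * d + ε) / Real.log T ≤ t → ∀ z : ℂ, |z.re - 2 * T| ≤ R →
      Ht t z = 0 → z.im = 0 ∧ deriv (Ht t) z ≠ 0 := by
  obtain ⟨e, C, T0, t0, he, ht0, h0⟩ := local_dirAll (8 * d + ε / 2) (8 * d + ε) R (by positivity)
    (by linarith) hR
  obtain ⟨C1, T1, hC1, h1⟩ := loc_of_free (8 * d + ε / 2) 0 d e (by positivity) le_rfl hd hd1
    (by linarith) he
  refine ⟨C1 + max C 0, max T0 (T1 + max C 0), t0, ht0, ?_⟩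
  intro T hT hz
  refine h0 T ((le_max_left _ _).trans hT) (fun T' hT' => LocA_of_LocS (h1 T' ?_ ?_))
  · have := (abs_le.1 hT').1
    have := (le_max_right _ _).trans hT
    have := le_max_left C 0
    linarith
  · intro T'' σ b1 b2
    refine hz T'' σ ?_ b2
    have c1 := abs_sub_abs_le_abs_sub (T'' - T') (T - T')
    have c2 := abs_le.1 b1
    have c3 := abs_le.1 hT'
    have := le_max_left C 0
    rw [abs_le]; constructor <;> linarith [c2.1, c2.2, c3.1, c3.2]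

/-! ### the horizon exponent -/

/-- the set of the `|Re z|` of the zeros of `H_t` that are not real and simple, and `1` -/
def badAll (t : ℝ) : Set ℝ :=
  {x : ℝ | x = 1 ∨ ∃ z : ℂ, Ht t z = 0 ∧ ¬(z.im = 0 ∧ deriv (Ht t) z ≠ 0) ∧ x = |z.re|}

/-- The last zero. -/
noncomputable def XA (t : ℝ) : ℝ := sSup (badAll t)

/-- The horizon exponent. -/
noncomputable def kappaA : ℝ := Filter.limsup (fun t : ℝ => t * Real.log (XA t)) (𝓝[>] 0)

lemma badA_bdd {κ t : ℝ} (hκ : 0 ≤ κ) (ht : 0 < t) (h : ∀ z : ℂ, Real.exp (κ / t) ≤ |z.re| →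
    Ht t z = 0 → z.im = 0 ∧ deriv (Ht t) z ≠ 0) : Real.exp (κ / t) ∈ upperBounds (badAll t) := by
  rintro x (rfl | ⟨z, h1, h3, rfl⟩)
  · rw [← Real.exp_zero]
    exact Real.exp_le_exp.2 (by positivity)
  · by_contra hcon
    push Not at hcon
    exact h3 (h z hcon.le h1)

lemma one_mem_badA (t : ℝ) : (1 : ℝ) ∈ badAll t := Or.inl rfl

lemma evA_bdd {κ κ' : ℝ} (hκ : 0 ≤ κ) (hκ' : κ < κ') (h : RealBeyondAll κ) :
    ∀ᶠ t in 𝓝[>] (0 : ℝ), Real.exp (κ' / t) ∈ upperBounds (badAll t) := by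
  obtain ⟨t0, ht0, h0⟩ := h κ' hκ'
  filter_upwards [Ioo_mem_nhdsGT ht0] with t ht
  exact badA_bdd (by linarith) ht.1 (h0 t ht.1 ht.2.le)

lemma all_corput : RealBeyondAll (27 / 10) := (all_iff (by norm_num)).2 RealBeyond_corput

lemma evA_ge : ∀ᶠ t in 𝓝[>] (0 : ℝ), 1 ≤ XA t ∧ BddAbove (badAll t) := by
  filter_upwards [evA_bdd (by norm_num) (show (27 / 10 : ℝ) < 3 by norm_num) all_corput] with t ht
  exact ⟨le_csSup ⟨_, ht⟩ (one_mem_badA t), ⟨_, ht⟩⟩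

lemma evA_le {κ κ' : ℝ} (hκ : 0 ≤ κ) (hκ' : κ < κ') (h : RealBeyondAll κ) :
    ∀ᶠ t in 𝓝[>] (0 : ℝ), t * Real.log (XA t) ≤ κ' := by
  filter_upwards [evA_bdd hκ hκ' h, evA_ge, self_mem_nhdsWithin] with t h1 h2 ht
  have ht0 : 0 < t := ht
  have h3 : XA t ≤ Real.exp (κ' / t) := csSup_le ⟨1, one_mem_badA t⟩ h1
  have h4 : Real.log (XA t) ≤ κ' / t := by
    rw [Real.log_le_iff_le_exp (by linarith [h2.1])]; exact h3
  calc t * Real.log (XA t) ≤ t * (κ' / t) := by gcongr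
    _ = κ' := by field_simp

lemma evA_nonneg : ∀ᶠ t in 𝓝[>] (0 : ℝ), 0 ≤ t * Real.log (XA t) := by
  filter_upwards [evA_ge, self_mem_nhdsWithin] with t h2 ht
  have ht0 : 0 < t := ht
  exact mul_nonneg ht0.le (Real.log_nonneg h2.1)

lemma isBddA : IsBoundedUnder (· ≤ ·) (𝓝[>] (0 : ℝ)) (fun t : ℝ => t * Real.log (XA t)) :=
  ⟨3, by
    simp only [eventually_map]
    exact evA_le (by norm_num) (show (27 / 10 : ℝ) < 3 by norm_num) all_corput⟩

lemma isCobddA : IsCoboundedUnder (· ≤ ·) (𝓝[>] (0 : ℝ)) (fun t : ℝ => t * Real.log (XA t)) :=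
  IsBoundedUnder.isCoboundedUnder_le ⟨0, by simp only [eventually_map]; exact evA_nonneg⟩

lemma kappaA_nonneg : 0 ≤ kappaA :=
  le_limsup_of_frequently_le evA_nonneg.frequently isBddA

lemma kappaA_le_iff {κ : ℝ} (hκ : 0 ≤ κ) : kappaA ≤ κ ↔ RealBeyondAll κ := by
  constructor
  · intro h κ' hκ'
    have h1 : ∀ᶠ t in 𝓝[>] (0 : ℝ), t * Real.log (XA t) < κ' :=
      eventually_lt_of_limsup_lt (lt_of_le_of_lt h hκ') isBddA
    have h2 := (h1.and evA_ge)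
    obtain ⟨t0, ht0, h3⟩ := (mem_nhdsGT_iff_exists_Ioo_subset).1 h2
    have ht0' : 0 < t0 := ht0
    refine ⟨t0 / 2, by positivity, fun t ht htt z hz1 hz3 => ?_⟩
    obtain ⟨h4, h5, h6⟩ := h3 ⟨ht, by linarith⟩
    by_contra hcon
    have h7 : |z.re| ≤ XA t := le_csSup h6 (Or.inr ⟨z, hz3, hcon, rfl⟩)
    have h8 : κ' / t ≤ Real.log (XA t) := by
      rw [Real.le_log_iff_exp_le (by linarith)]
      exact hz1.trans h7
    rw [div_le_iff₀ ht] at h8
    linarith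
  · intro h
    refine le_of_forall_gt_imp_ge_of_dense fun κ' hκ' => ?_
    exact limsup_le_of_le isCobddA (evA_le hκ hκ' h)

lemma kappaA_eq : kappaA = kappaStar := by
  have h1 := kappaA_nonneg
  have h2 := kappaStar_nonneg
  exact le_antisymm ((kappaA_le_iff h2).2 ((all_iff h2).2 ((kappaStar_le_iff h2).1 le_rfl)))
    ((kappaStar_le_iff h1).2 ((all_iff h1).1 ((kappaA_le_iff h1).1 le_rfl)))

/-- `X(t)` is finite for every small `t`. -/
lemma XA_finite : ∃ t0 : ℝ, 0 < t0 ∧ ∀ t : ℝ, 0 < t → t ≤ t0 → BddAbove (badAll t) := by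
  obtain ⟨t0, ht0, h0⟩ := all_corput 3 (by norm_num)
  exact ⟨t0, ht0, fun t ht htt => ⟨_, badA_bdd (by norm_num) ht (h0 t ht htt)⟩⟩

end Pool.Agent.Helper87.HF
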