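import Pool.Graph.R_seed8.H306R2.ZetaGrowth
import Pool.Graph.R_seed8.H777R2.SM_T6D
import Pool.Graph.R_pool_sql_team_22a80281.Lib.helper19_.XiGamma

set_option autoImplicit false
set_option maxHeartbeats 1000000

open Complex Filter Topology Metric

namespace Pool.Agent.Helper87.HF

/-- `(4 w^2 - 1) Λ(1/2 + w)`, completed to an entire function -/
noncomputable def fx (w : ℂ) : ℂ := (4 * w ^ 2 - 1) * completedRiemannZeta₀ (1 / 2 + w) + 4

/-- the Gamma part -/
noncomputable def Gx (w : ℂ) : ℂ := (4 * w ^ 2 - 1) * Gammaℝ (1 / 2 + w)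

lemma fx_diff : Differentiable ℂ fx := by
  intro w
  unfold fx
  have h : DifferentiableAt ℂ (fun w => completedRiemannZeta₀ (1 / 2 + w)) w :=
    (differentiable_completedZeta₀ (1 / 2 + w)).comp w (by fun_prop)
  fun_prop

lemma fx_even (w : ℂ) : fx (-w) = fx w := by
  unfold fx
  have : completedRiemannZeta₀ (1 / 2 + -w) = completedRiemannZeta₀ (1 / 2 + w) := by
    rw [← completedRiemannZeta₀_one_sub]
    congr 1
    ring
  rw [this]
  ring

lemma fx_eq_completed {w : ℂ} (h1 : w ≠ 1 / 2) (h2 : w ≠ -(1 / 2)) :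
    fx w = (4 * w ^ 2 - 1) * completedRiemannZeta (1 / 2 + w) := by
  unfold fx
  rw [completedRiemannZeta_eq]
  have a1 : (1 / 2 + w : ℂ) ≠ 0 := by
    intro h
    apply h2
    linear_combination h
  have a2 : (1 - (1 / 2 + w) : ℂ) ≠ 0 := by
    intro h
    apply h1
    linear_combination -h
  have e : (4 * w ^ 2 - 1) = -4 * (1 / 2 + w) * (1 - (1 / 2 + w)) := by ring
  rw [e]
  generalize (1 / 2 + w) = s at *
  field_simp
  ring

lemma fx_eq {w : ℂ} (hw : -(1 / 2) < w.re) (h1 : w ≠ 1 / 2) :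
    fx w = Gx w * riemannZeta (1 / 2 + w) := by
  have hre : 0 < (1 / 2 + w).re := by
    simp only [add_re]
    norm_num
    linarith
  have h0 : (1 / 2 + w : ℂ) ≠ 0 := by
    intro h
    rw [h] at hre
    simp at hre
  rw [fx_eq_completed h1 (by rintro rfl; norm_num at hw), riemannZeta_def_of_ne_zero h0, Gx]
  have := Gammaℝ_ne_zero_of_re_pos hre
  rw [mul_assoc, mul_div_assoc', mul_div_cancel_left₀ _ this]

lemma GammaR_conj (s : ℂ) : Gammaℝ ((starRingEnd ℂ) s) = (starRingEnd ℂ) (Gammaℝ s) := by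
  rw [Gammaℝ_def, Gammaℝ_def, map_mul, ← Complex.Gamma_conj]
  congr 1
  · have h := Complex.cpow_conj (Real.pi : ℂ) (-s / 2) (by
      rw [Complex.arg_ofReal_of_nonneg Real.pi_pos.le]; exact Real.pi_pos.ne)
    rw [Complex.conj_ofReal] at h
    rw [← h]
    congr 1
    rw [map_div₀, map_neg, Complex.conj_ofNat]
  · congr 1
    rw [map_div₀, Complex.conj_ofNat]

lemma half_conj (w : ℂ) : (starRingEnd ℂ) (1 / 2 + w) = 1 / 2 + (starRingEnd ℂ) w := by
  rw [map_add, map_div₀, map_one, Complex.conj_ofNat]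

lemma Gx_conj (w : ℂ) : Gx (starRingEnd ℂ w) = starRingEnd ℂ (Gx w) := by
  unfold Gx
  rw [map_mul, ← GammaR_conj, half_conj]
  congr 1
  simp [Complex.conj_ofNat]

lemma fx_conj (w : ℂ) : fx (starRingEnd ℂ w) = starRingEnd ℂ (fx w) := by
  have hd : Differentiable ℂ (fun w => starRingEnd ℂ (fx (starRingEnd ℂ w))) := by
    intro z
    have h3 := (fx_diff (starRingEnd ℂ z)).conj_conj
    rw [Complex.conj_conj] at h3
    exact h3
  have heq : (fun w => starRingEnd ℂ (fx (starRingEnd ℂ w))) = fx := by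
    refine AnalyticOnNhd.eq_of_eventuallyEq (z₀ := (1 : ℂ)) (fun z _ => hd.analyticAt z)
      (fun z _ => fx_diff.analyticAt z) ?_
    have h1 : {z : ℂ | 1 / 2 < z.re} ∈ 𝓝 (1 : ℂ) :=
      (isOpen_lt continuous_const Complex.continuous_re).mem_nhds (by simp; norm_num)
    filter_upwards [h1] with z hz
    have hz' : 1 / 2 < z.re := hz
    have hne : z ≠ 1 / 2 := by rintro rfl; norm_num at hz'
    have hne2 : starRingEnd ℂ z ≠ 1 / 2 := by
      intro h
      have := congrArg Complex.re h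
      rw [Complex.conj_re] at this
      norm_num at this
      linarith
    rw [fx_eq (by linarith) hne, fx_eq (by rw [Complex.conj_re]; linarith) hne2, map_mul, Gx_conj,
      Complex.conj_conj, ← riemannZeta_conj, half_conj, Complex.conj_conj]
  have : starRingEnd ℂ (fx (starRingEnd ℂ w)) = fx w := congrFun heq w
  rw [← this, Complex.conj_conj]

lemma Gx_ne {w : ℂ} (hw : -(1 / 2) < w.re) (h1 : w ≠ 1 / 2) : Gx w ≠ 0 := by
  have hre : 0 < (1 / 2 + w).re := by
    simp only [add_re]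
    norm_num
    linarith
  have := Gammaℝ_ne_zero_of_re_pos hre
  refine mul_ne_zero ?_ this
  intro h
  have h2 : (w - 1 / 2) * (w + 1 / 2) = 0 := by linear_combination h / 4
  rcases mul_eq_zero.1 h2 with h3 | h3
  · exact h1 (sub_eq_zero.1 h3)
  · have h4 : w = -(1 / 2) := by linear_combination h3
    rw [h4] at hw
    norm_num at hw

lemma fx_zero_re {w : ℂ} (h : fx w = 0) : |w.re| < 1 / 2 := by
  have key : ∀ w : ℂ, 1 / 2 ≤ w.re → fx w ≠ 0 := by
    intro w hw h0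
    by_cases h1 : w = 1 / 2
    · rw [h1] at h0
      unfold fx at h0
      norm_num at h0
    · rw [fx_eq (by linarith) h1] at h0
      rcases mul_eq_zero.1 h0 with h2 | h2
      · exact Gx_ne (by linarith) h1 h2
      · refine riemannZeta_ne_zero_of_one_le_re ?_ h2
        simp only [add_re]
        norm_num
        linarith
  by_contra hcon
  push Not at hcon
  rcases le_abs'.1 hcon with h1 | h1
  · refine key (-w) ?_ (by rw [fx_even]; exact h)
    simp only [neg_re]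
    linarith
  · exact key w h1 h



lemma zeta_sub_one {s : ℂ} (hs : 2 ≤ s.re) : ‖riemannZeta s - 1‖ ≤ (2 : ℝ) ^ (2 - s.re) := by
  have hs1 : 1 < s.re := by linarith
  have hz : riemannZeta s = ∑' n : ℕ, 1 / (n + 1 : ℂ) ^ s := zeta_eq_tsum_one_div_nat_add_one_cpow hs1
  have hsum : Summable (fun n : ℕ => 1 / (n + 1 : ℂ) ^ s) := by
    have h := (Complex.summable_one_div_nat_cpow (p := s)).2 hs1
    have h' := (summable_nat_add_iff 1).2 h
    simpa using h'
  have h0 : riemannZeta s - 1 = ∑' n : ℕ, 1 / ((n + 1 : ℕ) + 1 : ℂ) ^ s := by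
    rw [hz, hsum.tsum_eq_zero_add]
    simp
  have hR : HasSum (fun n : ℕ => 1 / (n : ℝ) ^ 2) (Real.pi ^ 2 / 6) := hasSum_zeta_two
  have hR2 : HasSum (fun n : ℕ => 1 / ((n + 2 : ℕ) : ℝ) ^ 2) (Real.pi ^ 2 / 6 - 1) := by
    have := (hasSum_nat_add_iff' (f := fun n : ℕ => 1 / (n : ℝ) ^ 2) 2).2 hR
    simpa [Finset.sum_range_succ] using this
  have hR3 := hR2.mul_left ((2 : ℝ) ^ (2 - s.re))
  have hpi : Real.pi ^ 2 / 6 - 1 ≤ 1 := by
    have : Real.pi < 3.15 := Real.pi_lt_d2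
    nlinarith [Real.pi_pos]
  rw [h0]
  refine (tsum_of_norm_bounded hR3 ?_).trans ?_
  · intro n
    rw [norm_div, norm_one]
    have e : (((n + 1 : ℕ) : ℂ) + 1) = (((n + 2 : ℕ) : ℝ) : ℂ) := by
      push_cast; ring
    rw [e, Complex.norm_cpow_eq_rpow_re_of_pos (by positivity)]
    have hn2 : (2 : ℝ) ≤ ((n + 2 : ℕ) : ℝ) := by push_cast; linarith [(Nat.cast_nonneg n : (0:ℝ) ≤ n)]
    have h2 : ((n + 2 : ℕ) : ℝ) ^ 2 * (2 : ℝ) ^ (s.re - 2) ≤ ((n + 2 : ℕ) : ℝ) ^ s.re := by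
      calc ((n + 2 : ℕ) : ℝ) ^ 2 * (2 : ℝ) ^ (s.re - 2) ≤
          ((n + 2 : ℕ) : ℝ) ^ 2 * ((n + 2 : ℕ) : ℝ) ^ (s.re - 2) := by
            refine mul_le_mul_of_nonneg_left ?_ (by positivity)
            exact Real.rpow_le_rpow (by norm_num) hn2 (by linarith)
        _ = _ := by
            rw [← Real.rpow_natCast, ← Real.rpow_add (by positivity)]
            congr 1
            push_cast
            ring
    have e2 : (2 : ℝ) ^ (2 - s.re) = ((2 : ℝ) ^ (s.re - 2))⁻¹ := by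
      rw [← Real.rpow_neg (by norm_num)]; congr 1; ring
    rw [e2, one_div, one_div, ← mul_inv, mul_comm]
    apply inv_anti₀ (by positivity) h2
  · calc (2 : ℝ) ^ (2 - s.re) * (Real.pi ^ 2 / 6 - 1) ≤ (2 : ℝ) ^ (2 - s.re) * 1 := by gcongr
      _ = _ := mul_one _



lemma norm_GammaR_le {s : ℂ} (hs : 0 < s.re) : ‖Gammaℝ s‖ ≤ Real.Gamma (s.re / 2) := by
  rw [Gammaℝ_def, norm_mul]
  have h1 : ‖(Real.pi : ℂ) ^ (-s / 2)‖ ≤ 1 := by
    rw [Complex.norm_cpow_eq_rpow_re_of_pos Real.pi_pos]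
    apply Real.rpow_le_one_of_one_le_of_nonpos
    · linarith [Real.pi_gt_three]
    · have : (-s / 2).re = -(s.re / 2) := by
        rw [show (-s / 2 : ℂ) = -s / ((2 : ℝ) : ℂ) by push_cast; rfl, Complex.div_ofReal_re, neg_re]
        ring
      rw [this]
      linarith
  have e : (s / 2).re = s.re / 2 := by
    rw [show (s / 2 : ℂ) = s / ((2 : ℝ) : ℂ) by push_cast; rfl, Complex.div_ofReal_re]
  have h2 := Pool.Agent.H777R2.SM.norm_Gamma_le (s / 2) (by rw [e]; linarith)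
  rw [e] at h2
  have h3 : 0 ≤ Real.Gamma (s.re / 2) := (Real.Gamma_pos_of_pos (by linarith)).le
  calc ‖(Real.pi : ℂ) ^ (-s / 2)‖ * ‖Complex.Gamma (s / 2)‖ ≤ 1 * Real.Gamma (s.re / 2) := by gcongr
    _ = _ := one_mul _

lemma Gamma_le_rpow {x : ℝ} (hx : 1 / 4 ≤ x) : Real.Gamma x ≤ 4 * (x + 2) ^ (x + 2) := by
  have hx0 : 0 < x := by linarith
  have h1 : Real.Gamma (x + 2) = (x + 1) * (x * Real.Gamma x) := by
    rw [show x + 2 = (x + 1) + 1 by ring, Real.Gamma_add_one (by linarith),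
      Real.Gamma_add_one (by linarith)]
  have hG : 0 < Real.Gamma x := Real.Gamma_pos_of_pos hx0
  have h2 : Real.Gamma x ≤ 4 * Real.Gamma (x + 2) := by
    rw [h1]
    nlinarith [mul_pos hx0 hG]
  set k := ⌈x⌉₊ with hk
  have hk1 : x ≤ k := Nat.le_ceil x
  have hk2 : (k : ℝ) < x + 1 := Nat.ceil_lt_add_one hx0.le
  have h3 : Real.Gamma (x + 2) ≤ Real.Gamma ((k + 1 : ℕ) + 1) := by
    refine Real.Gamma_strictMonoOn_Ici.monotoneOn ?_ ?_ ?_
    · simp only [Set.mem_Ici]; linarith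
    · simp only [Set.mem_Ici]; push_cast; linarith
    · push_cast; linarith
  rw [Real.Gamma_nat_eq_factorial] at h3
  have h4 : ((k + 1).factorial : ℝ) ≤ ((k : ℝ) + 1) ^ (k + 1) := by
    have := Nat.factorial_le_pow (k + 1)
    exact_mod_cast this
  have hk1' : 1 ≤ (k : ℝ) + 1 := by linarith [(Nat.cast_nonneg k : (0 : ℝ) ≤ k)]
  have h5 : ((k : ℝ) + 1) ^ (k + 1) ≤ (x + 2) ^ (x + 2) := by
    calc ((k : ℝ) + 1) ^ (k + 1) = ((k : ℝ) + 1) ^ (((k + 1 : ℕ) : ℝ)) := (Real.rpow_natCast _ _).symm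
      _ ≤ (x + 2) ^ (((k + 1 : ℕ) : ℝ)) := Real.rpow_le_rpow (by linarith) (by linarith) (by positivity)
      _ ≤ (x + 2) ^ (x + 2) := Real.rpow_le_rpow_of_exponent_le (by linarith) (by push_cast; linarith)
  linarith


/-! ### the gamma factor -/

lemma fx_gam {w : ℂ} (hw : -(1 / 2) < w.re) (h1 : w ≠ 1 / 2) :
    fx w = 8 * H19Xi.gam (1 / 2 + w) * riemannZeta (1 / 2 + w) := by
  rw [fx_eq hw h1]
  congr 1
  have hre : 0 < (1 / 2 + w).re := by
    simp only [add_re]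
    norm_num
    linarith
  have h0 : (1 / 2 + w : ℂ) ≠ 0 := by
    intro h
    rw [h] at hre
    simp at hre
  rw [Gx, Gammaℝ_def, H19Xi.gam, Complex.Gamma_add_one _ (div_ne_zero h0 two_ne_zero)]
  have e : (Real.pi : ℂ) ^ (-(1 / 2 + w) / 2) = exp (-((1 / 2 + w) / 2 * (Real.log Real.pi : ℂ))) := by
    rw [Complex.cpow_def_of_ne_zero (by exact_mod_cast Real.pi_ne_zero), ← Complex.ofReal_log Real.pi_pos.le]
    congr 1
    ring
  rw [e]
  ring

lemma fx_crude : ∃ K : ℝ, 1 ≤ K ∧ ∀ w : ℂ, 0 ≤ w.re →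
    ‖fx w‖ ≤ K * (1 + ‖w‖) ^ 4 * Real.exp ((w.re + 3) ^ 2) := by
  obtain ⟨B, hB⟩ := (isCompact_closedBall (0 : ℂ) 2).exists_bound_of_continuousOn
    fx_diff.continuous.continuousOn
  refine ⟨max 400 |B|, le_max_of_le_left (by norm_num), ?_⟩
  intro w hw
  have h1 : 1 ≤ (1 + ‖w‖) ^ 4 := one_le_pow₀ (by linarith [norm_nonneg w])
  have h2 : 1 ≤ Real.exp ((w.re + 3) ^ 2) := Real.one_le_exp (by positivity)
  rcases le_total 2 ‖w‖ with h3 | h3
  · have hne : w ≠ 1 / 2 := by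
      rintro rfl
      norm_num at h3
    rw [fx_eq (by linarith) hne, norm_mul, Gx, norm_mul]
    have hre : (1 / 2 + w).re = 1 / 2 + w.re := by simp
    have z1 : ‖riemannZeta (1 / 2 + w)‖ ≤ 6 * (2 * (1 + ‖w‖)) ^ 2 := by
      have := Pool.Agent.H306R2.zeta_norm_le (s := 1 / 2 + w) (by rw [hre]; linarith) (by
        have : (1 / 2 + w - 1 : ℂ) = w - 1 / 2 := by ring
        rw [this]
        have h3 := norm_sub_norm_le w (1 / 2)
        have h4 : ‖(1 / 2 : ℂ)‖ = 1 / 2 := by norm_num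
        rw [h4] at h3
        linarith)
      refine this.trans ?_
      have h3 : ‖(1 / 2 : ℂ) + w‖ ≤ 1 / 2 + ‖w‖ := by
        refine (norm_add_le _ _).trans ?_
        norm_num
      have h4 : ‖(1 / 2 : ℂ) + w‖ + 1 ≤ 2 * (1 + ‖w‖) := by linarith [norm_nonneg w]
      gcongr
    have z2 : ‖(4 * w ^ 2 - 1 : ℂ)‖ ≤ 4 * (1 + ‖w‖) ^ 2 := by
      refine (norm_sub_le _ _).trans ?_
      rw [norm_mul, norm_pow, norm_one]
      norm_num
      nlinarith [norm_nonneg w]
    have z3 : ‖Gammaℝ (1 / 2 + w)‖ ≤ 4 * Real.exp ((w.re + 3) ^ 2) := by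
      refine (norm_GammaR_le (by rw [hre]; linarith)).trans ?_
      rw [hre]
      set x := (1 / 2 + w.re) / 2 with hx
      refine (Gamma_le_rpow (by linarith)).trans ?_
      have hx2 : 0 < x + 2 := by linarith
      have h5 : (x + 2) ^ (x + 2) ≤ Real.exp ((w.re + 3) ^ 2) := by
        rw [Real.rpow_def_of_pos hx2]
        apply Real.exp_le_exp.2
        have h6 : Real.log (x + 2) ≤ x + 2 := (Real.log_le_sub_one_of_pos hx2).trans (by linarith)
        have h7 : x + 2 ≤ w.re + 3 := by linarith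
        calc Real.log (x + 2) * (x + 2) ≤ (x + 2) * (x + 2) := by gcongr
          _ ≤ (w.re + 3) * (w.re + 3) := by gcongr
          _ = _ := by ring
      linarith
    calc ‖(4 * w ^ 2 - 1 : ℂ)‖ * ‖Gammaℝ (1 / 2 + w)‖ * ‖riemannZeta (1 / 2 + w)‖ ≤
        (4 * (1 + ‖w‖) ^ 2) * (4 * Real.exp ((w.re + 3) ^ 2)) * (6 * (2 * (1 + ‖w‖)) ^ 2) := by gcongr
      _ = 384 * (1 + ‖w‖) ^ 4 * Real.exp ((w.re + 3) ^ 2) := by ring
      _ ≤ _ := by
          gcongr
          exact le_max_of_le_left (by norm_num)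
  · have h4 := hB w (by rw [mem_closedBall_zero_iff]; exact h3)
    calc ‖fx w‖ ≤ |B| := h4.trans (le_abs_self B)
      _ ≤ max 400 |B| := le_max_right _ _
      _ = max 400 |B| * 1 * 1 := by ring
      _ ≤ _ := by gcongr

end Pool.Agent.Helper87.HF
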