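import Mathlib

set_option autoImplicit false

open Complex Set Filter Topology Metric MeasureTheory

namespace Pool.Agent.Helper87.HF

/-- `n`-th term of the kernel -/
noncomputable def phiT (n : ℕ) (u : ℝ) : ℝ :=
  (2 * Real.pi ^ 2 * ((n : ℝ) + 1) ^ 4 * Real.exp (9 * u) -
    3 * Real.pi * ((n : ℝ) + 1) ^ 2 * Real.exp (5 * u)) *
      Real.exp (-(Real.pi * ((n : ℝ) + 1) ^ 2 * Real.exp (4 * u)))

/-- The kernel `Φ(u) = ∑_{n ≥ 1} (2π²n⁴e^{9u} - 3πn²e^{5u}) exp(-πn²e^{4u})`. -/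
noncomputable def Phi (u : ℝ) : ℝ := ∑' n : ℕ, phiT n u

/-- theta terms -/
noncomputable def gT (n : ℕ) (u : ℂ) : ℂ :=
  exp (u - (Real.pi * ((n : ℝ) + 1) ^ 2 : ℝ) * exp (4 * u))

noncomputable def pp (n : ℕ) : ℝ := Real.pi * ((n : ℝ) + 1) ^ 2

lemma pp_pos (n : ℕ) : 0 < pp n := by
  have := Real.pi_pos
  unfold pp; positivity

lemma gT_diff (n : ℕ) : Differentiable ℂ (gT n) := by
  unfold gT; fun_prop

lemma gT_deriv (n : ℕ) (u : ℂ) : HasDerivAt (gT n) ((1 - 4 * pp n * exp (4 * u)) * gT n u) u := by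
  have h1 : HasDerivAt (fun u : ℂ => 4 * u) 4 u := by simpa using (hasDerivAt_id u).const_mul (4 : ℂ)
  have h2 : HasDerivAt (fun u : ℂ => u - (pp n : ℂ) * exp (4 * u))
      (1 - (pp n : ℂ) * (exp (4 * u) * 4)) u := (hasDerivAt_id u).sub (h1.cexp.const_mul _)
  have h3 : HasDerivAt (gT n) (exp (u - (pp n : ℂ) * exp (4 * u)) *
      (1 - (pp n : ℂ) * (exp (4 * u) * 4))) u := h2.cexp
  refine h3.congr_deriv ?_
  simp only [gT, pp]
  ring

lemma gT_deriv2 (n : ℕ) (u : ℂ) : HasDerivAt (fun u => (1 - 4 * pp n * exp (4 * u)) * gT n u)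
    (gT n u + 8 * (2 * pp n ^ 2 * exp (8 * u) - 3 * pp n * exp (4 * u)) * gT n u) u := by
  have h1 : HasDerivAt (fun u : ℂ => 4 * u) 4 u := by simpa using (hasDerivAt_id u).const_mul (4 : ℂ)
  have h3 : HasDerivAt (fun u : ℂ => 1 - 4 * (pp n : ℂ) * exp (4 * u))
      (-(4 * (pp n : ℂ) * (exp (4 * u) * 4))) u := (h1.cexp.const_mul (4 * (pp n : ℂ))).const_sub 1
  have h4 := h3.mul (gT_deriv n u)
  refine h4.congr_deriv ?_
  have e : exp (8 * u) = exp (4 * u) * exp (4 * u) := by rw [← exp_add]; congr 1; ring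
  rw [e]
  ring

/-- region -/
def UU (δ A : ℝ) : Set ℂ := {u : ℂ | δ < (exp (4 * u)).re} ∩ {u : ℂ | u.re < A}

lemma UU_open (δ A : ℝ) : IsOpen (UU δ A) := by
  refine IsOpen.inter (isOpen_lt continuous_const ?_) (isOpen_lt Complex.continuous_re continuous_const)
  exact Complex.continuous_re.comp (by fun_prop)

lemma gT_norm (n : ℕ) (u : ℂ) : ‖gT n u‖ = Real.exp (u.re - pp n * (exp (4 * u)).re) := by
  rw [gT, Complex.norm_exp, sub_re, Complex.re_ofReal_mul, pp]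

lemma gT_norm_le (n : ℕ) {δ A : ℝ} (hδ : 0 < δ) {u : ℂ} (hu : u ∈ UU δ A) :
    ‖gT n u‖ ≤ Real.exp A * Real.exp (-(Real.pi * δ)) ^ (n + 1) := by
  rw [gT_norm, ← Real.exp_nat_mul, ← Real.exp_add]
  apply Real.exp_le_exp.2
  obtain ⟨h1, h2⟩ := hu
  have h1' : δ < (exp (4 * u)).re := h1
  have h2' : u.re < A := h2
  have hn : (1 : ℝ) ≤ (n : ℝ) + 1 := by linarith [(Nat.cast_nonneg n : (0 : ℝ) ≤ n)]
  have hpp : Real.pi * ((n : ℝ) + 1) ≤ pp n := by
    rw [pp]
    have : (n : ℝ) + 1 ≤ ((n : ℝ) + 1) ^ 2 := by nlinarith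
    have := Real.pi_pos
    gcongr
  have h3 : Real.pi * ((n : ℝ) + 1) * δ ≤ pp n * (exp (4 * u)).re := by
    have := Real.pi_pos
    have := (pp_pos n).le
    gcongr
  push_cast
  linarith

lemma summable_geo (k : ℕ) {δ : ℝ} (hδ : 0 < δ) (C : ℝ) :
    Summable (fun n : ℕ => C * (((n : ℝ) + 1) ^ k * Real.exp (-(Real.pi * δ)) ^ (n + 1))) := by
  have hr : ‖Real.exp (-(Real.pi * δ))‖ < 1 := by
    rw [Real.norm_of_nonneg (Real.exp_pos _).le, Real.exp_lt_one_iff]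
    have := mul_pos Real.pi_pos hδ
    linarith
  have h1 := summable_pow_mul_geometric_of_norm_lt_one k hr
  have h2 := (summable_nat_add_iff 1).2 h1
  refine Summable.mul_left C ?_
  refine h2.congr fun n => ?_
  push_cast
  rfl

noncomputable def GG (u : ℂ) : ℂ := ∑' n : ℕ, gT n u

lemma GG_hasSum1 {δ A : ℝ} (hδ : 0 < δ) {u : ℂ} (hu : u ∈ UU δ A) :
    HasSum (fun n => (1 - 4 * pp n * exp (4 * u)) * gT n u) (deriv GG u) ∧
    DifferentiableAt ℂ GG u := by
  have hs : Summable (fun n : ℕ => Real.exp A * (((n : ℝ) + 1) ^ 0 * Real.exp (-(Real.pi * δ)) ^ (n + 1))) :=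
    summable_geo 0 hδ _
  have hle : ∀ (n : ℕ) (w : ℂ), w ∈ UU δ A → ‖gT n w‖ ≤
      Real.exp A * (((n : ℝ) + 1) ^ 0 * Real.exp (-(Real.pi * δ)) ^ (n + 1)) := by
    intro n w hw
    rw [pow_zero, one_mul]
    exact gT_norm_le n hδ hw
  constructor
  · have h := hasSum_deriv_of_summable_norm hs (fun n => (gT_diff n).differentiableOn) (UU_open δ A)
      hle hu
    have e : (fun n => deriv (gT n) u) = fun n => (1 - 4 * pp n * exp (4 * u)) * gT n u :=
      funext fun n => (gT_deriv n u).deriv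
    rw [e] at h
    exact h
  · exact (differentiableOn_tsum_of_summable_norm hs (fun n => (gT_diff n).differentiableOn)
      (UU_open δ A) hle).differentiableAt ((UU_open δ A).mem_nhds hu)

lemma GG_hasSum2 {δ A : ℝ} (hδ : 0 < δ) {u : ℂ} (hu : u ∈ UU δ A) :
    HasSum (fun n => gT n u + 8 * (2 * pp n ^ 2 * exp (8 * u) - 3 * pp n * exp (4 * u)) * gT n u)
      (deriv (deriv GG) u) ∧ DifferentiableAt ℂ (deriv GG) u := by
  set C : ℝ := (1 + 4 * Real.pi * Real.exp (4 * A)) * Real.exp A with hC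
  have hs : Summable (fun n : ℕ => C * (((n : ℝ) + 1) ^ 2 * Real.exp (-(Real.pi * δ)) ^ (n + 1))) :=
    summable_geo 2 hδ _
  have hpi := Real.pi_pos
  have hle : ∀ (n : ℕ) (w : ℂ), w ∈ UU δ A → ‖(1 - 4 * pp n * exp (4 * w)) * gT n w‖ ≤
      C * (((n : ℝ) + 1) ^ 2 * Real.exp (-(Real.pi * δ)) ^ (n + 1)) := by
    intro n w hw
    rw [norm_mul]
    have h1 := gT_norm_le n hδ hw
    have hwA : w.re < A := hw.2
    have h2 : ‖(1 - 4 * pp n * exp (4 * w) : ℂ)‖ ≤ (1 + 4 * Real.pi * Real.exp (4 * A)) *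
        ((n : ℝ) + 1) ^ 2 := by
      refine (norm_sub_le _ _).trans ?_
      rw [norm_one, norm_mul, norm_mul, Complex.norm_real, Real.norm_of_nonneg (pp_pos n).le,
        Complex.norm_exp]
      have e1 : (4 * w : ℂ).re = 4 * w.re := by
        rw [show (4 * w : ℂ) = ((4 : ℝ) : ℂ) * w by push_cast; rfl, Complex.re_ofReal_mul]
      have e2 : ‖(4 : ℂ)‖ = 4 := by norm_num
      rw [e1, e2]
      have h3 : Real.exp (4 * w.re) ≤ Real.exp (4 * A) := Real.exp_le_exp.2 (by linarith)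
      have h4 : 1 ≤ ((n : ℝ) + 1) ^ 2 := one_le_pow₀ (by linarith [(Nat.cast_nonneg n : (0 : ℝ) ≤ n)])
      have h5 : 4 * pp n * Real.exp (4 * w.re) ≤ 4 * pp n * Real.exp (4 * A) := by
        have := (pp_pos n).le
        gcongr
      have h6 : 4 * pp n * Real.exp (4 * A) = 4 * Real.pi * Real.exp (4 * A) * ((n : ℝ) + 1) ^ 2 := by
        rw [pp]; ring
      rw [h6] at h5
      linarith
    calc ‖(1 - 4 * pp n * exp (4 * w) : ℂ)‖ * ‖gT n w‖ ≤
        ((1 + 4 * Real.pi * Real.exp (4 * A)) * ((n : ℝ) + 1) ^ 2) *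
          (Real.exp A * Real.exp (-(Real.pi * δ)) ^ (n + 1)) := by gcongr
      _ = _ := by rw [hC]; ring
  have hd : ∀ n : ℕ, DifferentiableOn ℂ (fun w => (1 - 4 * (pp n : ℂ) * exp (4 * w)) * gT n w) (UU δ A) := by
    intro n w _
    exact (gT_deriv2 n w).differentiableAt.differentiableWithinAt
  have heq : (fun w => ∑' n, (1 - 4 * (pp n : ℂ) * exp (4 * w)) * gT n w) =ᶠ[𝓝 u] deriv GG := by
    filter_upwards [(UU_open δ A).mem_nhds hu] with w hw
    exact (GG_hasSum1 hδ hw).1.tsum_eq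
  constructor
  · have h := hasSum_deriv_of_summable_norm hs hd (UU_open δ A) hle hu
    have e : (fun n => deriv (fun w => (1 - 4 * (pp n : ℂ) * exp (4 * w)) * gT n w) u) =
        fun n => gT n u + 8 * (2 * pp n ^ 2 * exp (8 * u) - 3 * pp n * exp (4 * u)) * gT n u :=
      funext fun n => (gT_deriv2 n u).deriv
    rw [e, heq.deriv_eq] at h
    exact h
  · have h := (differentiableOn_tsum_of_summable_norm hs hd (UU_open δ A) hle).differentiableAt
      ((UU_open δ A).mem_nhds hu)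
    exact (heq.differentiableAt_iff).1 h

lemma real_mem (u : ℝ) : (u : ℂ) ∈ UU (Real.exp (4 * u) / 2) (u + 1) := by
  constructor
  · rw [Set.mem_ofPred_eq]
    have : exp (4 * (u : ℂ)) = ((Real.exp (4 * u) : ℝ) : ℂ) := by push_cast; rfl
    rw [this, Complex.ofReal_re]
    linarith [Real.exp_pos (4 * u)]
  · rw [Set.mem_ofPred_eq, Complex.ofReal_re]; linarith

/-- `G'' - G = 8 Φ` -/
lemma GG_Phi (u : ℝ) : deriv (deriv GG) u - GG u = 8 * (Phi u : ℂ) ∧ Summable (fun n => phiT n u) := by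
  have hδ : 0 < Real.exp (4 * u) / 2 := by positivity
  have h2 := (GG_hasSum2 hδ (real_mem u)).1
  have hs : Summable (fun n : ℕ => gT n u) := by
    refine Summable.of_norm_bounded (summable_geo 0 hδ (Real.exp (u + 1))) fun n => ?_
    rw [pow_zero, one_mul]
    exact gT_norm_le n hδ (real_mem u)
  have h1 : HasSum (fun n : ℕ => gT n u) (GG u) := hs.hasSum
  have h3 := h2.sub h1
  have e : ∀ n : ℕ, gT n (u : ℂ) + 8 * (2 * pp n ^ 2 * exp (8 * (u : ℂ)) - 3 * pp n * exp (4 * (u : ℂ))) *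
      gT n u - gT n u = 8 * ((phiT n u : ℝ) : ℂ) := by
    intro n
    rw [phiT, gT, pp]
    have e1 : Real.exp (9 * u) = Real.exp (8 * u) * Real.exp u := by rw [← Real.exp_add]; congr 1; ring
    have e2 : Real.exp (5 * u) = Real.exp (4 * u) * Real.exp u := by rw [← Real.exp_add]; congr 1; ring
    rw [e1, e2, Complex.exp_sub]
    have e3 : Real.exp (-(Real.pi * ((n : ℝ) + 1) ^ 2 * Real.exp (4 * u))) =
        (Real.exp (Real.pi * ((n : ℝ) + 1) ^ 2 * Real.exp (4 * u)))⁻¹ := Real.exp_neg _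
    rw [e3]
    push_cast
    ring
  rw [funext e] at h3
  have h5 : HasSum (fun n => ((phiT n u : ℝ) : ℂ)) ((deriv (deriv GG) u - GG u) / 8) := by
    have h7 := h3.div_const (8 : ℂ)
    have e7 : (fun n : ℕ => 8 * ((phiT n u : ℝ) : ℂ) / 8) = fun n : ℕ => ((phiT n u : ℝ) : ℂ) := by
      funext n
      rw [mul_div_cancel_left₀ _ (by norm_num)]
    rw [e7] at h7
    exact h7
  have h6 : Summable (fun n => phiT n u) := Complex.summable_ofReal.1 h5.summable
  refine ⟨?_, h6⟩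
  rw [Phi, Complex.ofReal_tsum, h5.tsum_eq]
  ring

/-- positive half of the theta series -/
noncomputable def SS (a : ℝ) : ℝ := ∑' n : ℕ, Real.exp (-(Real.pi * a * ((n : ℝ) + 1) ^ 2))

lemma theta_int {a : ℝ} (ha : 0 < a) :
    ∑' n : ℤ, Real.exp (-Real.pi * a * (n : ℝ) ^ 2) = 1 + 2 * SS a := by
  have hr : ‖Real.exp (-(Real.pi * a))‖ < 1 := by
    rw [Real.norm_of_nonneg (Real.exp_pos _).le, Real.exp_lt_one_iff]
    have := mul_pos Real.pi_pos ha
    linarith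
  have hn : ∀ n : ℕ, Real.exp (-Real.pi * a * ((n : ℝ)) ^ 2) ≤ Real.exp (-(Real.pi * a)) ^ n := by
    intro n
    rw [← Real.exp_nat_mul]
    apply Real.exp_le_exp.2
    have hpa := mul_pos Real.pi_pos ha
    have h1 : (n : ℝ) ≤ (n : ℝ) ^ 2 := by
      rcases Nat.eq_zero_or_pos n with h | h
      · simp [h]
      · have : (1 : ℝ) ≤ n := by exact_mod_cast h
        nlinarith
    nlinarith
  have hsn : Summable (fun n : ℕ => Real.exp (-Real.pi * a * ((n : ℝ)) ^ 2)) :=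
    Summable.of_nonneg_of_le (fun n => (Real.exp_pos _).le) hn
      (summable_geometric_of_norm_lt_one hr)
  have hsz : Summable (fun n : ℤ => Real.exp (-Real.pi * a * ((n : ℝ)) ^ 2)) := by
    refine Summable.of_nat_of_neg ?_ ?_
    · simpa using hsn
    · simpa using hsn
  rw [tsum_int_eq_zero_add_two_mul_tsum_pnat ?_ hsz]
  · have h1 := tsum_pnat_eq_tsum_succ (f := fun n : ℕ => Real.exp (-Real.pi * a * ((n : ℝ)) ^ 2))
    simp only [Int.cast_natCast, Int.cast_zero]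
    rw [h1, SS, nsmul_eq_mul]
    congr 1
    · simp
    · congr 1
      refine tsum_congr fun n => ?_
      congr 1
      push_cast; ring
  · intro n
    simp

lemma theta_fe (u : ℝ) : Real.exp u * (1 + 2 * SS (Real.exp (4 * u))) =
    Real.exp (-u) * (1 + 2 * SS (Real.exp (4 * -u))) := by
  have h1 := Real.tsum_exp_neg_mul_int_sq (Real.exp_pos (4 * u))
  rw [theta_int (Real.exp_pos _)] at h1
  have e1 : ∀ n : ℤ, Real.exp (-Real.pi / Real.exp (4 * u) * (n : ℝ) ^ 2) =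
      Real.exp (-Real.pi * Real.exp (4 * -u) * (n : ℝ) ^ 2) := by
    intro n
    congr 2
    rw [mul_neg, Real.exp_neg]; rfl
  simp_rw [e1] at h1
  rw [theta_int (Real.exp_pos _)] at h1
  rw [h1]
  have e2 : Real.exp (4 * u) ^ (1 / 2 : ℝ) = Real.exp (2 * u) := by
    rw [← Real.exp_mul]; congr 1; ring
  rw [e2, one_div, ← Real.exp_neg, ← mul_assoc, ← Real.exp_add]
  congr 2
  ring

lemma GG_real (u : ℝ) : GG u = ((Real.exp u * SS (Real.exp (4 * u)) : ℝ) : ℂ) := by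
  rw [GG, SS, ← tsum_mul_left, Complex.ofReal_tsum]
  refine tsum_congr fun n => ?_
  rw [gT, ← Real.exp_add]
  push_cast
  congr 1
  ring

noncomputable def PP (u : ℂ) : ℂ := exp u + 2 * GG u

lemma PP_even (u : ℝ) : PP (-u : ℝ) = PP u := by
  have h := theta_fe u
  rw [PP, PP, GG_real, GG_real]
  have h2 : ((Real.exp u * (1 + 2 * SS (Real.exp (4 * u))) : ℝ) : ℂ) =
    ((Real.exp (-u) * (1 + 2 * SS (Real.exp (4 * -u))) : ℝ) : ℂ) := by rw [h]
  push_cast at h2 ⊢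
  linear_combination -h2

lemma Phi_even (u : ℝ) : Phi (-u) = Phi u := by
  have hP1 : ∀ x : ℝ, HasDerivAt (fun y : ℝ => PP y) (exp x + 2 * deriv GG x) x := by
    intro x
    have h1 := (GG_hasSum1 (by positivity) (real_mem x)).2.hasDerivAt
    have h2 : HasDerivAt PP (exp x + 2 * deriv GG x) (x : ℂ) :=
      (Complex.hasDerivAt_exp _).add (h1.const_mul 2)
    exact h2.comp_ofReal
  have hP2 : ∀ x : ℝ, HasDerivAt (fun y : ℝ => exp (y : ℂ) + 2 * deriv GG y)
      (exp x + 2 * deriv (deriv GG) x) x := by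
    intro x
    have h1 := (GG_hasSum2 (by positivity) (real_mem x)).2.hasDerivAt
    have h2 : HasDerivAt (fun z : ℂ => exp z + 2 * deriv GG z) (exp x + 2 * deriv (deriv GG) x) (x : ℂ) :=
      (Complex.hasDerivAt_exp _).add (h1.const_mul 2)
    exact h2.comp_ofReal
  have hneg : ∀ x : ℝ, HasDerivAt (fun y : ℝ => -y) (-1) x := fun x => hasDerivAt_neg x
  -- first derivative is odd
  have hodd : ∀ x : ℝ, exp ((-x : ℝ) : ℂ) + 2 * deriv GG (-x : ℝ) = -(exp (x : ℂ) + 2 * deriv GG x) := by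
    intro x
    have h1 : HasDerivAt (fun y : ℝ => PP ((-y : ℝ) : ℂ))
        ((-1 : ℝ) • (exp ((-x : ℝ) : ℂ) + 2 * deriv GG (-x : ℝ))) x :=
      (hP1 (-x)).scomp x (hneg x)
    have h2 : (fun y : ℝ => PP ((-y : ℝ) : ℂ)) = fun y : ℝ => PP y := funext PP_even
    rw [h2] at h1
    have h3 := h1.unique (hP1 x)
    rw [← h3, neg_smul, one_smul, neg_neg]
  have heven : exp ((-u : ℝ) : ℂ) + 2 * deriv (deriv GG) (-u : ℝ) =
      exp (u : ℂ) + 2 * deriv (deriv GG) u := by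
    have h1 : HasDerivAt (fun y : ℝ => exp ((-y : ℝ) : ℂ) + 2 * deriv GG (-y : ℝ))
        ((-1 : ℝ) • (exp ((-u : ℝ) : ℂ) + 2 * deriv (deriv GG) (-u : ℝ))) u :=
      (hP2 (-u)).scomp u (hneg u)
    rw [funext hodd] at h1
    have h3 := h1.unique (hP2 u).neg
    have h4 : -(exp ((-u : ℝ) : ℂ) + 2 * deriv (deriv GG) (-u : ℝ)) =
        -(exp (u : ℂ) + 2 * deriv (deriv GG) u) := by
      rw [← h3, neg_smul, one_smul]
    exact neg_injective h4
  have a1 := (GG_Phi u).1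
  have a2 := (GG_Phi (-u)).1
  have a3 := PP_even u
  rw [PP, PP] at a3
  have h5 : (8 : ℂ) * (Phi (-u) : ℂ) = 8 * (Phi u : ℂ) := by
    rw [← a1, ← a2]
    linear_combination (1 / 2 : ℂ) * heven - (1 / 2 : ℂ) * a3
  have h6 := mul_left_cancel₀ (by norm_num) h5
  exact_mod_cast h6

end Pool.Agent.Helper87.HF
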