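import Pool.Agent.Helper87.HF.Bridge1
import Pool.Agent.Helper87.HF.Basic
import Pool.Agent.Helper87.HF.Abs4
import Pool.Graph.R_pool_sql_team_22a80281.Lib.helper19_.XiRep

set_option autoImplicit false

open Complex Set Filter Topology Metric MeasureTheory

namespace Pool.Agent.Helper87.HF

lemma Phi_cont : Continuous Phi := by
  rw [continuous_iff_continuousAt]
  intro u
  have hδ : 0 < Real.exp (4 * u) / 2 := by positivity
  have hd : DifferentiableOn ℂ GG (UU (Real.exp (4 * u) / 2) (u + 1)) := fun w hw =>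
    (GG_hasSum1 hδ hw).2.differentiableWithinAt
  have ha : AnalyticOnNhd ℂ GG (UU (Real.exp (4 * u) / 2) (u + 1)) :=
    hd.analyticOnNhd (UU_open _ _)
  have ha2 := (ha.deriv.deriv) (u : ℂ) (real_mem u)
  have ha0 := ha (u : ℂ) (real_mem u)
  have hc : ContinuousAt (fun x : ℝ => (deriv (deriv GG) (x : ℂ) - GG x) / 8) u := by
    have c1 : ContinuousAt (fun x : ℝ => (x : ℂ)) u := Complex.continuous_ofReal.continuousAt
    have c2 : ContinuousAt (fun x : ℝ => deriv (deriv GG) (x : ℂ)) u :=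
      ContinuousAt.comp (f := fun x : ℝ => (x : ℂ)) (g := deriv (deriv GG)) ha2.continuousAt c1
    have c3 : ContinuousAt (fun x : ℝ => GG (x : ℂ)) u :=
      ContinuousAt.comp (f := fun x : ℝ => (x : ℂ)) (g := GG) ha0.continuousAt c1
    exact (c2.sub c3).div_const 8
  have e : Phi = fun x : ℝ => ((deriv (deriv GG) (x : ℂ) - GG x) / 8).re := by
    funext x
    rw [(GG_Phi x).1, mul_div_cancel_left₀ _ (by norm_num), Complex.ofReal_re]
  rw [e]
  exact Complex.continuous_re.continuousAt.comp hc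

lemma phiT_le {n : ℕ} {u : ℝ} (hu : 0 ≤ u) : |phiT n u| ≤
    (2 * Real.pi ^ 2 * (((n : ℝ) + 1) ^ 4 * Real.exp (-(Real.pi / 2)) ^ (n + 1))) *
      Real.exp (9 * u - Real.pi / 2 * Real.exp (4 * u)) := by
  have hpi := Real.pi_gt_three
  have hn : (1 : ℝ) ≤ (n : ℝ) + 1 := by linarith [(Nat.cast_nonneg n : (0 : ℝ) ≤ n)]
  have hn2 : (n : ℝ) + 1 ≤ ((n : ℝ) + 1) ^ 2 := by nlinarith
  have he4 : 1 ≤ Real.exp (4 * u) := Real.one_le_exp (by linarith)
  have he9 : Real.exp (9 * u) = Real.exp (5 * u) * Real.exp (4 * u) := by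
    rw [← Real.exp_add]; congr 1; ring
  have h5 := Real.exp_pos (5 * u)
  rw [phiT, abs_mul, Real.abs_exp]
  have h1 : |2 * Real.pi ^ 2 * ((n : ℝ) + 1) ^ 4 * Real.exp (9 * u) -
      3 * Real.pi * ((n : ℝ) + 1) ^ 2 * Real.exp (5 * u)| ≤
      2 * Real.pi ^ 2 * ((n : ℝ) + 1) ^ 4 * Real.exp (9 * u) := by
    have a1 : 0 ≤ 3 * Real.pi * ((n : ℝ) + 1) ^ 2 * Real.exp (5 * u) := by positivity
    have a2 : 3 * Real.pi * ((n : ℝ) + 1) ^ 2 * Real.exp (5 * u) ≤
        2 * Real.pi ^ 2 * ((n : ℝ) + 1) ^ 4 * Real.exp (9 * u) := by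
      rw [he9]
      have b1 : 3 * Real.pi ≤ 2 * Real.pi ^ 2 := by nlinarith
      have b2 : ((n : ℝ) + 1) ^ 2 ≤ ((n : ℝ) + 1) ^ 4 := pow_le_pow_right₀ hn (by norm_num)
      have b3 : Real.exp (5 * u) ≤ Real.exp (5 * u) * Real.exp (4 * u) := by nlinarith
      gcongr
    rw [abs_le]
    constructor <;> linarith
  have h2 : Real.exp (-(Real.pi * ((n : ℝ) + 1) ^ 2 * Real.exp (4 * u))) ≤
      Real.exp (-(Real.pi / 2)) ^ (n + 1) * Real.exp (-(Real.pi / 2 * Real.exp (4 * u))) := by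
    rw [← Real.exp_nat_mul, ← Real.exp_add]
    apply Real.exp_le_exp.2
    push_cast
    have h3 : (((n : ℝ) + 1) ^ 2 + Real.exp (4 * u)) / 2 ≤ ((n : ℝ) + 1) ^ 2 * Real.exp (4 * u) := by
      nlinarith [mul_nonneg (sub_nonneg.2 (hn.trans hn2)) (sub_nonneg.2 he4)]
    nlinarith
  calc _ ≤ (2 * Real.pi ^ 2 * ((n : ℝ) + 1) ^ 4 * Real.exp (9 * u)) *
      (Real.exp (-(Real.pi / 2)) ^ (n + 1) * Real.exp (-(Real.pi / 2 * Real.exp (4 * u)))) := by
        gcongr
    _ = (2 * Real.pi ^ 2 * (((n : ℝ) + 1) ^ 4 * Real.exp (-(Real.pi / 2)) ^ (n + 1))) *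
        (Real.exp (9 * u) * Real.exp (-(Real.pi / 2 * Real.exp (4 * u)))) := by ring
    _ = _ := by
        rw [← Real.exp_add]
        congr 2

lemma Phi_bound : ∃ C : ℝ, 0 ≤ C ∧ ∀ u : ℝ, |Phi u| ≤ C * Real.exp (-(10 * u ^ 2)) := by
  set S : ℝ := ∑' n : ℕ, 2 * Real.pi ^ 2 * (((n : ℝ) + 1) ^ 4 * Real.exp (-(Real.pi / 2)) ^ (n + 1)) with hS
  have hsum : Summable (fun n : ℕ => 2 * Real.pi ^ 2 *
      (((n : ℝ) + 1) ^ 4 * Real.exp (-(Real.pi / 2)) ^ (n + 1))) := by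
    have := summable_geo 4 (δ := 1 / 2) (by norm_num) (2 * Real.pi ^ 2)
    have e : Real.pi * (1 / 2) = Real.pi / 2 := by ring
    rw [e] at this
    exact this
  have hS0 : 0 ≤ S := tsum_nonneg fun n => by positivity
  have hpos : ∀ u : ℝ, 0 ≤ u → |Phi u| ≤ S * Real.exp 11 * Real.exp (-(10 * u ^ 2)) := by
    intro u hu
    have h1 : |Phi u| ≤ S * Real.exp (9 * u - Real.pi / 2 * Real.exp (4 * u)) := by
      have hs2 := hsum.mul_right (Real.exp (9 * u - Real.pi / 2 * Real.exp (4 * u)))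
      have h2 := tsum_of_norm_bounded (f := fun n => phiT n u) hs2.hasSum (fun n => phiT_le hu)
      rw [Real.norm_eq_abs, tsum_mul_right] at h2
      exact h2
    refine h1.trans ?_
    rw [mul_assoc, ← Real.exp_add]
    refine mul_le_mul_of_nonneg_left (Real.exp_le_exp.2 ?_) hS0
    have h3 : 1 + 4 * u + (4 * u) ^ 2 / 2 ≤ Real.exp (4 * u) := Real.quadratic_le_exp_of_nonneg (by linarith)
    have hpi := Real.pi_gt_three
    have h4 : 3 / 2 * (1 + 4 * u + (4 * u) ^ 2 / 2) ≤ Real.pi / 2 * Real.exp (4 * u) := by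
      have : 0 ≤ 1 + 4 * u + (4 * u) ^ 2 / 2 := by positivity
      gcongr
    nlinarith [sq_nonneg (u - 1)]
  refine ⟨S * Real.exp 11, by positivity, fun u => ?_⟩
  rcases le_total 0 u with h | h
  · exact hpos u h
  · have := hpos (-u) (by linarith)
    rw [Phi_even, neg_sq] at this
    exact this

lemma exp_norm_le (w : ℂ) (u : ℝ) : ‖exp (2 * w * u)‖ ≤ Real.exp (‖w‖ ^ 2 + u ^ 2) := by
  rw [Complex.norm_exp]
  apply Real.exp_le_exp.2
  have e : (2 * w * u : ℂ).re = 2 * w.re * u := by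
    rw [mul_assoc, show (2 : ℂ) = ((2 : ℝ) : ℂ) by push_cast; rfl, Complex.re_ofReal_mul,
      Complex.re_mul_ofReal]
    ring
  rw [e]
  have h1 : w.re ^ 2 ≤ ‖w‖ ^ 2 := by
    rw [← sq_abs w.re]
    have := Complex.abs_re_le_norm w
    gcongr
  nlinarith [sq_nonneg (w.re - u)]

/-- integrand -/
noncomputable def KI (t : ℝ) (w : ℂ) (u : ℝ) : ℂ := ((Real.exp (t * u ^ 2) * Phi u : ℝ) : ℂ) * exp (2 * w * u)

lemma KI_cont (t : ℝ) (w : ℂ) : Continuous (KI t w) := by
  have := Phi_cont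
  unfold KI
  fun_prop

lemma KI_bound {t C : ℝ} (ht : t ≤ 1) (hC : ∀ u : ℝ, |Phi u| ≤ C * Real.exp (-(10 * u ^ 2))) (w : ℂ) (u : ℝ) :
    ‖KI t w u‖ ≤ C * Real.exp (‖w‖ ^ 2) * Real.exp (-(8 * u ^ 2)) := by
  have hC0 : 0 ≤ C := by
    have := (abs_nonneg _).trans (hC 0)
    simpa using this
  rw [KI, norm_mul, Complex.norm_real, Real.norm_eq_abs, abs_mul, Real.abs_exp]
  calc Real.exp (t * u ^ 2) * |Phi u| * ‖exp (2 * w * u)‖ ≤
      Real.exp (1 * u ^ 2) * (C * Real.exp (-(10 * u ^ 2))) * Real.exp (‖w‖ ^ 2 + u ^ 2) := by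
        gcongr
        · exact hC u
        · exact exp_norm_le w u
    _ = C * Real.exp (‖w‖ ^ 2) * (Real.exp (1 * u ^ 2) * Real.exp (-(10 * u ^ 2)) * Real.exp (u ^ 2)) := by
        rw [Real.exp_add]; ring
    _ = _ := by
        rw [← Real.exp_add, ← Real.exp_add]
        congr 2
        ring

lemma KI_integrable {t : ℝ} (ht : t ≤ 1) (w : ℂ) : Integrable (KI t w) := by
  obtain ⟨C, hC0, hC⟩ := Phi_bound
  refine ((int_gauss 8 (by norm_num)).const_mul (C * Real.exp (‖w‖ ^ 2))).mono' (KI_cont t w).aestronglyMeasurable ?_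
  exact Eventually.of_forall fun u => KI_bound ht hC w u

lemma KI_diff {t : ℝ} (ht : t ≤ 1) : Differentiable ℂ (fun w => ∫ u : ℝ, KI t w u) := by
  obtain ⟨C, hC0, hC⟩ := Phi_bound
  intro w0
  have key := hasDerivAt_integral_of_dominated_loc_of_deriv_le (μ := volume) (F := KI t)
    (F' := fun w u => KI t w u * (2 * u)) (x₀ := w0) (s := ball w0 1)
    (bound := fun u => C * Real.exp ((‖w0‖ + 1) ^ 2) * Real.exp (-(7 * u ^ 2))) (ball_mem_nhds w0 one_pos)
    (Eventually.of_forall fun w => (KI_cont t w).aestronglyMeasurable) (KI_integrable ht w0)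
    (((KI_cont t w0).mul (by fun_prop)).aestronglyMeasurable)
    (ae_of_all _ fun u w hw => by
      have h1 := KI_bound ht hC w u
      have h2 : ‖w‖ ≤ ‖w0‖ + 1 := by
        rw [mem_ball, dist_eq_norm] at hw
        have := norm_sub_norm_le w w0
        linarith
      have h3 : ‖(2 * u : ℂ)‖ ≤ Real.exp (u ^ 2) := by
        rw [norm_mul, Complex.norm_real, Complex.norm_ofNat, Real.norm_eq_abs]
        have := Real.add_one_le_exp (u ^ 2)
        nlinarith [sq_nonneg (|u| - 1), sq_abs u]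
      rw [norm_mul]
      calc ‖KI t w u‖ * ‖(2 * u : ℂ)‖ ≤ (C * Real.exp (‖w‖ ^ 2) * Real.exp (-(8 * u ^ 2))) * Real.exp (u ^ 2) := by
            gcongr
        _ = C * Real.exp (‖w‖ ^ 2) * (Real.exp (-(8 * u ^ 2)) * Real.exp (u ^ 2)) := by ring
        _ = C * Real.exp (‖w‖ ^ 2) * Real.exp (-(7 * u ^ 2)) := by
            rw [← Real.exp_add]; congr 2; ring
        _ ≤ _ := by gcongr)
    ((int_gauss 7 (by norm_num)).const_mul _)
    (ae_of_all _ fun u w _ => by
      unfold KI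
      have h1 : HasDerivAt (fun w : ℂ => 2 * w * (u : ℂ)) (2 * u) w := by
        simpa using ((hasDerivAt_id w).const_mul 2).mul_const (u : ℂ)
      have := h1.cexp.const_mul (((Real.exp (t * u ^ 2) * Phi u : ℝ) : ℂ))
      rw [← mul_assoc] at this
      exact this)
  exact key.2.differentiableAt

lemma Phi_phi (τ : ℝ) : ∑' n : ℕ, H19Xi.phi n τ = 2 * Phi (τ / 2) := by
  rw [Phi, ← tsum_mul_left]
  refine tsum_congr fun n => ?_
  rw [H19Xi.phi, phiT]
  congr 4
  · congr 1; ring_nf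
  · ring_nf
  · ring_nf

lemma Phi_mellin_half {w : ℂ} (hw : w.re = 3 / 2) : ∫ u : ℝ, KI 0 w u = fx w / 32 := by
  have hs : (1 / 2 + w).re = 2 := by
    rw [Complex.add_re, hw]; norm_num
  -- the sum over n
  have hint : ∀ n : ℕ, Integrable (fun τ : ℝ => (H19Xi.phi n τ : ℂ) * exp (w * τ)) := by
    intro n
    have h := H19Xi.phi_integrable n (s := 1 / 2 + w) (by rw [hs]; norm_num)
    rw [add_sub_cancel_left] at h
    exact h
  have hval : ∀ n : ℕ, ∫ τ : ℝ, (H19Xi.phi n τ : ℂ) * exp (w * τ) =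
      H19Xi.gam (1 / 2 + w) * exp (-((1 / 2 + w) * H19Xi.ll n)) := by
    intro n
    have h := H19Xi.phi_mellin n (s := 1 / 2 + w) (by rw [hs]; norm_num)
    rw [add_sub_cancel_left] at h
    exact h
  have hnorm : ∀ n : ℕ, ∫ τ : ℝ, ‖(H19Xi.phi n τ : ℂ) * exp (w * τ)‖ ≤ 7 * (1 / ((n : ℝ) + 1) ^ 2) := by
    intro n
    have e : ∀ τ : ℝ, ‖(H19Xi.phi n τ : ℂ) * exp (w * τ)‖ = H19Xi.psi n τ := by
      intro τ
      rw [H19Xi.psi_eq, norm_mul, Complex.norm_real, Real.norm_eq_abs, Complex.norm_exp,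
        Complex.re_mul_ofReal, hw]
    simp_rw [e]
    rw [mul_one_div]
    exact H19Xi.psi_int n
  have hsum := hasSum_integral_of_summable_integral_norm hint
    (Summable.of_nonneg_of_le (fun n => integral_nonneg fun _ => norm_nonneg _) hnorm
      (H19Xi.summable_sq.mul_left _))
  have e1 : ∀ τ : ℝ, ∑' n : ℕ, (H19Xi.phi n τ : ℂ) * exp (w * τ) =
      2 * KI 0 w (τ / 2) := by
    intro τ
    rw [tsum_mul_right, ← Complex.ofReal_tsum, Phi_phi, KI]
    push_cast
    rw [zero_mul, Complex.exp_zero, one_mul, mul_assoc]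
    congr 3
    ring
  simp_rw [e1] at hsum
  rw [integral_const_mul] at hsum
  have e2 : ∫ τ : ℝ, KI 0 w (τ / 2) = 2 * ∫ u : ℝ, KI 0 w u := by
    have := Measure.integral_comp_div (KI 0 w) (2 : ℝ)
    rw [this, abs_of_pos two_pos, Complex.real_smul]
    push_cast; rfl
  rw [e2] at hsum
  have e3 : ∑' n : ℕ, ∫ τ : ℝ, (H19Xi.phi n τ : ℂ) * exp (w * τ) =
      H19Xi.gam (1 / 2 + w) * riemannZeta (1 / 2 + w) := by
    simp_rw [hval]
    rw [tsum_mul_left, zeta_eq_tsum_one_div_nat_add_one_cpow (by rw [hs]; norm_num)]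
    congr 1
    refine tsum_congr fun n => ?_
    have hn : ((n : ℂ) + 1) ≠ 0 := by
      have : ((n : ℂ) + 1) = (((n : ℝ) + 1 : ℝ) : ℂ) := by push_cast; rfl
      rw [this]
      exact_mod_cast (by positivity : ((n : ℝ) + 1) ≠ 0)
    rw [Complex.cpow_def_of_ne_zero hn, one_div (exp _), ← Complex.exp_neg, H19Xi.ll]
    congr 1
    have : ((n : ℂ) + 1) = (((n : ℝ) + 1 : ℝ) : ℂ) := by push_cast; rfl
    rw [this, ← Complex.ofReal_log (by positivity)]
    ring
  have h4 := hsum.tsum_eq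
  rw [e3] at h4
  rw [fx_gam (by rw [hw]; norm_num) (by rintro rfl; norm_num at hw), mul_assoc, h4]
  ring

lemma Phi_mellin (w : ℂ) : ∫ u : ℝ, KI 0 w u = fx w / 32 := by
  have h : (fun w => ∫ u : ℝ, KI 0 w u) = fun w => fx w / 32 := by
    refine AnalyticOnNhd.eq_of_frequently_eq (z₀ := (3 / 2 : ℂ)) (fun z _ => (KI_diff zero_le_one).analyticAt z)
      (fun z _ => (fx_diff.div_const 32).analyticAt z) ?_
    have ht : Tendsto (fun n : ℕ => (3 / 2 : ℂ) + I * ((1 / ((n : ℝ) + 1) : ℝ) : ℂ)) atTop (𝓝[≠] (3 / 2 : ℂ)) := by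
      rw [tendsto_nhdsWithin_iff]
      constructor
      · have h1 : Tendsto (fun n : ℕ => ((1 / ((n : ℝ) + 1) : ℝ) : ℂ)) atTop (𝓝 ((0 : ℝ) : ℂ)) :=
          (Complex.continuous_ofReal.tendsto 0).comp tendsto_one_div_add_atTop_nhds_zero_nat
        have h2 := (h1.const_mul I).const_add (3 / 2 : ℂ)
        simpa using h2
      · refine Eventually.of_forall fun n => ?_
        simp only [mem_compl_iff, mem_singleton_iff]
        intro h
        have h3 := congrArg Complex.im h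
        rw [Complex.add_im, Complex.I_mul_im, Complex.ofReal_re] at h3
        have h4 : (3 / 2 : ℂ).im = 0 := by norm_num
        rw [h4, zero_add] at h3
        have : (0 : ℝ) < 1 / ((n : ℝ) + 1) := by positivity
        linarith
    refine ht.frequently (Frequently.of_forall fun n => ?_)
    apply Phi_mellin_half
    rw [Complex.add_re, Complex.I_mul_re, Complex.ofReal_im]
    norm_num
  exact congrFun h w

lemma gauss_lin {t : ℝ} (ht : 0 < t) (u : ℝ) :
    ∫ x : ℝ, exp (-(x : ℂ) ^ 2 / t) * exp (2 * (x : ℂ) * u) =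
      ((Real.sqrt (Real.pi * t) * Real.exp (t * u ^ 2) : ℝ) : ℂ) := by
  have hb : (-(1 / t : ℝ) : ℂ).re < 0 := by
    rw [Complex.neg_re, Complex.ofReal_re]
    have : 0 < 1 / t := by positivity
    linarith
  have h := integral_cexp_quadratic hb (2 * (u : ℂ)) 0
  have htc : (t : ℂ) ≠ 0 := by exact_mod_cast ht.ne'
  have e1 : ∀ x : ℝ, exp (-(x : ℂ) ^ 2 / t) * exp (2 * (x : ℂ) * u) =
      exp (-(1 / t : ℝ) * (x : ℂ) ^ 2 + 2 * (u : ℂ) * x + 0) := by
    intro x
    rw [← Complex.exp_add]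
    congr 1
    push_cast
    ring
  simp_rw [e1]
  rw [h]
  have e2 : ((Real.pi : ℂ) / -(-((1 / t : ℝ) : ℂ))) ^ (1 / 2 : ℂ) = ((Real.sqrt (Real.pi * t) : ℝ) : ℂ) := by
    rw [neg_neg, Real.sqrt_eq_rpow, Complex.ofReal_cpow (by positivity)]
    push_cast
    congr 1
    field_simp
  have e3 : (0 : ℂ) - (2 * (u : ℂ)) ^ 2 / (4 * -((1 / t : ℝ) : ℂ)) = ((t * u ^ 2 : ℝ) : ℂ) := by
    push_cast
    field_simp
    ring
  rw [e2, e3]
  push_cast
  rfl

/-- The Gaussian average as a Laplace transform of the heat-flowed kernel. -/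
lemma GT_Phi {t : ℝ} (ht : 0 < t) (ht2 : t ≤ 1 / 40) (w : ℂ) :
    GT t fx w = 32 * Real.sqrt (Real.pi * t) * ∫ u : ℝ, KI t w u := by
  obtain ⟨C, hC0, hC⟩ := Phi_bound
  have e1 : ∀ x : ℝ, exp (-(x : ℂ) ^ 2 / t) * fx (w + x) =
      ∫ u : ℝ, 32 * (exp (-(x : ℂ) ^ 2 / t) * KI 0 (w + x) u) := by
    intro x
    rw [integral_const_mul, integral_const_mul, Phi_mellin]
    ring
  rw [GT]
  simp_rw [e1]
  rw [integral_integral_swap]
  · have e2 : ∀ u : ℝ, ∫ x : ℝ, 32 * (exp (-(x : ℂ) ^ 2 / t) * KI 0 (w + x) u) =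
        32 * Real.sqrt (Real.pi * t) * KI t w u := by
      intro u
      have e3 : ∀ x : ℝ, 32 * (exp (-(x : ℂ) ^ 2 / t) * KI 0 (w + x) u) =
          32 * (KI 0 w u) * (exp (-(x : ℂ) ^ 2 / t) * exp (2 * (x : ℂ) * u)) := by
        intro x
        rw [KI, KI, show (2 * (w + x) * u : ℂ) = 2 * w * u + 2 * x * u by ring, Complex.exp_add]
        ring
      simp_rw [e3]
      rw [integral_const_mul, gauss_lin ht, KI, KI]
      push_cast
      rw [zero_mul, Complex.exp_zero]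
      ring
    simp_rw [e2]
    rw [integral_const_mul]
  · have hb : Integrable (fun p : ℝ × ℝ => (32 * (C * Real.exp (‖w‖ ^ 2)) * Real.exp (-(38 * p.1 ^ 2))) *
        Real.exp (-(7 * p.2 ^ 2))) (volume.prod volume) :=
      ((int_gauss 38 (by norm_num)).const_mul _).mul_prod (int_gauss 7 (by norm_num))
    refine hb.mono' ?_ ?_
    · refine Continuous.aestronglyMeasurable ?_
      have := Phi_cont
      unfold Function.uncurry KI
      fun_prop
    · refine Eventually.of_forall fun p => ?_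
      obtain ⟨x, u⟩ := p
      simp only [Function.uncurry]
      rw [norm_mul, norm_mul, norm_gauss0, Complex.norm_ofNat]
      have h1 : KI 0 (w + x) u = KI 0 w u * exp (2 * (x : ℂ) * u) := by
        rw [KI, KI, show (2 * (w + x) * u : ℂ) = 2 * w * u + 2 * x * u by ring, Complex.exp_add]
        ring
      have h2 := KI_bound zero_le_one hC w u
      have h3 := exp_norm_le (x : ℂ) u
      rw [Complex.norm_real, Real.norm_eq_abs, sq_abs] at h3
      rw [h1, norm_mul]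
      calc 32 * (Real.exp (-x ^ 2 / t) * (‖KI 0 w u‖ * ‖exp (2 * (x : ℂ) * u)‖)) ≤
          32 * (Real.exp (-(40 * x ^ 2)) * ((C * Real.exp (‖w‖ ^ 2) * Real.exp (-(8 * u ^ 2))) *
            Real.exp (x ^ 2 + u ^ 2))) := by
            gcongr
            exact gauss_le ht ht2 x
        _ = 32 * (C * Real.exp (‖w‖ ^ 2)) * ((Real.exp (-(40 * x ^ 2)) * Real.exp (x ^ 2)) *
            (Real.exp (-(8 * u ^ 2)) * Real.exp (u ^ 2))) := by
            rw [Real.exp_add]; ring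
        _ ≤ 32 * (C * Real.exp (‖w‖ ^ 2)) * (Real.exp (-(38 * x ^ 2)) * Real.exp (-(7 * u ^ 2))) := by
            rw [← Real.exp_add, ← Real.exp_add]
            gcongr
            · nlinarith [sq_nonneg x]
            · nlinarith [sq_nonneg u]
        _ = _ := by ring

/-- The de Bruijn–Newman family `H_t(z) = ∫_0^∞ e^{tu²} Φ(u) cos(zu) du`. -/
noncomputable def Ht (t : ℝ) (z : ℂ) : ℂ :=
  ∫ u in Ioi (0 : ℝ), ((Real.exp (t * u ^ 2) * Phi u : ℝ) : ℂ) * Complex.cos (z * u)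

lemma KI_Ht {t : ℝ} (ht : t ≤ 1) (z : ℂ) : ∫ u : ℝ, KI t (I * z / 2) u = 2 * Ht t z := by
  have hi := KI_integrable ht (I * z / 2)
  have h0 := integral_add_compl (μ := volume) (measurableSet_Ioi (a := (0 : ℝ))) hi
  have h1 := integral_comp_neg_Ioi (0 : ℝ) (fun u => KI t (I * z / 2) u)
  rw [neg_zero] at h1
  rw [← h0, compl_Ioi, ← h1, ← integral_add hi.integrableOn]
  · rw [Ht, ← integral_const_mul]
    refine setIntegral_congr_fun measurableSet_Ioi fun u _ => ?_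
    simp only [KI]
    rw [Phi_even, neg_sq, Complex.cos, Complex.ofReal_neg]
    rw [show (2 * (I * z / 2) * u : ℂ) = z * u * I by ring,
      show (2 * (I * z / 2) * -u : ℂ) = -(z * u) * I by ring]
    ring
  · have h2 := hi.comp_neg
    exact h2.integrableOn

/-- The bridge. -/
lemma GT_Ht {t : ℝ} (ht : 0 < t) (ht2 : t ≤ 1 / 40) (z : ℂ) :
    GT t fx (I * z / 2) = 64 * Real.sqrt (Real.pi * t) * Ht t z := by
  rw [GT_Phi ht ht2, KI_Ht (by linarith)]
  ring

end Pool.Agent.Helper87.HF
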