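import Pool.Agent.Helper87.HF.LH

set_option autoImplicit false

/-!
# The closed formula for the horizon exponent
-/

open Complex Set Filter Topology Metric MeasureTheory

namespace Pool.Agent.Helper87.HF

/-! ### the exact law, line by line -/

/-- `|ζ(1/2 + v + iT)| ≤ T^(a + o(1))` -/
def Gr (v a : ℝ) : Prop :=
  ∀ ε : ℝ, 0 < ε → ∃ T0 : ℝ, ∀ T : ℝ, T0 ≤ T →
    ‖riemannZeta (1 / 2 + T * I + v)‖ ≤ Real.exp ((a + ε) * Real.log T)

lemma chord {κ a b x : ℝ} (hκ : 0 < κ) (hab : a < b) :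
    ((κ / 4 - a) ^ 2 / κ * (b - x) + (κ / 4 - b) ^ 2 / κ * (x - a)) / (b - a) =
      (κ / 4 - x) ^ 2 / κ + (x - a) * (b - x) / κ := by
  have h1 : b - a ≠ 0 := (sub_pos.2 hab).ne'
  field_simp
  ring

lemma uniform_of_pt (κ : ℝ) (hκ : 0 < κ) (hκ4 : κ ≤ 4)
    (h : ∀ v : ℝ, 0 ≤ v → v ≤ κ / 4 → Gr v ((κ / 4 - v) ^ 2 / κ)) (ε : ℝ) (hε : 0 < ε) :
    ∃ T0 : ℝ, ∀ T v : ℝ, T0 ≤ T → 0 ≤ v → v ≤ κ / 4 →
    ‖riemannZeta (1 / 2 + T * I + v)‖ ≤ Real.exp (((κ / 4 - v) ^ 2 / κ + ε) * Real.log T) := by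
  obtain ⟨N, hN⟩ := exists_nat_gt (κ / (8 * ε) + 1)
  have hN1 : (1 : ℝ) < N := by
    have : 0 < κ / (8 * ε) := by positivity
    linarith
  have hN0 : (0 : ℝ) < N := by linarith
  set l : ℝ := κ / (4 * N) with hl
  have hl0 : 0 < l := by positivity
  have hlN : l * N = κ / 4 := by rw [hl]; field_simp
  have hl2 : l ^ 2 / κ ≤ ε / 2 := by
    have e1 : l ^ 2 / κ = κ / (16 * N ^ 2) := by rw [hl]; field_simp; ring
    rw [e1, div_le_iff₀ (by positivity)]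
    have h1 : κ / (8 * ε) ≤ N := by linarith
    rw [div_le_iff₀ (by positivity)] at h1
    have h2 : (N : ℝ) ≤ N ^ 2 := by nlinarith
    nlinarith
  have hg : ∀ j : ℕ, j < N → ∃ T0 : ℝ, 1 ≤ T0 ∧ ∀ T x : ℝ, T0 ≤ T → l * j ≤ x → x ≤ l * (j + 1) →
      ‖riemannZeta (1 / 2 + T * I + x)‖ ≤ Real.exp (((κ / 4 - x) ^ 2 / κ + ε) * Real.log T) := by
    intro j hj
    have hjN : (j : ℝ) + 1 ≤ N := by exact_mod_cast hj
    have hj0 : (0 : ℝ) ≤ j := Nat.cast_nonneg _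
    have ha0 : 0 ≤ l * j := by positivity
    have hab : l * j < l * (j + 1) := by nlinarith
    have hbk : l * (j + 1) ≤ κ / 4 := by rw [← hlN]; gcongr
    obtain ⟨T0, hT01, hT0⟩ := growth_mid (l * j) (l * (j + 1)) ((κ / 4 - l * j) ^ 2 / κ)
      ((κ / 4 - l * (j + 1)) ^ 2 / κ) ha0 hab (by linarith) (by positivity) (by positivity)
      (h (l * j) ha0 (by linarith)) (h (l * (j + 1)) (by linarith) hbk) (ε / 2) (by positivity)
    refine ⟨T0, hT01, fun T x hT hx1 hx2 => (hT0 T x hT hx1 hx2).trans (Real.exp_le_exp.2 ?_)⟩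
    have hL0 : 0 ≤ Real.log T := Real.log_nonneg (by linarith)
    refine mul_le_mul_of_nonneg_right ?_ hL0
    rw [chord hκ hab]
    have h5 : (x - l * j) * (l * (j + 1) - x) / κ ≤ l ^ 2 / κ := by
      gcongr
      have e1 : x - l * j ≤ l := by linarith
      have e2 : l * (j + 1) - x ≤ l := by linarith
      calc (x - l * j) * (l * (j + 1) - x) ≤ l * l := by
            apply mul_le_mul e1 e2 (by linarith) hl0.le
        _ = l ^ 2 := by ring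
    linarith
  choose! f hf1 hf using hg
  refine ⟨∑ j ∈ Finset.range N, |f j|, fun T v hT hv0 hv1 => ?_⟩
  have hNn : 1 < N := by exact_mod_cast hN1
  set j : ℕ := min ⌊v / l⌋₊ (N - 1) with hj
  have hjN : j < N := (min_le_right _ _).trans_lt (by omega)
  have hfj : f j ≤ T := by
    refine (le_abs_self _).trans (le_trans ?_ hT)
    exact Finset.single_le_sum (f := fun j => |f j|) (fun _ _ => abs_nonneg _) (Finset.mem_range.2 hjN)
  refine hf j hjN T v hfj ?_ ?_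
  · have h1 : (j : ℝ) ≤ v / l := by
      have : (j : ℝ) ≤ (⌊v / l⌋₊ : ℝ) := by exact_mod_cast min_le_left _ _
      exact this.trans (Nat.floor_le (by positivity))
    rw [le_div_iff₀ hl0] at h1
    linarith
  · rcases le_total ⌊v / l⌋₊ (N - 1) with h2 | h2
    · have h3 : j = ⌊v / l⌋₊ := min_eq_left h2
      have h4 := Nat.lt_floor_add_one (v / l)
      rw [← h3, div_lt_iff₀ hl0] at h4
      linarith
    · have h3 : j = N - 1 := min_eq_right h2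
      have h4 : ((j : ℕ) : ℝ) + 1 = N := by
        rw [h3]; push_cast [Nat.cast_sub hNn.le]; ring
      rw [h4, hlN]
      exact hv1

/-- The horizon law, line by line. -/
theorem horizon_pt (κ : ℝ) (hκ : 0 < κ) : RealBeyond κ ↔
    ZFree (κ / 4) ∧ ∀ v : ℝ, 0 ≤ v → v ≤ κ / 4 → Gr v ((κ / 4 - v) ^ 2 / κ) := by
  constructor
  · intro h
    obtain ⟨h1, h2⟩ := (horizon_real κ hκ).1 h
    refine ⟨fun ε hε => ?_, fun v hv0 hv1 ε hε => ?_⟩
    · obtain ⟨T0, h0⟩ := h1 ε hε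
      exact ⟨T0, fun T σ hT hσ => h0 T σ hT (by linarith)⟩
    · obtain ⟨T0, h0⟩ := h2 ε hε
      refine ⟨T0, fun T hT => ?_⟩
      have := h0 T v hT hv0 hv1
      rwa [zero_add] at this
  · rintro ⟨h1, h2⟩
    rcases le_total κ 4 with h4 | h4
    · rw [horizon_real κ hκ]
      refine ⟨fun ε hε => ?_, fun ε hε => ?_⟩
      · obtain ⟨T0, h0⟩ := h1 ε hε
        exact ⟨T0, fun T σ hT hσ => h0 T σ hT (by linarith)⟩
      · obtain ⟨T0, h0⟩ := uniform_of_pt κ hκ h4 h2 ε hε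
        refine ⟨T0, fun T v hT hv0 hv1 => ?_⟩
        rw [zero_add]
        exact h0 T v hT hv0 hv1
    · intro κ' hκ'
      have := RealBeyond_of_ZFree (1 / 2) (by norm_num) le_rfl ZFree_half
      exact this κ' (by linarith)

/-! ### the algebra -/

lemma alg_iff {κ m v : ℝ} (hκ : 0 < κ) (hm : 0 ≤ m) (hv : 0 ≤ v) :
    4 * (√m + √(m + v)) ^ 2 ≤ κ ↔ v ≤ κ / 4 ∧ m ≤ (κ / 4 - v) ^ 2 / κ := by
  set p := √m with hp
  set q := √(m + v) with hq
  have hp0 : 0 ≤ p := Real.sqrt_nonneg _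
  have hq0 : 0 ≤ q := Real.sqrt_nonneg _
  have hp2 : p ^ 2 = m := Real.sq_sqrt hm
  have hq2 : q ^ 2 = m + v := Real.sq_sqrt (by linarith)
  have hpq : p ≤ q := Real.sqrt_le_sqrt (by linarith)
  rw [le_div_iff₀ hκ]
  set K := κ / 4 with hK
  have hK0 : 0 < K := by positivity
  have hκK : κ = 4 * K := by rw [hK]; ring
  have hv2 : v = q ^ 2 - p ^ 2 := by linarith
  constructor
  · intro h
    have h1 : (p + q) ^ 2 ≤ K := by linarith
    refine ⟨by nlinarith, ?_⟩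
    rw [← hp2, hv2, hκK]
    have h2 : 0 ≤ (K - (p + q) ^ 2) * (K - (q - p) ^ 2) := by
      apply mul_nonneg (by linarith)
      nlinarith [mul_nonneg hp0 hq0]
    nlinarith
  · rintro ⟨h1, h2⟩
    set x := √K with hx
    have hx0 : 0 < x := Real.sqrt_pos.2 hK0
    have hx2 : x ^ 2 = K := Real.sq_sqrt hK0.le
    have h3 : 2 * x * p ≤ K - v := by
      apply le_of_sq_le_sq (a := 2 * x * p) (b := K - v) ?_ (by linarith)
      have : (2 * x * p) ^ 2 = 4 * K * m := by rw [← hx2, ← hp2]; ring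
      rw [this]
      rw [hκK] at h2
      linarith
    have h4 : q ^ 2 ≤ (x - p) ^ 2 := by nlinarith
    have h5 : p + q ≤ x := by
      by_contra hcon
      push Not at hcon
      have h6 : |x - p| < q := by
        rw [abs_lt]
        constructor <;> linarith
      have h7 : (x - p) ^ 2 < q ^ 2 := by
        rw [← sq_abs]
        exact pow_lt_pow_left₀ h6 (abs_nonneg _) two_ne_zero
      linarith
    have h8 : (p + q) ^ 2 ≤ x ^ 2 := pow_le_pow_left₀ (by positivity) h5 2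
    linarith

/-! ### `μ(σ)` -/

/-- The order of zeta on the line `Re s = σ`: the infimum of the `a ≥ 0` with `|ζ(σ + iT)| ≤ T^a` for all
large `T`. -/
noncomputable def mu (σ : ℝ) : ℝ :=
  sInf {a : ℝ | 0 ≤ a ∧ ∃ T0 : ℝ, ∀ T : ℝ, T0 ≤ T → ‖riemannZeta (σ + T * I)‖ ≤ T ^ a}

lemma mu_nonneg (σ : ℝ) : 0 ≤ mu σ := Real.sInf_nonneg fun _ h => h.1

lemma line_eq (σ T : ℝ) : (1 / 2 + T * I + ((σ - 1 / 2 : ℝ) : ℂ) : ℂ) = σ + T * I := by
  push_cast; ring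

lemma mu_bddBelow (σ : ℝ) : BddBelow {a : ℝ | 0 ≤ a ∧ ∃ T0 : ℝ, ∀ T : ℝ, T0 ≤ T →
    ‖riemannZeta (σ + T * I)‖ ≤ T ^ a} := ⟨0, fun _ h => h.1⟩

lemma mu_mem_of_Gr {σ a ε : ℝ} (ha : 0 ≤ a) (hε : 0 < ε) (h : Gr (σ - 1 / 2) a) :
    a + ε ∈ {a : ℝ | 0 ≤ a ∧ ∃ T0 : ℝ, ∀ T : ℝ, T0 ≤ T → ‖riemannZeta (σ + T * I)‖ ≤ T ^ a} := by
  obtain ⟨T0, h0⟩ := h ε hε
  refine ⟨by linarith, max T0 1, fun T hT => ?_⟩
  have h1 := h0 T ((le_max_left _ _).trans hT)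
  have h2 : 1 ≤ T := (le_max_right _ _).trans hT
  rw [line_eq] at h1
  rwa [Real.rpow_def_of_pos (by linarith), mul_comm (Real.log T)]

lemma mu_le_of_Gr {σ a : ℝ} (ha : 0 ≤ a) (h : Gr (σ - 1 / 2) a) : mu σ ≤ a :=
  le_of_forall_pos_le_add fun _ hε => csInf_le (mu_bddBelow σ) (mu_mem_of_Gr ha hε h)

lemma Gr_crude {v : ℝ} (hv : 0 ≤ v) : Gr v (max 0 ((1 / 2 - v) / 2)) := by
  intro ε hε
  obtain ⟨T0, _, h0⟩ := growth_of_ZFree (1 / 2) (by norm_num) le_rfl ZFree_half ε hε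
  exact ⟨T0, fun T hT => h0 T v hT hv⟩

lemma mu_le_iff {σ a : ℝ} (hσ : 1 / 2 ≤ σ) (ha : 0 ≤ a) : mu σ ≤ a ↔ Gr (σ - 1 / 2) a := by
  refine ⟨fun h ε hε => ?_, mu_le_of_Gr ha⟩
  have hne : {a : ℝ | 0 ≤ a ∧ ∃ T0 : ℝ, ∀ T : ℝ, T0 ≤ T → ‖riemannZeta (σ + T * I)‖ ≤ T ^ a}.Nonempty :=
    ⟨_, mu_mem_of_Gr (le_max_left _ _) one_pos (Gr_crude (v := σ - 1 / 2) (by linarith))⟩
  obtain ⟨b, ⟨hb0, T0, hb⟩, hlt⟩ := exists_lt_of_csInf_lt hne (show mu σ < a + ε by linarith)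
  refine ⟨max T0 1, fun T hT => ?_⟩
  have h1 := hb T ((le_max_left _ _).trans hT)
  have h2 : 1 ≤ T := (le_max_right _ _).trans hT
  rw [line_eq, mul_comm (a + ε), ← Real.rpow_def_of_pos (by linarith)]
  exact h1.trans (Real.rpow_le_rpow_of_exponent_le h2 hlt.le)

/-! ### `Θ` -/

/-- The upper limit of the real parts of the zeros of zeta: the infimum of the `θ ≥ 1/2` such that the zeros
with real part `> θ` have bounded height. -/
noncomputable def Theta : ℝ :=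
  sInf {θ : ℝ | 1 / 2 ≤ θ ∧ ∃ T0 : ℝ, ∀ s : ℂ, T0 ≤ s.im → θ < s.re → riemannZeta s ≠ 0}

lemma Theta_bdd : BddBelow {θ : ℝ | 1 / 2 ≤ θ ∧ ∃ T0 : ℝ, ∀ s : ℂ, T0 ≤ s.im → θ < s.re →
    riemannZeta s ≠ 0} := ⟨1 / 2, fun _ h => h.1⟩

lemma Theta_one : (1 : ℝ) ∈ {θ : ℝ | 1 / 2 ≤ θ ∧ ∃ T0 : ℝ, ∀ s : ℂ, T0 ≤ s.im → θ < s.re →
    riemannZeta s ≠ 0} :=
  ⟨by norm_num, 0, fun _ _ hs => riemannZeta_ne_zero_of_one_le_re hs.le⟩

lemma Theta_ge : 1 / 2 ≤ Theta := le_csInf ⟨1, Theta_one⟩ fun _ h => h.1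

lemma Theta_le : Theta ≤ 1 := csInf_le Theta_bdd Theta_one

lemma Theta_le_iff {d : ℝ} (hd : 0 ≤ d) : Theta ≤ 1 / 2 + d ↔ ZFree d := by
  constructor
  · intro h ε hε
    obtain ⟨θ, ⟨hθ, T0, h0⟩, hlt⟩ := exists_lt_of_csInf_lt ⟨1, Theta_one⟩
      (show Theta < 1 / 2 + d + ε by linarith)
    refine ⟨T0, fun T σ hT hσ => h0 _ ?_ ?_⟩
    · simpa using hT
    · have : (1 / 2 + T * I + σ : ℂ).re = 1 / 2 + σ := by simp
      rw [this]; linarith
  · intro h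
    refine le_of_forall_pos_le_add fun ε hε => csInf_le Theta_bdd ⟨by linarith, ?_⟩
    obtain ⟨T0, h0⟩ := h ε hε
    refine ⟨T0, fun s hs1 hs2 => ?_⟩
    have h1 := h0 s.im (s.re - 1 / 2) hs1 (by linarith)
    have e : (1 / 2 + s.im * I + ((s.re - 1 / 2 : ℝ) : ℂ) : ℂ) = s := by
      apply Complex.ext
      · simp
      · simp
    rwa [e] at h1

lemma mu_right {σ : ℝ} (hσ : Theta < σ) : mu σ = 0 := by
  have h1 := Theta_ge
  have h2 := Theta_le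
  have hz : ZFree (Theta - 1 / 2) := (Theta_le_iff (by linarith)).1 (by linarith)
  refine le_antisymm (mu_le_of_Gr le_rfl fun ε hε => ?_) (mu_nonneg σ)
  obtain ⟨T0, _, h0⟩ := growth_of_ZFree (Theta - 1 / 2) (by linarith) (by linarith) hz ε hε
  refine ⟨T0, fun T hT => ?_⟩
  have := h0 T (σ - 1 / 2) hT (by linarith)
  rwa [max_eq_left (by linarith)] at this

/-! ### the last zero -/

/-- the set of the `|Re z|` of the zeros of `H_t` that are not real and simple, and `1` -/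
def badSet (t : ℝ) : Set ℝ :=
  {x : ℝ | x = 1 ∨ ∃ z : ℂ, Ht t z = 0 ∧ |z.im| ≤ 2 ∧ ¬(z.im = 0 ∧ deriv (Ht t) z ≠ 0) ∧ x = |z.re|}

/-- The last zero. -/
noncomputable def XX (t : ℝ) : ℝ := sSup (badSet t)

/-- The horizon exponent. -/
noncomputable def kappaStar : ℝ := Filter.limsup (fun t : ℝ => t * Real.log (XX t)) (𝓝[>] 0)

lemma bad_bdd {κ t : ℝ} (hκ : 0 ≤ κ) (ht : 0 < t) (h : ∀ z : ℂ, Real.exp (κ / t) ≤ |z.re| → |z.im| ≤ 2 →
    Ht t z = 0 → z.im = 0 ∧ deriv (Ht t) z ≠ 0) : Real.exp (κ / t) ∈ upperBounds (badSet t) := by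
  rintro x (rfl | ⟨z, h1, h2, h3, rfl⟩)
  · rw [← Real.exp_zero]
    exact Real.exp_le_exp.2 (by positivity)
  · by_contra hcon
    push Not at hcon
    exact h3 (h z hcon.le h2 h1)

lemma one_mem_bad (t : ℝ) : (1 : ℝ) ∈ badSet t := Or.inl rfl

lemma ev_bdd {κ κ' : ℝ} (hκ : 0 ≤ κ) (hκ' : κ < κ') (h : RealBeyond κ) :
    ∀ᶠ t in 𝓝[>] (0 : ℝ), Real.exp (κ' / t) ∈ upperBounds (badSet t) := by
  obtain ⟨t0, ht0, h0⟩ := h κ' hκ'
  filter_upwards [Ioo_mem_nhdsGT ht0] with t ht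
  exact bad_bdd (by linarith) ht.1 (h0 t ht.1 ht.2.le)

lemma ev_XX_ge : ∀ᶠ t in 𝓝[>] (0 : ℝ), 1 ≤ XX t ∧ BddAbove (badSet t) := by
  filter_upwards [ev_bdd (by norm_num) (show (27 / 10 : ℝ) < 3 by norm_num) RealBeyond_corput] with t ht
  exact ⟨le_csSup ⟨_, ht⟩ (one_mem_bad t), ⟨_, ht⟩⟩

lemma ev_le {κ κ' : ℝ} (hκ : 0 ≤ κ) (hκ' : κ < κ') (h : RealBeyond κ) :
    ∀ᶠ t in 𝓝[>] (0 : ℝ), t * Real.log (XX t) ≤ κ' := by
  filter_upwards [ev_bdd hκ hκ' h, ev_XX_ge, self_mem_nhdsWithin] with t h1 h2 ht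
  have ht0 : 0 < t := ht
  have h3 : XX t ≤ Real.exp (κ' / t) := csSup_le ⟨1, one_mem_bad t⟩ h1
  have h4 : Real.log (XX t) ≤ κ' / t := by
    rw [Real.log_le_iff_le_exp (by linarith [h2.1])]; exact h3
  calc t * Real.log (XX t) ≤ t * (κ' / t) := by gcongr
    _ = κ' := by field_simp

lemma ev_nonneg : ∀ᶠ t in 𝓝[>] (0 : ℝ), 0 ≤ t * Real.log (XX t) := by
  filter_upwards [ev_XX_ge, self_mem_nhdsWithin] with t h2 ht
  have ht0 : 0 < t := ht
  exact mul_nonneg ht0.le (Real.log_nonneg h2.1)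

lemma isBdd : IsBoundedUnder (· ≤ ·) (𝓝[>] (0 : ℝ)) (fun t : ℝ => t * Real.log (XX t)) :=
  ⟨3, by
    simp only [eventually_map]
    exact ev_le (by norm_num) (show (27 / 10 : ℝ) < 3 by norm_num) RealBeyond_corput⟩

lemma isCobdd : IsCoboundedUnder (· ≤ ·) (𝓝[>] (0 : ℝ)) (fun t : ℝ => t * Real.log (XX t)) :=
  IsBoundedUnder.isCoboundedUnder_le ⟨0, by simp only [eventually_map]; exact ev_nonneg⟩

lemma kappaStar_nonneg : 0 ≤ kappaStar :=
  le_limsup_of_frequently_le ev_nonneg.frequently isBdd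

lemma kappaStar_le_iff {κ : ℝ} (hκ : 0 ≤ κ) : kappaStar ≤ κ ↔ RealBeyond κ := by
  constructor
  · intro h κ' hκ'
    have h1 : ∀ᶠ t in 𝓝[>] (0 : ℝ), t * Real.log (XX t) < κ' :=
      eventually_lt_of_limsup_lt (lt_of_le_of_lt h hκ') isBdd
    have h2 := (h1.and ev_XX_ge)
    obtain ⟨t0, ht0, h3⟩ := (mem_nhdsGT_iff_exists_Ioo_subset).1 h2
    have ht0' : 0 < t0 := ht0
    refine ⟨t0 / 2, by positivity, fun t ht htt z hz1 hz2 hz3 => ?_⟩
    obtain ⟨h4, h5, h6⟩ := h3 ⟨ht, by linarith⟩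
    by_contra hcon
    have h7 : |z.re| ≤ XX t := le_csSup h6 (Or.inr ⟨z, hz3, hz2, hcon, rfl⟩)
    have h8 : κ' / t ≤ Real.log (XX t) := by
      rw [Real.le_log_iff_exp_le (by linarith)]
      exact hz1.trans h7
    rw [div_le_iff₀ ht] at h8
    linarith
  · intro h
    refine le_of_forall_gt_imp_ge_of_dense fun κ' hκ' => ?_
    exact limsup_le_of_le isCobdd (ev_le hκ hκ' h)

/-! ### the formula -/

lemma kappaStar_le_iff' {κ : ℝ} (hκ : 0 < κ) : kappaStar ≤ κ ↔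
    ∀ σ : ℝ, 1 / 2 ≤ σ → σ ≤ Theta → 4 * (√(mu σ) + √(mu σ + σ - 1 / 2)) ^ 2 ≤ κ := by
  have hΘ := Theta_ge
  have hcv : ∀ σ : ℝ, mu σ + σ - 1 / 2 = mu σ + (σ - 1 / 2) := fun σ => by ring
  rw [kappaStar_le_iff hκ.le, horizon_pt κ hκ, ← Theta_le_iff (by positivity)]
  constructor
  · rintro ⟨h1, h2⟩ σ hσ1 hσ2
    rw [hcv, alg_iff hκ (mu_nonneg σ) (by linarith)]
    exact ⟨by linarith, mu_le_of_Gr (by positivity) (h2 (σ - 1 / 2) (by linarith) (by linarith))⟩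
  · intro h
    have h1 : Theta ≤ 1 / 2 + κ / 4 := by
      have := h Theta hΘ le_rfl
      rw [hcv, alg_iff hκ (mu_nonneg _) (by linarith)] at this
      linarith [this.1]
    refine ⟨h1, fun v hv0 hv1 => ?_⟩
    have key : mu (1 / 2 + v) ≤ (κ / 4 - v) ^ 2 / κ := by
      rcases le_or_gt (1 / 2 + v) Theta with h2 | h2
      · have := h (1 / 2 + v) (by linarith) h2
        rw [hcv, alg_iff hκ (mu_nonneg _) (by linarith)] at this
        have h3 := this.2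
        rwa [show (1 / 2 + v - 1 / 2 : ℝ) = v by ring] at h3
      · rw [mu_right h2]; positivity
    have := (mu_le_iff (σ := 1 / 2 + v) (by linarith) (by positivity)).1 key
    rwa [show (1 / 2 + v - 1 / 2 : ℝ) = v by ring] at this

/-- **The closed formula.** -/
theorem closed : IsLUB ((fun σ : ℝ => 4 * (√(mu σ) + √(mu σ + σ - 1 / 2)) ^ 2) '' Icc (1 / 2) Theta)
    kappaStar := by
  have hΘ := Theta_ge
  have h0 := kappaStar_nonneg
  constructor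
  · rintro _ ⟨σ, ⟨h1, h2⟩, rfl⟩
    refine le_of_forall_gt_imp_ge_of_dense fun κ hκ => ?_
    exact (kappaStar_le_iff' (lt_of_le_of_lt h0 hκ)).1 hκ.le σ h1 h2
  · intro b hb
    have hb0 : 0 ≤ b := le_trans (by positivity) (hb ⟨1 / 2, ⟨le_rfl, hΘ⟩, rfl⟩)
    refine le_of_forall_gt_imp_ge_of_dense fun κ hκ => ?_
    refine (kappaStar_le_iff' (lt_of_le_of_lt hb0 hκ)).2 fun σ h1 h2 => ?_
    exact (hb ⟨σ, ⟨h1, h2⟩, rfl⟩).trans hκ.le

lemma kappaStar_le_corput : kappaStar ≤ 27 / 10 := (kappaStar_le_iff (by norm_num)).2 RealBeyond_corput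

lemma kappaStar_ge : 4 * (Theta - 1 / 2) ≤ kappaStar := by
  have h0 := kappaStar_nonneg
  have h := ZFree_of_RealBeyond kappaStar h0 ((kappaStar_le_iff h0).1 le_rfl)
  have := (Theta_le_iff (d := kappaStar / 4) (by positivity)).2 h
  linarith

lemma kappaStar_le : kappaStar ≤ 8 * (Theta - 1 / 2) := by
  have h1 := Theta_ge
  have h2 := Theta_le
  refine (kappaStar_le_iff (by linarith)).2 (RealBeyond_of_ZFree _ (by linarith) (by linarith) ?_)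
  exact (Theta_le_iff (by linarith)).1 (by linarith)

lemma kappaStar_LH (hLH : mu (1 / 2) = 0) : kappaStar = 4 * (Theta - 1 / 2) := by
  have h1 := Theta_ge
  refine le_antisymm ((kappaStar_le_iff (by linarith)).2 (RealBeyond_of_LH _ (by linarith) ?_ ?_))
    kappaStar_ge
  · have h2 := (mu_le_iff (σ := 1 / 2) le_rfl le_rfl).1 hLH.le
    intro ε hε
    obtain ⟨T0, h0⟩ := h2 ε hε
    refine ⟨T0, fun T hT => ?_⟩
    have := h0 T hT
    rwa [sub_self, Complex.ofReal_zero, add_zero, zero_add] at this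
  · exact (Theta_le_iff (by linarith)).1 (by linarith)

end Pool.Agent.Helper87.HF
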