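import Pool.Agent.Helper87.HF.AllZ

set_option autoImplicit false

/-!
# The closed formula for the width of the strip of zeros beyond `exp(κ/t)`
-/

open Complex Set Filter Topology Metric MeasureTheory

namespace Pool.Agent.Helper87.HF

/-! ### the exact law, line by line -/

lemma chordS {κ c a b x : ℝ} (hκ : 0 < κ) (hab : a < b) :
    ((c - a) ^ 2 / κ * (b - x) + (c - b) ^ 2 / κ * (x - a)) / (b - a) =
      (c - x) ^ 2 / κ + (x - a) * (b - x) / κ := by
  have h1 : b - a ≠ 0 := (sub_pos.2 hab).ne'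
  field_simp
  ring

lemma uniform_int (κ c a b : ℝ) (hκ : 0 < κ) (ha : 0 ≤ a) (hab : a < b) (hb : b ≤ 3)
    (h : ∀ x : ℝ, a ≤ x → x ≤ b → Gr x ((c - x) ^ 2 / κ)) (ε : ℝ) (hε : 0 < ε) :
    ∃ T0 : ℝ, ∀ T x : ℝ, T0 ≤ T → a ≤ x → x ≤ b →
    ‖riemannZeta (1 / 2 + T * I + x)‖ ≤ Real.exp (((c - x) ^ 2 / κ + ε) * Real.log T) := by
  have hba : 0 < b - a := by linarith
  obtain ⟨N, hN⟩ := exists_nat_gt (2 * (b - a) ^ 2 / (κ * ε) + 1)
  have hN1 : (1 : ℝ) < N := by
    have : 0 < 2 * (b - a) ^ 2 / (κ * ε) := by positivity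
    linarith
  have hN0 : (0 : ℝ) < N := by linarith
  set l : ℝ := (b - a) / N with hl
  have hl0 : 0 < l := by positivity
  have hlN : l * N = b - a := by rw [hl]; field_simp
  have hl2 : l ^ 2 / κ ≤ ε / 2 := by
    have e1 : l ^ 2 / κ = (b - a) ^ 2 / (κ * N ^ 2) := by rw [hl]; field_simp
    rw [e1, div_le_iff₀ (by positivity)]
    have h1 : 2 * (b - a) ^ 2 / (κ * ε) ≤ N := by linarith
    rw [div_le_iff₀ (by positivity)] at h1
    have h2 : (N : ℝ) ≤ N ^ 2 := by nlinarith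
    have h3 : (N : ℝ) * (κ * ε) ≤ N ^ 2 * (κ * ε) := mul_le_mul_of_nonneg_right h2 (by positivity)
    linarith
  have hg : ∀ j : ℕ, j < N → ∃ T0 : ℝ, 1 ≤ T0 ∧ ∀ T x : ℝ, T0 ≤ T → a + l * j ≤ x → x ≤ a + l * (j + 1) →
      ‖riemannZeta (1 / 2 + T * I + x)‖ ≤ Real.exp (((c - x) ^ 2 / κ + ε) * Real.log T) := by
    intro j hj
    have hjN : (j : ℝ) + 1 ≤ N := by exact_mod_cast hj
    have hj0 : (0 : ℝ) ≤ j := Nat.cast_nonneg _
    have ha0 : 0 ≤ l * j := by positivity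
    have hab' : a + l * j < a + l * (j + 1) := by nlinarith
    have hbk : l * (j + 1) ≤ b - a := by rw [← hlN]; gcongr
    obtain ⟨T0, hT01, hT0⟩ := growth_mid (a + l * j) (a + l * (j + 1)) ((c - (a + l * j)) ^ 2 / κ)
      ((c - (a + l * (j + 1))) ^ 2 / κ) (by linarith) hab' (by linarith) (by positivity) (by positivity)
      (h (a + l * j) (by linarith) (by linarith)) (h (a + l * (j + 1)) (by linarith) (by linarith))
      (ε / 2) (by positivity)
    refine ⟨T0, hT01, fun T x hT hx1 hx2 => (hT0 T x hT hx1 hx2).trans (Real.exp_le_exp.2 ?_)⟩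
    have hL0 : 0 ≤ Real.log T := Real.log_nonneg (by linarith)
    refine mul_le_mul_of_nonneg_right ?_ hL0
    rw [chordS hκ hab']
    have h5 : (x - (a + l * j)) * (a + l * (j + 1) - x) / κ ≤ l ^ 2 / κ := by
      gcongr
      have e1 : x - (a + l * j) ≤ l := by linarith
      have e2 : a + l * (j + 1) - x ≤ l := by linarith
      calc (x - (a + l * j)) * (a + l * (j + 1) - x) ≤ l * l := by
            apply mul_le_mul e1 e2 (by linarith) hl0.le
        _ = l ^ 2 := by ring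
    linarith
  choose! f hf1 hf using hg
  refine ⟨∑ j ∈ Finset.range N, |f j|, fun T v hT hv0 hv1 => ?_⟩
  have hNn : 1 < N := by exact_mod_cast hN1
  set j : ℕ := min ⌊(v - a) / l⌋₊ (N - 1) with hj
  have hjN : j < N := (min_le_right _ _).trans_lt (by omega)
  have hva : 0 ≤ v - a := by linarith
  have hfj : f j ≤ T := by
    refine (le_abs_self _).trans (le_trans ?_ hT)
    exact Finset.single_le_sum (f := fun j => |f j|) (fun _ _ => abs_nonneg _) (Finset.mem_range.2 hjN)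
  refine hf j hjN T v hfj ?_ ?_
  · have h1 : (j : ℝ) ≤ (v - a) / l := by
      have : (j : ℝ) ≤ (⌊(v - a) / l⌋₊ : ℝ) := by exact_mod_cast min_le_left _ _
      exact this.trans (Nat.floor_le (by positivity))
    rw [le_div_iff₀ hl0] at h1
    linarith
  · rcases le_total ⌊(v - a) / l⌋₊ (N - 1) with h2 | h2
    · have h3 : j = ⌊(v - a) / l⌋₊ := min_eq_left h2
      have h4 := Nat.lt_floor_add_one ((v - a) / l)
      rw [← h3, div_lt_iff₀ hl0] at h4
      linarith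
    · have h3 : j = N - 1 := min_eq_right h2
      have h4 : ((j : ℕ) : ℝ) + 1 = N := by
        rw [h3]; push_cast [Nat.cast_sub hNn.le]; ring
      rw [h4, hlN]
      linarith

/-- The strip law, line by line. -/
theorem strip_pt (κ a : ℝ) (hκ : 0 < κ) (ha : 0 ≤ a) (ha1 : a ≤ 1 / 2) : ZSide κ a ↔
    ZFree (a + κ / 4) ∧ ∀ x : ℝ, a ≤ x → x ≤ a + κ / 4 → Gr x ((a + κ / 4 - x) ^ 2 / κ) := by
  constructor
  · rintro ⟨h1, h2⟩
    refine ⟨fun ε hε => ?_, fun x hx0 hx1 ε hε => ?_⟩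
    · obtain ⟨T0, h0⟩ := h1 ε hε
      exact ⟨T0, fun T σ hT hσ => h0 T σ hT hσ⟩
    · obtain ⟨T0, h0⟩ := h2 ε hε
      refine ⟨T0, fun T hT => ?_⟩
      have := h0 T (x - a) hT (by linarith) (by linarith)
      rw [add_sub_cancel] at this
      rwa [show κ / 4 - (x - a) = a + κ / 4 - x by ring] at this
  · rintro ⟨h1, h2⟩
    refine ⟨h1, fun ε hε => ?_⟩
    obtain ⟨T1, h3⟩ := uniform_int κ (a + κ / 4) a (min (a + κ / 4) 3) hκ ha
      (lt_min (by linarith) (by linarith)) (min_le_right _ _)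
      (fun x hx0 hx1 => h2 x hx0 (hx1.trans (min_le_left _ _))) ε hε
    refine ⟨max T1 (Real.exp (1 / ε)), fun T v hT hv0 hv1 => ?_⟩
    rcases le_total (a + v) 3 with h4 | h4
    · have := h3 T (a + v) ((le_max_left _ _).trans hT) (by linarith) (le_min (by linarith) h4)
      rwa [show a + κ / 4 - (a + v) = κ / 4 - v by ring] at this
    · refine (zeta_le_two (T := T) (x := a + v) (by linarith)).trans ?_
      have hTpos : 0 < T := (Real.exp_pos _).trans_le ((le_max_right _ _).trans hT)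
      have h5 : 1 / ε ≤ Real.log T := by
        rw [Real.le_log_iff_exp_le hTpos]; exact (le_max_right _ _).trans hT
      have hL0 : 0 ≤ Real.log T := le_trans (by positivity) h5
      rw [div_le_iff₀ hε] at h5
      have h6 : (2 : ℝ) ≤ Real.exp 1 := by linarith [Real.add_one_le_exp (1 : ℝ)]
      refine h6.trans (Real.exp_le_exp.2 ?_)
      have : 0 ≤ (κ / 4 - v) ^ 2 / κ * Real.log T := by positivity
      linarith

/-- growth to the left of a line -/
lemma Gr_left {x a m : ℝ} (hx : 0 ≤ x) (hxa : x ≤ a) (ha3 : a ≤ 3) (hm : 0 ≤ m) (h : Gr a m) :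
    Gr x (m + (a - x) / 2) := by
  rcases eq_or_lt_of_le (hx.trans hxa) with ha0 | ha0
  · have : x = a := by linarith
    rw [this, sub_self, zero_div, add_zero]
    exact h
  intro ε hε
  obtain ⟨T1, hT1⟩ := h (ε / 3) (by positivity)
  obtain ⟨Tf, hTf1, hTf⟩ := exists_frame
  obtain ⟨T2, hT21, hT2⟩ := hull_left a T1 0 (ε / 3) (a + m + ε / 3) ha0 (by positivity) le_rfl
    (by linarith)
  refine ⟨max (max Tf T2) (max 1000 (Real.exp (3 / ε))), fun T hT => ?_⟩
  have a1 : Tf ≤ T := (le_max_left _ _).trans ((le_max_left _ _).trans hT)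
  have a2 : T2 ≤ T := (le_max_right _ _).trans ((le_max_left _ _).trans hT)
  have a3 : 1000 ≤ T := (le_max_left _ _).trans ((le_max_right _ _).trans hT)
  have a4 : Real.exp (3 / ε) ≤ T := (le_max_right _ _).trans ((le_max_right _ _).trans hT)
  obtain ⟨B, u, hh, hF⟩ := hTf T a1
  have h1 := hT2 T a2 B u hh hF (m + ε / 3) (by positivity) (by linarith) hT1 x 0 (by linarith) hxa
    (by simp)
  have e2 : ((x : ℂ) + ((0 : ℝ) : ℂ) * I) = x := by push_cast; ring
  rw [e2] at h1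
  have h4 := hF.h1 x (by rw [Complex.ofReal_re]; linarith) (by
    rw [Complex.norm_real, Real.norm_of_nonneg hx]
    have : x ^ 3 ≤ 3 ^ 3 := by
      have : x ≤ 3 := by linarith
      gcongr
    linarith)
  set Z := riemannZeta (1 / 2 + T * I + x)
  have h5 : ‖Z‖ ≤ 2 * ‖hh x‖ := by
    have := norm_sub_norm_le Z (hh x)
    rw [norm_sub_rev] at this
    linarith [norm_nonneg Z]
  have h7 : 3 / ε ≤ Real.log T := by
    rw [Real.le_log_iff_exp_le (by linarith)]; exact a4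
  rw [div_le_iff₀ hε] at h7
  have h8 : (2 : ℝ) ≤ Real.exp (ε / 3 * Real.log T) := by
    have h6 : (2 : ℝ) ≤ Real.exp 1 := by linarith [Real.add_one_le_exp (1 : ℝ)]
    exact h6.trans (Real.exp_le_exp.2 (by linarith))
  calc ‖Z‖ ≤ 2 * ‖hh x‖ := h5
    _ ≤ Real.exp (ε / 3 * Real.log T) *
        Real.exp (((a - x) / 2 + (m + ε / 3) + ε / 3) * Real.log T) := by gcongr
    _ = Real.exp (ε / 3 * Real.log T + ((a - x) / 2 + (m + ε / 3) + ε / 3) * Real.log T) := by
        rw [← Real.exp_add]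
    _ = _ := by congr 1; ring

lemma mu_left {σ σ' : ℝ} (h1 : 1 / 2 ≤ σ) (h2 : σ ≤ σ') (h3 : σ' ≤ 1) :
    mu σ ≤ mu σ' + (σ' - σ) / 2 := by
  have h0 := mu_nonneg σ'
  rw [mu_le_iff h1 (by linarith)]
  have h := Gr_left (x := σ - 1 / 2) (a := σ' - 1 / 2) (by linarith) (by linarith) (by linarith) h0
    ((mu_le_iff (by linarith) h0).1 le_rfl)
  rwa [show (σ' - 1 / 2 - (σ - 1 / 2)) = σ' - σ by ring] at h

/-! ### all zeros -/

/-- For each `y' > y` and all small `t`, all zeros with `|Re z| ≥ exp(κ/t)` satisfy `|Im z| < y'`. -/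
def InStripAll (κ y : ℝ) : Prop :=
  ∀ y' : ℝ, y < y' → ∃ t0 : ℝ, 0 < t0 ∧ ∀ t : ℝ, 0 < t → t ≤ t0 → ∀ z : ℂ,
    Real.exp (κ / t) ≤ |z.re| → Ht t z = 0 → |z.im| < y'

lemma stripAll_iff (κ y : ℝ) (hκ : 0 < κ) (hy : 0 ≤ y) (hy1 : y ≤ 1) :
    InStripAll κ y ↔ ZSide κ (y / 2) := by
  constructor
  · intro h
    rw [← horizon_strip κ y hκ hy hy1]
    intro y' hy'
    obtain ⟨t0, ht0, h0⟩ := h y' hy'
    exact ⟨t0, ht0, fun t ht htt z h1 _ h3 => h0 t ht htt z h1 h3⟩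
  · intro h y' hy'
    have hloc := (strip_loc κ y hκ hy hy1).1 ((horizon_strip κ y hκ hy hy1).2 h)
    obtain ⟨ε', C, T0, t0, hε', ht0, h0⟩ := directS κ (y / 2) ((y' - y) / 2) hκ (by linarith)
      (by linarith) (by linarith)
    obtain ⟨T1, h1⟩ := hloc ε' hε'
    obtain ⟨K, hK, hs⟩ := strip34
    set M : ℝ := max (max K 1) (max (2 * T0) (2 * (T1 + |C|))) with hM
    have hM1 : 1 ≤ M := (le_max_right _ _).trans (le_max_left _ _)
    have hMK : K ≤ M := (le_max_left _ _).trans (le_max_left _ _)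
    have hMT : 2 * T0 ≤ M := (le_max_left _ _).trans (le_max_right _ _)
    have hMC : 2 * (T1 + |C|) ≤ M := (le_max_right _ _).trans (le_max_right _ _)
    refine ⟨min (min t0 (1 / 40)) (κ / M), by positivity, fun t ht htt z h4 h5 => ?_⟩
    have hta : t ≤ t0 := htt.trans ((min_le_left _ _).trans (min_le_left _ _))
    have htb : t ≤ 1 / 40 := htt.trans ((min_le_left _ _).trans (min_le_right _ _))
    have htc : t ≤ κ / M := htt.trans (min_le_right _ _)
    have hre : M ≤ |z.re| := by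
      refine le_trans ?_ h4
      have h6 : M ≤ κ / t := by
        rw [le_div_iff₀ (by linarith)] at htc
        rw [le_div_iff₀ ht]
        linarith
      linarith [Real.add_one_le_exp (κ / t)]
    have hre0 : 0 < |z.re| := by linarith
    by_contra hcon
    push Not at hcon
    have h34 := hs t z ht (by linarith) h5 (by linarith)
    have hτ : κ - t ≤ t * Real.log (|z.re| / 2) := by
      have e1 : κ / t ≤ Real.log |z.re| := by
        rw [Real.le_log_iff_exp_le hre0]; exact h4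
      rw [div_le_iff₀ ht] at e1
      have e2 : Real.log |z.re| - 1 ≤ Real.log (|z.re| / 2) := by
        rw [Real.log_div (by linarith) two_ne_zero]
        have : Real.log 2 ≤ 1 := by linarith [Real.log_two_lt_d9]
        linarith
      have e3 : t * (Real.log |z.re| - 1) ≤ t * Real.log (|z.re| / 2) := by gcongr
      linarith
    exact h0 (|z.re| / 2) (by linarith) (fun T' hT' => h1 T' (by
      have := (abs_le.1 hT').1
      have := le_abs_self C
      linarith)) t ht hta hτ (|z.im| / 2) (by linarith) (by linarith) ((Ht_zero_iff ht htb z).1 h5)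

/-- Local form of the direct part, for strips, all zeros. -/
theorem strip_dirAll (κ a ε R : ℝ) (hκ : 0 < κ) (ha : 0 ≤ a) (ha1 : a ≤ 1 / 2) (hε : 0 < ε)
    (hR : 0 ≤ R) :
    ∃ ε' C T0 t0 : ℝ, 0 < ε' ∧ 0 < t0 ∧ ∀ T : ℝ, T0 ≤ T → (∀ T' : ℝ, |T' - T| ≤ C → LocS κ a ε' T') →
    ∀ t : ℝ, t ≤ t0 → κ / Real.log T ≤ t → ∀ z : ℂ, |z.re - 2 * T| ≤ R → Ht t z = 0 →
      |z.im| < 2 * a + ε := by
  obtain ⟨ε', C, T0, t0, hε', ht0, h0⟩ := directS κ a (ε / 2) hκ ha ha1 (by linarith)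
  obtain ⟨K, hK, hs⟩ := strip34
  refine ⟨ε', C + R, max T0 K + R + 3, min t0 (1 / 40), hε', by positivity, ?_⟩
  intro T hT hloc t htt hκt z hz1 hz3
  have hm1 := le_max_left T0 K
  have hm2 := le_max_right T0 K
  have hT3 : 3 ≤ T := by linarith
  have hL1 : 1 ≤ Real.log T := by
    rw [Real.le_log_iff_exp_le (by linarith)]
    have := Real.exp_one_lt_d9
    linarith
  have ht : 0 < t := lt_of_lt_of_le (by positivity) hκt
  have htb : t ≤ 1 / 40 := htt.trans (min_le_right _ _)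
  have hz1' := abs_le.1 hz1
  have hre : 0 < z.re := by linarith [hz1'.1]
  have hre' : |z.re| / 2 = z.re / 2 := by rw [abs_of_pos hre]
  have hd : |z.re| / 2 - T ≤ R ∧ -R ≤ |z.re| / 2 - T := by
    rw [hre']; constructor <;> linarith [hz1'.1, hz1'.2]
  have hlog : Real.log T - 1 ≤ Real.log (|z.re| / 2) := by
    have e1 : Real.log T - 1 = Real.log (T / Real.exp 1) := by
      rw [Real.log_div (by linarith) (Real.exp_ne_zero _), Real.log_exp]
    rw [e1]
    refine Real.log_le_log (by positivity) ?_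
    rw [div_le_iff₀ (Real.exp_pos _), hre']
    have h5 : 2 ≤ Real.exp 1 := by linarith [Real.add_one_le_exp (1 : ℝ)]
    have h6 : T / 2 ≤ z.re / 2 := by linarith [hz1'.1]
    nlinarith
  have hτ : κ - t ≤ t * Real.log (|z.re| / 2) := by
    rw [div_le_iff₀ (by linarith)] at hκt
    have : t * (Real.log T - 1) ≤ t * Real.log (|z.re| / 2) := by gcongr
    linarith
  have h34 := hs t z ht (by linarith) hz3 (by
    rw [abs_of_pos hre]; linarith [hz1'.1])
  by_contra hcon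
  push Not at hcon
  exact h0 (|z.re| / 2) (by linarith [hd.2]) (fun T' hT' => hloc T' (by
    have := abs_le.1 hT'
    rw [abs_le]; constructor <;> linarith [hd.1, hd.2, this.1, this.2])) t ht
    (htt.trans (min_le_left _ _)) hτ (|z.im| / 2) (by linarith) (by linarith) ((Ht_zero_iff ht htb z).1 hz3)

/-! ### the width -/

/-- the set of the `|Im z|` of the zeros of `H_t` beyond `exp(κ/t)`, and `0` -/
def imSet (κ t : ℝ) : Set ℝ :=
  {y : ℝ | y = 0 ∨ ∃ z : ℂ, Ht t z = 0 ∧ Real.exp (κ / t) ≤ |z.re| ∧ y = |z.im|}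

/-- the largest imaginary part beyond `exp(κ/t)` -/
noncomputable def YY (κ t : ℝ) : ℝ := sSup (imSet κ t)

/-- the width exponent -/
noncomputable def yStar (κ : ℝ) : ℝ := Filter.limsup (fun t : ℝ => YY κ t) (𝓝[>] 0)

lemma zero_mem_im (κ t : ℝ) : (0 : ℝ) ∈ imSet κ t := Or.inl rfl

lemma evY {κ : ℝ} (hκ : 0 < κ) : ∃ t0 : ℝ, 0 < t0 ∧ ∀ t : ℝ, 0 < t → t ≤ t0 →
    (34 : ℝ) ∈ upperBounds (imSet κ t) := by
  obtain ⟨K, hK, hs⟩ := strip34
  refine ⟨min 1 (κ / K), by positivity, fun t ht htt => ?_⟩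
  rintro x (rfl | ⟨z, h1, h2, rfl⟩)
  · norm_num
  · refine hs t z ht (htt.trans (min_le_left _ _)) h1 ?_
    refine le_trans ?_ h2
    have htc : t ≤ κ / K := htt.trans (min_le_right _ _)
    have h6 : K ≤ κ / t := by
      rw [le_div_iff₀ hK] at htc
      rw [le_div_iff₀ ht]
      linarith
    linarith [Real.add_one_le_exp (κ / t)]

lemma evYbd {κ : ℝ} (hκ : 0 < κ) : ∀ᶠ t in 𝓝[>] (0 : ℝ), (34 : ℝ) ∈ upperBounds (imSet κ t) := by
  obtain ⟨t0, ht0, h0⟩ := evY hκ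
  filter_upwards [Ioo_mem_nhdsGT ht0] with t ht
  exact h0 t ht.1 ht.2.le

lemma YY_nonneg {κ t : ℝ} (h : (34 : ℝ) ∈ upperBounds (imSet κ t)) : 0 ≤ YY κ t :=
  le_csSup ⟨_, h⟩ (zero_mem_im κ t)

lemma YY_le {κ t : ℝ} (h : (34 : ℝ) ∈ upperBounds (imSet κ t)) : YY κ t ≤ 34 :=
  csSup_le ⟨_, zero_mem_im κ t⟩ h

lemma isBddY {κ : ℝ} (hκ : 0 < κ) :
    IsBoundedUnder (· ≤ ·) (𝓝[>] (0 : ℝ)) (fun t : ℝ => YY κ t) :=
  ⟨34, by
    simp only [eventually_map]
    exact (evYbd hκ).mono fun t ht => YY_le ht⟩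

lemma isCobddY {κ : ℝ} (hκ : 0 < κ) :
    IsCoboundedUnder (· ≤ ·) (𝓝[>] (0 : ℝ)) (fun t : ℝ => YY κ t) :=
  IsBoundedUnder.isCoboundedUnder_le ⟨0, by
    simp only [eventually_map]
    exact (evYbd hκ).mono fun t ht => YY_nonneg ht⟩

lemma yStar_nonneg {κ : ℝ} (hκ : 0 < κ) : 0 ≤ yStar κ :=
  le_limsup_of_frequently_le ((evYbd hκ).mono fun _ ht => YY_nonneg ht).frequently (isBddY hκ)

lemma yStar_le_iffAll {κ y : ℝ} (hκ : 0 < κ) (hy : 0 ≤ y) : yStar κ ≤ y ↔ InStripAll κ y := by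
  constructor
  · intro h y' hy'
    have h1 : ∀ᶠ t in 𝓝[>] (0 : ℝ), YY κ t < y' :=
      eventually_lt_of_limsup_lt (lt_of_le_of_lt h hy') (isBddY hκ)
    have h2 := (h1.and (evYbd hκ))
    obtain ⟨t0, ht0, h3⟩ := (mem_nhdsGT_iff_exists_Ioo_subset).1 h2
    have ht0' : 0 < t0 := ht0
    refine ⟨t0 / 2, by positivity, fun t ht htt z hz1 hz3 => ?_⟩
    obtain ⟨h4, h5⟩ := h3 ⟨ht, by linarith⟩
    exact lt_of_le_of_lt (le_csSup ⟨_, h5⟩ (Or.inr ⟨z, hz3, hz1, rfl⟩)) h4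
  · intro h
    refine le_of_forall_gt_imp_ge_of_dense fun y' hy' => ?_
    refine limsup_le_of_le (isCobddY hκ) ?_
    obtain ⟨t0, ht0, h0⟩ := h y' hy'
    filter_upwards [Ioo_mem_nhdsGT ht0] with t ht
    refine csSup_le ⟨_, zero_mem_im κ t⟩ ?_
    rintro x (rfl | ⟨z, h1, h2, rfl⟩)
    · linarith
    · exact (h0 t ht.1 ht.2.le z h2 h1).le

lemma yStar_le_iff {κ y : ℝ} (hκ : 0 < κ) (hy : 0 ≤ y) (hy1 : y ≤ 1) : yStar κ ≤ y ↔ ZSide κ (y / 2) := by
  rw [yStar_le_iffAll hκ hy, stripAll_iff κ y hκ hy hy1]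

lemma yStar_le_one {κ : ℝ} (hκ : 0 < κ) : yStar κ ≤ 1 :=
  (yStar_le_iff hκ zero_le_one le_rfl).2 (ZSide_half κ hκ)

/-! ### the formula -/

lemma alg_S {κ m u : ℝ} (hκ : 0 < κ) (hu : 0 ≤ u) : √(κ * m) ≤ u ↔ m ≤ u ^ 2 / κ := by
  rw [Real.sqrt_le_left hu, le_div_iff₀ hκ, mul_comm]

lemma yStar_formula {κ y : ℝ} (hκ : 0 < κ) (hy : 0 ≤ y) (hy1 : y ≤ 1) : yStar κ ≤ y ↔
    ∀ σ : ℝ, 1 / 2 ≤ σ → σ ≤ Theta → 2 * σ - 1 - κ / 2 + 2 * √(κ * mu σ) ≤ y := by
  have hΘ := Theta_ge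
  have hΘ1 := Theta_le
  rw [yStar_le_iff hκ hy hy1, strip_pt κ (y / 2) hκ (by linarith) (by linarith),
    ← Theta_le_iff (by positivity)]
  constructor
  · rintro ⟨h1, h2⟩ σ hσ1 hσ2
    suffices h : √(κ * mu σ) ≤ y / 2 + κ / 4 - (σ - 1 / 2) by linarith
    rw [alg_S hκ (by linarith)]
    rcases le_total (y / 2) (σ - 1 / 2) with h3 | h3
    · exact mu_le_of_Gr (by positivity) (h2 (σ - 1 / 2) h3 (by linarith))
    · have h4 : mu (1 / 2 + y / 2) ≤ κ / 16 := by
        refine mu_le_of_Gr (by positivity) ?_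
        have := h2 (y / 2) le_rfl (by linarith)
        rw [show (1 / 2 + y / 2 - 1 / 2 : ℝ) = y / 2 by ring]
        rwa [show (y / 2 + κ / 4 - y / 2) ^ 2 / κ = κ / 16 by field_simp; ring] at this
      have h5 := mu_left (σ := σ) (σ' := 1 / 2 + y / 2) hσ1 (by linarith) (by linarith)
      rw [le_div_iff₀ hκ]
      have h6 : mu σ * κ ≤ (κ / 16 + (1 / 2 + y / 2 - σ) / 2) * κ := by
        refine mul_le_mul_of_nonneg_right (by linarith) hκ.le
      nlinarith [sq_nonneg (1 / 2 + y / 2 - σ)]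
  · intro h
    have h1 : Theta ≤ 1 / 2 + (y / 2 + κ / 4) := by
      have := h Theta hΘ le_rfl
      have h0 := Real.sqrt_nonneg (κ * mu Theta)
      linarith
    refine ⟨h1, fun x hx0 hx1 => ?_⟩
    have key : mu (1 / 2 + x) ≤ (y / 2 + κ / 4 - x) ^ 2 / κ := by
      rcases le_or_gt (1 / 2 + x) Theta with h2 | h2
      · have := h (1 / 2 + x) (by linarith) h2
        rw [← alg_S hκ (by linarith)]
        linarith
      · rw [mu_right h2]; positivity
    have := (mu_le_iff (σ := 1 / 2 + x) (by linarith) (by positivity)).1 key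
    rwa [show (1 / 2 + x - 1 / 2 : ℝ) = x by ring] at this

/-- **The closed formula for the width.** -/
theorem closedS (κ : ℝ) (hκ : 0 < κ) :
    IsLUB ((fun σ : ℝ => max 0 (2 * σ - 1 - κ / 2 + 2 * √(κ * mu σ))) '' Icc (1 / 2) Theta) (yStar κ) := by
  have hΘ := Theta_ge
  have h0 := yStar_nonneg hκ
  have h1 := yStar_le_one hκ
  constructor
  · rintro _ ⟨σ, ⟨h2, h3⟩, rfl⟩
    exact max_le h0 ((yStar_formula hκ h0 h1).1 le_rfl σ h2 h3)
  · intro b hb
    have hb0 : 0 ≤ b := le_trans (le_max_left _ _) (hb ⟨1 / 2, ⟨le_rfl, hΘ⟩, rfl⟩)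
    rcases le_total 1 b with h4 | h4
    · exact h1.trans h4
    · exact (yStar_formula hκ hb0 h4).2 fun σ h2 h3 => (le_max_right _ _).trans (hb ⟨σ, ⟨h2, h3⟩, rfl⟩)

lemma yStar_ge {κ : ℝ} (hκ : 0 < κ) : 2 * Theta - 1 - κ / 2 ≤ yStar κ := by
  have := (yStar_formula hκ (yStar_nonneg hκ) (yStar_le_one hκ)).1 le_rfl Theta Theta_ge le_rfl
  have h0 := Real.sqrt_nonneg (κ * mu Theta)
  linarith

lemma yStar_le {κ : ℝ} (hκ : 0 < κ) : yStar κ ≤ max 0 (2 * Theta - 1 - κ / 4) := by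
  have h1 := Theta_ge
  have h2 := Theta_le
  refine (yStar_le_iff hκ (le_max_left _ _) (max_le (by norm_num) (by linarith))).2 ?_
  have h3 := le_max_right 0 (2 * Theta - 1 - κ / 4)
  exact ZSide_of_ZFree' (Theta - 1 / 2) κ _ (by linarith) (by linarith) hκ
    (by have := le_max_left 0 (2 * Theta - 1 - κ / 4); linarith) (by linarith)
    ((Theta_le_iff (by linarith)).1 (by linarith))

lemma yStar_lim : Tendsto yStar (𝓝[>] 0) (𝓝 (2 * Theta - 1)) := by
  have h1 := Theta_ge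
  have l1 : Tendsto (fun κ : ℝ => 2 * Theta - 1 - κ / 2) (𝓝[>] 0) (𝓝 (2 * Theta - 1)) := by
    have : Tendsto (fun κ : ℝ => 2 * Theta - 1 - κ / 2) (𝓝 0) (𝓝 (2 * Theta - 1 - 0 / 2)) :=
      (continuous_const.sub (continuous_id.div_const 2)).tendsto 0
    rw [zero_div, sub_zero] at this
    exact this.mono_left nhdsWithin_le_nhds
  refine tendsto_of_tendsto_of_tendsto_of_le_of_le' l1 tendsto_const_nhds ?_ ?_
  · filter_upwards [self_mem_nhdsWithin] with κ hκ
    exact yStar_ge hκ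
  · filter_upwards [self_mem_nhdsWithin] with κ hκ
    have hκ' : 0 < κ := hκ
    exact (yStar_le hκ').trans (max_le (by linarith) (by linarith))

lemma yStar_LH {κ : ℝ} (hκ : 0 < κ) (hLH : mu (1 / 2) = 0) : yStar κ = max 0 (2 * Theta - 1 - κ / 2) := by
  have h1 := Theta_ge
  have h2 := Theta_le
  refine le_antisymm ?_ (max_le (yStar_nonneg hκ) (yStar_ge hκ))
  refine (yStar_formula hκ (le_max_left _ _) (max_le (by norm_num) (by linarith))).2 fun σ h3 h4 => ?_
  have h5 : mu σ = 0 := by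
    refine le_antisymm ?_ (mu_nonneg σ)
    rcases eq_or_lt_of_le h3 with h6 | h6
    · rw [← h6, hLH]
    · refine mu_le_of_Gr le_rfl fun ε hε => ?_
      have g1 := (mu_le_iff (σ := 1 / 2) le_rfl le_rfl).1 hLH.le
      have g2 : Gr 3 0 := by
        have := Gr_crude (v := 3) (by norm_num)
        rwa [max_eq_left (by norm_num)] at this
      rw [sub_self] at g1
      obtain ⟨T0, _, h0⟩ := growth_mid 0 3 0 0 le_rfl (by norm_num) le_rfl le_rfl le_rfl
        (fun e he => by obtain ⟨T1, h1⟩ := g1 e he; exact ⟨T1, h1⟩)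
        (fun e he => by obtain ⟨T1, h1⟩ := g2 e he; exact ⟨T1, h1⟩) ε hε
      refine ⟨T0, fun T hT => ?_⟩
      have := h0 T (σ - 1 / 2) hT (by linarith) (by linarith)
      rwa [zero_mul, zero_mul, add_zero, zero_div] at this
  rw [h5, mul_zero, Real.sqrt_zero, mul_zero, add_zero]
  exact (by linarith : 2 * σ - 1 - κ / 2 ≤ 2 * Theta - 1 - κ / 2).trans (le_max_right _ _)

end Pool.Agent.Helper87.HF
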