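import Pool.Agent.Helper87.HF.ZLog

set_option autoImplicit false

open Complex Set Filter Topology Metric MeasureTheory

namespace Pool.Agent.Helper87.HF

lemma f3_ineq {κ a τ t ε1 θ0 x c0 : ℝ} (hκ : 0 < κ) (hε : 0 < ε1) (ht : 0 < t)
    (ht1 : t ≤ ε1 / 4) (ht2 : t * κ ≤ ε1 ^ 2) (hτ : κ - t ≤ τ) (hτ0 : 0 < τ)
    (hc : a + ε1 + τ / 4 - 2 * t ≤ c0) (hθ2 : θ0 ≤ ε1 ^ 2 / 16) :
    (x ≤ a → τ * ((a - x) / 2 + κ / 16) + θ0 ≤ (x - c0) ^ 2) ∧
    (a ≤ x → x ≤ a + κ / 4 → τ * ((κ / 4 - (x - a)) ^ 2 / κ) + θ0 ≤ (x - c0) ^ 2) := by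
  constructor
  · intro hx
    have hw : 0 ≤ a - x := by linarith
    have hd : (a - x) + τ / 4 + ε1 / 2 ≤ c0 - x := by linarith
    have h1 : ((a - x) + τ / 4 + ε1 / 2) ^ 2 ≤ (c0 - x) ^ 2 := by
      have : 0 ≤ (a - x) + τ / 4 + ε1 / 2 := by positivity
      gcongr
    have h2 : -(ε1 ^ 2 / 16) ≤ τ * (τ - κ) / 16 := by
      rcases le_total κ τ with h | h
      · have : 0 ≤ τ * (τ - κ) := mul_nonneg hτ0.le (by linarith)
        have := sq_nonneg ε1
        linarith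
      · have h3 : τ * (κ - τ) ≤ κ * t := by
          have : κ - τ ≤ t := by linarith
          have h4 : 0 ≤ κ - τ := by linarith
          calc τ * (κ - τ) ≤ κ * (κ - τ) := by gcongr
            _ ≤ κ * t := by gcongr
        linarith
    have h5 : (x - c0) ^ 2 = (c0 - x) ^ 2 := by ring
    rw [h5]
    have h6 : 0 ≤ (a - x) * ε1 := by positivity
    have h7 : 0 ≤ τ * ε1 := by positivity
    have h8 := sq_nonneg (a - x)
    have h9 : ((a - x) + τ / 4 + ε1 / 2) ^ 2 = (a - x) ^ 2 + (a - x) * τ / 2 + τ ^ 2 / 16 +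
      (a - x) * ε1 + τ * ε1 / 4 + ε1 ^ 2 / 4 := by ring
    have h10 : τ * (τ - κ) / 16 = τ ^ 2 / 16 - τ * κ / 16 := by ring
    have h11 := sq_nonneg ε1
    rw [h9] at h1
    rw [h10] at h2
    have h12 : τ * ((a - x) / 2 + κ / 16) = (a - x) * τ / 2 + τ * κ / 16 := by ring
    rw [h12]
    linarith
  · intro hx1 hx2
    set v := x - a with hv
    have hv0 : 0 ≤ v := by linarith
    have hv1 : v ≤ κ / 4 := by linarith
    set p := τ / 4 - v with hp
    have hp0 : -(t / 4) ≤ p := by linarith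
    have hd : p + ε1 / 2 ≤ c0 - x := by linarith
    have hd0 : 0 ≤ p + ε1 / 2 := by linarith
    have h1 : (p + ε1 / 2) ^ 2 ≤ (c0 - x) ^ 2 := by gcongr
    have h5 : (x - c0) ^ 2 = (c0 - x) ^ 2 := by ring
    rw [h5]
    have e1 : p ^ 2 - τ * ((κ / 4 - v) ^ 2 / κ) = (τ - κ) * (τ / 16 - v ^ 2 / κ) := by
      rw [hp]; field_simp; ring
    have hvv : v ^ 2 / κ ≤ κ / 16 := by
      rw [div_le_iff₀ hκ]
      have : v ^ 2 ≤ (κ / 4) ^ 2 := by gcongr
      linarith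
    have hvv0 : 0 ≤ v ^ 2 / κ := by positivity
    have h2 : -(ε1 ^ 2 / 16) ≤ (τ - κ) * (τ / 16 - v ^ 2 / κ) := by
      rcases le_total κ τ with h | h
      · have : 0 ≤ (τ - κ) * (τ / 16 - v ^ 2 / κ) := mul_nonneg (by linarith) (by linarith)
        have := sq_nonneg ε1
        linarith
      · have h3 : (κ - τ) * (τ / 16 - v ^ 2 / κ) ≤ t * (κ / 16) := by
          have a1 : 0 ≤ κ - τ := by linarith
          have a2 : κ - τ ≤ t := by linarith
          have a3 : τ / 16 - v ^ 2 / κ ≤ κ / 16 := by linarith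
          calc (κ - τ) * (τ / 16 - v ^ 2 / κ) ≤ (κ - τ) * (κ / 16) := by gcongr
            _ ≤ t * (κ / 16) := by gcongr
        have h4 : (τ - κ) * (τ / 16 - v ^ 2 / κ) = -((κ - τ) * (τ / 16 - v ^ 2 / κ)) := by ring
        rw [h4]
        linarith
    have h6 : -(ε1 ^ 2 / 16) ≤ p * ε1 := by
      have h61 : -(t / 4) * ε1 ≤ p * ε1 := by gcongr
      have h62 : t * ε1 ≤ ε1 / 4 * ε1 := by gcongr
      linarith
    have h7 : (p + ε1 / 2) ^ 2 = p ^ 2 + p * ε1 + ε1 ^ 2 / 4 := by ring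
    rw [h7] at h1
    have := sq_nonneg ε1
    linarith

lemma num_g0 {t y : ℝ} (ht : 0 < t) (hy : |y| ≤ 2) (ht1 : t ≤ 1) : |t * y / 2| ≤ 1 := by
  rw [abs_div, abs_mul, abs_of_pos ht, abs_of_pos (two_pos : (0 : ℝ) < 2)]
  have h1 : t * |y| ≤ 1 * 2 := mul_le_mul ht1 hy (abs_nonneg y) zero_le_one
  linarith

lemma num_g1 {ε1 K0 : ℝ} (h0 : 0 < ε1) (h1 : ε1 ≤ 1) (hK : 1 ≤ K0) :
    ε1 ^ 2 / (51200 * K0) ≤ ε1 / 8 := by
  rw [div_le_iff₀ (by positivity)]
  have h2 : ε1 * ε1 ≤ ε1 * 1 := by gcongr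
  have h3 : ε1 * 1 ≤ ε1 * K0 := by gcongr
  have h4 : ε1 / 8 * (51200 * K0) = 6400 * (ε1 * K0) := by ring
  have h5 : 0 < ε1 * K0 := by positivity
  rw [h4]
  linarith

lemma num_g2 {l η τ ε1 c0 σ : ℝ} (h1 : l ≤ ε1 ^ 2) (h8 : η * τ ≤ ε1 / 8 * τ)
    (h7 : 3 * (τ / 4 + ε1 / 2) * ε1 ≤ 3 * c0 * σ) (h10 : 0 < ε1 * τ) :
    l + 3 * (η * τ) ≤ 3 * c0 * σ := by
  have h9 : 3 * (τ / 4 + ε1 / 2) * ε1 = 3 / 4 * (ε1 * τ) + 3 / 2 * ε1 ^ 2 := by ring
  have h11 : ε1 / 8 * τ = 1 / 8 * (ε1 * τ) := by ring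
  rw [h9] at h7
  rw [h11] at h8
  have h12 := sq_nonneg ε1
  linarith

theorem gamma_case (κ a ε K0 : ℝ) (hκ : 0 < κ) (ha : 0 ≤ a) (ha1 : a ≤ 1 / 2) (hε : 0 < ε)
    (hK : κ ≤ K0) (hK1 : 1 ≤ K0) (hB : ZSide κ a) :
    ∃ T0 t0 : ℝ, 1 ≤ T0 ∧ 0 < t0 ∧ ∀ T : ℝ, T0 ≤ T → ∀ (B u : ℂ) (h : ℂ → ℂ), Frame T B u h →
    ∀ t : ℝ, 0 < t → t ≤ t0 → κ - t ≤ t * Real.log T → t * Real.log T ≤ K0 →
    ∀ σ : ℝ, a + ε ≤ σ → σ ≤ 60 → GT t h (σ + t * u / 2) ≠ 0 := by
  set ε1 : ℝ := min ε 1 with hε1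
  have hε1pos : 0 < ε1 := lt_min hε one_pos
  have hε1ε : ε1 ≤ ε := min_le_left _ _
  have hε11 : ε1 ≤ 1 := min_le_right _ _
  have hK0 : 0 < K0 := by linarith
  set X0 : ℝ := 64 + K0 / 4 with hX0
  set θ0 : ℝ := ε1 ^ 2 / 1600 with hθ0
  have hθ0pos : 0 < θ0 := by positivity
  set η : ℝ := ε1 ^ 2 / (51200 * K0) with hη
  have hηpos : 0 < η := by positivity
  set ε2 : ℝ := ε1 ^ 2 / (6400 * K0) with hε2
  have hε2pos : 0 < ε2 := by positivity
  obtain ⟨Tz, hTz⟩ := hB.1 (ε1 / 8) (by positivity)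
  obtain ⟨T1, hT11, hq⟩ := zlog (a + κ / 4) X0 (ε1 / 8) η 1 Tz (by positivity) (by positivity)
    (by rw [hX0]; linarith) hηpos zero_le_one hTz
  obtain ⟨T2, hT21, hm⟩ := mbound κ a ε2 2 hκ ha hε2pos (by norm_num) hB
  obtain ⟨T3, t3, hT31, ht3, ht3', hmain⟩ := frame_bound 0 le_rfl
  obtain ⟨t4, ht4, hell⟩ := ell_small (min (θ0 / 4) (ε1 ^ 2)) (by positivity)
  refine ⟨max (max T1 T2) (max T3 (Real.exp 1)),
    min (min t3 t4) (min (min (ε1 ^ 2 / 102400) (ε1 ^ 2 / κ)) (θ0 / (4 * X0))),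
    hT11.trans ((le_max_left _ _).trans (le_max_left _ _)), by positivity, ?_⟩
  intro T hT B u h hF t ht ht0 hτ1 hτ2 σ hσ1 hσ2
  have hTa : T1 ≤ T := (le_max_left _ _).trans ((le_max_left _ _).trans hT)
  have hTb : T2 ≤ T := (le_max_right _ _).trans ((le_max_left _ _).trans hT)
  have hTc : T3 ≤ T := (le_max_left _ _).trans ((le_max_right _ _).trans hT)
  have hTd : Real.exp 1 ≤ T := (le_max_right _ _).trans ((le_max_right _ _).trans hT)
  have hta : t ≤ t3 := ht0.trans ((min_le_left _ _).trans (min_le_left _ _))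
  have htb : t ≤ t4 := ht0.trans ((min_le_left _ _).trans (min_le_right _ _))
  have htc : t ≤ ε1 ^ 2 / 102400 :=
    ht0.trans ((min_le_right _ _).trans ((min_le_left _ _).trans (min_le_left _ _)))
  have htd : t ≤ ε1 ^ 2 / κ :=
    ht0.trans ((min_le_right _ _).trans ((min_le_left _ _).trans (min_le_right _ _)))
  have hte : t ≤ θ0 / (4 * X0) := ht0.trans ((min_le_right _ _).trans (min_le_right _ _))
  have hTpos : 0 < T := (Real.exp_pos _).trans_le hTd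
  have hL1 : 1 ≤ Real.log T := by rw [Real.le_log_iff_exp_le hTpos]; exact hTd
  set L := Real.log T with hL
  set τ := t * L with hτ
  have hτ0 : 0 < τ := by positivity
  have hX0pos : 0 < X0 := by positivity
  have hel := hell t ht htb
  have hel1 : t * ell t ≤ θ0 / 4 := hel.trans (min_le_left _ _)
  have hel2 : t * ell t ≤ ε1 ^ 2 := hel.trans (min_le_right _ _)
  have hε12 : ε1 ^ 2 ≤ ε1 := pow_le_of_le_one hε1pos.le hε11 two_ne_zero
  have htκ : t * κ ≤ ε1 ^ 2 := by rwa [le_div_iff₀ hκ] at htd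
  have htX : t * X0 ≤ θ0 / 4 := by
    rw [le_div_iff₀ (by positivity)] at hte
    linarith
  have hηK : η * K0 = ε1 ^ 2 / 51200 := by rw [hη]; field_simp
  have hεK : ε2 * K0 = θ0 / 4 := by rw [hε2, hθ0]; field_simp; norm_num
  have hlam := abs_le.1 hF.lam
  set Λ := u.re with hΛ
  set c0 : ℝ := σ + t * Λ / 2 with hc0
  have hlow : τ / 4 - 2 * t ≤ t * Λ / 2 := by
    have : t * (L / 2 - 4) ≤ t * Λ := by gcongr; linarith [hlam.1]
    linarith
  have hup : t * Λ / 2 ≤ τ / 4 + 2 * t := by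
    have : t * Λ ≤ t * (L / 2 + 4) := by gcongr; linarith [hlam.2]
    linarith
  have hc0low : a + ε1 + τ / 4 - 2 * t ≤ c0 := by linarith
  have hc0up : c0 ≤ X0 := by rw [hX0]; linarith
  have hc0low2 : a + κ / 4 + ε1 / 4 + ε1 / 8 ≤ c0 := by linarith
  -- complex centre
  have hcre : ((σ : ℂ) + t * u / 2).re = c0 := by
    rw [hc0, add_re, Complex.ofReal_re]
    congr 1
    rw [show (t * u / 2 : ℂ) = ((t / 2 : ℝ) : ℂ) * u by push_cast; ring, Complex.re_ofReal_mul]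
    ring
  set ci : ℝ := t * u.im / 2 with hci
  have hcim : ((σ : ℂ) + t * u / 2).im = ci := by
    rw [add_im, Complex.ofReal_im, zero_add]
    rw [show (t * u / 2 : ℂ) = ((t / 2 : ℝ) : ℂ) * u by push_cast; ring, Complex.im_ofReal_mul]
    ring
  have hci1 : |ci| ≤ 1 := num_g0 ht hF.him (by linarith)
  obtain ⟨q, hq1, hq2, hq3⟩ := hq T hTa B u h hF ci hci1
  have hcsplit : (X0 : ℂ) + ci * I + ((c0 - X0 : ℝ) : ℂ) = (σ : ℂ) + t * u / 2 := by
    rw [← re_add_im ((σ : ℂ) + t * u / 2), hcre, hcim]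
    push_cast; ring
  have hin : ∀ z ∈ ball (0 : ℂ) (ε1 / 8), ‖((c0 - X0 : ℝ) : ℂ) + z‖ ≤
      X0 - (a + κ / 4) - 2 * (ε1 / 8) := by
    intro z hz
    rw [mem_ball_zero_iff] at hz
    refine (norm_add_le _ _).trans ?_
    rw [Complex.norm_real, Real.norm_eq_abs, abs_of_nonpos (by linarith)]
    linarith
  have hsigma : σ + (0 : ℝ) * I + t * u / 2 = (σ : ℂ) + t * u / 2 := by push_cast; ring
  have hQ : 0 < η * L := by positivity
  have key := hmain T hTc B u h hF t ht hta σ 0 (ε1 / 8) (η * L)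
    (fun z => q (((c0 - X0 : ℝ) : ℂ) + z)) (by linarith) hσ2 (by simp) (by positivity) (by linarith)
    hQ (by linarith) ?_ ?_ ?_ ?_ ?_ ?_
  · rw [hsigma] at key
    intro h0
    have hk1 := key.1
    rw [h0, norm_zero] at hk1
    have : 0 < 1 / 8 * √(Real.pi * t) * Real.exp (-2 * (η * L)) := by
      have := Real.sqrt_pos.2 (mul_pos Real.pi_pos ht)
      positivity
    linarith
  · rw [le_div_iff₀ (by positivity)]
    have e1 : (ell t + 4 * (η * L) + 8) * (50 * t) = 50 * (t * ell t) + 200 * (η * τ) + 400 * t := by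
      rw [hτ]; ring
    rw [e1]
    have h5 : η * τ ≤ η * K0 := by gcongr
    rw [hηK] at h5
    have e2 : (ε1 / 8) ^ 2 = ε1 ^ 2 / 64 := by ring
    rw [e2]
    have h6 : θ0 = ε1 ^ 2 / 1600 := hθ0
    linarith
  · rw [le_div_iff₀ ht]
    have e1 : (ell t + 3 * (η * L)) * t = t * ell t + 3 * (η * τ) := by rw [hτ]; ring
    have h5 : η ≤ ε1 / 8 := num_g1 hε1pos hε11 hK1
    have h6 : τ / 4 + ε1 / 2 ≤ c0 := by linarith
    have h7 : 3 * (τ / 4 + ε1 / 2) * ε1 ≤ 3 * c0 * σ := by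
      have h70 : ε1 ≤ σ := by linarith
      have h71 : 0 ≤ 3 * c0 := by linarith
      exact mul_le_mul (by linarith) h70 hε1pos.le h71
    have h8 : η * τ ≤ ε1 / 8 * τ := by gcongr
    have h10 : 0 < ε1 * τ := by positivity
    rw [e1]
    exact num_g2 hel2 h8 h7 h10
  · refine hq1.comp (by fun_prop) ?_
    intro z hz
    rw [mem_ball_zero_iff]
    have := hin z hz
    linarith
  · intro z hz
    exact hq3 _ (hin z hz)
  · intro z hz
    rw [hsigma, hq2 _ (by rw [mem_ball_zero_iff]; have := hin z hz; linarith), ← hcsplit]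
    congr 1
    ring
  · intro x y hx0 hx3 hxc hy
    rw [zero_add] at hy
    obtain ⟨m1, m2, m3⟩ := hm T hTb B u h hF x y hx0 hx3 hy
    obtain ⟨g1, g2⟩ := f3_ineq (κ := κ) (a := a) (τ := τ) (t := t) (ε1 := ε1) (θ0 := θ0) (x := x)
      (c0 := c0) hκ hε1pos ht (by linarith) htκ hτ1 hτ0 hc0low (by rw [hθ0]; linarith [sq_nonneg ε1])
    have hθR : θ0 ≤ (x - c0) ^ 2 := by
      rw [← sq_abs]
      have : (ε1 / 8 / 5) ^ 2 ≤ |x - c0| ^ 2 := by gcongr
      rw [hθ0]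
      linarith
    have habs : |x - c0| ≤ X0 := by
      rw [abs_le]; constructor <;> linarith
    -- reduce to an inequality
    have hred : ∀ m : ℝ, τ * m + θ0 ≤ (x - c0) ^ 2 → (m + ε2) * L ≤
        (x - c0) ^ 2 / t - |x - c0| - (ell t + 3 * (η * L)) := by
      intro m hm1
      have h5 : (m + ε2) * L + |x - c0| + ell t + 3 * (η * L) ≤ (x - c0) ^ 2 / t := by
        rw [le_div_iff₀ ht]
        have e1 : ((m + ε2) * L + |x - c0| + ell t + 3 * (η * L)) * t =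
            τ * m + ε2 * τ + t * |x - c0| + t * ell t + 3 * (η * τ) := by rw [hτ]; ring
        rw [e1]
        have h6 : ε2 * τ ≤ ε2 * K0 := by gcongr
        have h7 : η * τ ≤ η * K0 := by gcongr
        have h8 : t * |x - c0| ≤ t * X0 := by gcongr
        rw [hεK] at h6
        rw [hηK] at h7
        have h9 : θ0 = ε1 ^ 2 / 1600 := hθ0
        have := sq_nonneg ε1
        linarith
      linarith
    rcases le_total x a with hxa | hxa
    · refine (m1 hxa).trans (Real.exp_le_exp.2 ?_)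
      exact hred _ (g1 hxa)
    · rcases le_total x (a + κ / 4) with hxb | hxb
      · refine (m2 hxa hxb).trans (Real.exp_le_exp.2 ?_)
        exact hred _ (g2 hxa hxb)
      · refine (m3 hxb).trans (Real.exp_le_exp.2 ?_)
        have := hred 0 (by rw [mul_zero, zero_add]; exact hθR)
        rwa [zero_add] at this

end Pool.Agent.Helper87.HF
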