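import Pool.Agent.Helper87.HF.Uncond

set_option autoImplicit false

open Complex Set Filter Topology Metric MeasureTheory

namespace Pool.Agent.Helper87.HF

lemma GT_frame' {T t : ℝ} (hT : 1 ≤ T) {B u : ℂ} {h : ℂ → ℂ} (hF : Frame T B u h) (ht : 0 < t)
    (ht2 : t ≤ 1 / 40) (v : ℂ) :
    GT t fx (T * I + v) = B * exp (u * v + (t * u / 2) ^ 2 / t) * GT t h (v + t * u / 2) := by
  refine GT_frame hF ht ht2 v (C := T ^ 6 * Real.exp (2 * |u.re| ^ 2 + 28 * ‖v‖ ^ 2)) ?_
  intro s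
  rw [add_comm]
  exact hF.growth hT v s

lemma GT_fx_ne {T t : ℝ} (hT : 1 ≤ T) {B u : ℂ} {h : ℂ → ℂ} (hF : Frame T B u h) (ht : 0 < t)
    (ht2 : t ≤ 1 / 40) (v : ℂ) :
    GT t fx (T * I + v) ≠ 0 ↔ GT t h (v + t * u / 2) ≠ 0 := by
  rw [GT_frame' hT hF ht ht2 v]
  constructor
  · intro h1 h2
    exact h1 (by rw [h2, mul_zero])
  · intro h1
    exact mul_ne_zero (mul_ne_zero hF.hB (exp_ne_zero _)) h1

/-- Direct part: zeta information gives zero-free regions for the Gaussian averages. -/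
theorem direct (κ a ε : ℝ) (hκ : 0 < κ) (ha : 0 ≤ a) (ha1 : a ≤ 1 / 2) (hε : 0 < ε)
    (hB : ZSide κ a) :
    ∃ t0 : ℝ, 0 < t0 ∧ ∀ t : ℝ, 0 < t → t ≤ t0 → ∀ σ T : ℝ, a + ε ≤ σ → σ ≤ 60 →
      Real.exp (κ / t) ≤ 2 * T → GT t fx (T * I + σ) ≠ 0 := by
  set K0 : ℝ := max κ 2000 with hK0
  obtain ⟨T1, t1, hT11, ht1, hg⟩ := gamma_case κ a ε K0 hκ ha ha1 hε (le_max_left _ _)
    ((by norm_num : (1 : ℝ) ≤ 2000).trans (le_max_right _ _)) hB
  obtain ⟨T2, t2, hT21, ht2, ht2', hr⟩ := right_gen 0 ε le_rfl hε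
  obtain ⟨Tf, hTf1, hTf⟩ := exists_frame
  set T0 : ℝ := max (max T1 T2) Tf with hT0
  have hT01 : 1 ≤ T0 := hTf1.trans (le_max_right _ _)
  refine ⟨min (min t1 t2) (min (1 / 40) (κ / (2 * T0))), by positivity, ?_⟩
  intro t ht ht0 σ T hσ1 hσ2 hT
  have hta : t ≤ t1 := ht0.trans ((min_le_left _ _).trans (min_le_left _ _))
  have htb : t ≤ t2 := ht0.trans ((min_le_left _ _).trans (min_le_right _ _))
  have htc : t ≤ 1 / 40 := ht0.trans ((min_le_right _ _).trans (min_le_left _ _))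
  have htd : t ≤ κ / (2 * T0) := ht0.trans ((min_le_right _ _).trans (min_le_right _ _))
  have hTT0 : T0 ≤ T := by
    have h1 : 2 * T0 ≤ κ / t := by
      rw [le_div_iff₀ ht]
      rw [le_div_iff₀ (by positivity)] at htd
      linarith
    have h2 := Real.add_one_le_exp (κ / t)
    linarith
  have hTa : T1 ≤ T := (le_max_left _ _).trans ((le_max_left _ _).trans hTT0)
  have hTb : T2 ≤ T := (le_max_right _ _).trans ((le_max_left _ _).trans hTT0)
  have hTc : Tf ≤ T := (le_max_right _ _).trans hTT0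
  have hT1 : 1 ≤ T := hT01.trans hTT0
  obtain ⟨B, u, h, hF⟩ := hTf T hTc
  rw [GT_fx_ne hT1 hF ht htc]
  have hL0 : 0 ≤ Real.log T := Real.log_nonneg hT1
  have hτ : κ - t ≤ t * Real.log T := by
    have h1 : κ / t ≤ Real.log (2 * T) := by
      rw [Real.le_log_iff_exp_le (by linarith)]; exact hT
    rw [Real.log_mul (by norm_num) (by linarith), div_le_iff₀ ht] at h1
    have h2 := Real.log_two_lt_d9
    nlinarith
  rcases le_total (t * Real.log T) K0 with h1 | h1
  · exact hg T hTa B u h hF t ht hta hτ h1 σ hσ1 hσ2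
  · have h2000 : 2000 ≤ t * Real.log T := (le_max_right _ _).trans h1
    have hlam := abs_le.1 hF.lam
    have hlow : t * Real.log T / 4 - 2 * t ≤ t * u.re / 2 := by
      have : t * (Real.log T / 2 - 4) ≤ t * u.re := by gcongr; linarith [hlam.1]
      linarith
    have hc : t * Real.log T / 5 ≤ σ + t * u.re / 2 - 3 := by linarith
    have key := (hr T hTb B u h hF t ht htb σ 0 (by linarith) hσ2 (by simp) (by linarith) ?_).1
    · have e1 : (σ : ℂ) + ((0 : ℝ) : ℂ) * I + t * u / 2 = σ + t * u / 2 := by push_cast; ring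
      rw [e1] at key
      intro h0
      rw [h0, norm_zero] at key
      have : 0 < 1 / 8 * √(Real.pi * t) * Real.exp (-2 * 2) := by
        have := Real.sqrt_pos.2 (mul_pos Real.pi_pos ht)
        positivity
      linarith
    · have h3 : (t * Real.log T / 5) ^ 2 / (2 * t) ≤ (σ + t * u.re / 2 - 3) ^ 2 / (2 * t) := by
        gcongr
      refine le_trans ?_ h3
      rw [le_div_iff₀ (by positivity)]
      have e2 : (7 * Real.log T + 200 / t) * (2 * t) = 14 * (t * Real.log T) + 400 := by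
        field_simp
        ring
      rw [e2]
      nlinarith

end Pool.Agent.Helper87.HF
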