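import Pool.Agent.Helper87.HF.FarCore

set_option autoImplicit false

open Complex Set Filter Topology Metric MeasureTheory

namespace Pool.Agent.Helper87.HF

theorem frame_bound (Y0 : ℝ) (hY0 : 0 ≤ Y0) : ∃ T0 t0 : ℝ, 1 ≤ T0 ∧ 0 < t0 ∧ t0 ≤ 1 / 400 ∧
    ∀ T : ℝ, T0 ≤ T → ∀ (B u : ℂ) (h : ℂ → ℂ), Frame T B u h → ∀ t : ℝ, 0 < t → t ≤ t0 →
    ∀ (σ y0 R Q : ℝ) (q : ℂ → ℂ), 0 < σ → σ ≤ 60 → |y0| ≤ Y0 → 0 < R → R ≤ 1 → 0 < Q →
    R ≤ σ + t * u.re / 2 → ell t + 4 * Q + 8 ≤ R ^ 2 / (50 * t) →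
    ell t + 3 * Q ≤ 3 * (σ + t * u.re / 2) * σ / t →
    DifferentiableOn ℂ q (ball 0 R) → (∀ z ∈ ball (0 : ℂ) R, ‖q z‖ ≤ Q) →
    (∀ z ∈ ball (0 : ℂ) R, exp (q z) = h (σ + y0 * I + t * u / 2 + z)) →
    (∀ x y : ℝ, 0 ≤ x → x ≤ 3 → R / 5 ≤ |x - (σ + t * u.re / 2)| → |y| ≤ Y0 + 2 →
      ‖h (x + y * I)‖ ≤ Real.exp ((x - (σ + t * u.re / 2)) ^ 2 / t - |x - (σ + t * u.re / 2)| -
        (ell t + 3 * Q))) →
    1 / 8 * √(Real.pi * t) * Real.exp (-2 * Q) ≤ ‖GT t h (σ + y0 * I + t * u / 2)‖ ∧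
    ‖GT t h (σ + y0 * I + t * u / 2)‖ ≤ 4 * √(Real.pi * t) * Real.exp (2 * Q) := by
  obtain ⟨T1, hT1⟩ := log_cube (166 + Y0)
  refine ⟨max 1 T1, min (1 / 400) (1 / (Y0 + 2) ^ 2), le_max_left _ _, by positivity,
    min_le_left _ _, ?_⟩
  intro T hT B u h hF t ht ht0 σ y0 R Q q hσ hσ60 hy0 hR hR1 hQ hRc hHR hHS hq hb hqh hF3
  have hT1' : 1 ≤ T := (le_max_left _ _).trans hT
  have hcube := hT1 T ((le_max_right _ _).trans hT)
  have ht1 : t ≤ 1 / 400 := ht0.trans (min_le_left _ _)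
  have htY : t ≤ 1 / (Y0 + 2) ^ 2 := ht0.trans (min_le_right _ _)
  have hY2 : 0 < Y0 + 2 := by linarith
  have htY' : (Y0 + 2) ^ 2 ≤ 1 / t := by
    rw [le_div_iff₀ ht, mul_comm]
    rwa [le_div_iff₀ (by positivity)] at htY
  have hL0 : 0 ≤ Real.log T := Real.log_nonneg hT1'
  have hlam := abs_le.1 hF.lam
  set Λ := u.re with hΛ
  set c0 : ℝ := σ + t * Λ / 2 with hc0
  have hellpos : 0 ≤ ell t := by
    rw [ell]
    apply Real.log_nonneg
    rw [le_div_iff₀ (Real.sqrt_pos.2 ht), one_mul]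
    have : √t ≤ 1 := Real.sqrt_le_one.2 (by linarith)
    linarith
  obtain ⟨hR400, hRQ⟩ := num_R hellpos hQ ht hHR
  have hR2 : R ^ 2 ≤ R := by
    have := mul_le_mul_of_nonneg_left hR1 hR.le
    rw [sq]; linarith
  set c : ℂ := σ + t * u / 2 with hc
  have hcre : c.re = c0 := by
    rw [hc, hc0, hΛ, add_re, Complex.ofReal_re]
    congr 1
    rw [show (t * u / 2 : ℂ) = ((t / 2 : ℝ) : ℂ) * u by push_cast; ring, Complex.re_ofReal_mul]
    ring
  have hcim : c.im = t * u.im / 2 := by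
    rw [hc, add_im, Complex.ofReal_im, zero_add]
    rw [show (t * u / 2 : ℂ) = ((t / 2 : ℝ) : ℂ) * u by push_cast; ring, Complex.im_ofReal_mul]
    ring
  have hcim2 : |c.im| ≤ t := by
    rw [hcim, abs_div, abs_mul, abs_of_pos ht]
    have := mul_le_mul_of_nonneg_left hF.him ht.le
    norm_num
    linarith
  have hy0' := hy0
  have hGT : GT t h (σ + y0 * I + t * u / 2) = GT t (fun s => h (s + y0 * I)) c := by
    rw [GT_translate, hc]
    congr 1
    ring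
  rw [hGT]
  -- the far condition
  have hfar : ∀ s : ℂ, 0 ≤ s.re → R / 5 ≤ |s.re - c.re| → |s.im - c.im| ≤ R →
      ‖h (s + y0 * I)‖ ≤ (√t * Real.exp (-3 * Q) / 20) *
        Real.exp ((s.re - c.re) ^ 2 / t - |s.re - c.re|) := by
    intro s hs0 hs1 hs2
    rw [E_eq ht, ← Real.exp_add, hcre]
    rw [hcre] at hs1
    set x := s.re with hx
    set y := s.im + y0 with hy
    have hyY : |y| ≤ Y0 + 2 := by
      have h5 : |s.im| ≤ R + t := by
        have := abs_sub_abs_le_abs_sub s.im c.im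
        linarith
      have := abs_add_le s.im y0
      rw [← hy] at this
      linarith
    have hsy : s + y0 * I = x + y * I := by
      conv_lhs => rw [← re_add_im s]
      rw [hy, hx]
      push_cast
      ring
    rw [hsy]
    rcases le_total x 3 with hx3 | hx3
    · refine (hF3 x y hs0 hx3 hs1 hyY).trans (Real.exp_le_exp.2 ?_)
      linarith
    · refine (far_core hF hT1' hcube ht ht1 hY0 htY' hR hR1 hQ hc0 (lt_of_lt_of_le hR hRc)
        (by linarith) hσ60 hellpos hHR hx3 hs1 hyY).trans (Real.exp_le_exp.2 ?_)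
      linarith
  have hgr := hF.growth hT1' (y0 * I)
  refine full_bound (σ := σ) (Λ := Λ) (h := fun s => h (s + y0 * I)) (hF.hd.comp (by fun_prop)) hgr
    ht (by linarith) hR hR1 hQ hq hb ?_ (by rw [hcre]; exact hRc) hcim2 (by linarith) (by linarith)
    hfar hσ (by rw [hcre, hc0]) ?_ ?_
  · intro z hz
    rw [hqh z hz]
    congr 1
    rw [hc]; ring
  · intro x hx
    have := hF.h3 x y0
    rw [this]
  · rw [E_eq ht, hcre]
    apply Real.exp_le_exp.2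
    linarith

end Pool.Agent.Helper87.HF
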