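import Pool.Agent.Helper87.HF.Full
import Pool.Agent.Helper87.HF.Abs1

set_option autoImplicit false

open Complex Set Filter Topology Metric MeasureTheory

namespace Pool.Agent.Helper87.HF

/-- `log (20/√t)` -/
noncomputable def ell (t : ℝ) : ℝ := Real.log (20 / √t)

lemma E_eq {t : ℝ} (ht : 0 < t) (Q : ℝ) :
    √t * Real.exp (-3 * Q) / 20 = Real.exp (-(ell t + 3 * Q)) := by
  have hst : 0 < √t := Real.sqrt_pos.2 ht
  rw [neg_add, Real.exp_add, ell, Real.exp_neg (Real.log _), Real.exp_log (by positivity), inv_div]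
  rw [show -(3 * Q) = -3 * Q by ring]
  ring

lemma norm_reim (x y : ℝ) : ‖(x + y * I : ℂ)‖ ^ 2 = x ^ 2 + y ^ 2 := by
  rw [← Complex.normSq_eq_norm_sq, Complex.normSq_add_mul_I]

lemma Frame.lam {T : ℝ} {B u : ℂ} {h : ℂ → ℂ} (hF : Frame T B u h) :
    |u.re - Real.log T / 2| ≤ 4 := by
  have := (Complex.abs_re_le_norm _).trans hF.hu
  simpa using this

lemma Frame.all {T : ℝ} (hT : 1 ≤ T) {B u : ℂ} {h : ℂ → ℂ} (hF : Frame T B u h) (v : ℂ) :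
    ‖h v‖ ≤ T ^ 6 * Real.exp (3 * ‖v‖ ^ 2 + 2 * |u.re| * ‖v‖) := by
  rcases le_total 0 v.re with h0 | h0
  · refine (hF.h2 v h0).trans ?_
    gcongr
    have : 0 ≤ 2 * |u.re| * ‖v‖ := by positivity
    linarith
  · have h3 := hF.h3 (-v.re) v.im
    have e1 : (-((-v.re : ℝ) : ℂ) + v.im * I) = v := by
      push_cast; rw [neg_neg, re_add_im]
    rw [e1] at h3
    have h2 := hF.h2 (((-v.re : ℝ) : ℂ) + v.im * I) (by simp; exact h0)
    have e2 : ‖(((-v.re : ℝ) : ℂ) + v.im * I)‖ ^ 2 = ‖v‖ ^ 2 := by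
      rw [norm_reim, ← Complex.normSq_eq_norm_sq, Complex.normSq_apply]; ring
    rw [e2] at h2
    rw [h3]
    have h4 : 2 * u.re * -v.re ≤ 2 * |u.re| * ‖v‖ := by
      have a1 := le_abs_self u.re
      have a2 : -v.re ≤ ‖v‖ := (neg_le_abs v.re).trans (Complex.abs_re_le_norm v)
      have a3 : 0 ≤ -v.re := by linarith
      calc 2 * u.re * -v.re ≤ 2 * |u.re| * -v.re := by gcongr
        _ ≤ _ := by gcongr
    calc Real.exp (2 * u.re * -v.re) * ‖h (((-v.re : ℝ) : ℂ) + v.im * I)‖ ≤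
        Real.exp (2 * |u.re| * ‖v‖) * (T ^ 6 * Real.exp (3 * ‖v‖ ^ 2)) := by gcongr
      _ = _ := by rw [Real.exp_add]; ring

lemma Frame.growth {T : ℝ} (hT : 1 ≤ T) {B u : ℂ} {h : ℂ → ℂ} (hF : Frame T B u h) (w : ℂ) :
    ∀ s : ℂ, ‖h (s + w)‖ ≤ (T ^ 6 * Real.exp (2 * |u.re| ^ 2 + 28 * ‖w‖ ^ 2)) *
      Real.exp (4 * ‖s‖ ^ 2) := by
  intro s
  refine (hF.all hT _).trans ?_
  rw [mul_assoc (T ^ 6), ← Real.exp_add]
  refine mul_le_mul_of_nonneg_left (Real.exp_le_exp.2 ?_) (by positivity)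
  have h1 := norm_add_le s w
  have h2 : ‖s + w‖ ^ 2 ≤ (‖s‖ + ‖w‖) ^ 2 := by gcongr
  nlinarith [sq_nonneg (‖s‖ - 7 * ‖w‖), sq_nonneg (‖s + w‖ - 2 * |u.re|)]

lemma Frame.near_one {T : ℝ} {B u : ℂ} {h : ℂ → ℂ} (hF : Frame T B u h) {v : ℂ}
    (hv : 3 ≤ v.re) (hv3 : ‖v‖ ^ 3 ≤ T) : ‖h v - 1‖ ≤ 3 / 4 := by
  have h1 := hF.h1 v (by linarith) hv3
  have hre : (1 / 2 + T * I + v : ℂ).re = 1 / 2 + v.re := by simp
  have h2 := zeta_sub_one (s := 1 / 2 + T * I + v) (by rw [hre]; linarith)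
  rw [hre] at h2
  set Z := riemannZeta (1 / 2 + T * I + v)
  have h3 : (2 : ℝ) ^ (2 - (1 / 2 + v.re)) ≤ 2 ^ (-(3 / 2) : ℝ) :=
    Real.rpow_le_rpow_of_exponent_le (by norm_num) (by linarith)
  have h4 : (2 : ℝ) ^ (-(3 / 2) : ℝ) ≤ 0.36 := by
    have h5 : ((2 : ℝ) ^ (-(3 / 2) : ℝ)) ^ 2 = 1 / 8 := by
      rw [← Real.rpow_natCast, ← Real.rpow_mul (by norm_num)]
      norm_num
    by_contra hcon
    push Not at hcon
    have : (0.36 : ℝ) ^ 2 < ((2 : ℝ) ^ (-(3 / 2) : ℝ)) ^ 2 := by gcongr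
    rw [h5] at this
    norm_num at this
  have h6 : ‖Z - 1‖ ≤ 0.36 := h2.trans (h3.trans h4)
  have h7 : ‖Z‖ ≤ 1.36 := by
    have := norm_sub_norm_le Z 1
    rw [norm_one] at this
    linarith
  have h8 : ‖h v - 1‖ ≤ ‖h v - Z‖ + ‖Z - 1‖ := by
    have : h v - 1 = (h v - Z) + (Z - 1) := by ring
    rw [this]; exact norm_add_le _ _
  linarith

lemma log_cube (A : ℝ) : ∃ T0 : ℝ, ∀ T : ℝ, T0 ≤ T → (2 * Real.log T + A) ^ 3 ≤ T := by
  have h := (Real.isLittleO_pow_log_id_atTop (n := 3)).def (show (0 : ℝ) < 1 / 27 by norm_num)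
  rw [eventually_atTop] at h
  obtain ⟨T0, hT0⟩ := h
  refine ⟨max (max 1 T0) (Real.exp |A|), fun T hT => ?_⟩
  have h1 := hT0 T ((le_max_right _ _).trans ((le_max_left _ _).trans hT))
  have h2 : 1 ≤ T := (le_max_left _ _).trans ((le_max_left _ _).trans hT)
  have h3 : Real.exp |A| ≤ T := (le_max_right _ _).trans hT
  have hL : |A| ≤ Real.log T := by
    rw [Real.le_log_iff_exp_le (by linarith)]; exact h3
  have hL0 : 0 ≤ Real.log T := (abs_nonneg A).trans hL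
  simp only [id, Real.norm_eq_abs] at h1
  rw [abs_of_nonneg (by positivity), abs_of_nonneg (by linarith)] at h1
  have h4 : -Real.log T ≤ A ∧ A ≤ Real.log T := abs_le.1 hL
  have h5 : (2 * Real.log T + A) ^ 3 ≤ (3 * Real.log T) ^ 3 := by
    apply pow_le_pow_left₀
    · linarith
    · linarith
  calc (2 * Real.log T + A) ^ 3 ≤ (3 * Real.log T) ^ 3 := h5
    _ = 27 * Real.log T ^ 3 := by ring
    _ ≤ T := by linarith

end Pool.Agent.Helper87.HF
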