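import Pool.Agent.Helper87.HF.Far0

set_option autoImplicit false

open Complex Set Filter Topology Metric MeasureTheory

namespace Pool.Agent.Helper87.HF

lemma num_R {e Q t R : ℝ} (he : 0 ≤ e) (hQ : 0 < Q) (ht : 0 < t)
    (h : e + 4 * Q + 8 ≤ R ^ 2 / (50 * t)) : 400 * t ≤ R ^ 2 ∧ 200 * (t * Q) ≤ R ^ 2 := by
  rw [le_div_iff₀ (by positivity)] at h
  have h1 := mul_nonneg he ht.le
  have h2 := mul_pos hQ ht
  constructor <;> nlinarith

lemma num_mid {e Q t R x c0 : ℝ} (ht : 0 < t) (hR : 0 < R) (hRt : 10 * t ≤ R)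
    (h : e + 4 * Q + 8 ≤ R ^ 2 / (50 * t)) (hQ : 0 < Q) (hx : R / 5 ≤ |x - c0|) :
    1 ≤ (x - c0) ^ 2 / t - |x - c0| - (e + 3 * Q) := by
  set d := |x - c0| with hd
  have hd2 : (x - c0) ^ 2 = d ^ 2 := by rw [hd, sq_abs]
  rw [hd2]
  have h11 : d ≤ d ^ 2 / (2 * t) := by
    rw [le_div_iff₀ (by positivity)]
    have : 2 * t ≤ d := by linarith
    nlinarith
  have h12 : R ^ 2 / (50 * t) ≤ d ^ 2 / (2 * t) := by
    rw [div_le_div_iff₀ (by positivity) (by positivity)]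
    have : R ^ 2 ≤ 25 * d ^ 2 := by nlinarith
    nlinarith
  have h13 : d ^ 2 / t = d ^ 2 / (2 * t) + d ^ 2 / (2 * t) := by field_simp; norm_num
  rw [h13]
  linarith

lemma num_L {t L x : ℝ} (ht : 0 < t) (h : 39 + t * L / 2 ≤ x) (hL : 0 ≤ L) :
    L ≤ x ^ 2 / (78 * t) := by
  rw [le_div_iff₀ (by positivity)]
  have h1 : 0 ≤ 39 + t * L / 2 := by positivity
  have h2 : (39 + t * L / 2) ^ 2 ≤ x ^ 2 := by gcongr
  nlinarith [sq_nonneg (39 - t * L / 2)]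

lemma num_crude {e Q t R x y c0 L Y : ℝ} (ht : 0 < t) (ht1 : t ≤ 1 / 400) (hR : 0 < R) (hR1 : R ≤ 1)
    (h : e + 4 * Q + 8 ≤ R ^ 2 / (50 * t)) (hQ : 0 < Q) (hx39 : 39 ≤ x) (hL : L ≤ x ^ 2 / (78 * t))
    (hc : 2 * c0 + 40 ≤ x) (hc0 : 0 < c0) (hyy : y ^ 2 ≤ (Y + 2) ^ 2) (hY : (Y + 2) ^ 2 ≤ 1 / t) :
    6 * L + 3 * (x ^ 2 + y ^ 2) ≤ (x - c0) ^ 2 / t - |x - c0| - (e + 3 * Q) := by
  have hd : |x - c0| = x - c0 := abs_of_nonneg (by linarith)
  rw [hd]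
  set d := x - c0 with hdd
  have hd1 : x / 2 ≤ d := by linarith
  have hd2 : d ≤ x := by linarith
  have hquad : x ^ 2 / (4 * t) ≤ d ^ 2 / t := by
    rw [div_le_div_iff₀ (by positivity) ht]
    have : x ^ 2 ≤ 4 * d ^ 2 := by nlinarith
    nlinarith
  set P := x ^ 2 / t with hP
  have hP1 : x ^ 2 / (4 * t) = P / 4 := by rw [hP]; field_simp
  have hP2 : x ^ 2 / (78 * t) = P / 78 := by rw [hP]; field_simp
  rw [hP1] at hquad
  rw [hP2] at hL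
  have a1 : x ^ 2 ≤ P / 400 := by
    rw [hP, div_div, le_div_iff₀ (by positivity)]
    have := mul_le_mul_of_nonneg_left ht1 (sq_nonneg x)
    linarith
  have a2 : 1 / t ≤ P / 1521 := by
    rw [hP, div_div, div_le_div_iff₀ ht (by positivity)]
    have h1521 : 1521 ≤ x ^ 2 := by nlinarith
    have := mul_le_mul_of_nonneg_right h1521 ht.le
    linarith
  have a3 : R ^ 2 / (50 * t) ≤ 1 / t := by
    rw [div_le_div_iff₀ (by positivity) ht]
    have : R ^ 2 ≤ 1 := by nlinarith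
    nlinarith
  have a4 : x ≤ x ^ 2 := by nlinarith
  linarith

lemma num_c0 {t L Λ σ A : ℝ} (ht : 0 < t) (ht1 : t ≤ 1 / 400) (hL : 0 ≤ L) (h : Λ - L / 2 ≤ 4)
    (hσ : σ ≤ A) : σ + t * Λ / 2 ≤ A + 1 + L := by
  have h1 : t * Λ ≤ t * (L / 2 + 4) := mul_le_mul_of_nonneg_left (by linarith) ht.le
  have h2 : t * L ≤ 1 / 400 * L := mul_le_mul_of_nonneg_right ht1 hL
  linarith

lemma num_c0' {t L Λ σ A x : ℝ} (ht : 0 < t) (ht1 : t ≤ 1 / 400) (h : -4 ≤ Λ - L / 2)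
    (hσ : -A ≤ σ) (hA : A ≤ 1 / 8) (hx : 2 * (σ + t * Λ / 2) + 40 ≤ x) : 39 + t * L / 2 ≤ x := by
  have h1 : t * (L / 2 - 4) ≤ t * Λ := mul_le_mul_of_nonneg_left (by linarith) ht.le
  linarith

/-- the bound to the right of `Re = 3` -/
lemma far_core {T t R Q Y0 c0 σ : ℝ} {B u : ℂ} {h : ℂ → ℂ} (hF : Frame T B u h) (hT : 1 ≤ T)
    (hcube : (2 * Real.log T + (166 + Y0)) ^ 3 ≤ T) (ht : 0 < t) (ht1 : t ≤ 1 / 400)
    (hY0 : 0 ≤ Y0) (hY : (Y0 + 2) ^ 2 ≤ 1 / t) (hR : 0 < R) (hR1 : R ≤ 1) (hQ : 0 < Q)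
    (hc0 : c0 = σ + t * u.re / 2) (hc : 0 < c0) (hσ : -(1 / 8) ≤ σ) (hσ60 : σ ≤ 60)
    (hell : 0 ≤ ell t) (h8 : ell t + 4 * Q + 8 ≤ R ^ 2 / (50 * t)) {x y : ℝ} (hx3 : 3 ≤ x)
    (hxc : R / 5 ≤ |x - c0|) (hy : |y| ≤ Y0 + 2) :
    ‖h (x + y * I)‖ ≤ Real.exp ((x - c0) ^ 2 / t - |x - c0| - (ell t + 3 * Q)) := by
  have hL0 : 0 ≤ Real.log T := Real.log_nonneg hT
  have hlam := abs_le.1 hF.lam
  have hyy : y ^ 2 ≤ (Y0 + 2) ^ 2 := by rw [← sq_abs]; gcongr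
  obtain ⟨r1, r2⟩ := num_R hell hQ ht h8
  have hRt : 10 * t ≤ R := by
    have : R ^ 2 ≤ R := by
      have := mul_le_mul_of_nonneg_left hR1 hR.le
      rw [sq]; linarith
    linarith
  rcases le_total x (2 * c0 + 40) with hx4 | hx4
  · -- middle range
    have hvn : ‖(x + y * I : ℂ)‖ ≤ 2 * Real.log T + (166 + Y0) := by
      have h5 : ‖(x + y * I : ℂ)‖ ≤ x + (Y0 + 2) := by
        refine (norm_add_le _ _).trans ?_
        rw [norm_mul, Complex.norm_I, mul_one, Complex.norm_real, Complex.norm_real,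
          Real.norm_of_nonneg (by linarith), Real.norm_eq_abs]
        linarith
      have h6 := num_c0 (A := 60) ht ht1 hL0 hlam.2 hσ60
      rw [← hc0] at h6
      linarith
    have h7 : ‖(x + y * I : ℂ)‖ ^ 3 ≤ T := by
      refine le_trans ?_ hcube
      gcongr
    have h8' := hF.near_one (v := x + y * I) (by simp; exact hx3) h7
    have h9 : ‖h (x + y * I)‖ ≤ 2 := by
      have := norm_sub_norm_le (h (x + y * I)) 1
      rw [norm_one] at this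
      linarith
    have h10 : (2 : ℝ) ≤ Real.exp 1 := by linarith [Real.add_one_le_exp 1]
    exact (h9.trans h10).trans (Real.exp_le_exp.2 (num_mid ht hR hRt h8 hQ hxc))
  · -- crude range
    have hx39 : 39 + t * Real.log T / 2 ≤ x :=
      num_c0' (σ := σ) (A := 1 / 8) ht ht1 hlam.1 hσ le_rfl (by rw [← hc0]; exact hx4)
    have hL := num_L ht hx39 hL0
    have h5 := hF.h2 (x + y * I) (by simp; linarith)
    rw [norm_reim] at h5
    have hTexp : T ^ 6 = Real.exp (6 * Real.log T) := by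
      rw [show (6 : ℝ) = ((6 : ℕ) : ℝ) by norm_num, Real.exp_nat_mul, Real.exp_log (by linarith)]
    rw [hTexp, ← Real.exp_add] at h5
    have htL : 0 ≤ t * Real.log T := by positivity
    exact h5.trans (Real.exp_le_exp.2 (num_crude ht ht1 hR hR1 h8 hQ (by linarith) hL hx4 hc hyy hY))

end Pool.Agent.Helper87.HF
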