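import Pool.Agent.Helper87.HF.Basic

set_option autoImplicit false

open Complex Set Filter Topology Metric

namespace Pool.Agent.Helper87.HF

/-- The normalised function near height `T`. -/
structure Frame (T : ℝ) (B u : ℂ) (h : ℂ → ℂ) : Prop where
  hB : B ≠ 0
  hu : ‖u - (Real.log T / 2 : ℝ)‖ ≤ 4
  him : |u.im| ≤ 2
  hd : Differentiable ℂ h
  hf : ∀ v : ℂ, fx (T * I + v) = B * exp (u * v) * h v
  h1 : ∀ v : ℂ, 0 ≤ v.re → ‖v‖ ^ 3 ≤ T → ‖h v - riemannZeta (1 / 2 + T * I + v)‖ ≤
    1 / 4 * ‖riemannZeta (1 / 2 + T * I + v)‖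
  h2 : ∀ v : ℂ, 0 ≤ v.re → ‖h v‖ ≤ T ^ 6 * Real.exp (3 * ‖v‖ ^ 2)
  h3 : ∀ x y : ℝ, ‖h (-x + y * I)‖ = Real.exp (2 * u.re * x) * ‖h (x + y * I)‖

lemma log_small : ∃ T0 : ℝ, ∀ T : ℝ, T0 ≤ T → Real.log T ≤ T / 150 := by
  have h := Real.isLittleO_log_id_atTop.def (show (0 : ℝ) < 1 / 150 by norm_num)
  rw [eventually_atTop] at h
  obtain ⟨T0, hT0⟩ := h
  refine ⟨max 1 T0, fun T hT => ?_⟩
  have h1 := hT0 T ((le_max_right _ _).trans hT)
  have h2 : 1 ≤ T := (le_max_left _ _).trans hT
  simp only [id, Real.norm_eq_abs] at h1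
  rw [abs_of_nonneg (Real.log_nonneg h2), abs_of_nonneg (by linarith)] at h1
  linarith

theorem exists_frame : ∃ T0 : ℝ, 1 ≤ T0 ∧ ∀ T : ℝ, T0 ≤ T → ∃ B u h, Frame T B u h := by
  obtain ⟨T1, hT1⟩ := log_small
  obtain ⟨K, hK1, hK⟩ := fx_crude
  refine ⟨max (max T1 1000000) (3 * K), by
    exact (by norm_num : (1 : ℝ) ≤ 1000000).trans ((le_max_right _ _).trans (le_max_left _ _)), ?_⟩
  intro T hT
  have hTa : T1 ≤ T := (le_max_left _ _).trans ((le_max_left _ _).trans hT)
  have hTb : 1000000 ≤ T := (le_max_right _ _).trans ((le_max_left _ _).trans hT)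
  have hTK : 3 * K ≤ T := (le_max_right _ _).trans hT
  have hT0 : 0 < T := by linarith
  have hlog := hT1 T hTa
  have hlog0 : 0 ≤ Real.log T := Real.log_nonneg (by linarith)
  obtain ⟨u, hu, him, hgam⟩ := H19Xi.gam_near T (by linarith)
  have hgl := H19Xi.gam_lower T (by linarith)
  set g0 := H19Xi.gam (2 + T * I) with hg0
  have hg0ne : g0 ≠ 0 := by
    intro h
    rw [h, norm_zero] at hgl
    exact absurd hgl (not_le.2 (Real.exp_pos _))
  set B : ℂ := 8 * g0 * exp (-(3 / 2) * u) with hB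
  have hBne : B ≠ 0 := mul_ne_zero (mul_ne_zero (by norm_num) hg0ne) (exp_ne_zero _)
  have hure : |u.re - Real.log T / 2| ≤ 4 := by
    have := (Complex.abs_re_le_norm _).trans hu
    simpa using this
  have hun : ‖u‖ ≤ Real.log T / 2 + 4 := by
    have h1 := norm_sub_norm_le u (Real.log T / 2 : ℝ)
    rw [Complex.norm_real, Real.norm_of_nonneg (by linarith)] at h1
    linarith
  set h : ℂ → ℂ := fun v => fx (T * I + v) / (B * exp (u * v)) with hh
  have hden : ∀ v, B * exp (u * v) ≠ 0 := fun v => mul_ne_zero hBne (exp_ne_zero _)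
  -- formula with zeta
  have hform : ∀ v : ℂ, 0 ≤ v.re → ‖v‖ ≤ T / 3 → h v * (g0 * exp ((v - 3 / 2) * u)) =
      H19Xi.gam (2 + T * I + (v - 3 / 2)) * riemannZeta (1 / 2 + T * I + v) := by
    intro v hv hvT
    have hvim : |v.im| ≤ T / 3 := (Complex.abs_im_le_norm v).trans hvT
    have hne : (T * I + v : ℂ) ≠ 1 / 2 := by
      intro he
      have := congrArg Complex.im he
      simp at this
      have h2 := (abs_le.1 hvim).1
      linarith
    have h3 := fx_gam (w := T * I + v) (by simp; linarith) hne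
    simp only [hh]
    rw [h3]
    have e1 : (1 / 2 + (T * I + v) : ℂ) = 2 + T * I + (v - 3 / 2) := by ring
    have e2 : riemannZeta (1 / 2 + (T * I + v)) = riemannZeta (1 / 2 + T * I + v) := by
      congr 1; ring
    rw [e2, e1, hB]
    have e3 : exp ((v - 3 / 2) * u) = exp (-(3 / 2) * u) * exp (u * v) := by
      rw [← exp_add]; congr 1; ring
    rw [e3]
    have n1 := exp_ne_zero (-(3 / 2) * u)
    have n2 := exp_ne_zero (u * v)
    field_simp
  have hratio : ∀ v : ℂ, 0 ≤ v.re → ‖v‖ ≤ T / 3 → ‖h v - riemannZeta (1 / 2 + T * I + v)‖ ≤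
      ((2 * ‖v - 3 / 2‖ ^ 2 + ‖v - 3 / 2‖) / T * Real.exp (‖v - 3 / 2‖ ^ 2 / T)) *
        ‖riemannZeta (1 / 2 + T * I + v)‖ := by
    intro v hv hvT
    have hw : ‖v - 3 / 2‖ ≤ T / 2 := by
      refine (norm_sub_le _ _).trans ?_
      norm_num
      linarith
    have h3 := hgam (v - 3 / 2) hw
    have h4 := hform v hv hvT
    set G := g0 * exp ((v - 3 / 2) * u) with hG
    have hGne : G ≠ 0 := mul_ne_zero hg0ne (exp_ne_zero _)
    have hGn : 0 < ‖G‖ := norm_pos_iff.2 hGne
    set Z := riemannZeta (1 / 2 + T * I + v)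
    have e4 : (h v - Z) * G = (H19Xi.gam (2 + T * I + (v - 3 / 2)) - G) * Z := by
      rw [sub_mul, h4]; ring
    have e5 : ‖h v - Z‖ * ‖G‖ ≤ ‖G‖ * ((2 * ‖v - 3 / 2‖ ^ 2 + ‖v - 3 / 2‖) / T *
        Real.exp (‖v - 3 / 2‖ ^ 2 / T)) * ‖Z‖ := by
      rw [← norm_mul, e4, norm_mul]
      gcongr
    have e6 : ‖h v - Z‖ * ‖G‖ ≤ (((2 * ‖v - 3 / 2‖ ^ 2 + ‖v - 3 / 2‖) / T *
        Real.exp (‖v - 3 / 2‖ ^ 2 / T)) * ‖Z‖) * ‖G‖ := by
      refine e5.trans (le_of_eq (by ring))
    exact le_of_mul_le_mul_right e6 hGn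
  refine ⟨B, u, h, hBne, hu, him, ?_, ?_, ?_, ?_, ?_⟩
  · intro v
    have hd1 : DifferentiableAt ℂ (fun v => fx (T * I + v)) v :=
      (fx_diff (T * I + v)).comp v (by fun_prop)
    exact hd1.div (by fun_prop) (hden v)
  · intro v
    simp only [hh]
    rw [mul_div_cancel₀ _ (hden v)]
  · intro v hv hv3
    set n := ‖v‖ with hn
    have hn0 : 0 ≤ n := norm_nonneg v
    have hw1 : ‖v - 3 / 2‖ ≤ n + 3 / 2 := by
      refine (norm_sub_le _ _).trans ?_
      norm_num [hn]
    have hbound : 2 * (n + 3 / 2) ^ 2 + (n + 3 / 2) ≤ T / 8 := by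
      rcases le_total n 100 with h5 | h5
      · nlinarith
      · have : n ^ 2 * 100 ≤ n ^ 3 := by
          rw [pow_succ n 2]; gcongr
        nlinarith
    have hnT : n ≤ T / 3 := by nlinarith [sq_nonneg n]
    refine (hratio v hv hnT).trans ?_
    refine mul_le_mul_of_nonneg_right ?_ (norm_nonneg _)
    have h6 : (2 * ‖v - 3 / 2‖ ^ 2 + ‖v - 3 / 2‖) / T ≤ 1 / 8 := by
      rw [div_le_iff₀ hT0]
      have : 2 * ‖v - 3 / 2‖ ^ 2 + ‖v - 3 / 2‖ ≤ 2 * (n + 3 / 2) ^ 2 + (n + 3 / 2) := by gcongr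
      linarith
    have h7 : ‖v - 3 / 2‖ ^ 2 / T ≤ 1 / 8 := by
      refine le_trans ?_ h6
      gcongr
      nlinarith [norm_nonneg (v - 3 / 2), sq_nonneg ‖v - 3 / 2‖]
    have h8 : Real.exp (‖v - 3 / 2‖ ^ 2 / T) ≤ 2 := by
      have h9 : Real.exp (‖v - 3 / 2‖ ^ 2 / T) ≤ Real.exp (1 / 8) := Real.exp_le_exp.2 h7
      have h10 : Real.exp (1 / 8) ≤ 2 := by
        have := Real.exp_one_lt_d9
        have h11 : Real.exp (1 / 8) ^ 8 = Real.exp 1 := by rw [← Real.exp_nat_mul]; norm_num
        by_contra hcon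
        push Not at hcon
        have : (2 : ℝ) ^ 8 < Real.exp (1 / 8) ^ 8 := by gcongr
        rw [h11] at this
        linarith
      linarith
    calc (2 * ‖v - 3 / 2‖ ^ 2 + ‖v - 3 / 2‖) / T * Real.exp (‖v - 3 / 2‖ ^ 2 / T) ≤ 1 / 8 * 2 := by
          gcongr
      _ = 1 / 4 := by norm_num
  · intro v hv
    set n := ‖v‖ with hn
    have hn0 : 0 ≤ n := norm_nonneg v
    rcases le_total n (T / 3) with hnT | hnT
    · -- moderately small v
      have hw1 : ‖v - 3 / 2‖ ≤ n + 3 / 2 := by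
        refine (norm_sub_le _ _).trans ?_
        norm_num [hn]
      set m := ‖v - 3 / 2‖ with hm
      have hm0 : 0 ≤ m := norm_nonneg _
      have hmT : m ≤ T / 2 := by linarith
      have h5 := hratio v hv hnT
      set Z := riemannZeta (1 / 2 + T * I + v) with hZ
      have hZn : ‖Z‖ ≤ 6 * (2 * T) ^ 2 := by
        have hvim : |v.im| ≤ T / 3 := (Complex.abs_im_le_norm v).trans hnT
        have h6 := Pool.Agent.H306R2.zeta_norm_le (s := 1 / 2 + T * I + v) (by simp; linarith) (by
          have h7 := Complex.abs_im_le_norm (1 / 2 + T * I + v - 1)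
          have e7 : (1 / 2 + T * I + v - 1 : ℂ).im = T + v.im := by simp
          rw [e7] at h7
          have h8 := (abs_le.1 hvim).1
          have h9 := le_abs_self (T + v.im)
          linarith)
        refine h6.trans ?_
        have h7 : ‖(1 / 2 + T * I + v : ℂ)‖ ≤ 1 / 2 + T + T / 3 := by
          refine (norm_add_le _ _).trans (add_le_add ((norm_add_le _ _).trans ?_) hnT)
          rw [norm_mul, Complex.norm_real, Complex.norm_I, mul_one, Real.norm_of_nonneg hT0.le]
          norm_num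
        have h8 : ‖(1 / 2 + T * I + v : ℂ)‖ + 1 ≤ 2 * T := by linarith
        gcongr
      have h9 : (2 * m ^ 2 + m) / T * Real.exp (m ^ 2 / T) ≤ Real.exp (n ^ 2 + 3) * Real.exp (n ^ 2 + 3) := by
        have a1 : (2 * m ^ 2 + m) / T ≤ m + 1 := by
          rw [div_le_iff₀ hT0]
          nlinarith
        have a2 : m ^ 2 / T ≤ m / 2 := by
          rw [div_le_iff₀ hT0]
          nlinarith
        have a3 : m + 1 ≤ Real.exp m := Real.add_one_le_exp m
        have a4 : m ≤ n ^ 2 + 3 := by nlinarith [sq_nonneg (n - 1 / 2)]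
        calc (2 * m ^ 2 + m) / T * Real.exp (m ^ 2 / T) ≤ Real.exp m * Real.exp (m / 2) := by
              gcongr
              linarith
          _ ≤ _ := by
              gcongr
              linarith
      have h10 : ‖h v‖ ≤ (1 + Real.exp (n ^ 2 + 3) * Real.exp (n ^ 2 + 3)) * ‖Z‖ := by
        have := norm_sub_norm_le (h v) Z
        have h11 : ‖h v - Z‖ ≤ Real.exp (n ^ 2 + 3) * Real.exp (n ^ 2 + 3) * ‖Z‖ :=
          h5.trans (mul_le_mul_of_nonneg_right h9 (norm_nonneg _))
        linarith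
      have h12 : 1 + Real.exp (n ^ 2 + 3) * Real.exp (n ^ 2 + 3) ≤ 1000 * Real.exp (2 * n ^ 2) := by
        have e8 : Real.exp (n ^ 2 + 3) * Real.exp (n ^ 2 + 3) = Real.exp 6 * Real.exp (2 * n ^ 2) := by
          rw [← Real.exp_add, ← Real.exp_add]; congr 1; ring
        rw [e8]
        have h13 : 1 ≤ Real.exp (2 * n ^ 2) := Real.one_le_exp (by positivity)
        have h14 : Real.exp 6 ≤ 999 := by
          have := Real.exp_one_lt_d9
          have h15 : Real.exp 6 = Real.exp 1 ^ 6 := by rw [← Real.exp_nat_mul]; norm_num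
          rw [h15]
          calc Real.exp 1 ^ 6 ≤ 2.72 ^ 6 := by gcongr; linarith
            _ ≤ 999 := by norm_num
        nlinarith
      calc ‖h v‖ ≤ (1 + Real.exp (n ^ 2 + 3) * Real.exp (n ^ 2 + 3)) * ‖Z‖ := h10
        _ ≤ (1000 * Real.exp (2 * n ^ 2)) * (6 * (2 * T) ^ 2) := by gcongr
        _ = 24000 * T ^ 2 * Real.exp (2 * n ^ 2) := by ring
        _ ≤ T ^ 6 * Real.exp (3 * n ^ 2) := by
            have h16 : 24000 ≤ T ^ 4 := by
              have : (1000000 : ℝ) ^ 4 ≤ T ^ 4 := by gcongr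
              linarith
            calc 24000 * T ^ 2 * Real.exp (2 * n ^ 2) ≤ T ^ 4 * T ^ 2 * Real.exp (3 * n ^ 2) := by
                  gcongr
                  norm_num
              _ = _ := by ring
    · -- large v
      have hn400 : 400 ≤ n := by linarith
      have hKn : K ≤ n := by linarith
      simp only [hh]
      rw [norm_div, norm_mul]
      have hBl : Real.exp (-T - 3 / 2 * (n / 50)) ≤ ‖B‖ := by
        rw [hB, norm_mul, norm_mul, Complex.norm_exp]
        have e9 : (-(3 / 2) * u : ℂ).re = -(3 / 2 * u.re) := by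
          rw [show (-(3 / 2) * u : ℂ) = ((-(3 / 2) : ℝ) : ℂ) * u by push_cast; ring,
            Complex.re_ofReal_mul]
          ring
        rw [e9]
        have h5 : u.re ≤ n / 50 := by
          have := (abs_le.1 hure).2
          linarith
        have h6 : ‖(8 : ℂ)‖ = 8 := by norm_num
        rw [h6, sub_eq_add_neg, Real.exp_add]
        have h7 : Real.exp (-(3 / 2 * (n / 50))) ≤ Real.exp (-(3 / 2 * u.re)) := by
          apply Real.exp_le_exp.2; linarith
        have h8 := norm_nonneg g0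
        calc Real.exp (-T) * Real.exp (-(3 / 2 * (n / 50))) ≤ ‖g0‖ * Real.exp (-(3 / 2 * u.re)) := by
              gcongr
          _ ≤ 8 * ‖g0‖ * Real.exp (-(3 / 2 * u.re)) := by
              have := mul_nonneg h8 (Real.exp_pos (-(3 / 2 * u.re))).le
              linarith
      have huv : Real.exp (-(n / 50 * n)) ≤ ‖exp (u * v)‖ := by
        rw [Complex.norm_exp]
        apply Real.exp_le_exp.2
        have h5 := Complex.abs_re_le_norm (u * v)
        rw [norm_mul] at h5
        have h6 := (abs_le.1 h5).1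
        have h7 : ‖u‖ * ‖v‖ ≤ n / 50 * n := by
          gcongr
          linarith
        linarith
      have hfx := hK (T * I + v) (by simp; exact hv)
      have e10 : (T * I + v : ℂ).re = v.re := by simp
      rw [e10] at hfx
      have hvre : v.re ≤ n := Complex.re_le_norm v
      have hn1 : ‖(T * I + v : ℂ)‖ ≤ 4 * n := by
        refine (norm_add_le _ _).trans ?_
        rw [norm_mul, Complex.norm_real, Complex.norm_I, mul_one, Real.norm_of_nonneg hT0.le]
        linarith
      have hfx2 : ‖fx (T * I + v)‖ ≤ Real.exp (17 * n + (n + 3) ^ 2) := by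
        refine hfx.trans ?_
        have h5 : (1 + ‖(T * I + v : ℂ)‖) ^ 4 ≤ Real.exp (4 * n) ^ 4 := by
          gcongr
          have := Real.add_one_le_exp (4 * n)
          linarith
        have h6 : K ≤ Real.exp n := by
          have := Real.add_one_le_exp n
          linarith
        have h7 : Real.exp (4 * n) ^ 4 = Real.exp (16 * n) := by
          rw [← Real.exp_nat_mul]; congr 1; push_cast; ring
        rw [h7] at h5
        calc K * (1 + ‖(T * I + v : ℂ)‖) ^ 4 * Real.exp ((v.re + 3) ^ 2) ≤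
            Real.exp n * Real.exp (16 * n) * Real.exp ((n + 3) ^ 2) := by
              gcongr
          _ = _ := by rw [← Real.exp_add, ← Real.exp_add]; congr 1; ring
      rw [div_le_iff₀ (mul_pos (norm_pos_iff.2 hBne) (norm_pos_iff.2 (exp_ne_zero _)))]
      refine hfx2.trans ?_
      have h8 : Real.exp (17 * n + (n + 3) ^ 2) ≤ Real.exp (3 * n ^ 2) *
          (Real.exp (-T - 3 / 2 * (n / 50)) * Real.exp (-(n / 50 * n))) := by
        rw [← Real.exp_add, ← Real.exp_add]
        apply Real.exp_le_exp.2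
        nlinarith
      have hT6 : 1 ≤ T ^ 6 := one_le_pow₀ (by linarith)
      calc Real.exp (17 * n + (n + 3) ^ 2) ≤ 1 * Real.exp (3 * n ^ 2) *
          (Real.exp (-T - 3 / 2 * (n / 50)) * Real.exp (-(n / 50 * n))) := by
            rw [one_mul]; exact h8
        _ ≤ _ := by gcongr
  · intro x y
    have hsym : ‖fx (T * I + (-x + y * I))‖ = ‖fx (T * I + (x + y * I))‖ := by
      have e11 : (T * I + (-x + y * I) : ℂ) = -(starRingEnd ℂ (T * I + (x + y * I))) := by
        simp only [map_add, map_mul, Complex.conj_ofReal, Complex.conj_I]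
        ring
      rw [e11, fx_even, fx_conj]
      exact Complex.norm_conj _
    simp only [hh]
    rw [norm_div, norm_div, hsym, norm_mul B (exp (u * (-x + y * I))),
      norm_mul B (exp (u * (x + y * I))), Complex.norm_exp, Complex.norm_exp]
    have e12 : (u * (-x + y * I)).re = -(u.re * x) - u.im * y := by
      simp
    have e13 : (u * (x + y * I)).re = u.re * x - u.im * y := by
      simp
    rw [e12, e13]
    have e14 : Real.exp (u.re * x - u.im * y) = Real.exp (2 * u.re * x) *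
        Real.exp (-(u.re * x) - u.im * y) := by
      rw [← Real.exp_add]; congr 1; ring
    rw [e14]
    have n1 := (Real.exp_pos (2 * u.re * x)).ne'
    have n2 := (Real.exp_pos (-(u.re * x) - u.im * y)).ne'
    have n3 := (norm_pos_iff.2 hBne).ne'
    field_simp

end Pool.Agent.Helper87.HF
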