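import Pool.Agent.Helper87.HF.Abs6
import Pool.Agent.Helper87.HF.Frame

set_option autoImplicit false

open Complex Set Filter Topology Metric MeasureTheory

namespace Pool.Agent.Helper87.HF

lemma gauss_growth {t C : ℝ} {h : ℂ → ℂ} (ht : 0 < t) (ht2 : t ≤ 1 / 40)
    (hg : ∀ s : ℂ, ‖h s‖ ≤ C * Real.exp (4 * ‖s‖ ^ 2)) (c : ℂ) (x y Y : ℝ) (hy : |y| ≤ Y) :
    ‖exp (-((x + y * I : ℂ) - c) ^ 2 / t) * h (x + y * I)‖ ≤
      C * Real.exp (c.re ^ 2 / t + (Y + |c.im|) ^ 2 / t + 4 * Y ^ 2) * Real.exp (-(16 * x ^ 2)) := by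
  have hC : 0 ≤ C := by
    have := (norm_nonneg _).trans (hg 0)
    exact nonneg_of_mul_nonneg_left this (Real.exp_pos _)
  have e1 : ((x : ℂ) + y * I).re = x := by simp
  have e2 : ((x : ℂ) + y * I).im = y := by simp
  rw [norm_mul, norm_gauss, e1, e2]
  have h1 := hg (x + y * I)
  have e3 : ‖((x : ℂ) + y * I)‖ ^ 2 = x ^ 2 + y ^ 2 := by
    rw [← Complex.normSq_eq_norm_sq, Complex.normSq_add_mul_I]
  rw [e3] at h1
  have hY : 0 ≤ Y := (abs_nonneg _).trans hy
  have hy2 : y ^ 2 ≤ Y ^ 2 := by rw [← sq_abs]; gcongr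
  have hyc : (y - c.im) ^ 2 ≤ (Y + |c.im|) ^ 2 := by
    rw [← sq_abs (y - c.im)]
    gcongr
    exact (abs_sub _ _).trans (by linarith)
  calc Real.exp (-((x - c.re) ^ 2 - (y - c.im) ^ 2) / t) * ‖h (x + y * I)‖ ≤
      Real.exp (-((x - c.re) ^ 2 - (y - c.im) ^ 2) / t) * (C * Real.exp (4 * (x ^ 2 + y ^ 2))) := by
        gcongr
    _ = C * Real.exp (-((x - c.re) ^ 2 - (y - c.im) ^ 2) / t + 4 * (x ^ 2 + y ^ 2)) := by
        rw [Real.exp_add]; ring
    _ ≤ C * Real.exp (c.re ^ 2 / t + (Y + |c.im|) ^ 2 / t + 4 * Y ^ 2 + -(16 * x ^ 2)) := by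
        refine mul_le_mul_of_nonneg_left (Real.exp_le_exp.2 ?_) hC
        have h8 : 20 * x ^ 2 ≤ x ^ 2 / (2 * t) := by
          rw [le_div_iff₀ (by positivity)]
          nlinarith [sq_nonneg x]
        have h9 : x ^ 2 / (2 * t) - c.re ^ 2 / t ≤ (x - c.re) ^ 2 / t := by
          rw [show x ^ 2 / (2 * t) - c.re ^ 2 / t = (x ^ 2 / 2 - c.re ^ 2) / t by field_simp]
          gcongr
          nlinarith [sq_nonneg (x - 2 * c.re)]
        have h10 : (y - c.im) ^ 2 / t ≤ (Y + |c.im|) ^ 2 / t := by gcongr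
        have e3 : -((x - c.re) ^ 2 - (y - c.im) ^ 2) / t =
          (y - c.im) ^ 2 / t - (x - c.re) ^ 2 / t := by ring
        rw [e3]
        linarith
    _ = _ := by rw [Real.exp_add]; ring

lemma GT_line_int {t C : ℝ} {h : ℂ → ℂ} (ht : 0 < t) (ht2 : t ≤ 1 / 40) (hh : Differentiable ℂ h)
    (hg : ∀ s : ℂ, ‖h s‖ ≤ C * Real.exp (4 * ‖s‖ ^ 2)) (c : ℂ) :
    Integrable (fun x : ℝ => exp (-((x : ℂ) - c) ^ 2 / t) * h x) := by
  refine ((int_gauss 16 (by norm_num)).const_mul (C * Real.exp (c.re ^ 2 / t + (0 + |c.im|) ^ 2 / t +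
    4 * 0 ^ 2))).mono' ?_ ?_
  · exact (Continuous.mul (by fun_prop) (hh.continuous.comp (by fun_prop))).aestronglyMeasurable
  · refine Eventually.of_forall fun x => ?_
    have := gauss_growth ht ht2 hg c x 0 0 (by simp)
    simpa using this

/-- Gaussian average as a convolution on the real line, for a complex centre -/
lemma GT_line {t C : ℝ} {h : ℂ → ℂ} (ht : 0 < t) (ht2 : t ≤ 1 / 40) (hh : Differentiable ℂ h)
    (hg : ∀ s : ℂ, ‖h s‖ ≤ C * Real.exp (4 * ‖s‖ ^ 2)) (c : ℂ) :
    ∫ x : ℝ, exp (-((x : ℂ) - c) ^ 2 / t) * h x = GT t h c := by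
  have hC : 0 ≤ C := by
    have := (norm_nonneg _).trans (hg 0)
    exact nonneg_of_mul_nonneg_left this (Real.exp_pos _)
  set k : ℂ → ℂ := fun z => exp (-(z - c) ^ 2 / t) * h z with hk
  have hkd : Differentiable ℂ k := by rw [hk]; fun_prop
  have h1 := shift_line hkd (C := C * Real.exp (c.re ^ 2 / t + (|c.im| + |c.im|) ^ 2 / t +
    4 * |c.im| ^ 2)) (y0 := c.im) (fun x y hy => by
      have h2 := gauss_growth ht ht2 hg c x y |c.im| hy
      refine h2.trans ?_
      refine mul_le_mul_of_nonneg_left (Real.exp_le_exp.2 ?_) (by positivity)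
      nlinarith [sq_nonneg x])
  have h3 : ∫ x : ℝ, exp (-((x : ℂ) - c) ^ 2 / t) * h x = ∫ x : ℝ, k x := rfl
  rw [h3, h1, ← integral_add_right_eq_self _ c.re]
  simp only [GT]
  refine integral_congr_ae (Eventually.of_forall fun x => ?_)
  simp only [hk]
  have e : (((x + c.re : ℝ) : ℂ) + c.im * I) = c + x := by
    conv_rhs => rw [← re_add_im c]
    push_cast
    ring
  rw [e, add_sub_cancel_left]

lemma GT_translate (t : ℝ) (h : ℂ → ℂ) (c d : ℂ) :
    GT t (fun s => h (s + d)) c = GT t h (c + d) := by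
  simp only [GT]
  refine integral_congr_ae (Eventually.of_forall fun x => ?_)
  simp only
  congr 2
  ring

/-- the frame formula for the Gaussian average -/
lemma GT_frame {T t C : ℝ} {B u : ℂ} {h : ℂ → ℂ} (hF : Frame T B u h) (ht : 0 < t)
    (ht2 : t ≤ 1 / 40) (v : ℂ)
    (hg : ∀ s : ℂ, ‖h (v + s)‖ ≤ C * Real.exp (4 * ‖s‖ ^ 2)) :
    GT t fx (T * I + v) = B * exp (u * v + (t * u / 2) ^ 2 / t) * GT t h (v + t * u / 2) := by
  have htc : (t : ℂ) ≠ 0 := by exact_mod_cast ht.ne'
  have h1 := GT_line ht ht2 (h := fun s => h (v + s)) (hF.hd.comp (by fun_prop)) hg (t * u / 2)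
  have h2 : GT t h (v + t * u / 2) = GT t (fun s => h (v + s)) (t * u / 2) := by
    have := GT_translate t h (t * u / 2) v
    rw [add_comm v, ← this]
    congr 1
    funext s
    rw [add_comm]
  rw [h2, ← h1, ← integral_const_mul]
  simp only [GT]
  refine integral_congr_ae (Eventually.of_forall fun x => ?_)
  simp only
  rw [add_assoc, hF.hf]
  have e : exp (-(x : ℂ) ^ 2 / t) * (B * exp (u * (v + x)) * h (v + x)) =
      B * (exp (-(x : ℂ) ^ 2 / t) * exp (u * (v + x))) * h (v + x) := by ring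
  have e2 : B * exp (u * v + (t * u / 2) ^ 2 / t) * (exp (-((x : ℂ) - t * u / 2) ^ 2 / t) * h (v + x)) =
      B * (exp (u * v + (t * u / 2) ^ 2 / t) * exp (-((x : ℂ) - t * u / 2) ^ 2 / t)) * h (v + x) := by
    ring
  rw [e, e2, ← exp_add, ← exp_add]
  congr 3
  field_simp
  ring

/-- saddle point bound for the full line, with reflection -/
lemma full_bound {h q : ℂ → ℂ} {R Q t C Λ σ : ℝ} {c : ℂ} (hh : Differentiable ℂ h)
    (hg : ∀ s : ℂ, ‖h s‖ ≤ C * Real.exp (4 * ‖s‖ ^ 2))
    (ht : 0 < t) (ht2 : t ≤ 1 / 40) (hR : 0 < R) (hR1 : R ≤ 1) (hQ : 0 < Q)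
    (hq : DifferentiableOn ℂ q (ball 0 R)) (hb : ∀ z ∈ ball (0 : ℂ) R, ‖q z‖ ≤ Q)
    (hqh : ∀ z ∈ ball (0 : ℂ) R, exp (q z) = h (c + z))
    (hc : R ≤ c.re) (him : |c.im| ≤ t) (h1 : t * Q ≤ R ^ 2 / 200) (h2 : t ≤ R ^ 2 / 400)
    (far : ∀ s : ℂ, 0 ≤ s.re → R / 5 ≤ |s.re - c.re| → |s.im - c.im| ≤ R →
      ‖h s‖ ≤ (√t * Real.exp (-3 * Q) / 20) * Real.exp ((s.re - c.re) ^ 2 / t - |s.re - c.re|))
    (hσ : 0 < σ) (hcσ : c.re = σ + t * Λ / 2)
    (hrefl : ∀ x : ℝ, 0 ≤ x → ‖h (-x)‖ ≤ Real.exp (2 * Λ * x) * ‖h x‖)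
    (hs : Real.exp (-(3 * c.re * σ / t)) ≤ √t * Real.exp (-3 * Q) / 20) :
    1 / 8 * √(Real.pi * t) * Real.exp (-2 * Q) ≤ ‖GT t h c‖ ∧
    ‖GT t h c‖ ≤ 4 * √(Real.pi * t) * Real.exp (2 * Q) := by
  set E : ℝ := √t * Real.exp (-3 * Q) / 20 with hEdef
  have hE0 : 0 < E := by
    have := Real.sqrt_pos.2 ht
    positivity
  have hC : 0 ≤ C := by
    have := (norm_nonneg _).trans (hg 0)
    exact nonneg_of_mul_nonneg_left this (Real.exp_pos _)
  have hJ := J_bound (Cg := C * Real.exp 4) (E := E) hh (fun s hs0 hs1 => by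
    refine (hg s).trans ?_
    rw [mul_assoc, ← Real.exp_add]
    refine mul_le_mul_of_nonneg_left (Real.exp_le_exp.2 ?_) hC
    have e2 : ‖s‖ ^ 2 = s.re ^ 2 + s.im ^ 2 := by
      rw [← Complex.normSq_eq_norm_sq, Complex.normSq_apply]; ring
    have h4 : s.im ^ 2 ≤ 1 := by
      rw [← sq_abs]; nlinarith [abs_nonneg s.im]
    rw [e2]; nlinarith) ht (by linarith) hR hR1 hQ hq hb hqh hc him h1 h2 le_rfl far
  have hint := GT_line_int ht ht2 hh hg c
  have hsplit : GT t h c = (∫ x in Iic (0 : ℝ), exp (-((x : ℂ) - c) ^ 2 / t) * h x) +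
      ∫ x in Ioi (0 : ℝ), exp (-((x : ℂ) - c) ^ 2 / t) * h x := by
    rw [← GT_line ht ht2 hh hg c, ← compl_Iic, integral_add_compl measurableSet_Iic hint]
  have hcpos : 0 < c.re := lt_of_lt_of_le hR hc
  have hR2 : R ^ 2 ≤ 1 := by nlinarith
  have ht3 : t ≤ 1 / 400 := by nlinarith
  have hst : 0 < √t := Real.sqrt_pos.2 ht
  have hleft : ‖∫ x in Iic (0 : ℝ), exp (-((x : ℂ) - c) ^ 2 / t) * h x‖ ≤
      1 / 8 * √(Real.pi * t) * Real.exp (-2 * Q) := by
    have e1 := integral_comp_neg_Ioi 0 (fun x : ℝ => exp (-((x : ℂ) - c) ^ 2 / t) * h x)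
    rw [neg_zero] at e1
    rw [← e1]
    obtain ⟨ia, ib⟩ := int_exp_abs c.re
    have hind : Integrable (indicator (Ioo (c.re - R / 5) (c.re + R / 5))
        (fun _ : ℝ => Real.exp t * (E * Real.exp Q))) :=
      (integrable_indicator_iff measurableSet_Ioo).2 (integrableOn_const (by simp))
    have hdom : ∀ x : ℝ, 0 < x → ‖exp (-(((-x : ℝ) : ℂ) - c) ^ 2 / t) * h ((-x : ℝ) : ℂ)‖ ≤
        Real.exp t * E * Real.exp (-|x - c.re|) + indicator (Ioo (c.re - R / 5) (c.re + R / 5))
        (fun _ : ℝ => Real.exp t * (E * Real.exp Q)) x := by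
      intro x hx
      rw [norm_mul, norm_gauss, Complex.ofReal_re, Complex.ofReal_im]
      have h5 : ‖h ((-x : ℝ) : ℂ)‖ ≤ Real.exp (2 * Λ * x) * ‖h x‖ := by
        have := hrefl x hx.le
        rwa [Complex.ofReal_neg]
      have h6 : (0 - c.im) ^ 2 / t ≤ t := by
        rw [div_le_iff₀ ht, zero_sub, neg_sq, ← sq_abs]
        calc |c.im| ^ 2 ≤ t ^ 2 := by gcongr
          _ = t * t := sq t
      have e3 : -((-x - c.re) ^ 2 - (0 - c.im) ^ 2) / t + 2 * Λ * x =
          (0 - c.im) ^ 2 / t + (-((x - c.re) ^ 2 / t) - 4 * x * σ / t) := by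
        rw [hcσ]
        field_simp
        ring
      have h7 : Real.exp (-((-x - c.re) ^ 2 - (0 - c.im) ^ 2) / t) * ‖h ((-x : ℝ) : ℂ)‖ ≤
          Real.exp t * (Real.exp (-((x - c.re) ^ 2 / t)) * Real.exp (-(4 * x * σ / t)) * ‖h x‖) := by
        calc Real.exp (-((-x - c.re) ^ 2 - (0 - c.im) ^ 2) / t) * ‖h ((-x : ℝ) : ℂ)‖ ≤
            Real.exp (-((-x - c.re) ^ 2 - (0 - c.im) ^ 2) / t) * (Real.exp (2 * Λ * x) * ‖h x‖) := by
              gcongr
          _ = Real.exp ((0 - c.im) ^ 2 / t + (-((x - c.re) ^ 2 / t) - 4 * x * σ / t)) * ‖h x‖ := by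
              rw [← mul_assoc, ← Real.exp_add, e3]
          _ ≤ Real.exp (t + (-((x - c.re) ^ 2 / t) - 4 * x * σ / t)) * ‖h x‖ := by gcongr
          _ = _ := by
              rw [Real.exp_add, sub_eq_add_neg, Real.exp_add]; ring
      refine h7.trans ?_
      by_cases hx5 : R / 5 ≤ |x - c.re|
      · have h8 := far (x : ℂ) (by simp; exact hx.le) (by rw [Complex.ofReal_re]; exact hx5)
          (by rw [Complex.ofReal_im, zero_sub, abs_neg]; nlinarith)
        rw [Complex.ofReal_re] at h8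
        have h9 : Real.exp (-(4 * x * σ / t)) ≤ 1 := by
          rw [Real.exp_le_one_iff]
          have : 0 ≤ 4 * x * σ / t := by positivity
          linarith
        have hnn : 0 ≤ indicator (Ioo (c.re - R / 5) (c.re + R / 5))
            (fun _ : ℝ => Real.exp t * (E * Real.exp Q)) x :=
          indicator_nonneg (fun _ _ => by positivity) _
        calc Real.exp t * (Real.exp (-((x - c.re) ^ 2 / t)) * Real.exp (-(4 * x * σ / t)) * ‖h x‖) ≤
            Real.exp t * (Real.exp (-((x - c.re) ^ 2 / t)) * 1 *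
              (E * Real.exp ((x - c.re) ^ 2 / t - |x - c.re|))) := by gcongr
          _ = Real.exp t * E * (Real.exp (-((x - c.re) ^ 2 / t)) *
              Real.exp ((x - c.re) ^ 2 / t - |x - c.re|)) := by ring
          _ = Real.exp t * E * Real.exp (-|x - c.re|) := by
              rw [← Real.exp_add]; congr 2; ring
          _ ≤ _ := by linarith
      · push Not at hx5
        have h8 := abs_lt.1 hx5
        have hmem : x ∈ Ioo (c.re - R / 5) (c.re + R / 5) := ⟨by linarith [h8.1], by linarith [h8.2]⟩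
        rw [indicator_of_mem hmem]
        have h9 : ‖h x‖ ≤ Real.exp Q := by
          have hz : ((x : ℂ) - c) ∈ ball (0 : ℂ) R := by
            rw [mem_ball_zero_iff]
            refine (Complex.norm_le_abs_re_add_abs_im _).trans_lt ?_
            rw [sub_re, sub_im, Complex.ofReal_re, Complex.ofReal_im, zero_sub, abs_neg]
            nlinarith
          have h10 := hqh _ hz
          rw [add_sub_cancel] at h10
          rw [← h10, Complex.norm_exp]
          apply Real.exp_le_exp.2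
          exact (Complex.re_le_norm _).trans (hb _ hz)
        have h10 : Real.exp (-(4 * x * σ / t)) ≤ E := by
          refine le_trans (Real.exp_le_exp.2 ?_) hs
          rw [neg_le_neg_iff]
          have h12 : 3 * c.re ≤ 4 * x := by linarith [h8.1]
          exact div_le_div_of_nonneg_right (mul_le_mul_of_nonneg_right h12 hσ.le) ht.le
        have h11 : Real.exp (-((x - c.re) ^ 2 / t)) ≤ 1 := by
          rw [Real.exp_le_one_iff]
          have : 0 ≤ (x - c.re) ^ 2 / t := by positivity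
          linarith
        have hnn : 0 ≤ Real.exp t * E * Real.exp (-|x - c.re|) := by positivity
        calc Real.exp t * (Real.exp (-((x - c.re) ^ 2 / t)) * Real.exp (-(4 * x * σ / t)) * ‖h x‖) ≤
            Real.exp t * (1 * E * Real.exp Q) := by gcongr
          _ ≤ _ := by rw [one_mul]; linarith
    calc ‖∫ x in Ioi (0 : ℝ), exp (-(((-x : ℝ) : ℂ) - c) ^ 2 / t) * h ((-x : ℝ) : ℂ)‖ ≤
        ∫ x in Ioi (0 : ℝ), (Real.exp t * E * Real.exp (-|x - c.re|) +
          indicator (Ioo (c.re - R / 5) (c.re + R / 5))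
          (fun _ : ℝ => Real.exp t * (E * Real.exp Q)) x) := by
          refine norm_integral_le_of_norm_le ((ia.const_mul _).add hind).integrableOn ?_
          filter_upwards [ae_restrict_mem measurableSet_Ioi] with x hx
          exact hdom x hx
      _ ≤ ∫ x : ℝ, (Real.exp t * E * Real.exp (-|x - c.re|) +
          indicator (Ioo (c.re - R / 5) (c.re + R / 5))
          (fun _ : ℝ => Real.exp t * (E * Real.exp Q)) x) := by
          refine setIntegral_le_integral ((ia.const_mul _).add hind) ?_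
          refine Eventually.of_forall fun x => ?_
          have : 0 ≤ indicator (Ioo (c.re - R / 5) (c.re + R / 5))
            (fun _ : ℝ => Real.exp t * (E * Real.exp Q)) x :=
            indicator_nonneg (fun _ _ => by positivity) _
          simp only [Pi.zero_apply]
          positivity
      _ = Real.exp t * E * 2 + 2 * R / 5 * (Real.exp t * (E * Real.exp Q)) := by
          rw [integral_add (ia.const_mul _) hind, integral_const_mul, ib,
            integral_indicator measurableSet_Ioo, setIntegral_const]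
          rw [Measure.real, Real.volume_Ioo, ENNReal.toReal_ofReal (by linarith), smul_eq_mul]
          ring
      _ ≤ 1 / 8 * √(Real.pi * t) * Real.exp (-2 * Q) := by
          have ha : Real.exp t ≤ 1.01 := by
            have h12 := Real.exp_bound' (x := t) ht.le (by linarith) (n := 2) (by norm_num)
            have : t ^ 2 ≤ t / 400 := by nlinarith
            simp [Finset.sum_range_succ] at h12
            nlinarith
          have hb1 : 3 / 2 * √t ≤ √(Real.pi * t) := by
            rw [Real.sqrt_mul Real.pi_pos.le]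
            gcongr
            rw [Real.le_sqrt (by norm_num) Real.pi_pos.le]
            linarith [Real.pi_gt_three]
          have hc1 : Real.exp (-3 * Q) * Real.exp Q = Real.exp (-2 * Q) := by
            rw [← Real.exp_add]; congr 1; ring
          have hd1 : Real.exp (-3 * Q) ≤ Real.exp (-2 * Q) := Real.exp_le_exp.2 (by linarith)
          have he1 := Real.exp_pos (-2 * Q)
          have hf1 : E * Real.exp Q = √t * Real.exp (-2 * Q) / 20 := by
            rw [hEdef, div_mul_eq_mul_div, mul_assoc, hc1]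
          have hg1 : E ≤ √t * Real.exp (-2 * Q) / 20 := by
            rw [hEdef]; gcongr
          rw [hf1]
          calc Real.exp t * E * 2 + 2 * R / 5 * (Real.exp t * (√t * Real.exp (-2 * Q) / 20)) ≤
              1.01 * (√t * Real.exp (-2 * Q) / 20) * 2 +
                2 * 1 / 5 * (1.01 * (√t * Real.exp (-2 * Q) / 20)) := by gcongr
            _ ≤ 1 / 8 * (3 / 2 * √t) * Real.exp (-2 * Q) := by
                nlinarith [mul_pos hst he1]
            _ ≤ _ := by gcongr
  set A := ∫ x in Iic (0 : ℝ), exp (-((x : ℂ) - c) ^ 2 / t) * h x with hA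
  set J := ∫ x in Ioi (0 : ℝ), exp (-((x : ℂ) - c) ^ 2 / t) * h x with hJd
  rw [hsplit]
  obtain ⟨hJ1, hJ2⟩ := hJ
  have hG : 0 < √(Real.pi * t) := Real.sqrt_pos.2 (by positivity)
  constructor
  · have h6 : ‖J‖ ≤ ‖A + J‖ + ‖A‖ := by
      have := norm_sub_le (A + J) A
      rwa [add_sub_cancel_left] at this
    linarith
  · refine (norm_add_le _ _).trans ?_
    have h7 : Real.exp (-2 * Q) ≤ Real.exp (2 * Q) := Real.exp_le_exp.2 (by linarith)
    have h8 : 1 / 8 * √(Real.pi * t) * Real.exp (-2 * Q) ≤ 1 * √(Real.pi * t) * Real.exp (2 * Q) := by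
      gcongr; norm_num
    linarith

end Pool.Agent.Helper87.HF
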