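import Pool.Agent.Helper87.HF.Abs3

set_option autoImplicit false

open Complex Set Filter Topology Metric MeasureTheory

namespace Pool.Agent.Helper87.HF

/-- Saddle point lemma for the half line, centre off the real line. -/
lemma J_bound2 {h q : ℂ → ℂ} {R Q t Cg E δ : ℝ} {c : ℂ} (hh : Differentiable ℂ h)
    (hgrow : ∀ s : ℂ, 0 ≤ s.re → |s.im| ≤ 1 → ‖h s‖ ≤ Cg * Real.exp (4 * s.re ^ 2))
    (ht : 0 < t) (ht2 : t ≤ 1 / 10) (hR : 0 < R) (hR1 : R ≤ 1) (hQ : 0 < Q)
    (hq : DifferentiableOn ℂ q (ball 0 R)) (hb : ∀ z ∈ ball (0 : ℂ) R, ‖q z‖ ≤ Q)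
    (hqh : ∀ z ∈ ball (0 : ℂ) R, exp (q z) = h (c + z))
    (hδ : 0 ≤ δ) (hδ1 : δ ≤ 1 / 4)
    (hc : R ≤ c.re) (him : |c.im| ≤ δ) (h1 : t * Q ≤ R ^ 2 / 200) (h2 : t ≤ R ^ 2 / 400)
    (seg : ∀ v : ℝ, |v| ≤ 1 / 2 → ‖h (v * I)‖ ≤ E * Real.exp ((c.re ^ 2 - (δ + R) ^ 2) / t))
    (hE : E ≤ √t * Real.exp (-3 * Q) / 20)
    (far : ∀ s : ℂ, 0 ≤ s.re → R / 5 ≤ |s.re - c.re| → |s.im - c.im| ≤ R →
      ‖h s‖ ≤ E * Real.exp ((s.re - c.re) ^ 2 / t - |s.re - c.re|)) :
    1 / 4 * √(Real.pi * t) * Real.exp (-2 * Q) ≤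
      ‖∫ x in Ioi (0 : ℝ), exp (-(x - c) ^ 2 / t) * h x‖ ∧
    ‖∫ x in Ioi (0 : ℝ), exp (-(x - c) ^ 2 / t) * h x‖ ≤
      3 * √(Real.pi * t) * Real.exp (2 * Q) := by
  obtain ⟨y, hy, hn1, hn2⟩ := near hR ht hQ hq hb hqh h1 h2
  have hyR : ‖y‖ ≤ R / 200 := by
    refine hy.trans ?_
    rw [div_le_iff₀ hR]; linarith
  have hyre : |y.re| ≤ R / 200 := (Complex.abs_re_le_norm y).trans hyR
  have hyim : |y.im| ≤ R / 200 := (Complex.abs_im_le_norm y).trans hyR
  have hyim2 : |y.im| ^ 2 / t ≤ Q / 200 := by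
    rw [div_le_iff₀ ht]
    have h3 : |y.im| ≤ t * Q / R := (Complex.abs_im_le_norm y).trans hy
    calc |y.im| ^ 2 ≤ (t * Q / R) ^ 2 := by gcongr
      _ = (t * Q) * (t * Q) / R ^ 2 := by ring
      _ ≤ (t * Q) * (R ^ 2 / 200) / R ^ 2 := by gcongr
      _ = Q / 200 * t := by field_simp
  set k : ℂ → ℂ := fun z => exp (-(z - c) ^ 2 / t) * h z with hk
  have hkd : Differentiable ℂ k := by
    rw [hk]
    fun_prop
  set y1 : ℝ := (c + y).im with hy1
  set x1 : ℝ := (c + y).re with hx1
  have hy1a : |y1| ≤ δ + |y.im| := by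
    rw [hy1, add_im]
    exact (abs_add_le _ _).trans (by linarith)
  have hR2 : R ^ 2 ≤ 1 := pow_le_one₀ hR.le hR1
  have ht3 : t ≤ 1 / 400 := by linarith
  have hy1b : |y1| ≤ 1 / 2 := by linarith
  have hx1a : |x1 - c.re| ≤ R / 200 := by rw [hx1, add_re, add_sub_cancel_left]; exact hyre
  have hcpos : 0 < c.re := lt_of_lt_of_le hR hc
  have hE0 : 0 ≤ E := by
    have h3 := far (((c.re + R : ℝ) : ℂ) + c.im * I) (by simp; linarith) (by
      simp only [add_re, ofReal_re, mul_re, I_re, mul_zero, ofReal_im, I_im, mul_one, sub_self,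
        add_zero, add_sub_cancel_left]
      rw [abs_of_pos hR]; linarith) (by simp; linarith)
    have h4 := (norm_nonneg _).trans h3
    exact nonneg_of_mul_nonneg_left h4 (Real.exp_pos _)
  have hCg : 0 ≤ Cg := by
    have h3 := hgrow 0 (by simp) (by simp)
    have h4 := (norm_nonneg _).trans h3
    exact nonneg_of_mul_nonneg_left h4 (Real.exp_pos _)
  -- growth of k
  have hkb : ∀ x v : ℝ, 0 ≤ x → |v| ≤ |y1| → ‖k (x + v * I)‖ ≤
      Cg * Real.exp (1 / t + c.re ^ 2 / t) * Real.exp (-x ^ 2) := by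
    intro x v hx hv
    have e1 : ((x : ℂ) + v * I).re = x := by simp
    have e2 : ((x : ℂ) + v * I).im = v := by simp
    have h3 := hgrow ((x : ℂ) + v * I) (by rw [e1]; exact hx) (by rw [e2]; linarith)
    rw [e1] at h3
    simp only [hk]
    rw [norm_mul, norm_gauss, e1, e2]
    have h5 : (v - c.im) ^ 2 ≤ 1 := by
      have : |v - c.im| ≤ 1 := (abs_sub _ _).trans (by linarith)
      exact (sq_le_one_iff_abs_le_one _).2 this
    have h7 : -((x - c.re) ^ 2 - (v - c.im) ^ 2) / t + 4 * x ^ 2 ≤ 1 / t + c.re ^ 2 / t + -x ^ 2 := by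
      have h8 : 5 * x ^ 2 ≤ x ^ 2 / (2 * t) := by
        rw [le_div_iff₀ (by positivity)]
        have h81 : x ^ 2 * (10 * t) ≤ x ^ 2 * 1 := by gcongr; linarith
        linarith
      have h9 : x ^ 2 / (2 * t) - c.re ^ 2 / t ≤ (x - c.re) ^ 2 / t := by
        rw [show x ^ 2 / (2 * t) - c.re ^ 2 / t = (x ^ 2 / 2 - c.re ^ 2) / t by field_simp]
        gcongr
        linarith [sq_nonneg (x - 2 * c.re)]
      have h10 : (v - c.im) ^ 2 / t ≤ 1 / t := by gcongr
      have e3 : -((x - c.re) ^ 2 - (v - c.im) ^ 2) / t =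
        (v - c.im) ^ 2 / t - (x - c.re) ^ 2 / t := by ring
      rw [e3]
      linarith
    calc Real.exp (-((x - c.re) ^ 2 - (v - c.im) ^ 2) / t) * ‖h (x + v * I)‖ ≤
        Real.exp (-((x - c.re) ^ 2 - (v - c.im) ^ 2) / t) * (Cg * Real.exp (4 * x ^ 2)) := by gcongr
      _ = Cg * Real.exp (-((x - c.re) ^ 2 - (v - c.im) ^ 2) / t + 4 * x ^ 2) := by
          rw [Real.exp_add]; ring
      _ ≤ Cg * Real.exp (1 / t + c.re ^ 2 / t + -x ^ 2) := by gcongr
      _ = _ := by rw [Real.exp_add]; ring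
  have hshift := shift_half hkd hkb
  have hint := int_half hkd (C := Cg * Real.exp (1 / t + c.re ^ 2 / t)) (y := y1)
    (fun x hx => hkb x y1 hx le_rfl)
  -- the segment
  have hG : 0 < √(Real.pi * t) := Real.sqrt_pos.2 (by positivity)
  have hst : √t ≤ √(Real.pi * t) := Real.sqrt_le_sqrt
    (le_mul_of_one_le_left ht.le (by linarith [Real.pi_gt_three]))
  have hseg : ‖I * ∫ v in (0 : ℝ)..y1, k (v * I)‖ ≤ 2 * E * Real.exp (Q / 50) := by
    rw [norm_mul, Complex.norm_I, one_mul]
    have h3 : ‖∫ v in (0 : ℝ)..y1, k (v * I)‖ ≤ E * |y1 - 0| := by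
      refine intervalIntegral.norm_integral_le_of_norm_le_const ?_
      intro v hv
      have hv1 : |v| ≤ |y1| := by
        rcases le_total 0 y1 with h | h
        · rw [uIoc_of_le h] at hv
          rw [abs_of_pos hv.1, abs_of_nonneg h]; exact hv.2
        · rw [uIoc_of_ge h] at hv
          rw [abs_of_nonpos hv.2, abs_of_nonpos h]; linarith [hv.1]
      have hv2 : |v - c.im| ≤ δ + R := by
        have e4 : y1 = c.im + y.im := by rw [hy1, add_im]
        have h6 := abs_le.1 him
        have h7 := neg_abs_le y.im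
        have h8 := le_abs_self y.im
        rw [abs_le]
        rcases le_total 0 y1 with h | h
        · rw [uIoc_of_le h] at hv
          constructor
          · linarith [hv.1]
          · linarith [hv.2]
        · rw [uIoc_of_ge h] at hv
          constructor
          · linarith [hv.1]
          · linarith [hv.2, h6.1]
      have e1 : ((v : ℂ) * I).re = 0 := by simp
      have e2 : ((v : ℂ) * I).im = v := by simp
      have h3 := seg v (hv1.trans hy1b)
      simp only [hk]
      rw [norm_mul, norm_gauss, e1, e2]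
      calc Real.exp (-((0 - c.re) ^ 2 - (v - c.im) ^ 2) / t) * ‖h (v * I)‖ ≤
          Real.exp (-((0 - c.re) ^ 2 - (v - c.im) ^ 2) / t) *
            (E * Real.exp ((c.re ^ 2 - (δ + R) ^ 2) / t)) := by gcongr
        _ = E * Real.exp (((v - c.im) ^ 2 - (δ + R) ^ 2) / t) := by
            rw [mul_left_comm, ← Real.exp_add]
            congr 2
            ring
        _ ≤ E * 1 := by
            gcongr
            rw [Real.exp_le_one_iff]
            apply div_nonpos_of_nonpos_of_nonneg _ ht.le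
            have : (v - c.im) ^ 2 ≤ (δ + R) ^ 2 := by rw [← sq_abs (v - c.im)]; gcongr
            linarith
        _ = E := mul_one E
    refine h3.trans ?_
    rw [sub_zero]
    have he : 1 ≤ Real.exp (Q / 50) := Real.one_le_exp (by positivity)
    have he2 := mul_le_mul_of_nonneg_left he hE0
    calc E * |y1| ≤ E * (1 / 2) := by gcongr
      _ ≤ _ := by linarith
  -- splitting
  set Snear : Set ℝ := Ioc (x1 - R / 4) (x1 + R / 4) with hSn
  have hsub : Snear ⊆ Ioi 0 := by
    intro x hx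
    rw [hSn, mem_Ioc] at hx
    rw [mem_Ioi]
    have := (abs_le.1 hx1a).1
    linarith [hx.1]
  have hsplit : ∫ x in Ioi (0 : ℝ), k (x + y1 * I) =
      (∫ x in Snear, k (x + y1 * I)) + ∫ x in Ioi (0 : ℝ) \ Snear, k (x + y1 * I) := by
    have := setIntegral_union (f := fun x : ℝ => k (x + y1 * I)) (s := Snear) (t := Ioi 0 \ Snear)
      (μ := volume) disjoint_sdiff_right (measurableSet_Ioi.diff measurableSet_Ioc)
      (hint.mono_set hsub) (hint.mono_set diff_subset)
    rw [union_diff_cancel hsub] at this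
    exact this
  have hnear : ∫ x in Snear, k (x + y1 * I) =
      ∫ r in (-(R / 4))..(R / 4), exp (-(y + r) ^ 2 / t) * h (c + (y + r)) := by
    have h3 := intervalIntegral.integral_comp_add_right (fun x : ℝ => k (x + y1 * I)) x1
      (a := -(R / 4)) (b := R / 4)
    rw [intervalIntegral.integral_of_le (by linarith : -(R / 4) + x1 ≤ R / 4 + x1)] at h3
    have e5 : Ioc (-(R / 4) + x1) (R / 4 + x1) = Snear := by
      rw [hSn]; congr 1 <;> ring
    rw [e5] at h3
    rw [← h3]
    refine intervalIntegral.integral_congr ?_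
    intro r _
    have e6 : (((r + x1 : ℝ) : ℂ) + y1 * I) = c + (y + r) := by
      have : (c + y : ℂ) = x1 + y1 * I := by rw [hx1, hy1, re_add_im]
      push_cast
      linear_combination -this
    simp only [hk]
    rw [e6]
    congr 2
    ring
  have hfar : ‖∫ x in Ioi (0 : ℝ) \ Snear, k (x + y1 * I)‖ ≤ 2 * E * Real.exp (Q / 50) := by
    obtain ⟨ia, ib⟩ := int_exp_abs c.re
    calc ‖∫ x in Ioi (0 : ℝ) \ Snear, k (x + y1 * I)‖ ≤
        ∫ x in Ioi (0 : ℝ) \ Snear, E * Real.exp (Q / 50) * Real.exp (-|x - c.re|) := by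
          refine norm_integral_le_of_norm_le (ia.const_mul _).integrableOn ?_
          filter_upwards [ae_restrict_mem (measurableSet_Ioi.diff measurableSet_Ioc)] with x hx
          have hx0 : 0 < x := hx.1
          have hx2 : R / 4 ≤ |x - x1| := by
            have := hx.2
            rw [hSn, mem_Ioc, not_and_or, not_lt, not_le] at this
            rcases this with h | h
            · rw [abs_of_nonpos (by linarith)]; linarith
            · rw [abs_of_nonneg (by linarith)]; linarith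
          have hx3 : R / 5 ≤ |x - c.re| := by
            have h5 : |x - x1| ≤ |x - c.re| + |x1 - c.re| := by
              rw [abs_sub_comm x1 c.re]
              exact abs_sub_le x c.re x1
            linarith
          have e1 : ((x : ℂ) + y1 * I).re = x := by simp
          have e2 : ((x : ℂ) + y1 * I).im = y1 := by simp
          have e3 : y1 - c.im = y.im := by rw [hy1, add_im]; ring
          have h3 := far ((x : ℂ) + y1 * I) (by rw [e1]; exact hx0.le) (by rw [e1]; exact hx3)
            (by rw [e2, e3]; linarith)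
          rw [e1] at h3
          simp only [hk]
          rw [norm_mul, norm_gauss, e1, e2, e3]
          calc Real.exp (-((x - c.re) ^ 2 - y.im ^ 2) / t) * ‖h (x + y1 * I)‖ ≤
              Real.exp (-((x - c.re) ^ 2 - y.im ^ 2) / t) *
                (E * Real.exp ((x - c.re) ^ 2 / t - |x - c.re|)) := by gcongr
            _ = E * Real.exp (|y.im| ^ 2 / t + -|x - c.re|) := by
                rw [mul_left_comm, ← Real.exp_add, sq_abs]
                congr 2
                ring
            _ ≤ E * Real.exp (Q / 50 + -|x - c.re|) :=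
                mul_le_mul_of_nonneg_left (Real.exp_le_exp.2 (by linarith)) hE0
            _ = _ := by rw [Real.exp_add]; ring
      _ ≤ ∫ x : ℝ, E * Real.exp (Q / 50) * Real.exp (-|x - c.re|) := by
          refine setIntegral_le_integral (ia.const_mul _) ?_
          exact Eventually.of_forall fun x => by positivity
      _ = 2 * E * Real.exp (Q / 50) := by
          rw [integral_const_mul, ib]; ring
  have htot : ∫ x in Ioi (0 : ℝ), exp (-(x - c) ^ 2 / t) * h x =
      (∫ r in (-(R / 4))..(R / 4), exp (-(y + r) ^ 2 / t) * h (c + (y + r))) +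
      ((∫ x in Ioi (0 : ℝ) \ Snear, k (x + y1 * I)) + I * ∫ v in (0 : ℝ)..y1, k (v * I)) := by
    have e7 : ∫ x in Ioi (0 : ℝ), exp (-(x - c) ^ 2 / t) * h x = ∫ x in Ioi (0 : ℝ), k x := rfl
    rw [e7, hshift, hsplit, hnear]
    ring
  have herr : ‖(∫ x in Ioi (0 : ℝ) \ Snear, k (x + y1 * I)) + I * ∫ v in (0 : ℝ)..y1, k (v * I)‖ ≤
      1 / 4 * √(Real.pi * t) * Real.exp (-2 * Q) := by
    refine (norm_add_le _ _).trans ?_
    have h5 : Real.exp (-3 * Q) * Real.exp (Q / 50) ≤ Real.exp (-2 * Q) := by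
      rw [← Real.exp_add, Real.exp_le_exp]; linarith
    calc _ ≤ 2 * E * Real.exp (Q / 50) + 2 * E * Real.exp (Q / 50) := add_le_add hfar hseg
      _ = 4 * E * Real.exp (Q / 50) := by ring
      _ ≤ 4 * (√t * Real.exp (-3 * Q) / 20) * Real.exp (Q / 50) := by gcongr
      _ = 1 / 5 * √t * (Real.exp (-3 * Q) * Real.exp (Q / 50)) := by ring
      _ ≤ 1 / 4 * √(Real.pi * t) * Real.exp (-2 * Q) := by
          gcongr
          norm_num
  rw [htot]
  set N0 := ∫ r in (-(R / 4))..(R / 4), exp (-(y + r) ^ 2 / t) * h (c + (y + r)) with hN0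
  set Er := (∫ x in Ioi (0 : ℝ) \ Snear, k (x + y1 * I)) + I * ∫ v in (0 : ℝ)..y1, k (v * I)
  constructor
  · have h6 : ‖N0‖ ≤ ‖N0 + Er‖ + ‖Er‖ := by
      have := norm_sub_le (N0 + Er) Er
      rwa [add_sub_cancel_right] at this
    linarith
  · refine (norm_add_le _ _).trans ?_
    have h7 : Real.exp (-2 * Q) ≤ Real.exp (2 * Q) := Real.exp_le_exp.2 (by linarith)
    have h8 : 1 / 4 * √(Real.pi * t) * Real.exp (-2 * Q) ≤ 1 * √(Real.pi * t) * Real.exp (2 * Q) := by
      gcongr; norm_num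
    linarith


end Pool.Agent.Helper87.HF
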