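import Pool.Agent.Helper87.HF.Half0
import Pool.Agent.Helper87.HF.FarCore

set_option autoImplicit false

open Complex Set Filter Topology Metric MeasureTheory

namespace Pool.Agent.Helper87.HF

/-- half-line integral -/
noncomputable def HL (t : ℝ) (h : ℂ → ℂ) (c : ℂ) : ℂ :=
  ∫ x in Ioi (0 : ℝ), exp (-(x - c) ^ 2 / t) * h x

theorem half_bound : ∃ T0 t0 : ℝ, 1 ≤ T0 ∧ 0 < t0 ∧ t0 ≤ 1 / 400 ∧
    ∀ T : ℝ, T0 ≤ T → ∀ (B u : ℂ) (h : ℂ → ℂ), Frame T B u h → ∀ t : ℝ, 0 < t → t ≤ t0 →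
    ∀ (v : ℂ) (δ R Q : ℝ) (q : ℂ → ℂ), 0 ≤ δ → δ ≤ 1 / 8 → ‖v‖ ≤ δ → 0 < R → R ≤ 1 → 0 < Q →
    R ≤ v.re + t * u.re / 2 → ell t + 4 * Q + 8 ≤ R ^ 2 / (50 * t) →
    DifferentiableOn ℂ q (ball 0 R) → (∀ z ∈ ball (0 : ℂ) R, ‖q z‖ ≤ Q) →
    (∀ z ∈ ball (0 : ℂ) R, exp (q z) = h (v + t * u / 2 + z)) →
    (∀ x y : ℝ, 0 ≤ x → x ≤ 3 → R / 5 ≤ |x - (v.re + t * u.re / 2)| → |y| ≤ 2 →
      ‖h (x + y * I)‖ ≤ Real.exp ((x - (v.re + t * u.re / 2)) ^ 2 / t -
        |x - (v.re + t * u.re / 2)| - (ell t + 3 * Q))) →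
    (∀ y : ℝ, |y| ≤ 1 / 2 → ‖h (y * I)‖ ≤ Real.exp (((v.re + t * u.re / 2) ^ 2 -
      (δ + t + R) ^ 2) / t - (ell t + 3 * Q))) →
    1 / 4 * √(Real.pi * t) * Real.exp (-2 * Q) ≤ ‖HL t h (v + t * u / 2)‖ ∧
    ‖HL t h (v + t * u / 2)‖ ≤ 3 * √(Real.pi * t) * Real.exp (2 * Q) := by
  obtain ⟨T1, hT1⟩ := log_cube 166
  refine ⟨max 1 T1, 1 / 400, le_max_left _ _, by norm_num, le_rfl, ?_⟩
  intro T hT B u h hF t ht ht1 v δ R Q q hδ hδ1 hv hR hR1 hQ hRc hHR hq hb hqh hF3 hseg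
  have hT1' : 1 ≤ T := (le_max_left _ _).trans hT
  have hcube := hT1 T ((le_max_right _ _).trans hT)
  have hL0 : 0 ≤ Real.log T := Real.log_nonneg hT1'
  have hlam := abs_le.1 hF.lam
  have hvre := abs_le.1 ((Complex.abs_re_le_norm v).trans hv)
  have hvim := (Complex.abs_im_le_norm v).trans hv
  set Λ := u.re with hΛ
  set c0 : ℝ := v.re + t * Λ / 2 with hc0
  have hellpos : 0 ≤ ell t := by
    rw [ell]
    apply Real.log_nonneg
    rw [le_div_iff₀ (Real.sqrt_pos.2 ht), one_mul]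
    have : √t ≤ 1 := Real.sqrt_le_one.2 (by linarith)
    linarith
  obtain ⟨hR400, hRQ⟩ := num_R hellpos hQ ht hHR
  have hR2 : R ^ 2 ≤ R := by
    have := mul_le_mul_of_nonneg_left hR1 hR.le
    rw [sq]; linarith
  set c : ℂ := v + t * u / 2 with hc
  have hcre : c.re = c0 := by
    rw [hc, hc0, hΛ, add_re]
    congr 1
    rw [show (t * u / 2 : ℂ) = ((t / 2 : ℝ) : ℂ) * u by push_cast; ring, Complex.re_ofReal_mul]
    ring
  have hcim : c.im = v.im + t * u.im / 2 := by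
    rw [hc, add_im]
    congr 1
    rw [show (t * u / 2 : ℂ) = ((t / 2 : ℝ) : ℂ) * u by push_cast; ring, Complex.im_ofReal_mul]
    ring
  have hcim2 : |c.im| ≤ δ + t := by
    rw [hcim]
    refine (abs_add_le _ _).trans (add_le_add hvim ?_)
    rw [abs_div, abs_mul, abs_of_pos ht]
    have := mul_le_mul_of_nonneg_left hF.him ht.le
    norm_num
    linarith
  -- the far condition
  have hfar : ∀ s : ℂ, 0 ≤ s.re → R / 5 ≤ |s.re - c.re| → |s.im - c.im| ≤ R →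
      ‖h s‖ ≤ (√t * Real.exp (-3 * Q) / 20) *
        Real.exp ((s.re - c.re) ^ 2 / t - |s.re - c.re|) := by
    intro s hs0 hs1 hs2
    rw [E_eq ht, ← Real.exp_add, hcre]
    rw [hcre] at hs1
    set x := s.re with hx
    set y := s.im with hy
    have hyY : |y| ≤ 2 := by
      have := abs_sub_abs_le_abs_sub s.im c.im
      linarith
    have hsy : s = x + y * I := by
      conv_lhs => rw [← re_add_im s]
    rw [hsy]
    rcases le_total x 3 with hx3 | hx3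
    · refine (hF3 x y hs0 hx3 hs1 hyY).trans (Real.exp_le_exp.2 ?_)
      linarith
    · have h4 : (0 + 2 : ℝ) ^ 2 ≤ 1 / t := by
        rw [le_div_iff₀ ht]; linarith
      refine (far_core (Y0 := 0) (σ := v.re) hF hT1' (by rw [add_zero]; exact hcube) ht ht1 le_rfl h4 hR
        hR1 hQ hc0 (lt_of_lt_of_le hR hRc) (by linarith) (by linarith) hellpos hHR hx3 hs1
        (by linarith)).trans (Real.exp_le_exp.2 ?_)
      linarith
  have hgr := hF.growth hT1' 0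
  refine J_bound2 (Cg := T ^ 6 * Real.exp (2 * |u.re| ^ 2 + 28 * ‖(0 : ℂ)‖ ^ 2) * Real.exp 4)
    (E := √t * Real.exp (-3 * Q) / 20) (δ := δ + t) hF.hd ?_ ht (by linarith) hR hR1 hQ hq hb hqh
    (by linarith) (by linarith) (by rw [hcre]; exact hRc) hcim2 (by linarith) (by linarith) ?_ le_rfl hfar
  · intro s hs0 hs1
    have h3 := hgr s
    rw [add_zero] at h3
    refine h3.trans ?_
    rw [mul_assoc _ (Real.exp 4), ← Real.exp_add]
    refine mul_le_mul_of_nonneg_left (Real.exp_le_exp.2 ?_) (by positivity)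
    have e2 : ‖s‖ ^ 2 = s.re ^ 2 + s.im ^ 2 := by
      rw [← Complex.normSq_eq_norm_sq, Complex.normSq_apply]; ring
    have h4 : s.im ^ 2 ≤ 1 := by
      rw [← sq_abs]; nlinarith [abs_nonneg s.im]
    rw [e2]; nlinarith
  · intro y hy
    have h3 := hseg y hy
    refine h3.trans (le_of_eq ?_)
    rw [hcre, E_eq ht, ← Real.exp_add]
    congr 1
    ring

end Pool.Agent.Helper87.HF
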