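import Pool.Agent.Helper87.HF.Far

set_option autoImplicit false

open Complex Set Filter Topology Metric MeasureTheory

namespace Pool.Agent.Helper87.HF

lemma ell_nonneg {t : ℝ} (ht : 0 < t) (ht1 : t ≤ 1) : 0 ≤ ell t := by
  rw [ell]
  apply Real.log_nonneg
  rw [le_div_iff₀ (Real.sqrt_pos.2 ht), one_mul]
  have : √t ≤ 1 := Real.sqrt_le_one.2 ht1
  linarith

lemma ell_small (ε : ℝ) (hε : 0 < ε) : ∃ t0 : ℝ, 0 < t0 ∧ ∀ t : ℝ, 0 < t → t ≤ t0 → t * ell t ≤ ε := by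
  refine ⟨(ε / 20) ^ 2, by positivity, fun t ht ht0 => ?_⟩
  have hs : 0 < √t := Real.sqrt_pos.2 ht
  have h1 : ell t ≤ 20 / √t := by
    rw [ell]
    exact (Real.log_le_sub_one_of_pos (by positivity)).trans (by linarith)
  have h2 : √t ≤ ε / 20 := by
    rw [Real.sqrt_le_left (by positivity)]; exact ht0
  calc t * ell t ≤ t * (20 / √t) := by gcongr
    _ = (√t * √t) * (20 / √t) := by rw [Real.mul_self_sqrt ht.le]
    _ = 20 * √t := by field_simp
    _ ≤ ε := by linarith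

lemma right_log {T : ℝ} {B u : ℂ} {h : ℂ → ℂ} (hF : Frame T B u h) {c : ℂ} {R : ℝ}
    (hc : ∀ z ∈ ball (0 : ℂ) R, 3 ≤ (c + z).re ∧ ‖c + z‖ ^ 3 ≤ T) :
    ∃ q : ℂ → ℂ, DifferentiableOn ℂ q (ball 0 R) ∧ (∀ z ∈ ball (0 : ℂ) R, ‖q z‖ ≤ 2) ∧
      ∀ z ∈ ball (0 : ℂ) R, exp (q z) = h (c + z) := by
  have h1 : ∀ z ∈ ball (0 : ℂ) R, ‖h (c + z) - 1‖ ≤ 3 / 4 := fun z hz =>
    hF.near_one (hc z hz).1 (hc z hz).2
  have hslit : ∀ z ∈ ball (0 : ℂ) R, h (c + z) ∈ slitPlane := by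
    intro z hz
    rw [Complex.mem_slitPlane_iff]
    left
    have h2 := (Complex.abs_re_le_norm _).trans (h1 z hz)
    rw [sub_re, one_re] at h2
    have := (abs_le.1 h2).1
    linarith
  refine ⟨fun z => log (h (c + z)), ?_, ?_, ?_⟩
  · intro z hz
    have hd : DifferentiableAt ℂ (fun z => h (c + z)) z :=
      (hF.hd (c + z)).comp z (by fun_prop)
    exact (hd.clog (hslit z hz)).differentiableWithinAt
  · intro z hz
    have h2 := h1 z hz
    have h3 := Complex.norm_log_one_add_le (z := h (c + z) - 1) (by linarith)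
    rw [add_sub_cancel] at h3
    refine h3.trans ?_
    set n := ‖h (c + z) - 1‖ with hn
    have hn0 : 0 ≤ n := norm_nonneg _
    have h4 : (1 - n)⁻¹ ≤ 4 := by
      rw [inv_le_comm₀ (by linarith) (by norm_num)]
      linarith
    have h5 : n ^ 2 ≤ 9 / 16 := by nlinarith
    have h6 : n ^ 2 * (1 - n)⁻¹ ≤ 9 / 16 * 4 := by
      have : 0 ≤ (1 - n)⁻¹ := inv_nonneg.2 (by linarith)
      gcongr
    linarith
  · intro z hz
    exact Complex.exp_log (Complex.slitPlane_ne_zero (hslit z hz))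

lemma num_d {t d : ℝ} (ht : 0 < t) (h : 2 * t ≤ d) : d ≤ d ^ 2 / (2 * t) := by
  rw [le_div_iff₀ (by positivity)]
  nlinarith

lemma num_sq9 {x : ℝ} (h0 : 0 ≤ x) (h3 : x ≤ 3) : x ^ 2 ≤ 9 := by nlinarith

lemma num_right {L t c0 x y Y e : ℝ} (ht : 0 < t) (ht1 : t ≤ 1 / 4000) (hL : 0 ≤ L)
    (hbig : 7 * L + 200 / t ≤ (c0 - 3) ^ 2 / (2 * t)) (hx0 : 0 ≤ x) (hx3 : x ≤ 3) (hc : 5 ≤ c0)
    (hyy : y ^ 2 ≤ (Y + 2) ^ 2) (hY : (Y + 2) ^ 2 ≤ 1 / t) (he : t * e ≤ 1 / 200) :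
    6 * L + 3 * (x ^ 2 + y ^ 2) ≤ (x - c0) ^ 2 / t - |x - c0| - (e + 3 * 2) := by
  have hd : |x - c0| = c0 - x := by rw [abs_of_nonpos (by linarith)]; ring
  have hsq : (x - c0) ^ 2 = (c0 - x) ^ 2 := by ring
  rw [hd, hsq]
  set d := c0 - x with hdd
  have hd3 : c0 - 3 ≤ d := by linarith
  have hmono : (c0 - 3) ^ 2 / (2 * t) ≤ d ^ 2 / (2 * t) := by
    have h1 : (c0 - 3) ^ 2 ≤ d ^ 2 := pow_le_pow_left₀ (by linarith) hd3 2
    exact div_le_div_of_nonneg_right h1 (by positivity)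
  have h11 : d ≤ d ^ 2 / (2 * t) := num_d ht (by linarith)
  have h13 : d ^ 2 / t = d ^ 2 / (2 * t) + d ^ 2 / (2 * t) := by field_simp; norm_num
  have hxx : x ^ 2 ≤ 9 := num_sq9 hx0 hx3
  have h14 : e ≤ 1 / t := by
    rw [le_div_iff₀ ht]; linarith
  have h15 : 4000 ≤ 1 / t := by
    rw [le_div_iff₀ ht]; linarith
  have h16 : 200 / t = 200 * (1 / t) := by ring
  rw [h13]
  rw [h16] at hbig
  linarith

theorem right_gen (Y0 ε : ℝ) (hY0 : 0 ≤ Y0) (hε : 0 < ε) : ∃ T0 t0 : ℝ, 1 ≤ T0 ∧ 0 < t0 ∧ t0 ≤ 1 / 400 ∧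
    ∀ T : ℝ, T0 ≤ T → ∀ (B u : ℂ) (h : ℂ → ℂ), Frame T B u h → ∀ t : ℝ, 0 < t → t ≤ t0 →
    ∀ (σ y0 : ℝ), ε ≤ σ → σ ≤ 60 → |y0| ≤ Y0 → 5 ≤ σ + t * u.re / 2 →
    7 * Real.log T + 200 / t ≤ (σ + t * u.re / 2 - 3) ^ 2 / (2 * t) →
    1 / 8 * √(Real.pi * t) * Real.exp (-2 * 2) ≤ ‖GT t h (σ + y0 * I + t * u / 2)‖ ∧
    ‖GT t h (σ + y0 * I + t * u / 2)‖ ≤ 4 * √(Real.pi * t) * Real.exp (2 * 2) := by
  obtain ⟨T1, t1, hT1, ht1, ht1', hmain⟩ := frame_bound Y0 hY0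
  obtain ⟨T2, hT2⟩ := log_cube (166 + Y0)
  obtain ⟨t2, ht2, hell⟩ := ell_small (min (1 / 200) ε) (by positivity)
  refine ⟨max T1 T2, min (min t1 t2) (min (min (1 / 4000) (ε / 10)) (1 / (Y0 + 2) ^ 2)),
    hT1.trans (le_max_left _ _), by positivity, (min_le_left _ _).trans ((min_le_left _ _).trans ht1'), ?_⟩
  intro T hT B u h hF t ht ht0 σ y0 hεσ hσ60 hy0 hc5 hbig
  have hT1' : T1 ≤ T := (le_max_left _ _).trans hT
  have hT11 : 1 ≤ T := hT1.trans hT1'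
  have hcube := hT2 T ((le_max_right _ _).trans hT)
  have hta : t ≤ t1 := ht0.trans ((min_le_left _ _).trans (min_le_left _ _))
  have htb : t ≤ t2 := ht0.trans ((min_le_left _ _).trans (min_le_right _ _))
  have htc : t ≤ 1 / 4000 := ht0.trans ((min_le_right _ _).trans ((min_le_left _ _).trans (min_le_left _ _)))
  have htd : t ≤ ε / 10 := ht0.trans ((min_le_right _ _).trans ((min_le_left _ _).trans (min_le_right _ _)))
  have hte : t ≤ 1 / (Y0 + 2) ^ 2 := ht0.trans ((min_le_right _ _).trans (min_le_right _ _))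
  have htY' : (Y0 + 2) ^ 2 ≤ 1 / t := by
    rw [le_div_iff₀ ht, mul_comm]
    rwa [le_div_iff₀ (by positivity)] at hte
  have hel := hell t ht htb
  have hel1 : t * ell t ≤ 1 / 200 := hel.trans (min_le_left _ _)
  have hel2 : t * ell t ≤ ε := hel.trans (min_le_right _ _)
  have hL0 : 0 ≤ Real.log T := Real.log_nonneg hT11
  have hlam := abs_le.1 hF.lam
  set c0 : ℝ := σ + t * u.re / 2 with hc0
  have hcre : ((σ : ℂ) + y0 * I + t * u / 2).re = c0 := by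
    rw [hc0, add_re, add_re, Complex.ofReal_re, Complex.re_ofReal_mul, Complex.I_re, mul_zero,
      add_zero]
    congr 1
    rw [show (t * u / 2 : ℂ) = ((t / 2 : ℝ) : ℂ) * u by push_cast; ring, Complex.re_ofReal_mul]
    ring
  have hcim : |((σ : ℂ) + y0 * I + t * u / 2).im| ≤ Y0 + 1 := by
    have e1 : ((σ : ℂ) + y0 * I + t * u / 2).im = y0 + t * u.im / 2 := by
      rw [add_im, add_im, Complex.ofReal_im, Complex.im_ofReal_mul, Complex.I_im, mul_one, zero_add]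
      congr 1
      rw [show (t * u / 2 : ℂ) = ((t / 2 : ℝ) : ℂ) * u by push_cast; ring, Complex.im_ofReal_mul]
      ring
    rw [e1]
    refine (abs_add_le _ _).trans (add_le_add hy0 ?_)
    rw [abs_div, abs_mul, abs_of_pos ht]
    have := mul_le_mul_of_nonneg_left hF.him ht.le
    norm_num
    linarith
  have hball : ∀ z ∈ ball (0 : ℂ) 1, 3 ≤ ((σ : ℂ) + y0 * I + t * u / 2 + z).re ∧
      ‖(σ : ℂ) + y0 * I + t * u / 2 + z‖ ^ 3 ≤ T := by
    intro z hz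
    rw [mem_ball_zero_iff] at hz
    constructor
    · rw [add_re, hcre]
      have := (abs_le.1 ((Complex.abs_re_le_norm z).trans hz.le)).1
      linarith
    · refine le_trans ?_ hcube
      gcongr
      refine (norm_add_le _ _).trans ?_
      have h6 := Complex.norm_le_abs_re_add_abs_im ((σ : ℂ) + y0 * I + t * u / 2)
      rw [hcre, abs_of_nonneg (by linarith)] at h6
      have h7 : c0 ≤ 60 + 1 + Real.log T := num_c0 ht (by linarith) hL0 hlam.2 hσ60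
      linarith
  obtain ⟨q, hq, hqb, hqe⟩ := right_log hF hball
  refine hmain T hT1' B u h hF t ht hta σ y0 1 2 q (by linarith) hσ60 hy0 one_pos le_rfl two_pos
    (by linarith) ?_ ?_ hq hqb hqe ?_
  · rw [one_pow, le_div_iff₀ (by positivity)]
    have e1 : (ell t + 4 * 2 + 8) * (50 * t) = 50 * (t * ell t) + 800 * t := by ring
    rw [e1]
    linarith
  · rw [le_div_iff₀ ht]
    have h1 : 5 * ε ≤ c0 * σ := mul_le_mul hc5 hεσ hε.le (by linarith)
    have e1 : (ell t + 3 * 2) * t = t * ell t + 6 * t := by ring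
    have e2 : 3 * (σ + t * u.re / 2) * σ = 3 * (c0 * σ) := by rw [← hc0, mul_assoc]
    rw [e1, e2]
    linarith
  · intro x y hx0 hx3 _ hy
    have h5 := hF.h2 (x + y * I) (by simp; exact hx0)
    rw [norm_reim] at h5
    have hTexp : T ^ 6 = Real.exp (6 * Real.log T) := by
      rw [show (6 : ℝ) = ((6 : ℕ) : ℝ) by norm_num, Real.exp_nat_mul, Real.exp_log (by linarith)]
    rw [hTexp, ← Real.exp_add] at h5
    have hyy : y ^ 2 ≤ (Y0 + 2) ^ 2 := by rw [← sq_abs]; gcongr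
    exact h5.trans (Real.exp_le_exp.2 (num_right ht htc hL0 hbig hx0 hx3 hc5 hyy htY' hel1))

end Pool.Agent.Helper87.HF
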