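import Pool.Agent.Helper87.HF.Hull

set_option autoImplicit false

open Complex Set Filter Topology Metric MeasureTheory

namespace Pool.Agent.Helper87.HF

/-- Phragmén-Lindelöf between two vertical lines to the right of the critical line -/
lemma strip_bound (x1 x2 T1 Y0 ε M0 : ℝ) (hx0 : 0 ≤ x1) (hx : x1 < x2) (hε : 0 < ε)
    (hY0 : 0 ≤ Y0) (hxM : x2 ≤ M0) :
    ∃ T2 : ℝ, 1 ≤ T2 ∧ ∀ T : ℝ, T2 ≤ T →
    ∀ (B u : ℂ) (h : ℂ → ℂ), Frame T B u h → ∀ μ : ℝ, 0 ≤ μ → μ ≤ M0 →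
    (∀ T' : ℝ, T1 ≤ T' → ‖riemannZeta (1 / 2 + T' * I + x1)‖ ≤ Real.exp (μ * Real.log T')) →
    (∀ T' : ℝ, T1 ≤ T' → ‖riemannZeta (1 / 2 + T' * I + x2)‖ ≤ Real.exp (μ * Real.log T')) →
    ∀ x y : ℝ, x1 ≤ x → x ≤ x2 → |y| ≤ Y0 → ‖h (x + y * I)‖ ≤
      Real.exp ((μ + ε) * Real.log T) := by
  obtain ⟨C, T2, hC1, hT21, hv⟩ := vline M0 T1 (by linarith)
  set D : ℝ := Real.log C + 28 * Y0 ^ 2 + 5 * (x2 - x1) ^ 2 with hD
  refine ⟨max T2 (Real.exp (|D| / ε)), hT21.trans (le_max_left _ _), ?_⟩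
  intro T hT B u h hF μ hμ0 hμM hz1 hz2 x y hxa hxb hy
  have hT2 : T2 ≤ T := (le_max_left _ _).trans hT
  have hT1 : 1 ≤ T := hT21.trans hT2
  have hL0 : 0 ≤ Real.log T := Real.log_nonneg hT1
  have hDL : D ≤ ε * Real.log T := by
    have h1 : |D| / ε ≤ Real.log T := by
      rw [Real.le_log_iff_exp_le (by linarith)]
      exact (le_max_right _ _).trans hT
    rw [div_le_iff₀ hε] at h1
    linarith [le_abs_self D]
  have hl1 := hv T hT2 B u h hF x1 μ hx0 (by linarith) hμ0 hμM hz1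
  have hl2 := hv T hT2 B u h hF x2 μ (by linarith) hxM hμ0 hμM hz2
  set M : ℝ := C * Real.exp (μ * Real.log T) * Real.exp (28 * y ^ 2) with hM
  have hside : ∀ v : ℂ, ‖h v‖ ≤ C * Real.exp (μ * Real.log T) * Real.exp (7 / 2 * v.im ^ 2) →
      ‖h v‖ ≤ M * Real.exp (4 * (v.im - y) ^ 2) := by
    intro v hv1
    refine hv1.trans ?_
    rw [hM, mul_assoc (C * Real.exp (μ * Real.log T)), ← Real.exp_add]
    refine mul_le_mul_of_nonneg_left (Real.exp_le_exp.2 ?_) (by positivity)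
    nlinarith [sq_nonneg (v.im - 8 * y)]
  have hPL := PL2 hF.hd (x1 := x1) (x2 := x2) (M := M) (y0 := y)
    (C0 := T ^ 6 * Real.exp (3 * x2 ^ 2)) hx ?_ (fun v hv1 => hside v (hl1 v hv1))
    (fun v hv1 => hside v (hl2 v hv1)) hxa hxb
  · refine hPL.trans ?_
    have hCe : C = Real.exp (Real.log C) := by rw [Real.exp_log (by linarith)]
    rw [hM, hCe]
    simp only [← Real.exp_add]
    apply Real.exp_le_exp.2
    have h8 : y ^ 2 ≤ Y0 ^ 2 := by rw [← sq_abs]; gcongr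
    nlinarith
  · intro v hv1 hv2
    refine (hF.h2 v (by linarith)).trans ?_
    rw [mul_assoc (T ^ 6), ← Real.exp_add]
    refine mul_le_mul_of_nonneg_left (Real.exp_le_exp.2 ?_) (by positivity)
    have hvn2 : ‖v‖ ^ 2 = v.re ^ 2 + v.im ^ 2 := by
      rw [← Complex.normSq_eq_norm_sq, Complex.normSq_apply]; ring
    have : v.re ^ 2 ≤ x2 ^ 2 := by
      have : 0 ≤ v.re := by linarith
      gcongr
    nlinarith [sq_nonneg v.im]

/-- The condition on the zeta function. -/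
def ZSide (κ a : ℝ) : Prop :=
  (∀ ε : ℝ, 0 < ε → ∃ T0 : ℝ, ∀ T σ : ℝ, T0 ≤ T → a + κ / 4 + ε ≤ σ →
    riemannZeta (1 / 2 + T * I + σ) ≠ 0) ∧
  ∀ ε : ℝ, 0 < ε → ∃ T0 : ℝ, ∀ T v : ℝ, T0 ≤ T → 0 ≤ v → v ≤ κ / 4 →
    ‖riemannZeta (1 / 2 + T * I + ((a + v : ℝ) : ℂ))‖ ≤
      Real.exp (((κ / 4 - v) ^ 2 / κ + ε) * Real.log T)

lemma zeta_le_two {T x : ℝ} (hx : 3 / 2 ≤ x) : ‖riemannZeta (1 / 2 + T * I + x)‖ ≤ 2 := by
  have hre : (1 / 2 + T * I + x : ℂ).re = 1 / 2 + x := by simp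
  have h2 := zeta_sub_one (s := 1 / 2 + T * I + x) (by rw [hre]; linarith)
  rw [hre] at h2
  have h3 : (2 : ℝ) ^ (2 - (1 / 2 + x)) ≤ 2 ^ (0 : ℝ) :=
    Real.rpow_le_rpow_of_exponent_le (by norm_num) (by linarith)
  rw [Real.rpow_zero] at h3
  have := norm_sub_norm_le (riemannZeta (1 / 2 + T * I + x)) 1
  rw [norm_one] at this
  linarith

lemma mbound (κ a ε Y0 : ℝ) (hκ : 0 < κ) (ha : 0 ≤ a) (hε : 0 < ε) (hY0 : 0 ≤ Y0)
    (hB : ZSide κ a) :
    ∃ T2 : ℝ, 1 ≤ T2 ∧ ∀ T : ℝ, T2 ≤ T → ∀ (B u : ℂ) (h : ℂ → ℂ), Frame T B u h →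
    ∀ x y : ℝ, 0 ≤ x → x ≤ 3 → |y| ≤ Y0 →
      (x ≤ a → ‖h (x + y * I)‖ ≤ Real.exp (((a - x) / 2 + κ / 16 + ε) * Real.log T)) ∧
      (a ≤ x → x ≤ a + κ / 4 → ‖h (x + y * I)‖ ≤
        Real.exp (((κ / 4 - (x - a)) ^ 2 / κ + ε) * Real.log T)) ∧
      (a + κ / 4 ≤ x → ‖h (x + y * I)‖ ≤ Real.exp (ε * Real.log T)) := by
  obtain ⟨T1, hT1⟩ := hB.2 (ε / 2) (by linarith)
  set M0 : ℝ := 4 + a + κ + ε with hM0
  -- middle range
  have mid : ∃ T2 : ℝ, 1 ≤ T2 ∧ ∀ T : ℝ, T2 ≤ T → ∀ (B u : ℂ) (h : ℂ → ℂ), Frame T B u h →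
    ∀ x y : ℝ, 0 ≤ x → x ≤ 3 → |y| ≤ Y0 → a ≤ x → x ≤ a + κ / 4 → ‖h (x + y * I)‖ ≤
        Real.exp (((κ / 4 - (x - a)) ^ 2 / κ + ε) * Real.log T) := by
    refine ⟨max (max (T1 + Y0) ((3 + Y0) ^ 3)) (max (max 1 (2 * Y0)) (Real.exp ((2 + κ + ε) / (ε / 2)))),
      (le_max_left _ _).trans ((le_max_left _ _).trans (le_max_right _ _)), ?_⟩
    intro T hT B u h hF x y hx0 hx3 hy hxa hxb
    have h1 : T1 + Y0 ≤ T := (le_max_left _ _).trans ((le_max_left _ _).trans hT)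
    have h2 : (3 + Y0) ^ 3 ≤ T := (le_max_right _ _).trans ((le_max_left _ _).trans hT)
    have h3 : 1 ≤ T := (le_max_left _ _).trans ((le_max_left _ _).trans ((le_max_right _ _).trans hT))
    have h4 : 2 * Y0 ≤ T := (le_max_right _ _).trans ((le_max_left _ _).trans ((le_max_right _ _).trans hT))
    have h5 : Real.exp ((2 + κ + ε) / (ε / 2)) ≤ T := (le_max_right _ _).trans ((le_max_right _ _).trans hT)
    have hL0 : 0 ≤ Real.log T := Real.log_nonneg h3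
    have hL : (2 + κ + ε) ≤ ε / 2 * Real.log T := by
      have h6 : (2 + κ + ε) / (ε / 2) ≤ Real.log T := by
        rw [Real.le_log_iff_exp_le (by linarith)]; exact h5
      rw [div_le_iff₀ (by linarith)] at h6
      linarith
    have hy' := abs_le.1 hy
    have hn : ‖(x + y * I : ℂ)‖ ^ 3 ≤ T := by
      refine le_trans ?_ h2
      gcongr
      refine (norm_add_le _ _).trans ?_
      rw [norm_mul, Complex.norm_I, mul_one, Complex.norm_real, Complex.norm_real,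
        Real.norm_of_nonneg hx0, Real.norm_eq_abs]
      linarith
    have h6 := hF.h1 (x + y * I) (by simp; exact hx0) hn
    have e1 : (1 / 2 + T * I + (x + y * I) : ℂ) = 1 / 2 + ((T + y : ℝ) : ℂ) * I +
        ((a + (x - a) : ℝ) : ℂ) := by
      push_cast; ring
    rw [e1] at h6
    have h7 := hT1 (T + y) (x - a) (by linarith [hy'.1]) (by linarith) (by linarith)
    set Z := riemannZeta (1 / 2 + ((T + y : ℝ) : ℂ) * I + ((a + (x - a) : ℝ) : ℂ))
    have h8 : ‖h (x + y * I)‖ ≤ 2 * ‖Z‖ := by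
      have := norm_sub_norm_le (h (x + y * I)) Z
      linarith [norm_nonneg Z]
    set m := (κ / 4 - (x - a)) ^ 2 / κ with hm
    have hm0 : 0 ≤ m := by positivity
    have hm1 : m ≤ κ := by
      rw [hm, div_le_iff₀ hκ]; nlinarith
    have h9 : Real.log (T + y) ≤ Real.log T + 1 := by
      have h10 : T + y ≤ T * Real.exp 1 := by
        have := Real.add_one_le_exp (1 : ℝ)
        nlinarith [hy'.2]
      calc Real.log (T + y) ≤ Real.log (T * Real.exp 1) :=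
            Real.log_le_log (by linarith [hy'.1]) h10
        _ = _ := by rw [Real.log_mul (by linarith) (Real.exp_ne_zero _), Real.log_exp]
    have he : (2 : ℝ) ≤ Real.exp 1 := by linarith [Real.add_one_le_exp (1 : ℝ)]
    calc ‖h (x + y * I)‖ ≤ 2 * ‖Z‖ := h8
      _ ≤ Real.exp 1 * Real.exp ((m + ε / 2) * Real.log (T + y)) := by gcongr
      _ = Real.exp (1 + (m + ε / 2) * Real.log (T + y)) := by rw [Real.exp_add]
      _ ≤ _ := by
          apply Real.exp_le_exp.2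
          have : (m + ε / 2) * Real.log (T + y) ≤ (m + ε / 2) * (Real.log T + 1) := by gcongr
          nlinarith
  obtain ⟨Tm, hTm1, hTm⟩ := mid
  -- left range
  have left : ∃ T2 : ℝ, 1 ≤ T2 ∧ ∀ T : ℝ, T2 ≤ T → ∀ (B u : ℂ) (h : ℂ → ℂ), Frame T B u h →
    ∀ x y : ℝ, 0 ≤ x → x ≤ 3 → |y| ≤ Y0 → x ≤ a → ‖h (x + y * I)‖ ≤
        Real.exp (((a - x) / 2 + κ / 16 + ε) * Real.log T) := by
    rcases ha.eq_or_lt with ha0 | ha0
    · refine ⟨Tm, hTm1, fun T hT B u h hF x y hx0 hx3 hy hxa => ?_⟩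
      have hx : x = a := by linarith
      have h1 := hTm T hT B u h hF x y hx0 hx3 hy (by linarith) (by linarith)
      rw [hx] at h1 ⊢
      refine h1.trans (le_of_eq ?_)
      congr 2
      field_simp
      ring
    · obtain ⟨T2, hT21, hT2⟩ := hull_left a T1 Y0 (ε / 2) M0 ha0 (by linarith) hY0 (by linarith)
      refine ⟨T2, hT21, fun T hT B u h hF x y hx0 hx3 hy hxa => ?_⟩
      have h1 := hT2 T hT B u h hF (κ / 16 + ε / 2) (by positivity) (by linarith) (fun T' hT' => by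
        have := hT1 T' 0 hT' le_rfl (by positivity)
        rw [add_zero, sub_zero] at this
        refine this.trans (le_of_eq ?_)
        congr 2
        field_simp
        ring) x y (by linarith) hxa hy
      refine h1.trans (le_of_eq ?_)
      congr 2
      ring
  obtain ⟨Tl, hTl1, hTl⟩ := left
  -- right range
  have right : ∃ T2 : ℝ, 1 ≤ T2 ∧ ∀ T : ℝ, T2 ≤ T → ∀ (B u : ℂ) (h : ℂ → ℂ), Frame T B u h →
    ∀ x y : ℝ, 0 ≤ x → x ≤ 3 → |y| ≤ Y0 → a + κ / 4 ≤ x → ‖h (x + y * I)‖ ≤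
        Real.exp (ε * Real.log T) := by
    rcases le_total (a + κ / 4) 3 with h3 | h3
    · obtain ⟨T2, hT21, hT2⟩ := strip_bound (a + κ / 4) 4 (max (max 1 T1) (Real.exp (2 / ε))) Y0 (ε / 2) M0
        (by positivity) (by linarith) (by linarith) hY0 (by linarith)
      refine ⟨T2, hT21, fun T hT B u h hF x y hx0 hx3 hy hxa => ?_⟩
      have h1 := hT2 T hT B u h hF (ε / 2) (by positivity) (by linarith) (fun T' hT' => by
        have := hT1 T' (κ / 4) ((le_max_right _ _).trans ((le_max_left _ _).trans hT')) (by positivity) le_rfl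
        refine this.trans (le_of_eq ?_)
        congr 2
        ring) (fun T' hT' => by
        have h4 : (1 / 2 + T' * I + ((4 : ℝ) : ℂ)) = (1 / 2 + T' * I + ((4 : ℝ) : ℂ)) := rfl
        refine (zeta_le_two (T := T') (x := 4) (by norm_num)).trans ?_
        have h5 : 2 / ε ≤ Real.log T' := by
          rw [Real.le_log_iff_exp_le (by
            have := (le_max_left _ _).trans ((le_max_left _ _).trans hT')
            linarith)]
          exact (le_max_right _ _).trans hT'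
        rw [div_le_iff₀ hε] at h5
        have h6 : (2 : ℝ) ≤ Real.exp 1 := by linarith [Real.add_one_le_exp (1 : ℝ)]
        refine h6.trans (Real.exp_le_exp.2 ?_)
        linarith) x y hxa (by linarith) hy
      refine h1.trans (le_of_eq ?_)
      congr 2
      ring
    · refine ⟨Tm, hTm1, fun T hT B u h hF x y hx0 hx3 hy hxa => ?_⟩
      have hx : x = a + κ / 4 := by linarith
      have h1 := hTm T hT B u h hF x y hx0 hx3 hy (by linarith) (by linarith)
      refine h1.trans (le_of_eq ?_)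
      congr 2
      rw [hx]
      ring
  obtain ⟨Tr, hTr1, hTr⟩ := right
  refine ⟨max Tm (max Tl Tr), hTm1.trans (le_max_left _ _), ?_⟩
  intro T hT B u h hF x y hx0 hx3 hy
  have a1 : Tm ≤ T := (le_max_left _ _).trans hT
  have a2 : Tl ≤ T := (le_max_left _ _).trans ((le_max_right _ _).trans hT)
  have a3 : Tr ≤ T := (le_max_right _ _).trans ((le_max_right _ _).trans hT)
  exact ⟨hTl T a2 B u h hF x y hx0 hx3 hy, hTm T a1 B u h hF x y hx0 hx3 hy,
    hTr T a3 B u h hF x y hx0 hx3 hy⟩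

end Pool.Agent.Helper87.HF
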