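import Pool.Agent.Helper87.HF.Right
import Pool.Agent.Helper87.HF.Mid

set_option autoImplicit false

open Complex Set Filter Topology Metric MeasureTheory

namespace Pool.Agent.Helper87.HF

/-- logarithm of `h` in a zero-free half plane -/
lemma zlog (θ X0 ε3 η Y1 T1 : ℝ) (hθ : 0 ≤ θ) (hε : 0 < ε3) (hX : θ + 4 + 2 * ε3 ≤ X0) (hη : 0 < η)
    (hY1 : 0 ≤ Y1) (hz0 : ∀ T σ : ℝ, T1 ≤ T → θ + ε3 ≤ σ → riemannZeta (1 / 2 + T * I + σ) ≠ 0) :
    ∃ T2 : ℝ, 1 ≤ T2 ∧ ∀ T : ℝ, T2 ≤ T → ∀ (B u : ℂ) (h : ℂ → ℂ), Frame T B u h →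
    ∀ y1 : ℝ, |y1| ≤ Y1 → ∃ q : ℂ → ℂ, DifferentiableOn ℂ q (ball 0 (X0 - θ - ε3)) ∧
      (∀ z ∈ ball (0 : ℂ) (X0 - θ - ε3), exp (q z) = h (X0 + y1 * I + z)) ∧
      ∀ z : ℂ, ‖z‖ ≤ X0 - θ - 2 * ε3 → ‖q z‖ ≤ η * Real.log T := by
  set A : ℝ := 6 + 3 * (2 * X0 + Y1) ^ 2 with hA
  have hA6 : 6 ≤ A := by rw [hA]; nlinarith [sq_nonneg (2 * X0 + Y1)]
  obtain ⟨L0, hL0⟩ := loc A (1 / 2) (X0 - θ - ε3) ε3 η (by linarith) (by norm_num) hε
    (by linarith) hη
  refine ⟨max (max (Real.exp (max L0 1)) ((2 * X0 + Y1) ^ 3)) (T1 + X0 + Y1), ?_, ?_⟩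
  · refine le_trans ?_ ((le_max_left _ _).trans (le_max_left _ _))
    exact Real.one_le_exp (by positivity)
  intro T hT B u h hF y1 hy1
  have h1 : Real.exp (max L0 1) ≤ T := (le_max_left _ _).trans ((le_max_left _ _).trans hT)
  have h2 : (2 * X0 + Y1) ^ 3 ≤ T := (le_max_right _ _).trans ((le_max_left _ _).trans hT)
  have h3 : T1 + X0 + Y1 ≤ T := (le_max_right _ _).trans hT
  have hTpos : 0 < T := (Real.exp_pos _).trans_le h1
  have hL : max L0 1 ≤ Real.log T := by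
    rw [Real.le_log_iff_exp_le hTpos]; exact h1
  have hLa : L0 ≤ Real.log T := (le_max_left _ _).trans hL
  have hLb : 1 ≤ Real.log T := (le_max_right _ _).trans hL
  have hX0 : 0 < X0 := by linarith
  have hvn : ∀ z ∈ ball (0 : ℂ) (X0 - θ - ε3), ‖(X0 + y1 * I + z : ℂ)‖ ≤ 2 * X0 + Y1 := by
    intro z hz
    rw [mem_ball_zero_iff] at hz
    refine (norm_add_le _ _).trans ?_
    have h4 : ‖(X0 + y1 * I : ℂ)‖ ≤ X0 + Y1 := by
      refine (norm_add_le _ _).trans ?_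
      rw [norm_mul, Complex.norm_I, mul_one, Complex.norm_real, Complex.norm_real,
        Real.norm_of_nonneg hX0.le, Real.norm_eq_abs]
      linarith
    linarith
  have hre : ∀ z ∈ ball (0 : ℂ) (X0 - θ - ε3), θ + ε3 < (X0 + y1 * I + z : ℂ).re := by
    intro z hz
    rw [mem_ball_zero_iff] at hz
    have h4 := (abs_le.1 (Complex.abs_re_le_norm z)).1
    have e1 : (X0 + y1 * I + z : ℂ).re = X0 + z.re := by simp
    rw [e1]
    linarith
  have hv3 : ∀ z ∈ ball (0 : ℂ) (X0 - θ - ε3), ‖(X0 + y1 * I + z : ℂ)‖ ^ 3 ≤ T := by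
    intro z hz
    refine le_trans ?_ h2
    have := hvn z hz
    gcongr
  suffices hex : ∃ q : ℂ → ℂ, DifferentiableOn ℂ q (ball 0 (X0 - θ - ε3)) ∧
      (∀ z ∈ ball (0 : ℂ) (X0 - θ - ε3), exp (q z) = h (X0 + y1 * I + z)) ∧
      ∀ z : ℂ, ‖z‖ ≤ X0 - θ - ε3 - ε3 → ‖q z‖ ≤ η * Real.log T by
    obtain ⟨q, hq1, hq2, hq3⟩ := hex
    exact ⟨q, hq1, hq2, fun z hz => hq3 z (by linarith)⟩
  refine hL0 (Real.log T) hLa (fun z => h (X0 + y1 * I + z)) ?_ ?_ ?_ ?_
  · intro z _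
    exact ((hF.hd (X0 + y1 * I + z)).comp z (by fun_prop)).differentiableWithinAt
  · intro z hz hzero
    have h5 := hF.h1 (X0 + y1 * I + z) (by have := hre z hz; linarith) (hv3 z hz)
    rw [hzero, zero_sub, norm_neg] at h5
    set v : ℂ := X0 + y1 * I + z with hv
    have e2 : (1 / 2 + T * I + v : ℂ) = 1 / 2 + ((T + v.im : ℝ) : ℂ) * I + (v.re : ℂ) := by
      conv_lhs => rw [← re_add_im v]
      push_cast; ring
    have h6 : T1 ≤ T + v.im := by
      have := (abs_le.1 ((Complex.abs_im_le_norm v).trans (hvn z hz))).1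
      -- sharper bound for the imaginary part
      have e3 : v.im = y1 + z.im := by rw [hv]; simp
      have h7 := (abs_le.1 hy1).1
      rw [mem_ball_zero_iff] at hz
      have h8 := (abs_le.1 (Complex.abs_im_le_norm z)).1
      rw [e3]
      linarith
    have h7 := hz0 _ _ h6 (hre z hz).le
    rw [e2] at h5
    have h8 : 0 < ‖riemannZeta (1 / 2 + ((T + v.im : ℝ) : ℂ) * I + (v.re : ℂ))‖ := norm_pos_iff.2 h7
    linarith
  · intro z hz
    refine (hF.h2 _ (by have := hre z hz; linarith)).trans ?_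
    have hTexp : T ^ 6 = Real.exp (6 * Real.log T) := by
      rw [show (6 : ℝ) = ((6 : ℕ) : ℝ) by norm_num, Real.exp_nat_mul, Real.exp_log hTpos]
    rw [hTexp, ← Real.exp_add]
    apply Real.exp_le_exp.2
    have h9 := hvn z hz
    have h10 : ‖(X0 + y1 * I + z : ℂ)‖ ^ 2 ≤ (2 * X0 + Y1) ^ 2 := by gcongr
    have h11 : 3 * (2 * X0 + Y1) ^ 2 ≤ 3 * (2 * X0 + Y1) ^ 2 * Real.log T := by
      have : 0 ≤ 3 * (2 * X0 + Y1) ^ 2 := by positivity
      nlinarith
    rw [hA]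
    linarith
  · intro z hz
    rw [mem_ball_zero_iff] at hz
    have hz' : z ∈ ball (0 : ℂ) (X0 - θ - ε3) := by
      rw [mem_ball_zero_iff]; linarith
    have h4 := (abs_le.1 (Complex.abs_re_le_norm z)).1
    have e1 : (X0 + y1 * I + z : ℂ).re = X0 + z.re := by simp
    have h12 := hF.near_one (v := X0 + y1 * I + z) (by rw [e1]; linarith) (hv3 z hz')
    have h13 := norm_sub_norm_le (h (X0 + y1 * I + z)) 1
    have h14 := norm_sub_norm_le 1 (h (X0 + y1 * I + z))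
    rw [norm_one] at h13 h14
    rw [norm_sub_rev] at h14
    constructor
    · have h15 : Real.exp (-A) ≤ 1 / 4 := by
        rw [Real.exp_neg, inv_le_comm₀ (Real.exp_pos _) (by norm_num)]
        have := Real.add_one_le_exp A
        norm_num
        linarith
      linarith
    · have := Real.add_one_le_exp A
      linarith

end Pool.Agent.Helper87.HF
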