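import Pool.Agent.Helper87.HF.Half1
import Pool.Agent.Helper87.HF.ZLog
import Pool.Agent.Helper87.HF.Right

set_option autoImplicit false

open Complex Set Filter Topology Metric MeasureTheory

namespace Pool.Agent.Helper87.HF

lemma num_l0 {t y : ℝ} (ht : 0 < t) (hy : |y| ≤ 2) : |t * y / 2| ≤ t := by
  rw [abs_div, abs_mul, abs_of_pos ht, abs_of_pos (two_pos : (0 : ℝ) < 2)]
  have h1 : t * |y| ≤ t * 2 := mul_le_mul_of_nonneg_left hy ht.le
  linarith

lemma half_ineq1 {κ D τ e x c0 t : ℝ} (hκ : 0 < κ) (hD0 : 0 < D) (hD1 : D ≤ 1) (ht : 0 < t)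
    (htD : t ≤ D ^ 2 / 10000000) (hτκ : κ + D - t ≤ τ) (hx0 : 0 ≤ x) (hxb : x ≤ κ / 4)
    (hc : τ / 4 - e ≤ c0) (he0 : 0 < e) (heD : e ≤ D ^ 2 / 250) (hτe : τ * e ≤ D ^ 2 / 250) :
    τ * ((κ / 4 - x) ^ 2 / κ) + D ^ 2 / 102400 ≤ (x - c0) ^ 2 := by
  have hD2 : D ^ 2 ≤ D := pow_le_of_le_one hD0.le hD1 two_ne_zero
  set p := τ / 4 - x with hp
  have hp1 : D / 4 - t / 4 ≤ p := by linarith
  have hp2 : p ≤ τ / 4 := by linarith
  have hpe : 0 ≤ p - e := by linarith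
  have h1 : (p - e) ^ 2 ≤ (c0 - x) ^ 2 := pow_le_pow_left₀ hpe (by linarith) 2
  have e1 : p ^ 2 - τ * ((κ / 4 - x) ^ 2 / κ) = (τ - κ) * (τ / 16 - x ^ 2 / κ) := by
    rw [hp]; field_simp; ring
  have hxx : x ^ 2 / κ ≤ κ / 16 := by
    rw [div_le_iff₀ hκ]
    have : x ^ 2 ≤ (κ / 4) ^ 2 := by gcongr
    linarith
  have h2 : (D / 2) * (D / 32) ≤ (τ - κ) * (τ / 16 - x ^ 2 / κ) := by
    have a1 : D / 2 ≤ τ - κ := by linarith
    have a2 : D / 32 ≤ τ / 16 - x ^ 2 / κ := by linarith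
    exact mul_le_mul a1 a2 (by positivity) (by linarith)
  have h3 : (p - e) ^ 2 = p ^ 2 - 2 * (p * e) + e ^ 2 := by ring
  have h4 : p * e ≤ τ / 4 * e := mul_le_mul_of_nonneg_right hp2 he0.le
  have h5 : (x - c0) ^ 2 = (c0 - x) ^ 2 := by ring
  rw [h5]
  have h6 := sq_nonneg e
  have h7 : 0 < D ^ 2 := by positivity
  linarith

lemma half_ineq2 {κ D τ e c0 t δ X : ℝ} (hκ : 0 < κ) (hD0 : 0 < D) (hD1 : D ≤ 1) (ht : 0 < t)
    (htD : t ≤ D ^ 2 / 10000000) (hτκ : κ + D - t ≤ τ) (hδ0 : 0 < δ) (hδ1 : δ ≤ D ^ 2 / 256)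
    (hc : τ / 4 - e ≤ c0) (he0 : 0 < e) (heD : e ≤ D ^ 2 / 250) (hτe : τ * e ≤ D ^ 2 / 250)
    (hX : X ≤ D ^ 2 / 102400) :
    τ * (κ / 16) + X ≤ c0 ^ 2 - (δ + t + D / 64) ^ 2 := by
  have hD2 : D ^ 2 ≤ D := pow_le_of_le_one hD0.le hD1 two_ne_zero
  have a1 : (δ + t + D / 64) ^ 2 ≤ (D / 32) ^ 2 := pow_le_pow_left₀ (by positivity) (by linarith) 2
  have a2 : 0 ≤ τ / 4 - e := by linarith
  have a3 : (τ / 4 - e) ^ 2 ≤ c0 ^ 2 := pow_le_pow_left₀ a2 hc 2
  have a4 : (τ / 4 - e) ^ 2 = τ ^ 2 / 16 - τ * e / 2 + e ^ 2 := by ring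
  have a5 := sq_nonneg e
  have a6 : (D / 2) * (D / 2) ≤ τ * (τ - κ) :=
    mul_le_mul (by linarith) (by linarith) (by positivity) (by linarith)
  have a7 : τ * (τ - κ) = τ ^ 2 - τ * κ := by ring
  have a8 : (D / 32) ^ 2 = D ^ 2 / 1024 := by ring
  have a9 : (D / 2) * (D / 2) = D ^ 2 / 4 := by ring
  have h7 : 0 < D ^ 2 := by positivity
  linarith

theorem half_gamma (κ κ' K0 : ℝ) (hκ : 0 < κ) (hκ' : κ < κ') (hK : κ' ≤ K0) (hK1 : 1 ≤ K0)
    (hB : ZSide κ 0) :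
    ∃ δ : ℝ, 0 < δ ∧ δ ≤ 1 / 8 ∧ ∀ η' : ℝ, 0 < η' → ∃ T0 t0 : ℝ, 1 ≤ T0 ∧ 0 < t0 ∧
    ∀ T : ℝ, T0 ≤ T → ∀ (B u : ℂ) (h : ℂ → ℂ), Frame T B u h →
    ∀ t : ℝ, 0 < t → t ≤ t0 → κ' - t ≤ t * Real.log T → t * Real.log T ≤ K0 →
    ∀ v : ℂ, ‖v‖ ≤ δ →
      1 / 4 * √(Real.pi * t) * Real.exp (-2 * (η' * Real.log T)) ≤ ‖HL t h (v + t * u / 2)‖ ∧
      ‖HL t h (v + t * u / 2)‖ ≤ 3 * √(Real.pi * t) * Real.exp (2 * (η' * Real.log T)) := by
  have hK0 : 0 < K0 := by linarith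
  set D : ℝ := min (κ' - κ) 1 with hD
  have hD0 : 0 < D := lt_min (by linarith) one_pos
  have hD1 : D ≤ 1 := min_le_right _ _
  have hDκ : D ≤ κ' - κ := min_le_left _ _
  have hD2 : D ^ 2 ≤ D := pow_le_of_le_one hD0.le hD1 two_ne_zero
  have hD2p : 0 < D ^ 2 := by positivity
  set δ : ℝ := D ^ 2 / (256 * K0) with hδ
  have hδ0 : 0 < δ := by positivity
  have hδK : δ * K0 = D ^ 2 / 256 := by rw [hδ]; field_simp
  have hδ1 : δ ≤ D ^ 2 / 256 := by
    rw [hδ]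
    gcongr
    linarith
  refine ⟨δ, hδ0, by linarith, fun η' hη' => ?_⟩
  set X0 : ℝ := 64 + K0 / 4 with hX0
  set θ0 : ℝ := D ^ 2 / 102400 with hθ0
  have hθ0pos : 0 < θ0 := by positivity
  set η : ℝ := min η' (D ^ 2 / (4000000 * K0)) with hη
  have hηpos : 0 < η := lt_min hη' (by positivity)
  have hηη : η ≤ η' := min_le_left _ _
  have hηK : η * K0 ≤ D ^ 2 / 4000000 := by
    calc η * K0 ≤ (D ^ 2 / (4000000 * K0)) * K0 := by
          gcongr; exact min_le_right _ _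
      _ = _ := by field_simp
  set ε2 : ℝ := D ^ 2 / (409600 * K0) with hε2
  have hε2pos : 0 < ε2 := by positivity
  have hεK : ε2 * K0 = θ0 / 4 := by rw [hε2, hθ0]; field_simp; norm_num
  obtain ⟨Tz, hTz⟩ := hB.1 (D / 64) (by positivity)
  simp only [zero_add] at hTz
  obtain ⟨T1, hT11, hq⟩ := zlog (κ / 4) X0 (D / 64) η 1 Tz (by positivity) (by positivity)
    (by rw [hX0]; linarith) hηpos zero_le_one hTz
  obtain ⟨T2, hT21, hm⟩ := mbound κ 0 ε2 2 hκ le_rfl hε2pos (by norm_num) hB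
  obtain ⟨T3, t3, hT31, ht3, ht3', hmain⟩ := half_bound
  obtain ⟨t4, ht4, hell⟩ := ell_small (min (θ0 / 4) (D ^ 2 / 1000000)) (by positivity)
  refine ⟨max (max T1 T2) (max T3 (Real.exp 1)),
    min (min t3 t4) (min (D ^ 2 / (10000000 * K0)) (θ0 / (4 * X0))),
    hT11.trans ((le_max_left _ _).trans (le_max_left _ _)), by positivity, ?_⟩
  intro T hT B u h hF t ht ht0 hτ1 hτ2 v hv
  have hTa : T1 ≤ T := (le_max_left _ _).trans ((le_max_left _ _).trans hT)
  have hTb : T2 ≤ T := (le_max_right _ _).trans ((le_max_left _ _).trans hT)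
  have hTc : T3 ≤ T := (le_max_left _ _).trans ((le_max_right _ _).trans hT)
  have hTd : Real.exp 1 ≤ T := (le_max_right _ _).trans ((le_max_right _ _).trans hT)
  have hta : t ≤ t3 := ht0.trans ((min_le_left _ _).trans (min_le_left _ _))
  have htb : t ≤ t4 := ht0.trans ((min_le_left _ _).trans (min_le_right _ _))
  have htc : t ≤ D ^ 2 / (10000000 * K0) := ht0.trans ((min_le_right _ _).trans (min_le_left _ _))
  have hte : t ≤ θ0 / (4 * X0) := ht0.trans ((min_le_right _ _).trans (min_le_right _ _))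
  have hTpos : 0 < T := (Real.exp_pos _).trans_le hTd
  have hL1 : 1 ≤ Real.log T := by rw [Real.le_log_iff_exp_le hTpos]; exact hTd
  set L := Real.log T with hL
  set τ := t * L with hτ
  have hτ0 : 0 < τ := by positivity
  have hX0pos : 0 < X0 := by positivity
  have hel := hell t ht htb
  have hel1 : t * ell t ≤ θ0 / 4 := hel.trans (min_le_left _ _)
  have hel2 : t * ell t ≤ D ^ 2 / 1000000 := hel.trans (min_le_right _ _)
  have htK : t * K0 ≤ D ^ 2 / 10000000 := by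
    rw [le_div_iff₀ (by positivity)] at htc
    linarith
  have htD : t ≤ D ^ 2 / 10000000 := (le_mul_of_one_le_right ht.le hK1).trans htK
  have htX : t * X0 ≤ θ0 / 4 := by
    rw [le_div_iff₀ (by positivity)] at hte
    linarith
  have hlam := abs_le.1 hF.lam
  have hvre := abs_le.1 ((Complex.abs_re_le_norm v).trans hv)
  have hvim := (Complex.abs_im_le_norm v).trans hv
  set Λ := u.re with hΛ
  set c0 : ℝ := v.re + t * Λ / 2 with hc0
  have hlow : τ / 4 - 2 * t ≤ t * Λ / 2 := by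
    have : t * (L / 2 - 4) ≤ t * Λ := by gcongr; linarith [hlam.1]
    linarith
  have hup : t * Λ / 2 ≤ τ / 4 + 2 * t := by
    have : t * Λ ≤ t * (L / 2 + 4) := by gcongr; linarith [hlam.2]
    linarith
  set e : ℝ := 2 * t + δ with he
  have he0 : 0 < e := by positivity
  have heK : K0 * e ≤ D ^ 2 / 250 := by
    have : K0 * e = 2 * (t * K0) + δ * K0 := by rw [he]; ring
    rw [this, hδK]
    linarith
  have heD : e ≤ D ^ 2 / 250 := (le_mul_of_one_le_left he0.le hK1).trans heK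
  have hc0low : τ / 4 - e ≤ c0 := by linarith
  have hc0up : c0 ≤ X0 := by rw [hX0]; linarith
  have hτκ : κ + D - t ≤ τ := by linarith
  have hc0low2 : κ / 4 + D / 8 ≤ c0 := by linarith
  -- complex centre
  have hcre : (v + t * u / 2).re = c0 := by
    rw [hc0, add_re]
    congr 1
    rw [show (t * u / 2 : ℂ) = ((t / 2 : ℝ) : ℂ) * u by push_cast; ring, Complex.re_ofReal_mul]
    ring
  set ci : ℝ := v.im + t * u.im / 2 with hci
  have hcim : (v + t * u / 2).im = ci := by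
    rw [hci, add_im]
    congr 1
    rw [show (t * u / 2 : ℂ) = ((t / 2 : ℝ) : ℂ) * u by push_cast; ring, Complex.im_ofReal_mul]
    ring
  have hci1 : |ci| ≤ 1 := by
    rw [hci]
    refine (abs_add_le _ _).trans ?_
    have := num_l0 ht hF.him
    linarith
  obtain ⟨q, hq1, hq2, hq3⟩ := hq T hTa B u h hF ci hci1
  have hcsplit : (X0 : ℂ) + ci * I + ((c0 - X0 : ℝ) : ℂ) = v + t * u / 2 := by
    rw [← re_add_im (v + t * u / 2), hcre, hcim]
    push_cast; ring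
  have hin : ∀ z ∈ ball (0 : ℂ) (D / 64), ‖((c0 - X0 : ℝ) : ℂ) + z‖ ≤
      X0 - κ / 4 - 2 * (D / 64) := by
    intro z hz
    rw [mem_ball_zero_iff] at hz
    refine (norm_add_le _ _).trans ?_
    rw [Complex.norm_real, Real.norm_eq_abs, abs_of_nonpos (by linarith)]
    linarith
  have hQ : 0 < η * L := by positivity
  have hητ : η * τ ≤ D ^ 2 / 4000000 := by
    calc η * τ ≤ η * K0 := by gcongr
      _ ≤ _ := hηK
  have hετ : ε2 * τ ≤ θ0 / 4 := by
    calc ε2 * τ ≤ ε2 * K0 := by gcongr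
      _ = _ := hεK
  have hτe : τ * e ≤ D ^ 2 / 250 := by
    calc τ * e ≤ K0 * e := by gcongr
      _ ≤ _ := heK
  have key := hmain T hTc B u h hF t ht hta v δ (D / 64) (η * L)
    (fun z => q (((c0 - X0 : ℝ) : ℂ) + z)) hδ0.le (by linarith) hv (by positivity) (by linarith)
    hQ (by linarith) ?_ ?_ ?_ ?_ ?_ ?_
  · have hmono : η * L ≤ η' * L := by gcongr
    refine ⟨le_trans ?_ key.1, key.2.trans ?_⟩
    · refine mul_le_mul_of_nonneg_left (Real.exp_le_exp.2 (by linarith)) (by positivity)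
    · refine mul_le_mul_of_nonneg_left (Real.exp_le_exp.2 (by linarith)) (by positivity)
  · rw [le_div_iff₀ (by positivity)]
    have e1 : (ell t + 4 * (η * L) + 8) * (50 * t) = 50 * (t * ell t) + 200 * (η * τ) + 400 * t := by
      rw [hτ]; ring
    rw [e1]
    have e2 : (D / 64) ^ 2 = D ^ 2 / 4096 := by ring
    rw [e2]
    linarith
  · refine hq1.comp (by fun_prop) ?_
    intro z hz
    rw [mem_ball_zero_iff]
    have := hin z hz
    linarith
  · intro z hz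
    exact hq3 _ (hin z hz)
  · intro z hz
    rw [hq2 _ (by rw [mem_ball_zero_iff]; have := hin z hz; linarith), ← hcsplit]
    congr 1
    ring
  · intro x y hx0 hx3 hxc hy
    obtain ⟨m1, m2, m3⟩ := hm T hTb B u h hF x y hx0 hx3 hy
    rw [zero_add] at m2 m3
    rw [sub_zero] at m2
    have hθR : θ0 ≤ (x - c0) ^ 2 := by
      rw [← sq_abs]
      have : (D / 64 / 5) ^ 2 ≤ |x - c0| ^ 2 := by gcongr
      rw [hθ0]
      linarith
    have habs : |x - c0| ≤ X0 := by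
      rw [abs_le]; constructor <;> linarith
    -- reduce to an inequality
    have hred : ∀ m : ℝ, τ * m + θ0 ≤ (x - c0) ^ 2 → (m + ε2) * L ≤
        (x - c0) ^ 2 / t - |x - c0| - (ell t + 3 * (η * L)) := by
      intro m hm1
      have h5 : (m + ε2) * L + |x - c0| + ell t + 3 * (η * L) ≤ (x - c0) ^ 2 / t := by
        rw [le_div_iff₀ ht]
        have e1 : ((m + ε2) * L + |x - c0| + ell t + 3 * (η * L)) * t =
            τ * m + ε2 * τ + t * |x - c0| + t * ell t + 3 * (η * τ) := by rw [hτ]; ring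
        rw [e1]
        have h8 : t * |x - c0| ≤ t * X0 := by gcongr
        have h9 : θ0 = D ^ 2 / 102400 := hθ0
        linarith
      linarith
    rcases le_total x (κ / 4) with hxb | hxb
    · refine (m2 hx0 hxb).trans (Real.exp_le_exp.2 ?_)
      refine hred _ ?_
      exact half_ineq1 hκ hD0 hD1 ht htD hτκ hx0 hxb hc0low he0 heD hτe
    · refine (m3 hxb).trans (Real.exp_le_exp.2 ?_)
      have := hred 0 (by rw [mul_zero, zero_add]; exact hθR)
      rwa [zero_add] at this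
  · intro y hy
    obtain ⟨m1, m2, m3⟩ := hm T hTb B u h hF 0 y le_rfl (by norm_num) (by linarith)
    have m4 := m1 le_rfl
    have e0 : (((0 : ℝ) : ℂ) + y * I) = y * I := by push_cast; ring
    rw [e0] at m4
    refine m4.trans (Real.exp_le_exp.2 ?_)
    have h5 : ((0 - 0) / 2 + κ / 16 + ε2) * L + (ell t + 3 * (η * L)) ≤
        (c0 ^ 2 - (δ + t + D / 64) ^ 2) / t := by
      rw [le_div_iff₀ ht]
      have e1 : (((0 - 0) / 2 + κ / 16 + ε2) * L + (ell t + 3 * (η * L))) * t =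
          τ * (κ / 16) + ε2 * τ + t * ell t + 3 * (η * τ) := by rw [hτ]; ring
      rw [e1]
      have h9 : θ0 = D ^ 2 / 102400 := hθ0
      have h10 := half_ineq2 (X := ε2 * τ + t * ell t + 3 * (η * τ)) hκ hD0 hD1 ht htD hτκ hδ0 hδ1
        hc0low he0 heD hτe (by linarith)
      linarith
    linarith

end Pool.Agent.Helper87.HF
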