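import Pool.Agent.Helper87.HF.Half2

set_option autoImplicit false

open Complex Set Filter Topology Metric MeasureTheory

namespace Pool.Agent.Helper87.HF

lemma num_m1 {τ : ℝ} (h : 2000 ≤ τ) : 6 * τ + 200 ≤ τ ^ 2 / 50 := by
  have h1 : 2000 * τ ≤ τ * τ := mul_le_mul_of_nonneg_right h (by linarith)
  linarith

lemma num_m2 {τ x y : ℝ} (h : 2000 ≤ τ) (h6 : (τ / 5) ^ 2 ≤ x) (h7 : y ≤ 2) :
    6 * τ + 100 ≤ x - y := by
  have h1 : 2000 * τ ≤ τ * τ := mul_le_mul_of_nonneg_right h (by linarith)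
  have h2 : (τ / 5) ^ 2 = τ * τ / 25 := by ring
  rw [h2] at h6
  linarith

lemma num_m3 {t : ℝ} (ht : 0 < t) (h : t ≤ 1 / 4000) : (1 / 8 + t + 1) ^ 2 ≤ 2 := by
  have h1 : (1 / 8 + t + 1) ^ 2 ≤ 1.2 ^ 2 := pow_le_pow_left₀ (by positivity) (by linarith) 2
  refine h1.trans (by norm_num)

theorem half_right : ∃ T0 t0 : ℝ, 1 ≤ T0 ∧ 0 < t0 ∧ t0 ≤ 1 / 400 ∧
    ∀ T : ℝ, T0 ≤ T → ∀ (B u : ℂ) (h : ℂ → ℂ), Frame T B u h → ∀ t : ℝ, 0 < t → t ≤ t0 →
    2000 ≤ t * Real.log T → ∀ v : ℂ, ‖v‖ ≤ 1 / 8 →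
    1 / 4 * √(Real.pi * t) * Real.exp (-2 * 2) ≤ ‖HL t h (v + t * u / 2)‖ ∧
    ‖HL t h (v + t * u / 2)‖ ≤ 3 * √(Real.pi * t) * Real.exp (2 * 2) := by
  obtain ⟨T1, t1, hT1, ht1, ht1', hmain⟩ := half_bound
  obtain ⟨T2, hT2⟩ := log_cube 166
  obtain ⟨t2, ht2, hell⟩ := ell_small (1 / 200) (by positivity)
  refine ⟨max T1 T2, min (min t1 t2) (1 / 4000),
    hT1.trans (le_max_left _ _), by positivity, (min_le_left _ _).trans ((min_le_left _ _).trans ht1'), ?_⟩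
  intro T hT B u h hF t ht ht0 hbig v hv
  have hT1' : T1 ≤ T := (le_max_left _ _).trans hT
  have hT11 : 1 ≤ T := hT1.trans hT1'
  have hcube := hT2 T ((le_max_right _ _).trans hT)
  have hta : t ≤ t1 := ht0.trans ((min_le_left _ _).trans (min_le_left _ _))
  have htb : t ≤ t2 := ht0.trans ((min_le_left _ _).trans (min_le_right _ _))
  have htc : t ≤ 1 / 4000 := ht0.trans (min_le_right _ _)
  have hel := hell t ht htb
  have hL0 : 0 ≤ Real.log T := Real.log_nonneg hT11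
  have hlam := abs_le.1 hF.lam
  have hvre := abs_le.1 ((Complex.abs_re_le_norm v).trans hv)
  have hvim := (Complex.abs_im_le_norm v).trans hv
  set c0 : ℝ := v.re + t * u.re / 2 with hc0
  set τ : ℝ := t * Real.log T with hτ
  have hlow : τ / 4 - 2 * t ≤ t * u.re / 2 := by
    have : t * (Real.log T / 2 - 4) ≤ t * u.re := by gcongr; linarith [hlam.1]
    linarith
  have hc0low : τ / 5 + 4 ≤ c0 := by linarith
  have hcre : (v + t * u / 2).re = c0 := by
    rw [hc0, add_re]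
    congr 1
    rw [show (t * u / 2 : ℂ) = ((t / 2 : ℝ) : ℂ) * u by push_cast; ring, Complex.re_ofReal_mul]
    ring
  have hcim : |(v + t * u / 2).im| ≤ 1 := by
    have e1 : (v + t * u / 2).im = v.im + t * u.im / 2 := by
      rw [add_im]
      congr 1
      rw [show (t * u / 2 : ℂ) = ((t / 2 : ℝ) : ℂ) * u by push_cast; ring, Complex.im_ofReal_mul]
      ring
    rw [e1]
    refine (abs_add_le _ _).trans ?_
    have := num_l0 ht hF.him
    linarith
  have hball : ∀ z ∈ ball (0 : ℂ) 1, 3 ≤ (v + t * u / 2 + z).re ∧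
      ‖v + t * u / 2 + z‖ ^ 3 ≤ T := by
    intro z hz
    rw [mem_ball_zero_iff] at hz
    constructor
    · rw [add_re, hcre]
      have := (abs_le.1 ((Complex.abs_re_le_norm z).trans hz.le)).1
      linarith
    · refine le_trans ?_ hcube
      gcongr
      refine (norm_add_le _ _).trans ?_
      have h6 := Complex.norm_le_abs_re_add_abs_im (v + t * u / 2)
      rw [hcre, abs_of_nonneg (by linarith)] at h6
      have h7 : c0 ≤ 60 + 1 + Real.log T := num_c0 ht (by linarith) hL0 hlam.2 (by linarith)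
      linarith
  obtain ⟨q, hq, hqb, hqe⟩ := right_log hF hball
  have hTexp : T ^ 6 = Real.exp (6 * Real.log T) := by
    rw [show (6 : ℝ) = ((6 : ℕ) : ℝ) by norm_num, Real.exp_nat_mul, Real.exp_log (by linarith)]
  have h14 : ell t ≤ 1 / t := by
    rw [le_div_iff₀ ht]; linarith
  have h15 : 4000 ≤ 1 / t := by
    rw [le_div_iff₀ ht]; linarith
  have hLt : Real.log T = τ * (1 / t) := by rw [hτ]; field_simp
  refine hmain T hT1' B u h hF t ht hta v (1 / 8) 1 2 q (by norm_num) le_rfl hv one_pos le_rfl two_pos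
    (by linarith) ?_ hq hqb hqe ?_ ?_
  · rw [one_pow, le_div_iff₀ (by positivity)]
    have e1 : (ell t + 4 * 2 + 8) * (50 * t) = 50 * (t * ell t) + 800 * t := by ring
    rw [e1]
    linarith
  · intro x y hx0 hx3 _ hy
    have h5 := hF.h2 (x + y * I) (by simp; exact hx0)
    rw [norm_reim] at h5
    rw [hTexp, ← Real.exp_add] at h5
    refine h5.trans (Real.exp_le_exp.2 ?_)
    have hd : |x - c0| = c0 - x := by rw [abs_of_nonpos (by linarith)]; ring
    have hsq : (x - c0) ^ 2 = (c0 - x) ^ 2 := by ring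
    rw [hd, hsq]
    set d := c0 - x with hdd
    have hd3 : τ / 5 ≤ d := by linarith
    have hmono : (τ / 5) ^ 2 / (2 * t) ≤ d ^ 2 / (2 * t) := by gcongr
    have h11 : d ≤ d ^ 2 / (2 * t) := num_d ht (by linarith)
    have h13 : d ^ 2 / t = d ^ 2 / (2 * t) + d ^ 2 / (2 * t) := by field_simp; norm_num
    have hyy : y ^ 2 ≤ 2 ^ 2 := by rw [← sq_abs]; gcongr
    have hxx : x ^ 2 ≤ 9 := num_sq9 hx0 hx3
    have h16 : (τ / 5) ^ 2 / (2 * t) = τ ^ 2 / 50 * (1 / t) := by field_simp; ring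
    have h17 : (6 * τ + 200) * (1 / t) ≤ τ ^ 2 / 50 * (1 / t) := by
      exact mul_le_mul_of_nonneg_right (num_m1 hbig) (by positivity)
    rw [h13, hLt]
    rw [h16] at hmono
    linarith
  · intro y hy
    have h5 := hF.h2 (y * I) (by simp)
    have e0 : ‖(y * I : ℂ)‖ ^ 2 = y ^ 2 := by
      rw [norm_mul, Complex.norm_I, mul_one, Complex.norm_real, Real.norm_eq_abs, sq_abs]
    rw [e0, hTexp, ← Real.exp_add] at h5
    refine h5.trans (Real.exp_le_exp.2 ?_)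
    have hyy : y ^ 2 ≤ (1 / 2) ^ 2 := by rw [← sq_abs]; gcongr
    have h6 : (τ / 5) ^ 2 ≤ c0 ^ 2 := by gcongr; linarith
    have h7 : (1 / 8 + t + 1) ^ 2 ≤ 2 := num_m3 ht htc
    have h8 : (c0 ^ 2 - (1 / 8 + t + 1) ^ 2) / t = (c0 ^ 2 - (1 / 8 + t + 1) ^ 2) * (1 / t) := by ring
    have h9 : (6 * τ + 100) * (1 / t) ≤ (c0 ^ 2 - (1 / 8 + t + 1) ^ 2) * (1 / t) := by
      exact mul_le_mul_of_nonneg_right (num_m2 hbig h6 h7) (by positivity)
    rw [h8, hLt]
    linarith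

theorem half_main (κ κ' : ℝ) (hκ : 0 < κ) (hκ' : κ < κ') (hB : ZSide κ 0) :
    ∃ δ : ℝ, 0 < δ ∧ δ ≤ 1 / 8 ∧ ∀ η : ℝ, 0 < η → ∃ T0 t0 : ℝ, 1 ≤ T0 ∧ 0 < t0 ∧
    ∀ T : ℝ, T0 ≤ T → ∀ (B u : ℂ) (h : ℂ → ℂ), Frame T B u h →
    ∀ t : ℝ, 0 < t → t ≤ t0 → κ' - t ≤ t * Real.log T →
    ∀ v : ℂ, ‖v‖ ≤ δ →
      1 / 4 * √(Real.pi * t) * Real.exp (-2 * (η * Real.log T)) ≤ ‖HL t h (v + t * u / 2)‖ ∧
      ‖HL t h (v + t * u / 2)‖ ≤ 3 * √(Real.pi * t) * Real.exp (2 * (η * Real.log T)) := by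
  set K0 : ℝ := max κ' 2000 with hK0
  have hK1 : 1 ≤ K0 := (by norm_num : (1 : ℝ) ≤ 2000).trans (le_max_right _ _)
  obtain ⟨δ, hδ, hδ1, hg⟩ := half_gamma κ κ' K0 hκ hκ' (le_max_left _ _) hK1 hB
  refine ⟨δ, hδ, hδ1, fun η hη => ?_⟩
  obtain ⟨T1, t1, hT1, ht1, hg1⟩ := hg η hη
  obtain ⟨T2, t2, hT2, ht2, ht2', hr⟩ := half_right
  refine ⟨max (max T1 T2) (Real.exp (2 / η)), min t1 t2, hT1.trans ((le_max_left _ _).trans (le_max_left _ _)),
    by positivity, ?_⟩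
  intro T hT B u h hF t ht ht0 hτ v hv
  have hTa : T1 ≤ T := (le_max_left _ _).trans ((le_max_left _ _).trans hT)
  have hTb : T2 ≤ T := (le_max_right _ _).trans ((le_max_left _ _).trans hT)
  have hTc : Real.exp (2 / η) ≤ T := (le_max_right _ _).trans hT
  have hta : t ≤ t1 := ht0.trans (min_le_left _ _)
  have htb : t ≤ t2 := ht0.trans (min_le_right _ _)
  rcases le_total (t * Real.log T) K0 with h1 | h1
  · exact hg1 T hTa B u h hF t ht hta hτ h1 v hv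
  · have h2000 : 2000 ≤ t * Real.log T := (le_max_right _ _).trans h1
    have key := hr T hTb B u h hF t ht htb h2000 v (hv.trans hδ1)
    have hTpos : 0 < T := (Real.exp_pos _).trans_le hTc
    have hL : 2 / η ≤ Real.log T := by rw [Real.le_log_iff_exp_le hTpos]; exact hTc
    have hQ : 2 ≤ η * Real.log T := by
      rw [div_le_iff₀ hη] at hL; linarith
    refine ⟨le_trans ?_ key.1, key.2.trans ?_⟩
    · refine mul_le_mul_of_nonneg_left (Real.exp_le_exp.2 (by linarith)) (by positivity)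
    · refine mul_le_mul_of_nonneg_left (Real.exp_le_exp.2 (by linarith)) (by positivity)

end Pool.Agent.Helper87.HF
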