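import Pool.Agent.Helper87.HF.Full
import Pool.Agent.Helper87.HF.Far0
import Pool.Agent.Helper87.HF.Half1

set_option autoImplicit false

open Complex Set Filter Topology Metric MeasureTheory

namespace Pool.Agent.Helper87.HF

/-- the half-line transform of `fx` at height `T` -/
noncomputable def RT (t T : ℝ) (v : ℂ) : ℂ :=
  ∫ x in Ioi (0 : ℝ), exp (-((x : ℂ) - v) ^ 2 / t) * fx (T * I + x)

lemma RT_frame {T t : ℝ} {B u : ℂ} {h : ℂ → ℂ} (hF : Frame T B u h) (ht : 0 < t) (v : ℂ) :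
    RT t T v = B * exp (u * v + (t * u / 2) ^ 2 / t) * HL t h (v + t * u / 2) := by
  have htc : (t : ℂ) ≠ 0 := by exact_mod_cast ht.ne'
  rw [RT, HL, ← integral_const_mul]
  refine setIntegral_congr_fun measurableSet_Ioi fun x _ => ?_
  rw [hF.hf]
  have e : exp (-((x : ℂ) - v) ^ 2 / t) * (B * exp (u * x) * h x) =
      B * (exp (-((x : ℂ) - v) ^ 2 / t) * exp (u * x)) * h x := by ring
  have e2 : B * exp (u * v + (t * u / 2) ^ 2 / t) *
      (exp (-((x : ℂ) - (v + t * u / 2)) ^ 2 / t) * h x) =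
      B * (exp (u * v + (t * u / 2) ^ 2 / t) * exp (-((x : ℂ) - (v + t * u / 2)) ^ 2 / t)) * h x := by
    ring
  rw [e, e2, ← exp_add, ← exp_add]
  congr 3
  field_simp
  ring

lemma fx_growth : ∃ K : ℝ, 0 ≤ K ∧ ∀ w : ℂ, ‖fx w‖ ≤ K * Real.exp (2 * ‖w‖ ^ 2) := by
  obtain ⟨K, hK1, hK⟩ := fx_crude
  refine ⟨K * Real.exp 58, by positivity, fun w => ?_⟩
  have key : ∀ w : ℂ, 0 ≤ w.re → ‖fx w‖ ≤ K * Real.exp 58 * Real.exp (2 * ‖w‖ ^ 2) := by
    intro w hw
    refine (hK w hw).trans ?_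
    set n := ‖w‖ with hn
    have hn0 : 0 ≤ n := norm_nonneg w
    have h1 : (1 + n) ^ 4 ≤ Real.exp (4 * n) := by
      have h2 : 1 + n ≤ Real.exp n := by linarith [Real.add_one_le_exp n]
      calc (1 + n) ^ 4 ≤ Real.exp n ^ 4 := by gcongr
        _ = Real.exp (4 * n) := by rw [← Real.exp_nat_mul]; norm_num
    have h3 : (w.re + 3) ^ 2 ≤ (n + 3) ^ 2 := by
      have := Complex.re_le_norm w
      gcongr
    calc K * (1 + n) ^ 4 * Real.exp ((w.re + 3) ^ 2) ≤ K * Real.exp (4 * n) * Real.exp ((n + 3) ^ 2) := by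
          gcongr
      _ = K * (Real.exp (4 * n + (n + 3) ^ 2)) := by rw [Real.exp_add]; ring
      _ ≤ K * Real.exp (58 + 2 * n ^ 2) := by
          have : 4 * n + (n + 3) ^ 2 ≤ 58 + 2 * n ^ 2 := by nlinarith [sq_nonneg (n - 5)]
          gcongr
      _ = _ := by rw [Real.exp_add]; ring
  rcases le_total 0 w.re with h | h
  · exact key w h
  · have := key (-w) (by rw [Complex.neg_re]; linarith)
    rwa [fx_even, norm_neg] at this

lemma fx_growthT (T : ℝ) : ∃ C : ℝ, ∀ s : ℂ, ‖fx (T * I + s)‖ ≤ C * Real.exp (4 * ‖s‖ ^ 2) := by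
  obtain ⟨K, hK0, hK⟩ := fx_growth
  refine ⟨K * Real.exp (4 * T ^ 2), fun s => (hK _).trans ?_⟩
  rw [mul_assoc, ← Real.exp_add]
  refine mul_le_mul_of_nonneg_left (Real.exp_le_exp.2 ?_) hK0
  have h1 : ‖(T * I + s : ℂ)‖ ≤ |T| + ‖s‖ := by
    refine (norm_add_le _ _).trans ?_
    rw [norm_mul, Complex.norm_I, mul_one, Complex.norm_real, Real.norm_eq_abs]
  have h2 : ‖(T * I + s : ℂ)‖ ^ 2 ≤ (|T| + ‖s‖) ^ 2 := by gcongr
  have h3 := sq_abs T
  nlinarith [sq_nonneg (|T| - ‖s‖)]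

lemma GT_split {t : ℝ} (ht : 0 < t) (ht2 : t ≤ 1 / 40) (T : ℝ) (v : ℂ) :
    GT t fx (T * I + v) = RT t T v + (starRingEnd ℂ) (RT t T (-(starRingEnd ℂ) v)) := by
  obtain ⟨C, hC⟩ := fx_growthT T
  have hd : Differentiable ℂ (fun s => fx (T * I + s)) := fx_diff.comp (by fun_prop)
  have h1 := GT_line ht ht2 hd hC v
  have h2 : GT t (fun s => fx (T * I + s)) v = GT t fx (T * I + v) := by
    have := GT_translate t fx v (T * I)
    rw [add_comm (T * I : ℂ) v, ← this]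
    congr 1
    funext s
    rw [add_comm]
  have hint := GT_line_int ht ht2 hd hC v
  have hsplit := integral_add_compl (μ := volume) (measurableSet_Ioi (a := (0 : ℝ))) hint
  rw [← h2, ← h1, ← hsplit, compl_Ioi]
  congr 1
  have h3 := integral_comp_neg_Ioi (0 : ℝ) (fun x : ℝ => exp (-((x : ℂ) - v) ^ 2 / t) * fx (T * I + x))
  rw [neg_zero] at h3
  rw [← h3, RT, ← integral_conj]
  refine setIntegral_congr_fun measurableSet_Ioi fun x _ => ?_
  rw [map_mul]
  congr 1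
  · rw [← Complex.exp_conj]
    congr 1
    simp only [map_div₀, map_neg, map_pow, map_sub, Complex.conj_ofReal, Complex.conj_conj]
    push_cast
    ring
  · rw [← fx_conj, ← fx_even]
    congr 1
    simp only [map_add, map_mul, Complex.conj_ofReal, Complex.conj_I]
    push_cast
    ring

lemma RT_diff {t : ℝ} (ht : 0 < t) (ht2 : t ≤ 1 / 40) (T : ℝ) : Differentiable ℂ (RT t T) := by
  obtain ⟨C, hC⟩ := fx_growthT T
  have hd : Differentiable ℂ (fun s => fx (T * I + s)) := fx_diff.comp (by fun_prop)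
  have hC0 : 0 ≤ C := by
    have := (norm_nonneg _).trans (hC 0)
    exact nonneg_of_mul_nonneg_left this (Real.exp_pos _)
  have hgr : ∀ (c : ℂ) (x : ℝ), ‖exp (-((x : ℂ) - c) ^ 2 / t) * fx (T * I + x)‖ ≤
      C * Real.exp (2 * ‖c‖ ^ 2 / t) * Real.exp (-(16 * x ^ 2)) := by
    intro c x
    have h1 := gauss_growth ht ht2 hC c x 0 0 (by simp)
    simp only [Complex.ofReal_zero, zero_mul, add_zero, zero_add] at h1
    refine h1.trans ?_
    have h2 : c.re ^ 2 / t + |c.im| ^ 2 / t + 4 * 0 ^ 2 ≤ 2 * ‖c‖ ^ 2 / t := by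
      have a1 : c.re ^ 2 ≤ ‖c‖ ^ 2 := by
        rw [← sq_abs]; have := Complex.abs_re_le_norm c; gcongr
      have a2 : |c.im| ^ 2 ≤ ‖c‖ ^ 2 := by
        have := Complex.abs_im_le_norm c; gcongr
      have a3 : c.re ^ 2 / t ≤ ‖c‖ ^ 2 / t := by gcongr
      have a4 : |c.im| ^ 2 / t ≤ ‖c‖ ^ 2 / t := by gcongr
      have a5 : 2 * ‖c‖ ^ 2 / t = ‖c‖ ^ 2 / t + ‖c‖ ^ 2 / t := by ring
      rw [a5]
      linarith
    gcongr
  have hcont : ∀ c : ℂ, Continuous (fun x : ℝ => exp (-((x : ℂ) - c) ^ 2 / t) * fx (T * I + x)) := by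
    intro c
    exact Continuous.mul (by fun_prop) (hd.continuous.comp (by fun_prop))
  intro c0
  have key := hasDerivAt_integral_of_dominated_loc_of_deriv_le (μ := volume.restrict (Ioi (0 : ℝ)))
    (F := fun (c : ℂ) (x : ℝ) => exp (-((x : ℂ) - c) ^ 2 / t) * fx (T * I + x))
    (F' := fun (c : ℂ) (x : ℝ) => (exp (-((x : ℂ) - c) ^ 2 / t) * fx (T * I + x)) * (2 * ((x : ℂ) - c) / t))
    (x₀ := c0) (s := ball c0 1)
    (bound := fun x : ℝ => C * Real.exp (2 * (‖c0‖ + 1) ^ 2 / t) * (2 * Real.exp (‖c0‖ + 1) / t) *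
      Real.exp (-(15 * x ^ 2)))
    (ball_mem_nhds _ one_pos) ?_ ?_ ?_ ?_ ?_ ?_
  · exact key.2.differentiableAt
  · exact Eventually.of_forall fun c => (hcont c).aestronglyMeasurable
  · exact (GT_line_int ht ht2 hd hC c0).integrableOn
  · exact ((hcont c0).mul (by fun_prop)).aestronglyMeasurable
  · refine Eventually.of_forall fun x c hc => ?_
    have hcn : ‖c‖ ≤ ‖c0‖ + 1 := by
      rw [mem_ball, dist_eq_norm] at hc
      have := norm_sub_norm_le c c0
      linarith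
    rw [norm_mul]
    have h2 : ‖(2 * ((x : ℂ) - c) / t : ℂ)‖ ≤ 2 * Real.exp (‖c0‖ + 1) / t * Real.exp (x ^ 2) := by
      rw [norm_div, norm_mul, Complex.norm_ofNat, Complex.norm_real, Real.norm_of_nonneg ht.le]
      have a1 : ‖(x : ℂ) - c‖ ≤ |x| + (‖c0‖ + 1) := by
        refine (norm_sub_le _ _).trans ?_
        rw [Complex.norm_real, Real.norm_eq_abs]
        linarith
      have a2 : |x| + (‖c0‖ + 1) ≤ Real.exp (‖c0‖ + 1) * Real.exp (x ^ 2) := by
        rw [← Real.exp_add]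
        have := Real.add_one_le_exp (‖c0‖ + 1 + x ^ 2)
        have b1 := sq_abs x
        nlinarith [sq_nonneg (|x| - 1 / 2)]
      have a3 : ‖(x : ℂ) - c‖ ≤ Real.exp (‖c0‖ + 1) * Real.exp (x ^ 2) := a1.trans a2
      calc 2 * ‖(x : ℂ) - c‖ / t ≤ 2 * (Real.exp (‖c0‖ + 1) * Real.exp (x ^ 2)) / t := by gcongr
        _ = _ := by ring
    calc ‖exp (-((x : ℂ) - c) ^ 2 / t) * fx (T * I + x)‖ * ‖(2 * ((x : ℂ) - c) / t : ℂ)‖ ≤
        (C * Real.exp (2 * (‖c0‖ + 1) ^ 2 / t) * Real.exp (-(16 * x ^ 2))) *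
          (2 * Real.exp (‖c0‖ + 1) / t * Real.exp (x ^ 2)) := by
          gcongr
          refine (hgr c x).trans ?_
          gcongr
      _ = C * Real.exp (2 * (‖c0‖ + 1) ^ 2 / t) * (2 * Real.exp (‖c0‖ + 1) / t) *
          (Real.exp (-(16 * x ^ 2)) * Real.exp (x ^ 2)) := by ring
      _ = _ := by rw [← Real.exp_add]; congr 2; ring
  · exact ((int_gauss 15 (by norm_num)).const_mul _).integrableOn
  · refine Eventually.of_forall fun x c _ => ?_
    have h1 : HasDerivAt (fun c : ℂ => (x : ℂ) - c) (-1) c := (hasDerivAt_id c).const_sub (x : ℂ)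
    have h2 : HasDerivAt (fun c : ℂ => -((x : ℂ) - c) ^ 2 / t) (2 * ((x : ℂ) - c) / t) c := by
      have h3 := ((h1.pow 2).neg).div_const (t : ℂ)
      refine h3.congr_deriv ?_
      ring
    have h4 := h2.cexp.mul_const (fx (T * I + x))
    refine h4.congr_deriv ?_
    ring

/-- logarithm and its derivative for a function with two-sided bounds -/
lemma log_deriv_bound {G : ℂ → ℂ} {δ M A1 A2 : ℝ} (hδ : 0 < δ) (hM : 0 < M)
    (hG : DifferentiableOn ℂ G (ball 0 δ)) (hA : 0 < A1) (hA2 : A2 ≤ A1 * Real.exp M)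
    (hlo : ∀ v ∈ ball (0 : ℂ) δ, A1 ≤ ‖G v‖) (hup : ∀ v ∈ ball (0 : ℂ) δ, ‖G v‖ ≤ A2) :
    ∃ q : ℂ → ℂ, DifferentiableOn ℂ q (ball 0 δ) ∧ (∀ v ∈ ball (0 : ℂ) δ, exp (q v) = G v) ∧
      ∀ v : ℂ, ‖v‖ ≤ δ / 4 → ‖deriv q v‖ ≤ 8 * M / δ := by
  have hne : ∀ v ∈ ball (0 : ℂ) δ, G v ≠ 0 := by
    intro v hv h0
    have := hlo v hv
    rw [h0, norm_zero] at this
    linarith
  obtain ⟨q, hq, hqe, -⟩ := exists_log_ball hδ hG hne
  refine ⟨q, hq, hqe, ?_⟩
  have h0 : (0 : ℂ) ∈ ball (0 : ℂ) δ := mem_ball_self hδ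
  set p : ℂ → ℂ := fun v => q v - q 0 with hp
  have hpd : DifferentiableOn ℂ p (ball 0 δ) := hq.sub_const _
  have hpre : ∀ v ∈ ball (0 : ℂ) δ, (p v).re ≤ M := by
    intro v hv
    have h1 : Real.exp (q v).re ≤ A1 * Real.exp M := by
      rw [← Complex.norm_exp, hqe v hv]
      exact (hup v hv).trans hA2
    have h2 : A1 ≤ Real.exp (q 0).re := by
      rw [← Complex.norm_exp, hqe 0 h0]
      exact hlo 0 h0
    have h3 : Real.exp (q v).re ≤ Real.exp ((q 0).re + M) := by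
      rw [Real.exp_add]
      refine h1.trans ?_
      gcongr
    rw [Real.exp_le_exp] at h3
    rw [hp, sub_re]
    linarith
  have hpb : ∀ v : ℂ, ‖v‖ ≤ δ / 2 → ‖p v‖ ≤ 2 * M := by
    intro v hv
    have h1 := borelCaratheodory_zero (z := v) hM hpd (fun w hw => hpre w hw) hδ
      (by rw [mem_ball_zero_iff]; linarith) (by simp [hp])
    refine h1.trans ?_
    rw [div_le_iff₀ (by linarith)]
    nlinarith [norm_nonneg v]
  intro v hv
  have hsub : closedBall v (δ / 4) ⊆ ball (0 : ℂ) δ := by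
    intro z hz
    rw [mem_closedBall, dist_eq_norm] at hz
    rw [mem_ball_zero_iff]
    have := norm_sub_norm_le z v
    linarith
  have h1 := norm_deriv_le_of_forall_mem_sphere_norm_le (c := v) (R := δ / 4) (C := 2 * M) (f := p)
    (by linarith) ((hpd.mono (by rw [closure_ball _ (by linarith)]; exact hsub)).diffContOnCl)
    (fun z hz => hpb z (by
      rw [mem_sphere, dist_eq_norm] at hz
      have := norm_sub_norm_le z v
      linarith))
  have e : deriv p v = deriv q v := by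
    rw [hp, deriv_sub_const]
  rw [e] at h1
  refine h1.trans (le_of_eq ?_)
  field_simp
  ring

end Pool.Agent.Helper87.HF
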