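import Pool.Agent.Helper87.HF.Half3
import Pool.Agent.Helper87.HF.Half4
import Pool.Agent.Helper87.HF.DirectF

set_option autoImplicit false

open Complex Set Filter Topology Metric MeasureTheory

namespace Pool.Agent.Helper87.HF

lemma fx_growth4 : ∃ K : ℝ, ∀ w : ℂ, ‖fx w‖ ≤ K * Real.exp (4 * ‖w‖ ^ 2) := by
  obtain ⟨K, hK0, hK⟩ := fx_growth
  refine ⟨K, fun w => (hK w).trans ?_⟩
  have : 0 ≤ ‖w‖ ^ 2 := by positivity
  gcongr
  norm_num

/-- abstract form of the final step -/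
lemma real_simple_abs {t T δ M : ℝ} {B u : ℂ} {G q : ℂ → ℂ} (ht : 0 < t) (ht2 : t ≤ 1 / 40)
    (hδ : 0 < δ) (hBne : B ≠ 0)
    (hRT : ∀ v : ℂ, RT t T v = B * exp (u * v + (t * u / 2) ^ 2 / t) * G v)
    (hq : DifferentiableOn ℂ q (ball 0 δ)) (hqe : ∀ v ∈ ball (0 : ℂ) δ, exp (q v) = G v)
    (hq' : ∀ v : ℂ, ‖v‖ ≤ δ / 4 → ‖deriv q v‖ ≤ M) (hM : M < u.re) :
    (∀ σ : ℝ, 0 < σ → σ ≤ δ / 4 → GT t fx (T * I + σ) ≠ 0) ∧
    (GT t fx (T * I) = 0 → deriv (GT t fx) (T * I) ≠ 0) := by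
  have hball : ∀ v : ℂ, ‖v‖ ≤ δ / 4 → v ∈ ball (0 : ℂ) δ := by
    intro v hv
    rw [mem_ball_zero_iff]; linarith
  have hRq : ∀ v ∈ ball (0 : ℂ) δ, RT t T v = B * exp (u * v + (t * u / 2) ^ 2 / t) * exp (q v) := by
    intro v hv
    rw [hRT, hqe v hv]
  constructor
  · intro σ hσ hσ2 h0
    have hs := GT_split ht ht2 T (σ : ℂ)
    rw [h0, Complex.conj_ofReal] at hs
    have h1 : ‖RT t T σ‖ = ‖RT t T (-(σ : ℂ))‖ := by
      have h2 : RT t T σ = -(starRingEnd ℂ) (RT t T (-(σ : ℂ))) := by linear_combination -hs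
      rw [h2, norm_neg, Complex.norm_conj]
    have m1 : ‖((σ : ℝ) : ℂ)‖ ≤ δ / 4 := by
      rw [Complex.norm_real, Real.norm_of_nonneg hσ.le]; exact hσ2
    have m2 : ‖(-(σ : ℂ))‖ ≤ δ / 4 := by rw [norm_neg]; exact m1
    rw [hRq _ (hball _ m1), hRq _ (hball _ m2)] at h1
    simp only [norm_mul, Complex.norm_exp] at h1
    have hB0 : ‖B‖ ≠ 0 := (norm_pos_iff.2 hBne).ne'
    rw [mul_assoc, mul_assoc] at h1
    have h2 := mul_left_cancel₀ hB0 h1
    rw [← Real.exp_add, ← Real.exp_add] at h2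
    have h3 := Real.exp_injective h2
    have e1 : (u * (σ : ℂ) + (t * u / 2) ^ 2 / t).re = u.re * σ + ((t * u / 2) ^ 2 / t : ℂ).re := by
      rw [add_re, Complex.re_mul_ofReal]
    have e2 : (u * (-(σ : ℂ)) + (t * u / 2) ^ 2 / t).re = -(u.re * σ) + ((t * u / 2) ^ 2 / t : ℂ).re := by
      rw [mul_neg, add_re, neg_re, Complex.re_mul_ofReal]
    rw [e1, e2] at h3
    have h4 : ‖q (-(σ : ℂ)) - q σ‖ ≤ M * ‖(-(σ : ℂ)) - σ‖ := by
      refine Convex.norm_image_sub_le_of_norm_deriv_le (𝕜 := ℂ) (s := closedBall 0 (δ / 4)) ?_ ?_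
        (convex_closedBall 0 (δ / 4)) ?_ ?_
      · intro z hz
        rw [mem_closedBall_zero_iff] at hz
        exact (hq z (hball z hz)).differentiableAt (isOpen_ball.mem_nhds (hball z hz))
      · intro z hz
        rw [mem_closedBall_zero_iff] at hz
        exact hq' z hz
      · rw [mem_closedBall_zero_iff]; exact m1
      · rw [mem_closedBall_zero_iff]; exact m2
    have e3 : ‖(-(σ : ℂ)) - σ‖ = 2 * σ := by
      rw [show (-(σ : ℂ)) - σ = ((-(2 * σ) : ℝ) : ℂ) by push_cast; ring, Complex.norm_real,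
        Real.norm_eq_abs, abs_neg, abs_of_pos (by linarith)]
    rw [e3] at h4
    have h5 := (Complex.re_le_norm (q (-(σ : ℂ)) - q σ)).trans h4
    rw [sub_re] at h5
    nlinarith
  · intro h0 hd0
    have m0 : ‖(0 : ℂ)‖ ≤ δ / 4 := by rw [norm_zero]; linarith
    have hb0 := hball 0 m0
    have hqd : HasDerivAt q (deriv q 0) 0 :=
      ((hq 0 hb0).differentiableAt (isOpen_ball.mem_nhds hb0)).hasDerivAt
    -- derivative of RT at 0
    have hR : HasDerivAt (RT t T) ((u + deriv q 0) * RT t T 0) 0 := by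
      have h1 : HasDerivAt (fun v : ℂ => u * v + (t * u / 2) ^ 2 / t) u 0 := by
        simpa using ((hasDerivAt_id (0 : ℂ)).const_mul u).add_const ((t * u / 2) ^ 2 / t)
      have h2 := (h1.cexp.const_mul B).mul hqd.cexp
      have h3 : (fun v : ℂ => B * exp (u * v + (t * u / 2) ^ 2 / t) * exp (q v)) =ᶠ[𝓝 0] RT t T := by
        filter_upwards [isOpen_ball.mem_nhds hb0] with v hv
        exact (hRq v hv).symm
      have h4 := h2.congr_of_eventuallyEq h3.symm
      refine h4.congr_deriv ?_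
      rw [hRq 0 hb0]
      ring
    have hR2 : HasDerivAt (fun v : ℂ => (starRingEnd ℂ) (RT t T (-(starRingEnd ℂ) v)))
        (-(starRingEnd ℂ) ((u + deriv q 0) * RT t T 0)) 0 := by
      have h1 : HasDerivAt (fun v : ℂ => RT t T (-v)) (-((u + deriv q 0) * RT t T 0)) 0 := by
        have h2 : HasDerivAt (RT t T) ((u + deriv q 0) * RT t T 0) (-(0 : ℂ)) := by
          rw [neg_zero]; exact hR
        have h3 := h2.scomp (0 : ℂ) (hasDerivAt_neg (0 : ℂ))
        refine h3.congr_deriv ?_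
        rw [smul_eq_mul]; ring
      have h5 := h1.conj_conj
      rw [map_zero, map_neg] at h5
      exact h5
    have hF : HasDerivAt (fun v : ℂ => GT t fx (T * I + v))
        ((u + deriv q 0) * RT t T 0 + -(starRingEnd ℂ) ((u + deriv q 0) * RT t T 0)) 0 := by
      have h1 := hR.add hR2
      have e : (fun v : ℂ => GT t fx (T * I + v)) =
          (RT t T + fun v : ℂ => (starRingEnd ℂ) (RT t T (-(starRingEnd ℂ) v))) := by
        funext v
        exact GT_split ht ht2 T v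
      rw [e]
      exact h1
    obtain ⟨K, hK⟩ := fx_growth4
    have hG : HasDerivAt (GT t fx) (deriv (GT t fx) (T * I)) (T * I) :=
      ((GT_diff ht ht2 fx_diff hK) (T * I)).hasDerivAt
    have hG2 : HasDerivAt (fun v : ℂ => GT t fx (T * I + v)) (deriv (GT t fx) (T * I)) 0 := by
      have h1 : HasDerivAt (GT t fx) (deriv (GT t fx) (T * I)) (T * I + 0) := by
        rw [add_zero]; exact hG
      exact h1.comp_const_add (T * I) 0
    have huniq := hF.unique hG2
    rw [hd0] at huniq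
    set r := RT t T 0 with hr
    have hrne : r ≠ 0 := by
      rw [hr, hRq 0 hb0]
      exact mul_ne_zero (mul_ne_zero hBne (exp_ne_zero _)) (exp_ne_zero _)
    have hs := GT_split ht ht2 T 0
    rw [add_zero, h0, map_zero, neg_zero, ← hr] at hs
    have hre : r.re = 0 := by
      have h1 := congrArg Complex.re hs
      rw [zero_re, add_re, Complex.conj_re] at h1
      linarith
    have him : r.im ≠ 0 := by
      intro h1
      exact hrne (Complex.ext hre h1)
    have h2 := congrArg Complex.im huniq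
    rw [add_im, neg_im, Complex.conj_im, zero_im, Complex.mul_im, hre, mul_zero, add_zero, add_re] at h2
    have h3 : (u.re + (deriv q 0).re) * r.im = 0 := by linarith
    rcases mul_eq_zero.1 h3 with h4 | h4
    · have h5 := (Complex.abs_re_le_norm (deriv q 0)).trans (hq' 0 m0)
      have := (abs_le.1 h5).1
      linarith
    · exact him h4

theorem real_simple (κ κ' : ℝ) (hκ : 0 < κ) (hκ' : κ < κ') (hB : ZSide κ 0) :
    ∃ t0 : ℝ, 0 < t0 ∧ ∀ t : ℝ, 0 < t → t ≤ t0 → ∀ T : ℝ, Real.exp (κ' / t) ≤ 2 * T →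
      (∀ σ : ℝ, 0 < σ → σ ≤ 60 → GT t fx (T * I + σ) ≠ 0) ∧
      (GT t fx (T * I) = 0 → deriv (GT t fx) (T * I) ≠ 0) := by
  obtain ⟨δ, hδ, hδ1, hmain⟩ := half_main κ κ' hκ hκ' hB
  set η : ℝ := δ / 256 with hη
  have hηpos : 0 < η := by positivity
  obtain ⟨T1, t1, hT1, ht1, hg⟩ := hmain η hηpos
  obtain ⟨t2, ht2, hdir⟩ := direct κ 0 (δ / 4) hκ le_rfl (by norm_num) (by positivity) hB
  obtain ⟨Tf, hTf1, hTf⟩ := exists_frame
  set T0 : ℝ := max (max T1 Tf) (Real.exp (3 * (4 + 24 / δ))) with hT0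
  have hT01 : 1 ≤ T0 := hT1.trans ((le_max_left _ _).trans (le_max_left _ _))
  refine ⟨min (min t1 t2) (min (1 / 40) (κ' / (2 * T0))), by
    have : 0 < κ' := by linarith
    positivity, ?_⟩
  intro t ht ht0 T hT
  have hta : t ≤ t1 := ht0.trans ((min_le_left _ _).trans (min_le_left _ _))
  have htb : t ≤ t2 := ht0.trans ((min_le_left _ _).trans (min_le_right _ _))
  have htc : t ≤ 1 / 40 := ht0.trans ((min_le_right _ _).trans (min_le_left _ _))
  have htd : t ≤ κ' / (2 * T0) := ht0.trans ((min_le_right _ _).trans (min_le_right _ _))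
  have hTT0 : T0 ≤ T := by
    have h1 : 2 * T0 ≤ κ' / t := by
      rw [le_div_iff₀ ht]
      rw [le_div_iff₀ (by positivity)] at htd
      linarith
    have h2 := Real.add_one_le_exp (κ' / t)
    linarith
  have hTa : T1 ≤ T := (le_max_left _ _).trans ((le_max_left _ _).trans hTT0)
  have hTb : Tf ≤ T := (le_max_right _ _).trans ((le_max_left _ _).trans hTT0)
  have hTc : Real.exp (3 * (4 + 24 / δ)) ≤ T := (le_max_right _ _).trans hTT0
  have hT1' : 1 ≤ T := hT01.trans hTT0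
  obtain ⟨B, u, h, hF⟩ := hTf T hTb
  have hL0 : 0 ≤ Real.log T := Real.log_nonneg hT1'
  have hLbig : 3 * (4 + 24 / δ) ≤ Real.log T := by
    rw [Real.le_log_iff_exp_le (by linarith)]; exact hTc
  have hτ : κ' - t ≤ t * Real.log T := by
    have h1 : κ' / t ≤ Real.log (2 * T) := by
      rw [Real.le_log_iff_exp_le (by linarith)]; exact hT
    rw [Real.log_mul (by norm_num) (by linarith), div_le_iff₀ ht] at h1
    have h2 := Real.log_two_lt_d9
    nlinarith
  have hlam := abs_le.1 hF.lam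
  have hb := hg T hTa B u h hF t ht hta hτ
  set L := Real.log T with hL
  set G : ℂ → ℂ := fun v => HL t h (v + t * u / 2) with hGdef
  have hRT : ∀ v : ℂ, RT t T v = B * exp (u * v + (t * u / 2) ^ 2 / t) * G v :=
    fun v => RT_frame hF ht v
  have hGd : Differentiable ℂ G := by
    have e : G = fun v => RT t T v / (B * exp (u * v + (t * u / 2) ^ 2 / t)) := by
      funext v
      rw [hRT v, mul_div_cancel_left₀]
      exact mul_ne_zero hF.hB (exp_ne_zero _)
    rw [e]
    intro v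
    exact ((RT_diff ht htc T) v).div (by fun_prop) (mul_ne_zero hF.hB (exp_ne_zero _))
  have hG0 : 0 < √(Real.pi * t) := Real.sqrt_pos.2 (by positivity)
  have hM0 : 0 < 4 * (η * L) + 3 := by positivity
  obtain ⟨q, hq, hqe, hq'⟩ := log_deriv_bound (G := G) (δ := δ) (M := 4 * (η * L) + 3)
    (A1 := 1 / 4 * √(Real.pi * t) * Real.exp (-2 * (η * L)))
    (A2 := 3 * √(Real.pi * t) * Real.exp (2 * (η * L))) hδ hM0 hGd.differentiableOn (by positivity)
    (by
      have e1 : 1 / 4 * √(Real.pi * t) * Real.exp (-2 * (η * L)) * Real.exp (4 * (η * L) + 3) =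
          √(Real.pi * t) * Real.exp (2 * (η * L)) * (Real.exp 3 / 4) := by
        have : Real.exp (-2 * (η * L)) * Real.exp (4 * (η * L) + 3) = Real.exp (2 * (η * L)) * Real.exp 3 := by
          rw [← Real.exp_add, ← Real.exp_add]; congr 1; ring
        calc _ = 1 / 4 * √(Real.pi * t) * (Real.exp (-2 * (η * L)) * Real.exp (4 * (η * L) + 3)) := by ring
          _ = _ := by rw [this]; ring
      rw [e1]
      have h3 : 12 ≤ Real.exp 3 := by
        have := Real.exp_one_gt_d9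
        have h15 : Real.exp 3 = Real.exp 1 ^ 3 := by rw [← Real.exp_nat_mul]; norm_num
        rw [h15]
        calc (12 : ℝ) ≤ 2.7 ^ 3 := by norm_num
          _ ≤ Real.exp 1 ^ 3 := by gcongr; linarith
      have h4 : 0 < √(Real.pi * t) * Real.exp (2 * (η * L)) := by positivity
      nlinarith)
    (fun v hv => (hb v (mem_ball_zero_iff.1 hv).le).1) (fun v hv => (hb v (mem_ball_zero_iff.1 hv).le).2)
  have hMlt : 8 * (4 * (η * L) + 3) / δ < u.re := by
    have e1 : 8 * (4 * (η * L) + 3) / δ = L / 8 + 24 / δ := by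
      rw [hη]; field_simp; ring
    rw [e1]
    have : 0 < 24 / δ := by positivity
    linarith [hlam.1]
  obtain ⟨r1, r2⟩ := real_simple_abs ht htc hδ hF.hB hRT hq hqe hq' hMlt
  refine ⟨fun σ hσ hσ60 => ?_, r2⟩
  rcases le_total σ (δ / 4) with h1 | h1
  · exact r1 σ hσ h1
  · refine hdir t ht htb σ T (by rw [zero_add]; exact h1) hσ60 (le_trans (Real.exp_le_exp.2 ?_) hT)
    gcongr

end Pool.Agent.Helper87.HF
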