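import Pool.Agent.Helper87.HF.Far0

set_option autoImplicit false

open Complex Set Filter Topology Metric MeasureTheory

namespace Pool.Agent.Helper87.HF

lemma num_n1 {T n : ℝ} (hT : (144 : ℝ) ^ 3 ≤ T) (h3 : n ^ 3 ≤ T) (h4 : (T / 2) ^ 3 < n ^ 3) :
    False := by
  have h5 : (T / 2) ^ 3 = T ^ 3 / 8 := by ring
  have hT0 : 0 < T := lt_of_lt_of_le (by norm_num) hT
  have h6 : (100 : ℝ) ≤ T := le_trans (by norm_num) hT
  have h7 : 100 * 100 * T ≤ T * T * T := by gcongr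
  have h8 : T * T * T = T ^ 3 := by ring
  linarith

lemma num_n2 {L n : ℝ} (h6 : L ≤ 3 * n) (hn : 144 ≤ n) : 6 * L ≤ n ^ 2 / 4 := by
  have h1 : 144 * n ≤ n * n := mul_le_mul_of_nonneg_right hn (by linarith)
  linarith

lemma num_n3 {W y : ℝ} : W * |y| ≤ W ^ 2 + y ^ 2 := by
  rw [← sq_abs y]
  linarith [sq_nonneg (W - |y|), sq_nonneg W, sq_nonneg |y|]

lemma num_n4 {a b : ℝ} (ha : |a| ≤ 2) : -(a * b) ≤ 2 * |b| := by
  have h := neg_abs_le (a * b)
  rw [abs_mul] at h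
  have h2 := mul_le_mul_of_nonneg_right ha (abs_nonneg b)
  linarith

lemma num_n5 (b : ℝ) : 2 * |b| ≤ b ^ 2 / 4 + 4 := by
  rw [← sq_abs]; linarith [sq_nonneg (|b| - 4)]

lemma num_n6 (v y r : ℝ) : 7 / 2 * v ^ 2 + r + (v ^ 2 / 4 + 4) ≤ (r + 4 + 60 * y ^ 2) + 4 * (v - y) ^ 2 := by
  have h : (r + 4 + 60 * y ^ 2) + 4 * (v - y) ^ 2 - (7 / 2 * v ^ 2 + r + (v ^ 2 / 4 + 4)) =
    (v - 16 * y) ^ 2 / 4 := by ring
  have := sq_nonneg (v - 16 * y)
  linarith

/-- bound on a vertical line -/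
lemma vline (M0 T1 : ℝ) (hM0 : 0 ≤ M0) : ∃ C T2 : ℝ, 1 ≤ C ∧ 1 ≤ T2 ∧ ∀ T : ℝ, T2 ≤ T →
    ∀ (B u : ℂ) (h : ℂ → ℂ), Frame T B u h → ∀ σ μ : ℝ, 0 ≤ σ → σ ≤ M0 → 0 ≤ μ → μ ≤ M0 →
    (∀ T' : ℝ, T1 ≤ T' → ‖riemannZeta (1 / 2 + T' * I + σ)‖ ≤ Real.exp (μ * Real.log T')) →
    ∀ v : ℂ, v.re = σ → ‖h v‖ ≤ C * Real.exp (μ * Real.log T) * Real.exp (7 / 2 * v.im ^ 2) := by
  refine ⟨2 * Real.exp (M0 + 4 * M0 ^ 2), max (max 1 (2 * T1)) (144 ^ 3), ?_, ?_, ?_⟩
  · have : 1 ≤ Real.exp (M0 + 4 * M0 ^ 2) := Real.one_le_exp (by positivity)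
    linarith
  · exact (le_max_left _ _).trans (le_max_left _ _)
  intro T hT B u h hF σ μ hσ0 hσM hμ0 hμM hz v hv
  have hT1 : 1 ≤ T := (le_max_left _ _).trans ((le_max_left _ _).trans hT)
  have hT2 : 2 * T1 ≤ T := (le_max_right _ _).trans ((le_max_left _ _).trans hT)
  have hT3 : (144 : ℝ) ^ 3 ≤ T := (le_max_right _ _).trans hT
  have hL0 : 0 ≤ Real.log T := Real.log_nonneg hT1
  have hvn : ‖v‖ ^ 2 = σ ^ 2 + v.im ^ 2 := by
    rw [← Complex.normSq_eq_norm_sq, Complex.normSq_apply, hv]; ring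
  have hσ2 : σ ^ 2 ≤ M0 ^ 2 := by gcongr
  set C := 2 * Real.exp (M0 + 4 * M0 ^ 2) with hC
  rcases le_total (‖v‖ ^ 3) T with h3 | h3
  · have hn : ‖v‖ ≤ T / 2 := by
      by_contra hcon
      push Not at hcon
      have h4 : (T / 2) ^ 3 < ‖v‖ ^ 3 := by gcongr
      exact num_n1 hT3 h3 h4
    have him : |v.im| ≤ T / 2 := (Complex.abs_im_le_norm v).trans hn
    have h5 := hF.h1 v (by rw [hv]; exact hσ0) h3
    have e1 : (1 / 2 + T * I + v : ℂ) = 1 / 2 + ((T + v.im : ℝ) : ℂ) * I + σ := by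
      conv_lhs => rw [← re_add_im v, hv]
      push_cast; ring
    have h6 := hz (T + v.im) (by have := (abs_le.1 him).1; linarith)
    rw [e1] at h5
    set Z := riemannZeta (1 / 2 + ((T + v.im : ℝ) : ℂ) * I + σ)
    have h7 : ‖h v‖ ≤ 2 * ‖Z‖ := by
      have := norm_sub_norm_le (h v) Z
      linarith [norm_nonneg Z]
    have h8 : Real.log (T + v.im) ≤ Real.log T + 1 := by
      have a1 := (abs_le.1 him)
      have h9 : T + v.im ≤ T * Real.exp 1 := by
        have hTe := mul_le_mul_of_nonneg_left (Real.add_one_le_exp (1 : ℝ)) (by linarith : 0 ≤ T)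
        linarith
      calc Real.log (T + v.im) ≤ Real.log (T * Real.exp 1) :=
            Real.log_le_log (by linarith [a1.1]) h9
        _ = _ := by rw [Real.log_mul (by linarith) (Real.exp_ne_zero _), Real.log_exp]
    have h10 : Real.exp (μ * Real.log (T + v.im)) ≤ Real.exp (M0 + 4 * M0 ^ 2) *
        Real.exp (μ * Real.log T) := by
      rw [← Real.exp_add]
      apply Real.exp_le_exp.2
      have : μ * Real.log (T + v.im) ≤ μ * (Real.log T + 1) := by gcongr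
      linarith [sq_nonneg M0]
    have h11 : 1 ≤ Real.exp (7 / 2 * v.im ^ 2) := Real.one_le_exp (by positivity)
    calc ‖h v‖ ≤ 2 * ‖Z‖ := h7
      _ ≤ 2 * (Real.exp (M0 + 4 * M0 ^ 2) * Real.exp (μ * Real.log T)) := by
          gcongr; exact h6.trans h10
      _ = C * Real.exp (μ * Real.log T) * 1 := by rw [hC]; ring
      _ ≤ _ := by gcongr
  · have h5 := hF.h2 v (by rw [hv]; exact hσ0)
    have hTexp : T ^ 6 = Real.exp (6 * Real.log T) := by
      rw [show (6 : ℝ) = ((6 : ℕ) : ℝ) by norm_num, Real.exp_nat_mul, Real.exp_log (by linarith)]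
    rw [hTexp, ← Real.exp_add] at h5
    have hn144 : 144 ≤ ‖v‖ := by
      by_contra hcon
      push Not at hcon
      have : ‖v‖ ^ 3 < 144 ^ 3 := by gcongr
      linarith
    have h6 : Real.log T ≤ 3 * ‖v‖ := by
      calc Real.log T ≤ Real.log (‖v‖ ^ 3) := Real.log_le_log (by linarith) h3
        _ = 3 * Real.log ‖v‖ := by rw [Real.log_pow]; norm_num
        _ ≤ 3 * ‖v‖ := by
            have := Real.log_le_sub_one_of_pos (show 0 < ‖v‖ by linarith)
            linarith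
    have h7 : 6 * Real.log T ≤ ‖v‖ ^ 2 / 4 := num_n2 h6 hn144
    have h8 : 1 ≤ Real.exp (μ * Real.log T) := Real.one_le_exp (by positivity)
    calc ‖h v‖ ≤ Real.exp (6 * Real.log T + 3 * ‖v‖ ^ 2) := h5
      _ ≤ Real.exp (M0 + 4 * M0 ^ 2 + 7 / 2 * v.im ^ 2) := by
          apply Real.exp_le_exp.2
          linarith [sq_nonneg v.im, sq_nonneg M0]
      _ = 1 * Real.exp (M0 + 4 * M0 ^ 2) * 1 * Real.exp (7 / 2 * v.im ^ 2) := by
          rw [Real.exp_add]; ring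
      _ ≤ 2 * Real.exp (M0 + 4 * M0 ^ 2) * Real.exp (μ * Real.log T) *
          Real.exp (7 / 2 * v.im ^ 2) := by gcongr; norm_num

/-- convexity bound to the left of a line -/
lemma hull_left (a T1 Y0 ε M0 : ℝ) (ha : 0 < a) (hε : 0 < ε) (hY0 : 0 ≤ Y0) (haM : a ≤ M0) :
    ∃ T2 : ℝ, 1 ≤ T2 ∧ ∀ T : ℝ, T2 ≤ T →
    ∀ (B u : ℂ) (h : ℂ → ℂ), Frame T B u h → ∀ μ : ℝ, 0 ≤ μ → μ ≤ M0 →
    (∀ T' : ℝ, T1 ≤ T' → ‖riemannZeta (1 / 2 + T' * I + a)‖ ≤ Real.exp (μ * Real.log T')) →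
    ∀ x y : ℝ, -a ≤ x → x ≤ a → |y| ≤ Y0 → ‖h (x + y * I)‖ ≤
      Real.exp (((a - x) / 2 + μ + ε) * Real.log T) := by
  obtain ⟨C, T2, hC1, hT21, hv⟩ := vline M0 T1 (by linarith)
  -- final constant
  set D : ℝ := Real.log C + 60 * Y0 ^ 2 + 2 * Y0 + 4 + 20 * a ^ 2 + 8 * a with hD
  refine ⟨max T2 (Real.exp (|D| / ε)), hT21.trans (le_max_left _ _), ?_⟩
  intro T hT B u h hF μ hμ0 hμM hz x y hx1 hx2 hy
  have hT2 : T2 ≤ T := (le_max_left _ _).trans hT
  have hT1 : 1 ≤ T := hT21.trans hT2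
  have hL0 : 0 ≤ Real.log T := Real.log_nonneg hT1
  have hDL : D ≤ ε * Real.log T := by
    have h1 : |D| / ε ≤ Real.log T := by
      rw [Real.le_log_iff_exp_le (by linarith)]
      exact (le_max_right _ _).trans hT
    rw [div_le_iff₀ hε] at h1
    linarith [le_abs_self D]
  have hline := hv T hT2 B u h hF a μ ha.le haM hμ0 hμM hz
  have hlam := abs_le.1 hF.lam
  have him := hF.him
  set k : ℂ → ℂ := fun v => exp (u * v) * h v with hk
  have hkd : Differentiable ℂ k := by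
    have := hF.hd
    rw [hk]; fun_prop
  have hne : ∀ v : ℂ, ‖exp (u * v)‖ = Real.exp (u.re * v.re - u.im * v.im) := by
    intro v; rw [Complex.norm_exp, mul_re]
  set M : ℝ := C * Real.exp (μ * Real.log T) * Real.exp (u.re * a + 4 + 60 * y ^ 2) with hM
  have hside : ∀ v : ℂ, ‖h v‖ * Real.exp (u.re * v.re) ≤ C * Real.exp (μ * Real.log T) *
      Real.exp (7 / 2 * v.im ^ 2) * Real.exp (u.re * a) → ‖k v‖ ≤ M * Real.exp (4 * (v.im - y) ^ 2) := by
    intro v hv1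
    simp only [hk]
    rw [norm_mul, hne, sub_eq_add_neg, Real.exp_add]
    have h2 : -(u.im * v.im) ≤ 2 * |v.im| := num_n4 him
    have h3 : 2 * |v.im| ≤ v.im ^ 2 / 4 + 4 := num_n5 _
    calc Real.exp (u.re * v.re) * Real.exp (-(u.im * v.im)) * ‖h v‖ =
        (‖h v‖ * Real.exp (u.re * v.re)) * Real.exp (-(u.im * v.im)) := by ring
      _ ≤ (C * Real.exp (μ * Real.log T) * Real.exp (7 / 2 * v.im ^ 2) * Real.exp (u.re * a)) *
          Real.exp (v.im ^ 2 / 4 + 4) := by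
          gcongr
          linarith
      _ = C * Real.exp (μ * Real.log T) * Real.exp (7 / 2 * v.im ^ 2 + u.re * a + (v.im ^ 2 / 4 + 4)) := by
          rw [Real.exp_add (7 / 2 * v.im ^ 2 + u.re * a), Real.exp_add (7 / 2 * v.im ^ 2)]; ring
      _ ≤ C * Real.exp (μ * Real.log T) *
          Real.exp ((u.re * a + 4 + 60 * y ^ 2) + 4 * (v.im - y) ^ 2) := by
          exact mul_le_mul_of_nonneg_left (Real.exp_le_exp.2 (num_n6 _ _ _)) (by positivity)
      _ = _ := by rw [hM, Real.exp_add _ (4 * (v.im - y) ^ 2)]; ring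
  have hPL := PL2 hkd (x1 := -a) (x2 := a) (M := M) (y0 := y)
    (C0 := T ^ 6 * Real.exp (3 * a ^ 2 + (2 * |u.re| + ‖u‖) * a + (2 * |u.re| + ‖u‖) ^ 2))
    (by linarith) ?_ ?_ ?_ hx1 hx2
  · simp only [hk] at hPL
    rw [norm_mul, hne] at hPL
    have e1 : ((x : ℂ) + y * I).re = x := by simp
    have e2 : ((x : ℂ) + y * I).im = y := by simp
    rw [e1, e2] at hPL
    have h4 : ‖h (x + y * I)‖ ≤ Real.exp (-(u.re * x - u.im * y)) * (M * Real.exp (5 * (a - -a) ^ 2)) := by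
      rw [Real.exp_neg, ← div_eq_inv_mul, le_div_iff₀ (Real.exp_pos _), mul_comm]
      exact hPL
    refine h4.trans ?_
    have hCe : C = Real.exp (Real.log C) := by rw [Real.exp_log (by linarith)]
    rw [hM, hCe]
    simp only [← Real.exp_add]
    apply Real.exp_le_exp.2
    have h5 : u.re * (a - x) ≤ (Real.log T / 2 + 4) * (a - x) := by
      have : 0 ≤ a - x := by linarith
      gcongr
      linarith [hlam.2]
    have h6 : u.im * y ≤ 2 * Y0 := by
      have := le_abs_self (u.im * y)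
      rw [abs_mul] at this
      have h7 : |u.im| * |y| ≤ 2 * Y0 := by gcongr
      linarith
    have h8 : y ^ 2 ≤ Y0 ^ 2 := by rw [← sq_abs]; gcongr
    have h9 : (a - -a) ^ 2 = 4 * a ^ 2 := by ring
    rw [h9]
    have h10 : 4 * (a - x) ≤ 8 * a := by linarith
    linarith
  · intro v hv1 hv2
    simp only [hk]
    rw [norm_mul]
    have h1 := hF.all hT1 v
    have h2 : ‖exp (u * v)‖ ≤ Real.exp (‖u‖ * ‖v‖) := by
      rw [Complex.norm_exp]
      apply Real.exp_le_exp.2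
      refine (Complex.re_le_norm _).trans ?_
      rw [norm_mul]
    have hvre : |v.re| ≤ a := abs_le.2 ⟨hv1, hv2⟩
    have hvn : ‖v‖ ≤ a + |v.im| := (Complex.norm_le_abs_re_add_abs_im v).trans (by linarith)
    have hvn2 : ‖v‖ ^ 2 = v.re ^ 2 + v.im ^ 2 := by
      rw [← Complex.normSq_eq_norm_sq, Complex.normSq_apply]; ring
    have hvre2 : v.re ^ 2 ≤ a ^ 2 := by rw [← sq_abs]; gcongr
    set W := 2 * |u.re| + ‖u‖ with hW
    have hW0 : 0 ≤ W := by positivity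
    calc ‖exp (u * v)‖ * ‖h v‖ ≤ Real.exp (‖u‖ * ‖v‖) *
        (T ^ 6 * Real.exp (3 * ‖v‖ ^ 2 + 2 * |u.re| * ‖v‖)) := by gcongr
      _ = T ^ 6 * Real.exp (3 * ‖v‖ ^ 2 + W * ‖v‖) := by
          rw [mul_left_comm, ← Real.exp_add]; congr 2; rw [hW]; ring
      _ ≤ T ^ 6 * Real.exp ((3 * a ^ 2 + W * a + W ^ 2) + 4 * v.im ^ 2) := by
          refine mul_le_mul_of_nonneg_left (Real.exp_le_exp.2 ?_) (by positivity)
          have h5 : W * ‖v‖ ≤ W * (a + |v.im|) := by gcongr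
          have h6 : W * |v.im| ≤ W ^ 2 + v.im ^ 2 := num_n3
          linarith
      _ = _ := by rw [Real.exp_add]; ring
  · intro v hv1
    apply hside
    have h3 := hF.h3 a v.im
    have e1 : (-(a : ℂ) + v.im * I) = v := by
      conv_rhs => rw [← re_add_im v, hv1]
      push_cast; ring
    rw [e1] at h3
    have h4 := hline (a + v.im * I) (by simp)
    have e2 : ((a : ℂ) + v.im * I).im = v.im := by simp
    rw [e2] at h4
    rw [h3, hv1]
    calc Real.exp (2 * u.re * a) * ‖h (a + v.im * I)‖ * Real.exp (u.re * -a) =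
        ‖h (a + v.im * I)‖ * Real.exp (u.re * a) := by
          rw [mul_right_comm, ← Real.exp_add, mul_comm]
          congr 2; ring
      _ ≤ _ := by gcongr
  · intro v hv1
    apply hside
    have h4 := hline v hv1
    rw [hv1]
    gcongr

end Pool.Agent.Helper87.HF
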