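import Pool.Agent.Helper87.HF.DirectF

set_option autoImplicit false

open Complex Set Filter Topology Metric MeasureTheory

namespace Pool.Agent.Helper87.HF

/-- Zero-free region for the Gaussian averages -/
def FSide (κ a : ℝ) : Prop :=
  ∀ ε : ℝ, 0 < ε → ∃ t0 : ℝ, 0 < t0 ∧ ∀ t : ℝ, 0 < t → t ≤ t0 → ∀ σ T : ℝ, a + ε ≤ σ → σ ≤ 1 →
      Real.exp (κ / t) ≤ 2 * T → GT t fx (T * I + σ) ≠ 0

lemma K_bound {T t : ℝ} (hT : 1 ≤ T) {B u : ℂ} {h : ℂ → ℂ} (hF : Frame T B u h) (ht : 0 < t)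
    (ht2 : t ≤ 1 / 80) (s : ℂ) : ‖GT t h s‖ ≤ 2 * √(Real.pi * t) *
      Real.exp (6 * Real.log T + 7 / 2 * ‖s‖ ^ 2 + 2 * |u.re| * ‖s‖ + 4 * t * |u.re| ^ 2) := by
  obtain ⟨gi, g⟩ := gauss_int ht (1 / 4) (by norm_num)
  set D := Real.exp (6 * Real.log T + 7 / 2 * ‖s‖ ^ 2 + 2 * |u.re| * ‖s‖ + 4 * t * |u.re| ^ 2) with hD
  have h1 : ‖GT t h s‖ ≤ ∫ x : ℝ, D * Real.exp (-(1 / 4 * x ^ 2 / t)) := by
    refine norm_integral_le_of_norm_le (gi.const_mul _) (Eventually.of_forall fun x => ?_)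
    rw [norm_mul, norm_gauss0]
    have h2 := hF.all hT (s + x)
    have hTexp : T ^ 6 = Real.exp (6 * Real.log T) := by
      rw [show (6 : ℝ) = ((6 : ℕ) : ℝ) by norm_num, Real.exp_nat_mul, Real.exp_log (by linarith)]
    rw [hTexp, ← Real.exp_add] at h2
    calc Real.exp (-x ^ 2 / t) * ‖h (s + x)‖ ≤ Real.exp (-x ^ 2 / t) *
        Real.exp (6 * Real.log T + (3 * ‖s + x‖ ^ 2 + 2 * |u.re| * ‖s + x‖)) := by gcongr
      _ = Real.exp (-x ^ 2 / t + (6 * Real.log T + (3 * ‖s + x‖ ^ 2 + 2 * |u.re| * ‖s + x‖))) :=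
          (Real.exp_add _ _).symm
      _ ≤ Real.exp ((6 * Real.log T + 7 / 2 * ‖s‖ ^ 2 + 2 * |u.re| * ‖s‖ + 4 * t * |u.re| ^ 2) +
          -(1 / 4 * x ^ 2 / t)) := by
          apply Real.exp_le_exp.2
          have h3 : ‖s + x‖ ≤ ‖s‖ + |x| := by
            refine (norm_add_le _ _).trans ?_
            rw [Complex.norm_real, Real.norm_eq_abs]
          have h4 : ‖s + x‖ ^ 2 ≤ (‖s‖ + |x|) ^ 2 := by gcongr
          have h5 : 3 * ‖s + x‖ ^ 2 ≤ 7 / 2 * ‖s‖ ^ 2 + 21 * x ^ 2 := by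
            have : |x| ^ 2 = x ^ 2 := sq_abs x
            nlinarith [sq_nonneg (‖s‖ - 6 * |x|)]
          have h6 : 2 * |u.re| * ‖s + x‖ ≤ 2 * |u.re| * ‖s‖ + 2 * |u.re| * |x| := by
            have := mul_le_mul_of_nonneg_left h3 (show 0 ≤ 2 * |u.re| by positivity)
            linarith
          have h7 : 2 * |u.re| * |x| ≤ x ^ 2 / (4 * t) + 4 * t * |u.re| ^ 2 := by
            rw [← sub_nonneg]
            have e : x ^ 2 / (4 * t) + 4 * t * |u.re| ^ 2 - 2 * |u.re| * |x| =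
                (|x| - 4 * t * |u.re|) ^ 2 / (4 * t) := by
              rw [← sq_abs x]; field_simp; ring
            rw [e]; positivity
          have h8 : 20 * x ^ 2 ≤ x ^ 2 / (4 * t) := by
            rw [le_div_iff₀ (by positivity)]
            nlinarith [sq_nonneg x]
          have e1 : -x ^ 2 / t = -(4 * (x ^ 2 / (4 * t))) := by field_simp
          have e2 : 1 / 4 * x ^ 2 / t = x ^ 2 / (4 * t) := by field_simp
          rw [e1, e2]
          have h9 : 0 ≤ x ^ 2 / (4 * t) := by positivity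
          have h10 := sq_nonneg x
          linarith
      _ = _ := by rw [Real.exp_add, hD]
  rw [integral_const_mul, g] at h1
  refine h1.trans (le_of_eq ?_)
  have e3 : √(Real.pi * t / (1 / 4)) = 2 * √(Real.pi * t) := by
    rw [show Real.pi * t / (1 / 4) = 2 ^ 2 * (Real.pi * t) by ring, Real.sqrt_mul (by positivity),
      Real.sqrt_sq (by norm_num)]
  rw [e3]; ring

lemma GT_diff_frame {T t : ℝ} (hT : 1 ≤ T) {B u : ℂ} {h : ℂ → ℂ} (hF : Frame T B u h) (ht : 0 < t)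
    (ht2 : t ≤ 1 / 40) : Differentiable ℂ (GT t h) := by
  have := hF.growth hT 0
  simp only [add_zero] at this
  exact GT_diff ht ht2 hF.hd this

lemma num_i1 {S κ A : ℝ} (hS : 0 < S) (hκ : 0 < κ) (hA : A = 10 + 6 * S ^ 2 + 2 * S + 4 * κ) :
    10 ≤ A := by
  rw [hA]
  have := sq_nonneg S
  linarith

lemma num_i2 {N S L : ℝ} (hN : N ^ 2 ≤ S ^ 2) (hL : 8 ≤ L) : 7 / 2 * N ^ 2 ≤ 6 * S ^ 2 * L := by
  have h1 : 6 * S ^ 2 * 1 ≤ 6 * S ^ 2 * L := by gcongr; linarith
  have := sq_nonneg S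
  linarith

lemma num_i3 {S κ A L : ℝ} (hL : 0 < L) (hA : A = 10 + 6 * S ^ 2 + 2 * S + 4 * κ) :
    L + (6 * L + 6 * S ^ 2 * L + 2 * S * L + 4 * κ * L) ≤ A * L := by
  have h : A * L = 10 * L + 6 * S ^ 2 * L + 2 * S * L + 4 * κ * L := by rw [hA]; ring
  rw [h]
  linarith

lemma num_i4 {A : ℝ} (hA : 6 ≤ A) : 4 * Real.exp (2 * 2) ≤ Real.exp A := by
  have d2 : Real.exp 6 ≤ Real.exp A := Real.exp_le_exp.2 hA
  have d3 : Real.exp 6 = Real.exp 2 * Real.exp (2 * 2) := by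
    rw [← Real.exp_add]; norm_num
  have d4 : (4 : ℝ) ≤ Real.exp 2 := by
    have d5 : Real.exp 2 = Real.exp 1 * Real.exp 1 := by rw [← Real.exp_add]; norm_num
    have h1 := Real.add_one_le_exp (1 : ℝ)
    have h2 : (1 + 1 : ℝ) * (1 + 1) ≤ Real.exp 1 * Real.exp 1 := by gcongr
    rw [d5]; linarith
  refine le_trans ?_ d2
  rw [d3]
  gcongr

lemma num_i5 {A : ℝ} (hA : 10 ≤ A) : Real.exp (-A) ≤ 1 / 8 * Real.exp (-2 * 2) := by
  have d3 : Real.exp (-A) ≤ Real.exp (-10) := Real.exp_le_exp.2 (by linarith)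
  have d4 : Real.exp (-10) = Real.exp (-6) * Real.exp (-2 * 2) := by
    rw [← Real.exp_add]; norm_num
  have d5 : Real.exp (-6) ≤ 1 / 8 := by
    rw [Real.exp_neg, inv_le_comm₀ (Real.exp_pos _) (by norm_num)]
    have d6 : Real.exp 6 = Real.exp 3 * Real.exp 3 := by rw [← Real.exp_add]; norm_num
    have h1 := Real.add_one_le_exp (3 : ℝ)
    have h2 : (3 + 1 : ℝ) * (3 + 1) ≤ Real.exp 3 * Real.exp 3 := by gcongr
    norm_num
    rw [d6]; linarith
  rw [d4] at d3
  refine d3.trans ?_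
  gcongr

lemma num_i6 {κ X : ℝ} (h6 : (25 + κ / 4) ^ 2 ≤ X) : 14 * κ + 400 ≤ X := by
  have h1 : (25 + κ / 4) ^ 2 = 14 * κ + 400 + ((κ / 4 - 3) ^ 2 + 216) := by ring
  have h2 := sq_nonneg (κ / 4 - 3)
  linarith

/-- logarithm of the Gaussian average -/
theorem Klog (κ a ε η Y1 : ℝ) (hκ : 0 < κ) (ha : 0 ≤ a) (ha1 : a ≤ 1 / 2) (hε : 0 < ε)
    (hε1 : ε ≤ 1 / 4) (hη : 0 < η) (hY1 : 0 ≤ Y1) (hA : FSide κ a) :
    ∃ T0 : ℝ, Real.exp 1 ≤ T0 ∧ ∀ T : ℝ, T0 ≤ T → ∀ (B u : ℂ) (h : ℂ → ℂ), Frame T B u h →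
    ∀ t : ℝ, t = κ / Real.log T → ∀ y1 : ℝ, |y1| ≤ Y1 →
    ∃ q : ℂ → ℂ, DifferentiableOn ℂ q (ball 0 (30 - a - ε)) ∧
      (∀ z ∈ ball (0 : ℂ) (30 - a - ε), exp (q z) =
        GT t h ((30 : ℝ) + y1 * I + t * u / 2 + z) / √(Real.pi * t)) ∧
      ∀ z : ℂ, ‖z‖ ≤ 30 - a - 2 * ε → ‖q z‖ ≤ η * Real.log T := by
  obtain ⟨ta, hta, hA1⟩ := hA ε hε
  obtain ⟨tb, htb, hA2⟩ := direct κ (1 / 2) (1 / 4) hκ (by norm_num) le_rfl (by norm_num)
    (ZSide_half κ hκ)
  obtain ⟨Tr, tr, hTr1, htr, htr', hr⟩ := right_gen (Y1 + 1) 1 (by linarith) one_pos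
  -- size constant
  set S : ℝ := 82 + κ + Y1 with hS
  have hS0 : 0 < S := by positivity
  set A : ℝ := 10 + 6 * S ^ 2 + 2 * S + 4 * κ with hAdef
  have hA10 : 10 ≤ A := num_i1 hS0 hκ hAdef
  have hA6 : 6 ≤ A := by linarith
  obtain ⟨L0, hL0⟩ := loc A 1 (30 - a - ε) ε η (by linarith) one_pos hε (by linarith) hη
  set t0 : ℝ := min (min ta tb) (min (min tr (1 / 400)) 1) with ht0
  have ht0pos : 0 < t0 := by positivity
  refine ⟨Real.exp (max (max L0 8) (κ / t0)) + Tr + 2 * (Y1 + 30), ?_, ?_⟩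
  · have h1 : Real.exp 1 ≤ Real.exp (max (max L0 8) (κ / t0)) := by
      apply Real.exp_le_exp.2
      exact (by norm_num : (1 : ℝ) ≤ 8).trans ((le_max_right _ _).trans (le_max_left _ _))
    linarith
  intro T hT B u h hF t htdef y1 hy1
  have hTe : Real.exp (max (max L0 8) (κ / t0)) ≤ T := by linarith
  have hTpos : 0 < T := (Real.exp_pos _).trans_le hTe
  have hLL : max (max L0 8) (κ / t0) ≤ Real.log T := by
    rw [Real.le_log_iff_exp_le hTpos]; exact hTe
  have hLa : L0 ≤ Real.log T := (le_max_left _ _).trans ((le_max_left _ _).trans hLL)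
  have hLb : 8 ≤ Real.log T := (le_max_right _ _).trans ((le_max_left _ _).trans hLL)
  have hLc : κ / t0 ≤ Real.log T := (le_max_right _ _).trans hLL
  have hT1 : 1 ≤ T := by
    have := Real.add_one_le_exp (max (max L0 8) (κ / t0))
    have h8 : (8 : ℝ) ≤ max (max L0 8) (κ / t0) := (le_max_right _ _).trans (le_max_left _ _)
    linarith
  have hTr : Tr ≤ T := by
    have := Real.exp_pos (max (max L0 8) (κ / t0)); linarith
  have hTY : 2 * (Y1 + 30) ≤ T := by
    have := Real.exp_pos (max (max L0 8) (κ / t0)); linarith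
  set L := Real.log T with hL
  have hLpos : 0 < L := by linarith
  have ht : 0 < t := by rw [htdef]; positivity
  have htt0 : t ≤ t0 := by
    rw [htdef, div_le_iff₀ hLpos]
    rw [div_le_iff₀ ht0pos] at hLc
    linarith
  have htL : t * L = κ := by rw [htdef]; field_simp
  have hta' : t ≤ ta := htt0.trans ((min_le_left _ _).trans (min_le_left _ _))
  have htb' : t ≤ tb := htt0.trans ((min_le_left _ _).trans (min_le_right _ _))
  have htr'' : t ≤ tr := htt0.trans ((min_le_right _ _).trans ((min_le_left _ _).trans (min_le_left _ _)))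
  have ht400 : t ≤ 1 / 400 := htt0.trans ((min_le_right _ _).trans ((min_le_left _ _).trans (min_le_right _ _)))
  have ht40 : t ≤ 1 / 40 := by linarith
  have hlam := abs_le.1 hF.lam
  have him := hF.him
  have hexp : Real.exp (κ / t) = T := by
    have : κ / t = L := by rw [← htL]; field_simp
    rw [this, hL, Real.exp_log hTpos]
  have hsq : 0 < √(Real.pi * t) := Real.sqrt_pos.2 (by positivity)
  -- rewriting points
  have hpt : ∀ z : ℂ, (((30 : ℝ) : ℂ) + y1 * I + t * u / 2 + z) = ((30 : ℝ) + y1 * I + z) + t * u / 2 := by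
    intro z; ring
  suffices hex : ∃ q : ℂ → ℂ, DifferentiableOn ℂ q (ball 0 (30 - a - ε)) ∧
      (∀ z ∈ ball (0 : ℂ) (30 - a - ε), exp (q z) =
        GT t h ((30 : ℝ) + y1 * I + t * u / 2 + z) / √(Real.pi * t)) ∧
      ∀ z : ℂ, ‖z‖ ≤ 30 - a - ε - ε → ‖q z‖ ≤ η * L by
    obtain ⟨q, hq1, hq2, hq3⟩ := hex
    exact ⟨q, hq1, hq2, fun z hz => hq3 z (by linarith)⟩
  refine hL0 L hLa (fun z => GT t h ((30 : ℝ) + y1 * I + t * u / 2 + z) / √(Real.pi * t)) ?_ ?_ ?_ ?_
  · intro z _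
    have h1 : DifferentiableAt ℂ (fun z => GT t h (((30 : ℝ) : ℂ) + y1 * I + t * u / 2 + z)) z :=
      ((GT_diff_frame hT1 hF ht ht40) _).comp z (by fun_prop)
    exact (h1.div_const _).differentiableWithinAt
  · intro z hz
    rw [mem_ball_zero_iff] at hz
    have hzre := abs_le.1 ((Complex.abs_re_le_norm z).trans hz.le)
    have hzim := abs_le.1 ((Complex.abs_im_le_norm z).trans hz.le)
    have hy1' := abs_le.1 hy1
    refine div_ne_zero ?_ (by exact_mod_cast hsq.ne')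
    rw [hpt z, ← GT_fx_ne hT1 hF ht ht40]
    have e1 : (T * I + ((30 : ℝ) + y1 * I + z) : ℂ) = ((T + y1 + z.im : ℝ) : ℂ) * I +
        ((30 + z.re : ℝ) : ℂ) := by
      conv_lhs => rw [← re_add_im z]
      push_cast; ring
    rw [e1]
    have hexp2 : Real.exp (κ / t) ≤ 2 * (T + y1 + z.im) := by rw [hexp]; linarith
    rcases le_total (30 + z.re) 1 with h1 | h1
    · exact hA1 t ht hta' (30 + z.re) (T + y1 + z.im) (by linarith [hz]) h1 hexp2
    · exact hA2 t ht htb' (30 + z.re) (T + y1 + z.im) (by linarith) (by linarith) hexp2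
  · intro z hz
    rw [mem_ball_zero_iff] at hz
    rw [norm_div, Complex.norm_real, Real.norm_of_nonneg hsq.le, div_le_iff₀ hsq]
    refine (K_bound hT1 hF ht (by linarith) _).trans ?_
    have hlamL : |u.re| ≤ L := by rw [abs_le]; constructor <;> linarith
    have hun : ‖u‖ ≤ L := by
      have h1 := norm_sub_norm_le u (Real.log T / 2 : ℝ)
      rw [Complex.norm_real, Real.norm_of_nonneg (by positivity)] at h1
      have := hF.hu
      linarith
    have hsn : ‖(((30 : ℝ) : ℂ) + y1 * I + t * u / 2 + z)‖ ≤ S := by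
      have b1 : ‖(t * u / 2 : ℂ)‖ ≤ κ / 2 := by
        rw [show (t * u / 2 : ℂ) = ((t / 2 : ℝ) : ℂ) * u by push_cast; ring, norm_mul,
          Complex.norm_real, Real.norm_of_nonneg (by positivity)]
        calc t / 2 * ‖u‖ ≤ t / 2 * L := by gcongr
          _ = κ / 2 := by rw [← htL]; ring
      have b2 : ‖(((30 : ℝ) : ℂ) + y1 * I)‖ ≤ 30 + Y1 := by
        refine (norm_add_le _ _).trans ?_
        rw [norm_mul, Complex.norm_I, mul_one, Complex.norm_real, Complex.norm_real,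
          Real.norm_of_nonneg (by norm_num), Real.norm_eq_abs]
        linarith
      have b3 := norm_add_le (((30 : ℝ) : ℂ) + y1 * I + t * u / 2) z
      have b4 := norm_add_le (((30 : ℝ) : ℂ) + y1 * I) (t * u / 2 : ℂ)
      linarith
    set N := ‖(((30 : ℝ) : ℂ) + y1 * I + t * u / 2 + z)‖ with hN
    have hN0 : 0 ≤ N := norm_nonneg _
    have c1 : 7 / 2 * N ^ 2 ≤ 6 * S ^ 2 * L := by
      have : N ^ 2 ≤ S ^ 2 := by gcongr
      exact num_i2 this hLb
    have c2 : 2 * |u.re| * N ≤ 2 * S * L := by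
      calc 2 * |u.re| * N ≤ 2 * L * S := by gcongr
        _ = _ := by ring
    have c3 : 4 * t * |u.re| ^ 2 ≤ 4 * κ * L := by
      calc 4 * t * |u.re| ^ 2 ≤ 4 * t * L ^ 2 := by gcongr
        _ = 4 * (t * L) * L := by ring
        _ = _ := by rw [htL]
    have c4 : (2 : ℝ) ≤ Real.exp L := by
      have := Real.add_one_le_exp L; linarith
    calc 2 * √(Real.pi * t) * Real.exp (6 * L + 7 / 2 * N ^ 2 + 2 * |u.re| * N + 4 * t * |u.re| ^ 2) ≤
        Real.exp L * √(Real.pi * t) * Real.exp (6 * L + 6 * S ^ 2 * L + 2 * S * L + 4 * κ * L) := by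
          gcongr
      _ = Real.exp (L + (6 * L + 6 * S ^ 2 * L + 2 * S * L + 4 * κ * L)) * √(Real.pi * t) := by
          rw [Real.exp_add L]; ring
      _ ≤ Real.exp (A * L) * √(Real.pi * t) := by
          gcongr
          exact num_i3 hLpos hAdef
  · intro z hz
    rw [mem_ball_zero_iff] at hz
    have hzre := abs_le.1 ((Complex.abs_re_le_norm z).trans hz.le)
    have hzim := abs_le.1 ((Complex.abs_im_le_norm z).trans hz.le)
    have hy1' := abs_le.1 hy1
    have e2 : (((30 : ℝ) : ℂ) + y1 * I + t * u / 2 + z) =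
        ((30 + z.re : ℝ) : ℂ) + ((y1 + z.im : ℝ) : ℂ) * I + t * u / 2 := by
      conv_lhs => rw [← re_add_im z]
      push_cast; ring
    have hlow : κ / 4 - 2 * t ≤ t * u.re / 2 := by
      have : t * (L / 2 - 4) ≤ t * u.re := by gcongr; linarith [hlam.1]
      have : t * (L / 2) = κ / 2 := by rw [← htL]; ring
      linarith
    have key := hr T hTr B u h hF t ht htr'' (30 + z.re) (y1 + z.im) (by linarith) (by linarith)
      (by rw [abs_le]; constructor <;> linarith) (by linarith) ?_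
    · rw [norm_div, Complex.norm_real, Real.norm_of_nonneg hsq.le, e2]
      obtain ⟨k1, k2⟩ := key
      constructor
      · rw [le_div_iff₀ hsq]
        refine le_trans ?_ k1
        have d1 : Real.exp (-A) ≤ 1 / 8 * Real.exp (-2 * 2) := num_i5 hA10
        calc Real.exp (-A) * √(Real.pi * t) ≤ (1 / 8 * Real.exp (-2 * 2)) * √(Real.pi * t) := by
              gcongr
          _ = _ := by ring
      · rw [div_le_iff₀ hsq]
        refine k2.trans ?_
        have d1 : 4 * Real.exp (2 * 2) ≤ Real.exp A := num_i4 hA6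
        calc 4 * √(Real.pi * t) * Real.exp (2 * 2) = (4 * Real.exp (2 * 2)) * √(Real.pi * t) := by ring
          _ ≤ _ := by gcongr
    · rw [le_div_iff₀ (by positivity)]
      have e3 : (7 * Real.log T + 200 / t) * (2 * t) = 14 * κ + 400 := by
        rw [← htL]; field_simp; ring
      rw [e3]
      have h5 : 25 + κ / 4 ≤ 30 + z.re + t * u.re / 2 - 3 := by linarith
      have h6 : (25 + κ / 4) ^ 2 ≤ (30 + z.re + t * u.re / 2 - 3) ^ 2 := by gcongr
      exact num_i6 h6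

end Pool.Agent.Helper87.HF
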