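import Pool.Agent.Helper87.HF.Inv1

set_option autoImplicit false

open Complex Set Filter Topology Metric MeasureTheory

namespace Pool.Agent.Helper87.HF

lemma num_j0 {t y i Y0 : ℝ} (ht : 0 < t) (ht1 : t ≤ 1) (hy : |y| ≤ Y0) (hi : |i| ≤ 2) :
    |y - t * i / 2| ≤ Y0 + 1 := by
  have h1 := num_g0 ht hi ht1
  have h2 := abs_sub y (t * i / 2)
  linarith

lemma num_j1 {κ y L : ℝ} (hL : 96 * κ ≤ L) : 12 * y ^ 2 * (8 * κ) ≤ y ^ 2 * L := by
  have h1 : y ^ 2 * (96 * κ) ≤ y ^ 2 * L := by gcongr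
  linarith

lemma num_j2 {κ y W L : ℝ} (hy : 1 + 4 * κ * W ≤ y) (hW : 0 ≤ 4 * κ * W) (hL : 0 < L) :
    W * L * (4 * κ) ≤ y ^ 2 * L := by
  have h1 : y * 1 ≤ y * y := mul_le_mul_of_nonneg_left (by linarith) (by linarith)
  have h2 : (4 * κ * W) * L ≤ y ^ 2 * L := by
    gcongr
    linarith
  linarith

lemma num_j4 {S L : ℝ} (hL : 1 ≤ L) : 12 * S ^ 2 ≤ 12 * S ^ 2 * L := by
  have h1 : 12 * S ^ 2 * 1 ≤ 12 * S ^ 2 * L := by gcongr
  linarith

lemma num_j5 {κ S L y W P e : ℝ} (hW : W = 7 + 12 * S ^ 2 + 2 * S + 12 * κ)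
    (d1 : 12 * y ^ 2 ≤ P) (d2 : 2 * L * y ≤ P + 8 * κ * L) (d3 : W * L ≤ 2 * P)
    (d4 : 12 * S ^ 2 ≤ 12 * S ^ 2 * L) (he : 0 < e) :
    L + (6 * L + 7 / 2 * (S ^ 2 + y ^ 2) + 2 * L * (S + y) + 4 * κ * L) ≤ e + 4 * P := by
  have hS2 := sq_nonneg S
  have hy22 := sq_nonneg y
  have h1 : W * L = 7 * L + 12 * S ^ 2 * L + 2 * (S * L) + 12 * (κ * L) := by rw [hW]; ring
  have h2 : L + (6 * L + 7 / 2 * (S ^ 2 + y ^ 2) + 2 * L * (S + y) + 4 * κ * L) =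
    7 * L + 7 / 2 * S ^ 2 + 7 / 2 * y ^ 2 + 2 * (S * L) + 2 * L * y + 4 * (κ * L) := by ring
  rw [h1] at d3
  rw [h2]
  linarith

/-- combined bound for the Gaussian average on the critical scale -/
theorem KB (κ a ε η : ℝ) (hκ : 0 < κ) (ha : 0 ≤ a) (ha1 : a ≤ 1 / 2) (hε : 0 < ε)
    (hε1 : ε ≤ 1 / 4) (hη : 0 < η) (hA : FSide κ a) :
    ∃ T0 : ℝ, Real.exp 1 ≤ T0 ∧ ∀ T : ℝ, T0 ≤ T → ∀ (B u : ℂ) (h : ℂ → ℂ), Frame T B u h →
    ∀ t : ℝ, t = κ / Real.log T → t ≤ 1 / 400 ∧ ∀ s : ℂ, a + 2 * ε ≤ s.re - t * u.re / 2 →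
    s.re - t * u.re / 2 ≤ 30 →
    ‖GT t h s‖ ≤ √(Real.pi * t) * Real.exp (η * Real.log T + s.im ^ 2 / (2 * t)) := by
  set S : ℝ := 31 + κ with hS
  set W : ℝ := 7 + 12 * S ^ 2 + 2 * S + 12 * κ with hW
  have hW0 : 0 < W := by positivity
  set Y0 : ℝ := 1 + 4 * κ * W with hY0
  have hY01 : 1 ≤ Y0 := by rw [hY0]; have : 0 < 4 * κ * W := by positivity
                           linarith
  obtain ⟨T1, hT1e, hq⟩ := Klog κ a ε η (Y0 + 1) hκ ha ha1 hε hε1 hη (by linarith) hA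
  refine ⟨T1 + Real.exp (96 * κ + 400 * κ + 8), by have := Real.exp_pos (96 * κ + 400 * κ + 8); linarith, ?_⟩
  intro T hT B u h hF t htdef
  have hTa : T1 ≤ T := by have := Real.exp_pos (96 * κ + 400 * κ + 8); linarith
  have hT1pos : 0 < T1 := (Real.exp_pos 1).trans_le hT1e
  have hTb : Real.exp (96 * κ + 400 * κ + 8) ≤ T := by linarith
  have hTpos : 0 < T := by linarith
  have hLb : 96 * κ + 400 * κ + 8 ≤ Real.log T := by
    rw [Real.le_log_iff_exp_le hTpos]; exact hTb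
  have hT1 : 1 ≤ T := by
    have := Real.add_one_le_exp (1 : ℝ); linarith
  set L := Real.log T with hL
  have hLpos : 0 < L := by linarith
  have ht : 0 < t := by rw [htdef]; positivity
  have htL : t * L = κ := by rw [htdef]; field_simp
  have ht400 : t ≤ 1 / 400 := by
    rw [htdef, div_le_iff₀ hLpos]; linarith
  refine ⟨ht400, ?_⟩
  intro s hs1 hs2
  have hlam := abs_le.1 hF.lam
  have him := abs_le.1 hF.him
  have hsq : 0 < √(Real.pi * t) := Real.sqrt_pos.2 (by positivity)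
  rcases le_total |s.im| Y0 with hy | hy
  · have hy' := abs_le.1 hy
    have hy1 : |s.im - t * u.im / 2| ≤ Y0 + 1 := by
      exact num_j0 ht (by linarith) hy hF.him
    obtain ⟨q, hq1, hq2, hq3⟩ := hq T hTa B u h hF t htdef _ hy1
    have e1 : (((30 : ℝ) : ℂ) + ((s.im - t * u.im / 2 : ℝ) : ℂ) * I + t * u / 2 +
        ((s.re - t * u.re / 2 - 30 : ℝ) : ℂ)) = s := by
      apply Complex.ext
      · simp; ring
      · simp
    have hn : ‖((s.re - t * u.re / 2 - 30 : ℝ) : ℂ)‖ ≤ 30 - a - 2 * ε := by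
      rw [Complex.norm_real, Real.norm_eq_abs, abs_of_nonpos (by linarith)]
      linarith
    have h1 := hq2 _ (by rw [mem_ball_zero_iff]; linarith)
    have h2 := hq3 _ hn
    rw [e1] at h1
    have h3 : GT t h s = exp (q ((s.re - t * u.re / 2 - 30 : ℝ) : ℂ)) * √(Real.pi * t) := by
      rw [h1, div_mul_cancel₀]
      exact_mod_cast hsq.ne'
    rw [h3, norm_mul, Complex.norm_exp, Complex.norm_real, Real.norm_of_nonneg hsq.le, mul_comm]
    refine mul_le_mul_of_nonneg_left (Real.exp_le_exp.2 ?_) hsq.le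
    have h4 := (Complex.re_le_norm _).trans h2
    have : 0 ≤ s.im ^ 2 / (2 * t) := by positivity
    linarith
  · refine (K_bound hT1 hF ht (by linarith) s).trans ?_
    have hlamL : |u.re| ≤ L := by rw [abs_le]; constructor <;> linarith
    have htu : t * |u.re| ≤ κ := by
      calc t * |u.re| ≤ t * L := by gcongr
        _ = κ := htL
    have hsre : |s.re| ≤ S := by
      have h1 : t * u.re ≤ κ := (mul_le_mul_of_nonneg_left (le_abs_self _) ht.le).trans htu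
      have h2 : -κ ≤ t * u.re := by
        have := mul_le_mul_of_nonneg_left (neg_abs_le u.re) ht.le
        linarith
      rw [abs_le]; constructor <;> linarith
    set y := |s.im| with hyd
    have hy2 : s.im ^ 2 = y ^ 2 := by rw [hyd, sq_abs]
    have hy0 : 0 ≤ y := abs_nonneg _
    have hsn : ‖s‖ ≤ S + y := (Complex.norm_le_abs_re_add_abs_im s).trans (by linarith)
    have hsn2 : ‖s‖ ^ 2 = s.re ^ 2 + s.im ^ 2 := by
      rw [← Complex.normSq_eq_norm_sq, Complex.normSq_apply]; ring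
    have hsre2 : s.re ^ 2 ≤ S ^ 2 := by rw [← sq_abs]; gcongr
    have c2 : 2 * |u.re| * ‖s‖ ≤ 2 * L * (S + y) := by gcongr
    have c3 : 4 * t * |u.re| ^ 2 ≤ 4 * κ * L := by
      calc 4 * t * |u.re| ^ 2 ≤ 4 * t * L ^ 2 := by gcongr
        _ = 4 * (t * L) * L := by ring
        _ = _ := by rw [htL]
    have c4 : (2 : ℝ) ≤ Real.exp L := by
      have := Real.add_one_le_exp L; linarith
    have hyt : y ^ 2 / (2 * t) = y ^ 2 * L / (2 * κ) := by
      rw [← htL]; field_simp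
    rw [hy2, hyt]
    set P := y ^ 2 * L / (8 * κ) with hP
    have hP0 : 0 ≤ P := by positivity
    have hP4 : y ^ 2 * L / (2 * κ) = 4 * P := by rw [hP]; field_simp; ring
    have d1 : 12 * y ^ 2 ≤ P := by
      rw [hP, le_div_iff₀ (by positivity)]
      exact num_j1 (by linarith)
    have d2 : 2 * L * y ≤ P + 8 * κ * L := by
      rw [← sub_nonneg]
      have e : P + 8 * κ * L - 2 * L * y = L * (y - 8 * κ) ^ 2 / (8 * κ) := by
        rw [hP]; field_simp; ring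
      rw [e]; positivity
    have d3 : W * L ≤ 2 * P := by
      rw [hP]
      have e : 2 * (y ^ 2 * L / (8 * κ)) = y ^ 2 * L / (4 * κ) := by field_simp; ring
      rw [e, le_div_iff₀ (by positivity)]
      exact num_j2 hy (by positivity) hLpos
    have d4 : 12 * S ^ 2 ≤ 12 * S ^ 2 * L := num_j4 (by linarith)
    rw [hP4]
    calc 2 * √(Real.pi * t) * Real.exp (6 * L + 7 / 2 * ‖s‖ ^ 2 + 2 * |u.re| * ‖s‖ + 4 * t * |u.re| ^ 2) ≤
        Real.exp L * √(Real.pi * t) * Real.exp (6 * L + 7 / 2 * (S ^ 2 + y ^ 2) + 2 * L * (S + y) + 4 * κ * L) := by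
          gcongr
          rw [hsn2, hy2]
          linarith
      _ = √(Real.pi * t) * Real.exp (L + (6 * L + 7 / 2 * (S ^ 2 + y ^ 2) + 2 * L * (S + y) + 4 * κ * L)) := by
          rw [Real.exp_add L]; ring
      _ ≤ _ := by
          refine mul_le_mul_of_nonneg_left (Real.exp_le_exp.2 ?_) hsq.le
          exact num_j5 hW d1 d2 d3 d4 (by positivity)

lemma rot_growth {T t : ℝ} (hT : 1 ≤ T) {B u : ℂ} {h : ℂ → ℂ} (hF : Frame T B u h) (ht : 0 < t)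
    (ht2 : t ≤ 1 / 80) (σ : ℝ) : ∃ C : ℝ, ∀ z : ℂ, ‖GT t h (σ + z * I)‖ ≤ C * Real.exp (4 * ‖z‖ ^ 2) := by
  set W := |u.re| with hW
  have hW0 : 0 ≤ W := abs_nonneg _
  refine ⟨2 * √(Real.pi * t) * Real.exp (6 * Real.log T + 4 * t * W ^ 2 + 28 * 2 * σ ^ 2 + 2 * W * |σ| +
    8 * W ^ 2), fun z => ?_⟩
  refine (K_bound hT hF ht ht2 _).trans ?_
  rw [mul_assoc (2 * √(Real.pi * t)), ← Real.exp_add]
  refine mul_le_mul_of_nonneg_left (Real.exp_le_exp.2 ?_) (by positivity)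
  have h1 : ‖(σ + z * I : ℂ)‖ ≤ |σ| + ‖z‖ := by
    refine (norm_add_le _ _).trans ?_
    rw [norm_mul, Complex.norm_I, mul_one, Complex.norm_real, Real.norm_eq_abs]
  have h2 : ‖(σ + z * I : ℂ)‖ ^ 2 ≤ (|σ| + ‖z‖) ^ 2 := by gcongr
  have h3 : 7 / 2 * (|σ| + ‖z‖) ^ 2 ≤ 15 / 4 * ‖z‖ ^ 2 + 56 * σ ^ 2 := by
    have : |σ| ^ 2 = σ ^ 2 := sq_abs σ
    nlinarith [sq_nonneg (‖z‖ - 14 * |σ|)]
  have h4 : 2 * W * ‖(σ + z * I : ℂ)‖ ≤ 2 * W * |σ| + 2 * W * ‖z‖ := by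
    have := mul_le_mul_of_nonneg_left h1 (show 0 ≤ 2 * W by positivity)
    linarith
  have h5 : 2 * W * ‖z‖ ≤ ‖z‖ ^ 2 / 4 + 8 * W ^ 2 := by
    nlinarith [sq_nonneg (‖z‖ - 4 * W), sq_nonneg W]
  linarith

lemma rot_diff {T t : ℝ} (hT : 1 ≤ T) {B u : ℂ} {h : ℂ → ℂ} (hF : Frame T B u h) (ht : 0 < t)
    (ht2 : t ≤ 1 / 40) (σ : ℝ) : Differentiable ℂ (fun z : ℂ => GT t h (σ + z * I)) :=
  (GT_diff_frame hT hF ht ht2).comp (by fun_prop)

end Pool.Agent.Helper87.HF
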