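import Pool.Agent.Helper87.HF.Inv2

set_option autoImplicit false

open Complex Set Filter Topology Metric MeasureTheory

namespace Pool.Agent.Helper87.HF

lemma num_k0 (x : ℝ) : -(16 * x ^ 2) ≤ -x ^ 2 := by
  have := sq_nonneg x
  linarith

lemma num_k1 {κ v ε ε' x : ℝ} (hκ : 0 < κ) (hv0 : 0 ≤ v) (hε0 : 0 < ε)
    (hε2 : ε ≤ κ / 16) (hε3 : ε ≤ ε' / 16) (h7 : x ≤ (κ / 4 - v + 4 * ε) ^ 2) :
    x ≤ (κ / 4 - v) ^ 2 + ε' / 4 * κ := by
  have h1 : (κ / 4 - v + 4 * ε) ^ 2 = (κ / 4 - v) ^ 2 + 8 * (ε * (κ / 4 - v)) + 16 * (ε * ε) := by ring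
  have h2 : ε * (κ / 4 - v) ≤ ε * (κ / 4) := by gcongr; linarith
  have h3 : ε * ε ≤ ε * (κ / 16) := by gcongr
  have h4 : ε * κ ≤ ε' / 16 * κ := by gcongr
  have h5 : 0 < ε * κ := by positivity
  linarith

lemma num_k2 {a b c : ℝ} (h8 : 4 ≤ a) (h9 : b ≤ c) (hb : 0 ≤ b) : 2 * (2 * b) ≤ a * c := by
  have h : 4 * b ≤ a * c := mul_le_mul h8 h9 hb (by linarith)
  linarith

lemma num_k3 {x t : ℝ} (h : 4 * t ≤ x) (hx : 0 < x) : x * (4 * t) ≤ x ^ 2 := by
  have := mul_le_mul_of_nonneg_left h hx.le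
  linarith

lemma num_k4 {x l ε : ℝ} (h7 : (ε / 5) ^ 2 ≤ x) (h : l ≤ ε ^ 2 / 400) :
    4 * l + 16 * (ε ^ 2 / 800) ≤ x := by
  have h2 : (ε / 5) ^ 2 = ε ^ 2 / 25 := by ring
  have := sq_nonneg ε
  linarith

/-- Converse part, growth: zero-free regions of the Gaussian averages bound zeta. -/
theorem inverse_M (κ a ε' : ℝ) (hκ : 0 < κ) (ha : 0 ≤ a) (ha1 : a ≤ 1 / 2) (hε' : 0 < ε')
    (hA : FSide κ a) : ∃ T0 : ℝ, ∀ T v : ℝ, T0 ≤ T → 0 ≤ v → v ≤ κ / 4 →
    ‖riemannZeta (1 / 2 + T * I + ((a + v : ℝ) : ℂ))‖ ≤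
      Real.exp (((κ / 4 - v) ^ 2 / κ + ε') * Real.log T) := by
  set ε : ℝ := min (1 / 4) (min (κ / 16) (ε' / 16)) with hε
  have hε0 : 0 < ε := by positivity
  have hε14 : ε ≤ 1 / 4 := min_le_left _ _
  have hε2 : ε ≤ κ / 16 := (min_le_right _ _).trans (min_le_left _ _)
  have hε3 : ε ≤ ε' / 16 := (min_le_right _ _).trans (min_le_right _ _)
  obtain ⟨T1, hT1e, hKB⟩ := KB κ a ε (ε' / 4) hκ ha ha1 hε0 hε14 (by linarith) hA
  obtain ⟨Tf, hTf1, hTf⟩ := exists_frame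
  refine ⟨max (max T1 Tf) (max (Real.exp (8 / ε' + 4 * κ / ε)) ((1 / 2 + κ) ^ 3)), ?_⟩
  intro T v hT hv0 hv1
  have hTa : T1 ≤ T := (le_max_left _ _).trans ((le_max_left _ _).trans hT)
  have hTb : Tf ≤ T := (le_max_right _ _).trans ((le_max_left _ _).trans hT)
  have hTc : Real.exp (8 / ε' + 4 * κ / ε) ≤ T := (le_max_left _ _).trans ((le_max_right _ _).trans hT)
  have hTd : (1 / 2 + κ) ^ 3 ≤ T := (le_max_right _ _).trans ((le_max_right _ _).trans hT)
  have hT1 : 1 ≤ T := hTf1.trans hTb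
  have hTpos : 0 < T := by linarith
  have hL8 : 8 / ε' + 4 * κ / ε ≤ Real.log T := by
    rw [Real.le_log_iff_exp_le hTpos]; exact hTc
  obtain ⟨B, u, h, hF⟩ := hTf T hTb
  set L := Real.log T with hL
  have hLpos : 0 < L := by
    have : 0 < 8 / ε' + 4 * κ / ε := by positivity
    linarith
  set t : ℝ := κ / L with htdef
  obtain ⟨ht400, hK⟩ := hKB T hTa B u h hF t rfl
  have ht : 0 < t := by positivity
  have htL : t * L = κ := by rw [htdef]; field_simp
  have hlam := abs_le.1 hF.lam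
  have ht2ε : 4 * t ≤ ε := by
    have h1 : 4 * κ / ε ≤ L := by
      have : 0 < 8 / ε' := by positivity
      linarith
    rw [div_le_iff₀ hε0] at h1
    rw [htdef, ← mul_div_assoc, div_le_iff₀ hLpos]
    linarith
  have hε'L : 8 ≤ ε' * L := by
    have h1 : 8 / ε' ≤ L := by
      have : 0 < 4 * κ / ε := by positivity
      linarith
    rw [div_le_iff₀ hε'] at h1
    linarith
  have hb1 : κ / 4 - 2 * t ≤ t * u.re / 2 := by
    have h1 : t * (L / 2 - 4) ≤ t * u.re := by gcongr; linarith [hlam.1]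
    have h2 : t * (L / 2) = κ / 2 := by rw [← htL]; ring
    linarith
  have hb2 : t * u.re / 2 ≤ κ / 4 + 2 * t := by
    have h1 : t * u.re ≤ t * (L / 2 + 4) := by gcongr; linarith [hlam.2]
    have h2 : t * (L / 2) = κ / 2 := by rw [← htL]; ring
    linarith
  set b0 := t * u.re / 2 with hb0
  set s : ℝ := a + v with hs
  set x0 : ℝ := b0 + a + 3 * ε - s with hx0
  have hx0a : κ / 4 - v + ε ≤ x0 := by rw [hx0, hs]; linarith
  have hx0b : x0 ≤ κ / 4 - v + 4 * ε := by rw [hx0, hs]; linarith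
  have hsq : 0 < √(Real.pi * t) := Real.sqrt_pos.2 (by positivity)
  -- inverse formula
  have hgr : ∀ z : ℂ, ‖h z‖ ≤ (T ^ 6 * Real.exp (2 * |u.re| ^ 2 + 28 * ‖(0 : ℂ)‖ ^ 2)) *
      Real.exp (4 * ‖z‖ ^ 2) := by
    have := hF.growth hT1 0
    simpa only [add_zero] using this
  have hinv := GT_inv ht (by linarith) hF.hd hgr (s : ℂ)
  obtain ⟨C, hC⟩ := rot_growth hT1 hF ht (by linarith) s
  have hrd := rot_diff hT1 hF ht (by linarith) s
  set g : ℂ → ℂ := fun z => GT t h (s + z * I) with hg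
  set k : ℂ → ℂ := fun z => exp (-(z - 0) ^ 2 / t) * g z with hk
  have hkd : Differentiable ℂ k := by
    rw [hk]; fun_prop
  have hC0 : 0 ≤ C := by
    have := (norm_nonneg _).trans (hC 0)
    exact nonneg_of_mul_nonneg_left this (Real.exp_pos _)
  have hshift := shift_line hkd (y0 := -x0)
    (C := C * Real.exp ((0 : ℂ).re ^ 2 / t + (|(-x0)| + |(0 : ℂ).im|) ^ 2 / t + 4 * |(-x0)| ^ 2))
    (fun x y hy => by
      refine (gauss_growth ht (by linarith) hC 0 x y |(-x0)| hy).trans ?_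
      refine mul_le_mul_of_nonneg_left (Real.exp_le_exp.2 ?_) (by positivity)
      exact num_k0 x)
  have hki : ∫ y : ℝ, k y = Real.pi * t * h s := by
    rw [← hinv]
    refine integral_congr_ae (Eventually.of_forall fun y => ?_)
    simp only [hk, hg, sub_zero]
  rw [hki] at hshift
  -- bound of the shifted integral
  obtain ⟨gi, gv⟩ := gauss_int ht (1 / 2) (by norm_num)
  have hbd : ‖∫ y : ℝ, k (y + (-x0 : ℝ) * I)‖ ≤
      ∫ y : ℝ, (Real.exp (x0 ^ 2 / t + ε' / 4 * L) * √(Real.pi * t)) * Real.exp (-(1 / 2 * y ^ 2 / t)) := by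
    refine norm_integral_le_of_norm_le (gi.const_mul _) (Eventually.of_forall fun y => ?_)
    simp only [hk]
    rw [norm_mul, norm_gauss]
    have e1 : ((y : ℂ) + (-x0 : ℝ) * I).re = y := by simp
    have e2 : ((y : ℂ) + (-x0 : ℝ) * I).im = -x0 := by simp
    rw [e1, e2, Complex.zero_re, Complex.zero_im, sub_zero, sub_zero]
    have e3 : (s : ℂ) + ((y : ℂ) + (-x0 : ℝ) * I) * I = ((s + x0 : ℝ) : ℂ) + y * I := by
      push_cast
      linear_combination (-(x0 : ℂ)) * I_mul_I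
    have h1 := hK (((s + x0 : ℝ) : ℂ) + y * I) (by simp; rw [hx0]; linarith)
      (by simp; rw [hx0]; linarith)
    have e4 : (((s + x0 : ℝ) : ℂ) + y * I).im = y := by simp
    rw [e4] at h1
    simp only [hg]
    rw [e3]
    calc Real.exp (-(y ^ 2 - (-x0) ^ 2) / t) * ‖GT t h (((s + x0 : ℝ) : ℂ) + y * I)‖ ≤
        Real.exp (-(y ^ 2 - (-x0) ^ 2) / t) * (√(Real.pi * t) *
          Real.exp (ε' / 4 * L + y ^ 2 / (2 * t))) := by gcongr
      _ = √(Real.pi * t) * (Real.exp (-(y ^ 2 - (-x0) ^ 2) / t) *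
          Real.exp (ε' / 4 * L + y ^ 2 / (2 * t))) := by ring
      _ = √(Real.pi * t) * (Real.exp (x0 ^ 2 / t + ε' / 4 * L) * Real.exp (-(1 / 2 * y ^ 2 / t))) := by
          rw [← Real.exp_add, ← Real.exp_add]
          congr 2
          field_simp
          ring
      _ = _ := by ring
  rw [integral_const_mul, gv] at hbd
  have e5 : √(Real.pi * t / (1 / 2)) ≤ 2 * √(Real.pi * t) := by
    rw [Real.sqrt_le_left (by positivity), mul_pow, Real.sq_sqrt (by positivity)]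
    have : 0 < Real.pi * t := by positivity
    rw [div_le_iff₀ (by norm_num)]
    linarith
  have hnorm : Real.pi * t * ‖h s‖ ≤ 2 * (Real.pi * t) * Real.exp (x0 ^ 2 / t + ε' / 4 * L) := by
    have e6 : ‖(Real.pi * t * h s : ℂ)‖ = Real.pi * t * ‖h s‖ := by
      rw [norm_mul, norm_mul, Complex.norm_real, Complex.norm_real,
        Real.norm_of_nonneg Real.pi_pos.le, Real.norm_of_nonneg ht.le]
    rw [← e6, hshift]
    refine hbd.trans ?_
    calc Real.exp (x0 ^ 2 / t + ε' / 4 * L) * √(Real.pi * t) * √(Real.pi * t / (1 / 2)) ≤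
        Real.exp (x0 ^ 2 / t + ε' / 4 * L) * √(Real.pi * t) * (2 * √(Real.pi * t)) := by gcongr
      _ = 2 * (√(Real.pi * t) * √(Real.pi * t)) * Real.exp (x0 ^ 2 / t + ε' / 4 * L) := by ring
      _ = _ := by rw [Real.mul_self_sqrt (by positivity)]
  have hhs : ‖h s‖ ≤ 2 * Real.exp (x0 ^ 2 / t + ε' / 4 * L) := by
    have hpt : 0 < Real.pi * t := by positivity
    have : Real.pi * t * ‖h s‖ ≤ Real.pi * t * (2 * Real.exp (x0 ^ 2 / t + ε' / 4 * L)) := by linarith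
    exact le_of_mul_le_mul_left this hpt
  have hs0 : 0 ≤ s := by positivity
  have h4 := hF.h1 s (by rw [Complex.ofReal_re]; exact hs0) (by
    rw [Complex.norm_real, Real.norm_of_nonneg hs0]
    refine le_trans ?_ hTd
    have : s ≤ 1 / 2 + κ := by rw [hs]; linarith
    gcongr)
  set Z := riemannZeta (1 / 2 + T * I + s)
  have h5 : ‖Z‖ ≤ 2 * ‖h s‖ := by
    have := norm_sub_norm_le Z (h s)
    rw [norm_sub_rev] at this
    linarith [norm_nonneg Z]
  have h6 : x0 ^ 2 / t ≤ ((κ / 4 - v) ^ 2 / κ + ε' / 4) * L := by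
    have e7 : x0 ^ 2 / t = x0 ^ 2 / κ * L := by rw [← htL]; field_simp
    rw [e7]
    refine mul_le_mul_of_nonneg_right ?_ hLpos.le
    rw [div_le_iff₀ hκ, add_mul, div_mul_cancel₀ _ hκ.ne']
    have h7 : x0 ^ 2 ≤ (κ / 4 - v + 4 * ε) ^ 2 := by
      have : 0 ≤ x0 := by linarith
      gcongr
    exact num_k1 hκ hv0 hε0 hε2 hε3 h7
  have h8 : (4 : ℝ) ≤ Real.exp (ε' / 2 * L) := by
    have := Real.add_one_le_exp (ε' / 2 * L); linarith
  calc ‖Z‖ ≤ 2 * ‖h s‖ := h5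
    _ ≤ 2 * (2 * Real.exp (x0 ^ 2 / t + ε' / 4 * L)) := by gcongr
    _ ≤ Real.exp (ε' / 2 * L) * Real.exp (((κ / 4 - v) ^ 2 / κ + ε' / 4) * L + ε' / 4 * L) := by
        have h9 : Real.exp (x0 ^ 2 / t + ε' / 4 * L) ≤
            Real.exp (((κ / 4 - v) ^ 2 / κ + ε' / 4) * L + ε' / 4 * L) := by gcongr
        exact num_k2 h8 h9 (Real.exp_pos _).le
    _ = _ := by rw [← Real.exp_add]; congr 1; ring

/-- Converse part, zeros. -/
theorem inverse_Z (κ a ε' : ℝ) (hκ : 0 < κ) (ha : 0 ≤ a) (ha1 : a ≤ 1 / 2) (hε' : 0 < ε')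
    (hA : FSide κ a) : ∃ T0 : ℝ, ∀ T σ : ℝ, T0 ≤ T → a + κ / 4 + ε' ≤ σ →
    riemannZeta (1 / 2 + T * I + σ) ≠ 0 := by
  set ε : ℝ := min (1 / 4) (ε' / 8) with hε
  have hε0 : 0 < ε := by positivity
  have hε14 : ε ≤ 1 / 4 := min_le_left _ _
  have hε2 : ε ≤ ε' / 8 := min_le_right _ _
  set η : ℝ := ε ^ 2 / (800 * κ) with hη
  have hη0 : 0 < η := by positivity
  obtain ⟨T1, hT1e, hKB⟩ := KB κ a ε η hκ ha ha1 hε0 hε14 hη0 hA
  obtain ⟨T2, hT2e, hq⟩ := Klog κ a ε η 1 hκ ha ha1 hε0 hε14 hη0 zero_le_one hA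
  obtain ⟨Tf, hTf1, hTf⟩ := exists_frame
  obtain ⟨t4, ht4, hell⟩ := ell_small (ε ^ 2 / 400) (by positivity)
  refine ⟨max (max T1 (max T2 Tf)) (Real.exp (κ / t4 + 4000 * κ / ε ^ 2 + 1)), ?_⟩
  intro T σ hT hσ
  rcases le_total (1 / 2) σ with hσ2 | hσ2
  · refine riemannZeta_ne_zero_of_one_le_re ?_
    have : (1 / 2 + T * I + σ : ℂ).re = 1 / 2 + σ := by simp
    rw [this]
    linarith
  have hTa : T1 ≤ T := (le_max_left _ _).trans ((le_max_left _ _).trans hT)
  have hTb : T2 ≤ T := (le_max_left _ _).trans ((le_max_right _ _).trans ((le_max_left _ _).trans hT))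
  have hTb2 : Tf ≤ T := (le_max_right _ _).trans ((le_max_right _ _).trans ((le_max_left _ _).trans hT))
  have hTc : Real.exp (κ / t4 + 4000 * κ / ε ^ 2 + 1) ≤ T := (le_max_right _ _).trans hT
  have hT1 : 1 ≤ T := hTf1.trans hTb2
  have hTpos : 0 < T := by linarith
  have hL8 : κ / t4 + 4000 * κ / ε ^ 2 + 1 ≤ Real.log T := by
    rw [Real.le_log_iff_exp_le hTpos]; exact hTc
  obtain ⟨B, u, h, hF⟩ := hTf T hTb2
  set L := Real.log T with hL
  have hLpos : 0 < L := by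
    have : 0 < κ / t4 + 4000 * κ / ε ^ 2 := by positivity
    linarith
  set t : ℝ := κ / L with htdef
  obtain ⟨ht400, hK⟩ := hKB T hTa B u h hF t rfl
  have ht : 0 < t := by positivity
  have htL : t * L = κ := by rw [htdef]; field_simp
  have hlam := abs_le.1 hF.lam
  have htt4 : t ≤ t4 := by
    have h1 : κ / t4 ≤ L := by
      have : 0 < 4000 * κ / ε ^ 2 := by positivity
      linarith
    rw [div_le_iff₀ ht4] at h1
    rw [htdef, div_le_iff₀ hLpos]
    linarith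
  have htε : t ≤ ε ^ 2 / 4000 := by
    have h1 : 4000 * κ / ε ^ 2 ≤ L := by
      have : 0 < κ / t4 := by positivity
      linarith
    rw [div_le_iff₀ (by positivity)] at h1
    rw [htdef, div_le_iff₀ hLpos]
    linarith
  have hεsq : ε ^ 2 ≤ ε := pow_le_of_le_one hε0.le (by linarith) two_ne_zero
  have hel := hell t ht htt4
  have hb1 : κ / 4 - 2 * t ≤ t * u.re / 2 := by
    have h1 : t * (L / 2 - 4) ≤ t * u.re := by gcongr; linarith [hlam.1]
    have h2 : t * (L / 2) = κ / 2 := by rw [← htL]; ring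
    linarith
  have hb2 : t * u.re / 2 ≤ κ / 4 + 2 * t := by
    have h1 : t * u.re ≤ t * (L / 2 + 4) := by gcongr; linarith [hlam.2]
    have h2 : t * (L / 2) = κ / 2 := by rw [← htL]; ring
    linarith
  set b0 := t * u.re / 2 with hb0
  have hsq : 0 < √(Real.pi * t) := Real.sqrt_pos.2 (by positivity)
  have hgr : ∀ z : ℂ, ‖h z‖ ≤ (T ^ 6 * Real.exp (2 * |u.re| ^ 2 + 28 * ‖(0 : ℂ)‖ ^ 2)) *
      Real.exp (4 * ‖z‖ ^ 2) := by
    have := hF.growth hT1 0
    simpa only [add_zero] using this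
  have hinv := GT_inv ht (by linarith) hF.hd hgr (σ : ℂ)
  obtain ⟨C, hC⟩ := rot_growth hT1 hF ht (by linarith) σ
  have hrd := rot_diff hT1 hF ht (by linarith) σ
  set g : ℂ → ℂ := fun z => GT t h (σ + z * I) / √(Real.pi * t) with hg
  -- logarithm
  have him := abs_le.1 hF.him
  have hy1 : |(-(t * u.im / 2))| ≤ 1 := by
    rw [abs_neg]
    exact num_g0 ht hF.him (by linarith)
  obtain ⟨q, hq1, hq2, hq3⟩ := hq T hTb B u h hF t rfl _ hy1
  have hin : ∀ z ∈ ball (0 : ℂ) ε, ‖((σ - b0 - 30 : ℝ) : ℂ) + z * I‖ ≤ 30 - a - 2 * ε := by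
    intro z hz
    rw [mem_ball_zero_iff] at hz
    refine (norm_add_le _ _).trans ?_
    rw [norm_mul, Complex.norm_I, mul_one, Complex.norm_real, Real.norm_eq_abs,
      abs_of_nonpos (by linarith)]
    linarith
  have hpt : ∀ z : ℂ, ((30 : ℝ) : ℂ) + ((-(t * u.im / 2) : ℝ) : ℂ) * I + t * u / 2 +
      (((σ - b0 - 30 : ℝ) : ℂ) + z * I) = σ + z * I := by
    intro z
    apply Complex.ext
    · simp [hb0]; ring
    · simp
  have hQ : 0 < η * L := by positivity
  have hηκ : η * κ = ε ^ 2 / 800 := by rw [hη]; field_simp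
  have htη : t * (η * L) = ε ^ 2 / 800 := by
    rw [← hηκ, ← htL]; ring
  have key := L_bound (h := g) (q := fun z => q (((σ - b0 - 30 : ℝ) : ℂ) + z * I)) (R := ε)
    (Q := η * L) (t := t) (C := C / √(Real.pi * t)) (E := √t * Real.exp (-3 * (η * L)) / 20)
    (by rw [hg]; fun_prop) ?_ ht (by linarith) hε0 (by linarith) hQ ?_ ?_ ?_ (by rw [htη]; linarith [sq_nonneg ε]) (by linarith)
    le_rfl ?_
  · intro hz
    -- conclude
    have h4 := hF.h1 σ (by rw [Complex.ofReal_re]; linarith) (by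
      rw [Complex.norm_real, Real.norm_of_nonneg (by linarith)]
      have : σ ^ 3 ≤ (1 / 2) ^ 3 := by
        have : 0 ≤ σ := by linarith
        gcongr
      linarith)
    rw [hz, sub_zero, norm_zero, mul_zero] at h4
    have h5 : h σ = 0 := norm_le_zero_iff.1 h4
    rw [h5, mul_zero] at hinv
    have h6 : ∫ x : ℝ, exp (-(x : ℂ) ^ 2 / t) * g x = 0 := by
      have e1 : ∀ x : ℝ, exp (-(x : ℂ) ^ 2 / t) * g x =
          (exp (-(x : ℂ) ^ 2 / t) * GT t h (σ + x * I)) / √(Real.pi * t) := by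
        intro x; simp only [hg]; ring
      simp_rw [e1]
      rw [integral_div, hinv, zero_div]
    rw [h6, norm_zero] at key
    have : 0 < 1 / 4 * √(Real.pi * t) * Real.exp (-2 * (η * L)) := by positivity
    linarith
  · intro z
    simp only [hg]
    rw [norm_div, Complex.norm_real, Real.norm_of_nonneg hsq.le, div_mul_eq_mul_div]
    gcongr
    exact hC z
  · refine hq1.comp (by fun_prop) ?_
    intro z hz
    rw [mem_ball_zero_iff]
    have := hin z hz
    linarith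
  · intro z hz
    exact hq3 _ (hin z hz)
  · intro z hz
    rw [hq2 _ (by rw [mem_ball_zero_iff]; have := hin z hz; linarith), hpt z]
  · intro s hs1 hs2
    have hs2' := abs_le.1 hs2
    have e3 : (σ : ℂ) + s * I = ((σ - s.im : ℝ) : ℂ) + (s.re : ℝ) * I := by
      apply Complex.ext <;> simp; ring
    have h1 := hK (((σ - s.im : ℝ) : ℂ) + (s.re : ℝ) * I) (by simp; linarith) (by simp; linarith)
    have e4 : (((σ - s.im : ℝ) : ℂ) + (s.re : ℝ) * I).im = s.re := by simp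
    rw [e4, ← e3] at h1
    simp only [hg]
    rw [norm_div, Complex.norm_real, Real.norm_of_nonneg hsq.le, div_le_iff₀ hsq, E_eq ht,
      ← Real.exp_add]
    refine h1.trans ?_
    rw [mul_comm]
    refine mul_le_mul_of_nonneg_right (Real.exp_le_exp.2 ?_) hsq.le
    set x := |s.re| with hx
    have hx2 : s.re ^ 2 = x ^ 2 := by rw [hx, sq_abs]
    rw [hx2]
    have hxpos : 0 < x := by linarith
    have h4t : 4 * t ≤ x := by linarith
    have h5 : x ≤ x ^ 2 / (4 * t) := by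
      rw [le_div_iff₀ (by positivity)]
      exact num_k3 h4t hxpos
    have h6 : ell t + 4 * (η * L) ≤ x ^ 2 / (4 * t) := by
      rw [le_div_iff₀ (by positivity)]
      have e5 : (ell t + 4 * (η * L)) * (4 * t) = 4 * (t * ell t) + 16 * (t * (η * L)) := by ring
      rw [e5, htη]
      have h7 : (ε / 5) ^ 2 ≤ x ^ 2 := by gcongr
      exact num_k4 h7 hel
    have e6 : x ^ 2 / t = x ^ 2 / (2 * t) + x ^ 2 / (4 * t) + x ^ 2 / (4 * t) := by field_simp; ring
    rw [e6]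
    linarith

/-- The exact law on the side of the Gaussian averages. -/
theorem law (κ a : ℝ) (hκ : 0 < κ) (ha : 0 ≤ a) (ha1 : a ≤ 1 / 2) : FSide κ a ↔ ZSide κ a := by
  constructor
  · intro hA
    exact ⟨fun ε hε => inverse_Z κ a ε hκ ha ha1 hε hA, fun ε hε => inverse_M κ a ε hκ ha ha1 hε hA⟩
  · intro hB ε hε
    obtain ⟨t0, ht0, h⟩ := direct κ a ε hκ ha ha1 hε hB
    exact ⟨t0, ht0, fun t ht htt σ T h1 h2 h3 => h t ht htt σ T h1 (by linarith) h3⟩

end Pool.Agent.Helper87.HF
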