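import Pool.Agent.Helper87.HF.LDir
import Pool.Agent.Helper87.HF.Mid

set_option autoImplicit false

open Complex Set Filter Topology Metric MeasureTheory

namespace Pool.Agent.Helper87.HF

/-- Local convexity: a bound on the line of abscissa `a` near the centre gives a bound to the left. -/
lemma box_conv (a Y0 ε : ℝ) (ha : 0 ≤ a) (hY0 : 0 ≤ Y0) (hε : 0 < ε) :
    ∃ C T2 : ℝ, Y0 ≤ C ∧ 1 ≤ T2 ∧ ∀ T : ℝ, T2 ≤ T → ∀ (B u : ℂ) (h : ℂ → ℂ), Frame T B u h →
    ∀ m : ℝ, 0 ≤ m → (∀ y : ℝ, |y| ≤ C → ‖h (a + y * I)‖ ≤ Real.exp (m * Real.log T)) →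
    ∀ x y : ℝ, 0 ≤ x → x ≤ a → |y| ≤ Y0 →
      ‖h (x + y * I)‖ ≤ Real.exp ((m + (a - x) / 2 + ε) * Real.log T) := by
  rcases ha.eq_or_lt with ha0 | ha0
  · refine ⟨Y0, 1, le_rfl, le_rfl, fun T hT B u h hF m hm hb x y hx0 hxa hy => ?_⟩
    have hx : x = a := by linarith
    rw [hx]
    refine (hb y hy).trans (Real.exp_le_exp.2 ?_)
    refine mul_le_mul_of_nonneg_right ?_ (Real.log_nonneg hT)
    linarith
  set δ : ℝ := ε / (4 * (a ^ 2 + 1)) with hδ
  have hδ0 : 0 < δ := by positivity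
  have hδa : δ * a ^ 2 ≤ ε / 4 := by
    rw [hδ, div_mul_eq_mul_div, div_le_iff₀ (by positivity)]
    nlinarith
  set D : ℝ := 7 / δ + 1 with hD
  have hD1 : 1 ≤ D := by rw [hD]; have : 0 < 7 / δ := by positivity
                         linarith
  have hδD : 7 ≤ δ * D ^ 2 := by
    have h1 : D ≤ D ^ 2 := by nlinarith
    have h2 : δ * D = 7 + δ := by rw [hD]; field_simp
    nlinarith
  set C : ℝ := Y0 + D with hC
  have hC0 : 0 < C := by positivity
  refine ⟨C, Real.exp (3 * (a ^ 2 + C ^ 2) + 8 + 8 * a / ε), by linarith,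
    Real.one_le_exp (by positivity), ?_⟩
  intro T hT B u h hF m hm hb x y0 hx0 hxa hy0
  have hTpos : 0 < T := (Real.exp_pos _).trans_le hT
  have hL : 3 * (a ^ 2 + C ^ 2) + 8 + 8 * a / ε ≤ Real.log T := by
    rw [Real.le_log_iff_exp_le hTpos]; exact hT
  set L := Real.log T with hLdef
  have hae : 0 < 8 * a / ε := by positivity
  have hac : 0 ≤ a ^ 2 + C ^ 2 := by positivity
  have hL8 : 8 ≤ L := by linarith
  have hLc : 3 * (a ^ 2 + C ^ 2) ≤ L := by linarith
  have hLa : 8 * a ≤ ε * L := by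
    have : 8 * a / ε ≤ L := by linarith
    rw [div_le_iff₀ hε] at this; linarith
  have hu := abs_le.1 hF.lam
  have hu0 : 0 ≤ u.re := by linarith [hu.1]
  have hyy := abs_le.1 hy0
  set g : ℂ → ℂ := fun z => h z * exp ((u.re : ℂ) * z) * exp (((δ * L : ℝ) : ℂ) * (z - y0 * I) ^ 2) with hg
  have hgd : Differentiable ℂ g := by
    have := hF.hd
    fun_prop
  have hgn : ∀ z : ℂ, ‖g z‖ = ‖h z‖ * Real.exp (u.re * z.re + δ * L * (z.re ^ 2 - (z.im - y0) ^ 2)) := by
    intro z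
    rw [hg]
    simp only
    rw [norm_mul, norm_mul, Complex.norm_exp, Complex.norm_exp, mul_assoc, ← Real.exp_add]
    congr 2
    rw [Complex.re_ofReal_mul, Complex.re_ofReal_mul]
    congr 2
    rw [sq, Complex.mul_re]
    simp
    ring
  -- bound on the frontier of the box
  set K : ℝ := Real.exp ((m + δ * a ^ 2) * L + u.re * a) with hK
  -- the right half of the frontier
  have hpos : ∀ X y : ℝ, 0 ≤ X → X ≤ a → |y| ≤ C → (X = a ∨ |y| = C) →
      ‖h (X + y * I)‖ * Real.exp (u.re * X + δ * L * (X ^ 2 - (y - y0) ^ 2)) ≤ K := by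
    intro X y hX0 hXa hy hor
    have hXsq : X ^ 2 ≤ a ^ 2 := by gcongr
    have hLδ : 0 ≤ δ * L := by positivity
    rcases hor with h1 | h1
    · have h2 := hb y hy
      rw [h1, hK]
      calc ‖h (a + y * I)‖ * Real.exp (u.re * a + δ * L * (a ^ 2 - (y - y0) ^ 2))
          ≤ Real.exp (m * L) * Real.exp (u.re * a + δ * L * (a ^ 2 - (y - y0) ^ 2)) := by gcongr
        _ = Real.exp (m * L + (u.re * a + δ * L * (a ^ 2 - (y - y0) ^ 2))) := by rw [← Real.exp_add]
        _ ≤ _ := by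
            apply Real.exp_le_exp.2
            have : 0 ≤ δ * L * (y - y0) ^ 2 := by positivity
            nlinarith
    · have h2 := hF.h2 (X + y * I) (by simpa using hX0)
      have hn : ‖(X + y * I : ℂ)‖ ^ 2 ≤ a ^ 2 + C ^ 2 := by
        rw [norm_reim]
        have : y ^ 2 = C ^ 2 := by rw [← sq_abs, h1]
        linarith
      have hTexp : T ^ 6 = Real.exp (6 * L) := by
        rw [show (6 : ℝ) = ((6 : ℕ) : ℝ) by norm_num, Real.exp_nat_mul, hLdef, Real.exp_log hTpos]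
      rw [hTexp, ← Real.exp_add] at h2
      have hD2 : D ^ 2 ≤ (y - y0) ^ 2 := by
        rw [← sq_abs (y - y0)]
        have h3 : D ≤ |y - y0| := by
          have := abs_sub_abs_le_abs_sub y y0
          rw [h1] at this
          linarith
        gcongr
      rw [hK]
      calc ‖h (X + y * I)‖ * Real.exp (u.re * X + δ * L * (X ^ 2 - (y - y0) ^ 2))
          ≤ Real.exp (6 * L + 3 * ‖(X + y * I : ℂ)‖ ^ 2) *
            Real.exp (u.re * X + δ * L * (X ^ 2 - (y - y0) ^ 2)) := by gcongr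
        _ = Real.exp (6 * L + 3 * ‖(X + y * I : ℂ)‖ ^ 2 + (u.re * X + δ * L * (X ^ 2 - (y - y0) ^ 2))) := by
            rw [← Real.exp_add]
        _ ≤ _ := by
            apply Real.exp_le_exp.2
            have e1 : u.re * X ≤ u.re * a := by gcongr
            have e2 : δ * L * (X ^ 2 - (y - y0) ^ 2) ≤ δ * L * (a ^ 2 - D ^ 2) := by
              gcongr
            have e3 : 7 * L ≤ δ * D ^ 2 * L := by gcongr
            have e4 : 0 ≤ m * L := by positivity
            nlinarith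
  have hfr : ∀ z ∈ frontier (Ioo (-a) a ×ℂ Ioo (-C) C), ‖g z‖ ≤ K := by
    intro z hz
    rw [Complex.frontier_reProdIm, closure_Ioo (by linarith), closure_Ioo (by linarith),
      frontier_Ioo (by linarith), frontier_Ioo (by linarith)] at hz
    have hz' : |z.re| ≤ a ∧ |z.im| ≤ C ∧ (|z.re| = a ∨ |z.im| = C) := by
      rcases hz with hz | hz
      · obtain ⟨h1, h2⟩ := hz
        simp only [mem_preimage, mem_Icc, mem_insert_iff, mem_singleton_iff] at h1 h2
        refine ⟨abs_le.2 h1, ?_, Or.inr ?_⟩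
        · rcases h2 with h2 | h2 <;> rw [h2]
          · rw [abs_neg, abs_of_pos hC0]
          · rw [abs_of_pos hC0]
        · rcases h2 with h2 | h2 <;> rw [h2]
          · rw [abs_neg, abs_of_pos hC0]
          · rw [abs_of_pos hC0]
      · obtain ⟨h1, h2⟩ := hz
        simp only [mem_preimage, mem_Icc, mem_insert_iff, mem_singleton_iff] at h1 h2
        refine ⟨?_, abs_le.2 h2, Or.inl ?_⟩
        · rcases h1 with h1 | h1 <;> rw [h1]
          · rw [abs_neg, abs_of_pos ha0]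
          · rw [abs_of_pos ha0]
        · rcases h1 with h1 | h1 <;> rw [h1]
          · rw [abs_neg, abs_of_pos ha0]
          · rw [abs_of_pos ha0]
    obtain ⟨k1, k2, k3⟩ := hz'
    rw [hgn z]
    rcases le_total 0 z.re with h4 | h4
    · rw [abs_of_nonneg h4] at k1 k3
      have := hpos z.re z.im h4 k1 k2 k3
      rwa [re_add_im] at this
    · rw [abs_of_nonpos h4] at k1 k3
      have h5 := hpos (-z.re) z.im (by linarith) k1 k2 k3
      have h6 := hF.h3 (-z.re) z.im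
      rw [Complex.ofReal_neg, neg_neg, re_add_im] at h6
      rw [h6]
      refine le_trans (le_of_eq ?_) h5
      rw [mul_comm (Real.exp _) ‖_‖, mul_assoc, ← Real.exp_add, Complex.ofReal_neg]
      congr 2
      ring
  have hmax := Complex.norm_le_of_forall_mem_frontier_norm_le
    (U := Ioo (-a) a ×ℂ Ioo (-C) C) ?_ hgd.diffContOnCl hfr (z := x + y0 * I) ?_
  · rw [hgn] at hmax
    have e1 : (x + y0 * I : ℂ).re = x := by simp
    have e2 : (x + y0 * I : ℂ).im = y0 := by simp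
    rw [e1, e2, sub_self, zero_pow two_ne_zero, sub_zero, hK] at hmax
    have h7 : Real.exp (u.re * x) ≤ Real.exp (u.re * x + δ * L * x ^ 2) := by
      apply Real.exp_le_exp.2
      have : 0 ≤ δ * L * x ^ 2 := by positivity
      linarith
    have h8 : ‖h (x + y0 * I)‖ * Real.exp (u.re * x) ≤ Real.exp ((m + δ * a ^ 2) * L + u.re * a) :=
      le_trans (by gcongr) hmax
    rw [← le_div_iff₀ (Real.exp_pos _), ← Real.exp_sub] at h8
    refine h8.trans (Real.exp_le_exp.2 ?_)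
    have h9 : u.re * (a - x) ≤ (L / 2 + 4) * (a - x) := by
      have : 0 ≤ a - x := by linarith
      have : u.re ≤ L / 2 + 4 := by linarith [hu.2]
      gcongr
    have h10 : δ * a ^ 2 * L ≤ ε / 4 * L := by gcongr
    nlinarith
  · exact (Metric.isBounded_Ioo (-a) a).reProdIm (Metric.isBounded_Ioo (-C) C)
  · rw [Complex.closure_reProdIm, closure_Ioo (by linarith), closure_Ioo (by linarith)]
    rw [Complex.mem_reProdIm]
    simp only [mem_Icc]
    have e1 : (x + y0 * I : ℂ).re = x := by simp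
    have e2 : (x + y0 * I : ℂ).im = y0 := by simp
    rw [e1, e2]
    refine ⟨⟨by linarith, by linarith⟩, ⟨by linarith, by linarith⟩⟩

/-- Bounds for zeta give bounds for the frame function. -/
lemma frame_le (Y0 η M : ℝ) (hY0 : 0 ≤ Y0) (hη : 0 < η) (hM : 0 ≤ M) : ∃ T2 : ℝ, 1 ≤ T2 ∧ ∀ T : ℝ, T2 ≤ T →
    ∀ (B u : ℂ) (h : ℂ → ℂ), Frame T B u h → ∀ x y m : ℝ, 0 ≤ x → x ≤ 3 → |y| ≤ Y0 → 0 ≤ m → m ≤ M →
      ‖riemannZeta (1 / 2 + ((T + y : ℝ) : ℂ) * I + x)‖ ≤ Real.exp (m * Real.log (T + y)) →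
      ‖h (x + y * I)‖ ≤ Real.exp ((m + η) * Real.log T) := by
  refine ⟨max ((3 + Y0) ^ 3) (max (max 1 (2 * Y0)) (Real.exp ((1 + M) / η))),
    (le_max_left _ _).trans ((le_max_left _ _).trans (le_max_right _ _)), ?_⟩
  intro T hT B u h hF x y m hx0 hx3 hy hm0 hmM h7
  have h2 : (3 + Y0) ^ 3 ≤ T := (le_max_left _ _).trans hT
  have h3 : 1 ≤ T := (le_max_left _ _).trans ((le_max_left _ _).trans ((le_max_right _ _).trans hT))
  have h4 : 2 * Y0 ≤ T := (le_max_right _ _).trans ((le_max_left _ _).trans ((le_max_right _ _).trans hT))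
  have h5 : Real.exp ((1 + M) / η) ≤ T := (le_max_right _ _).trans ((le_max_right _ _).trans hT)
  have hL0 : 0 ≤ Real.log T := Real.log_nonneg h3
  have hL : 1 + M ≤ η * Real.log T := by
    have h6 : (1 + M) / η ≤ Real.log T := by
      rw [Real.le_log_iff_exp_le (by linarith)]; exact h5
    rw [div_le_iff₀ hη] at h6
    linarith
  have hy' := abs_le.1 hy
  have hn : ‖(x + y * I : ℂ)‖ ^ 3 ≤ T := by
    refine le_trans ?_ h2
    gcongr
    refine (norm_add_le _ _).trans ?_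
    rw [norm_mul, Complex.norm_I, mul_one, Complex.norm_real, Complex.norm_real,
      Real.norm_of_nonneg hx0, Real.norm_eq_abs]
    linarith
  have h6 := hF.h1 (x + y * I) (by simp; exact hx0) hn
  have e1 : (1 / 2 + T * I + (x + y * I) : ℂ) = 1 / 2 + ((T + y : ℝ) : ℂ) * I + (x : ℂ) := by
    push_cast; ring
  rw [e1] at h6
  set Z := riemannZeta (1 / 2 + ((T + y : ℝ) : ℂ) * I + (x : ℂ))
  have h8 : ‖h (x + y * I)‖ ≤ 2 * ‖Z‖ := by
    have := norm_sub_norm_le (h (x + y * I)) Z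
    linarith [norm_nonneg Z]
  have h9 : Real.log (T + y) ≤ Real.log T + 1 := by
    have h10 : T + y ≤ T * Real.exp 1 := by
      have := Real.add_one_le_exp (1 : ℝ)
      nlinarith [hy'.2]
    calc Real.log (T + y) ≤ Real.log (T * Real.exp 1) :=
          Real.log_le_log (by linarith [hy'.1]) h10
      _ = _ := by rw [Real.log_mul (by linarith) (Real.exp_ne_zero _), Real.log_exp]
  have he : (2 : ℝ) ≤ Real.exp 1 := by linarith [Real.add_one_le_exp (1 : ℝ)]
  calc ‖h (x + y * I)‖ ≤ 2 * ‖Z‖ := h8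
    _ ≤ Real.exp 1 * Real.exp (m * Real.log (T + y)) := by gcongr
    _ = Real.exp (1 + m * Real.log (T + y)) := by rw [Real.exp_add]
    _ ≤ _ := by
        apply Real.exp_le_exp.2
        have : m * Real.log (T + y) ≤ m * (Real.log T + 1) := by gcongr
        nlinarith

/-- the condition on zeta at the height `T`, at the distance `a` from the critical line -/
def LocS (κ a ε T : ℝ) : Prop :=
  (∀ v : ℝ, κ / 4 + ε ≤ v → riemannZeta (1 / 2 + T * I + ((a + v : ℝ) : ℂ)) ≠ 0) ∧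
  ∀ v : ℝ, 0 ≤ v → ‖riemannZeta (1 / 2 + T * I + ((a + v : ℝ) : ℂ))‖ ≤
    Real.exp (((max (κ / 4 - v) 0) ^ 2 / κ + ε) * Real.log T)

lemma LocS.mono {κ a ε ε' T : ℝ} (hT : 1 ≤ T) (h : LocS κ a ε T) (hε : ε ≤ ε') : LocS κ a ε' T := by
  refine ⟨fun v hv => h.1 v (by linarith), fun v hv => (h.2 v hv).trans (Real.exp_le_exp.2 ?_)⟩
  refine mul_le_mul_of_nonneg_right (by linarith) (Real.log_nonneg hT)

lemma max_sq_le {κ v : ℝ} (hκ : 0 < κ) (hv : 0 ≤ v) : (max (κ / 4 - v) 0) ^ 2 / κ ≤ κ := by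
  rw [div_le_iff₀ hκ]
  have a1 : max (κ / 4 - v) 0 ≤ κ / 4 := max_le (by linarith) (by linarith)
  have a2 : 0 ≤ max (κ / 4 - v) 0 := le_max_right _ _
  calc (max (κ / 4 - v) 0) ^ 2 ≤ (κ / 4) ^ 2 := by gcongr
    _ ≤ κ * κ := by nlinarith

lemma mboundS (κ a ε Y0 : ℝ) (hκ : 0 < κ) (ha : 0 ≤ a) (ha1 : a ≤ 1 / 2) (hε : 0 < ε) (hY0 : 0 ≤ Y0) :
    ∃ C T2 : ℝ, Y0 ≤ C ∧ 1 ≤ T2 ∧ ∀ T : ℝ, T2 ≤ T → (∀ T' : ℝ, |T' - T| ≤ C → LocS κ a (ε / 4) T') →
    ∀ (B u : ℂ) (h : ℂ → ℂ), Frame T B u h →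
    ∀ x y : ℝ, 0 ≤ x → x ≤ 3 → |y| ≤ Y0 →
      (x ≤ a → ‖h (x + y * I)‖ ≤ Real.exp (((a - x) / 2 + κ / 16 + ε) * Real.log T)) ∧
      (a ≤ x → ‖h (x + y * I)‖ ≤
        Real.exp (((max (κ / 4 - (x - a)) 0) ^ 2 / κ + ε) * Real.log T)) := by
  obtain ⟨C, T1, hC, hT1, h1⟩ := box_conv a Y0 (ε / 4) ha hY0 (by linarith)
  obtain ⟨T2, hT2, h2⟩ := frame_le C (ε / 2) (κ + ε / 4) (hY0.trans hC) (by linarith) (by positivity)
  refine ⟨C, max T1 T2, hC, hT1.trans (le_max_left _ _), ?_⟩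
  intro T hT hloc B u h hF
  have hTa : T1 ≤ T := (le_max_left _ _).trans hT
  have hTb : T2 ≤ T := (le_max_right _ _).trans hT
  have hL0 : 0 ≤ Real.log T := Real.log_nonneg (hT1.trans hTa)
  -- to the right of `a`
  have hr : ∀ x y : ℝ, a ≤ x → x ≤ 3 → |y| ≤ C → ‖h (x + y * I)‖ ≤
      Real.exp (((max (κ / 4 - (x - a)) 0) ^ 2 / κ + ε / 4 + ε / 2) * Real.log T) := by
    intro x y hxa hx3 hy
    have h3 := (hloc (T + y) (by rw [add_sub_cancel_left]; exact hy)).2 (x - a) (by linarith)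
    rw [add_sub_cancel] at h3
    exact h2 T hTb B u h hF x y _ (by linarith) hx3 hy (by positivity)
      (by linarith [max_sq_le hκ (show 0 ≤ x - a by linarith)]) h3
  intro x y hx0 hx3 hy
  constructor
  · intro hxa
    have h4 := h1 T hTa B u h hF (κ / 16 + ε / 4 + ε / 2) (by positivity) (fun y hy => by
      refine (hr a y le_rfl (by linarith) hy).trans (le_of_eq ?_)
      rw [sub_self, sub_zero, max_eq_left (by positivity)]
      congr 2
      field_simp
      ring) x y hx0 hxa hy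
    refine h4.trans (Real.exp_le_exp.2 ?_)
    refine mul_le_mul_of_nonneg_right ?_ hL0
    linarith
  · intro hxa
    refine (hr x y hxa hx3 (hy.trans hC)).trans (Real.exp_le_exp.2 ?_)
    refine mul_le_mul_of_nonneg_right ?_ hL0
    linarith

end Pool.Agent.Helper87.HF
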