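import Pool.Agent.Helper87.HF.Weyl

set_option autoImplicit false

open Complex Set Filter Topology Metric MeasureTheory

namespace Pool.Agent.Helper87.HF

/-- Under the Lindelöf hypothesis only the zeros of zeta matter. -/
theorem RealBeyond_of_LH (d : ℝ) (hd : 0 ≤ d)
    (hLH : ∀ ε : ℝ, 0 < ε → ∃ T0 : ℝ, ∀ T : ℝ, T0 ≤ T →
      ‖riemannZeta (1 / 2 + T * I)‖ ≤ Real.exp (ε * Real.log T)) (hz : ZFree d) : RealBeyond (4 * d) := by
  intro κ' hκ'
  set κ : ℝ := (4 * d + κ') / 2 with hκ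
  have hκ0 : 0 < κ := by rw [hκ]; linarith
  refine RealBeyond_of_ZSide (κ := κ) hκ0 (by rw [hκ]; linarith) ⟨?_, ?_⟩
  · intro ε hε
    obtain ⟨T0, h0⟩ := hz ε hε
    exact ⟨T0, fun T σ hT hσ => h0 T σ hT (by rw [hκ] at hσ; linarith)⟩
  · intro ε hε
    obtain ⟨T0, hT0, h0⟩ := growth_mid 0 3 0 0 le_rfl (by norm_num) le_rfl le_rfl le_rfl (fun e he => by
      obtain ⟨T1, h1⟩ := hLH e he
      refine ⟨T1, fun T hT => ?_⟩
      have := h1 T hT
      rwa [Complex.ofReal_zero, add_zero, zero_add]) (fun e he => by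
      refine ⟨Real.exp (1 / e), fun T hT => (zeta_le_two (T := T) (x := 3) (by norm_num)).trans ?_⟩
      have hTpos : 0 < T := (Real.exp_pos _).trans_le hT
      have h5 : 1 / e ≤ Real.log T := by rw [Real.le_log_iff_exp_le hTpos]; exact hT
      rw [div_le_iff₀ he] at h5
      have h6 : (2 : ℝ) ≤ Real.exp 1 := by linarith [Real.add_one_le_exp (1 : ℝ)]
      exact h6.trans (Real.exp_le_exp.2 (by linarith))) ε hε
    refine ⟨max T0 (Real.exp (1 / ε)), fun T v hT hv0 hv1 => ?_⟩
    have hTpos : 1 ≤ T := hT0.trans ((le_max_left _ _).trans hT)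
    have hL0 : 0 ≤ Real.log T := Real.log_nonneg hTpos
    have hm : 0 ≤ (κ / 4 - v) ^ 2 / κ := by positivity
    rw [zero_add]
    rcases le_total v 3 with h3 | h3
    · refine (h0 T v ((le_max_left _ _).trans hT) hv0 h3).trans (Real.exp_le_exp.2 ?_)
      refine mul_le_mul_of_nonneg_right ?_ hL0
      rw [zero_mul, zero_mul, add_zero, zero_div]
      linarith
    · refine (zeta_le_two (T := T) (x := v) (by linarith)).trans ?_
      have h5 : 1 / ε ≤ Real.log T := by
        rw [Real.le_log_iff_exp_le (by linarith)]; exact (le_max_right _ _).trans hT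
      rw [div_le_iff₀ hε] at h5
      have h6 : (2 : ℝ) ≤ Real.exp 1 := by linarith [Real.add_one_le_exp (1 : ℝ)]
      refine h6.trans (Real.exp_le_exp.2 ?_)
      have : 0 ≤ (κ / 4 - v) ^ 2 / κ * Real.log T := by positivity
      linarith

end Pool.Agent.Helper87.HF
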