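import Pool.Agent.Helper87.HF.LDir
import Pool.Agent.Helper87.HF.Half5

set_option autoImplicit false

open Complex Set Filter Topology Metric MeasureTheory

namespace Pool.Agent.Helper87.HF

theorem half_gammaL (κ κ' K0 : ℝ) (hκ : 0 < κ) (hκ' : κ < κ') (hK : κ' ≤ K0) (hK1 : 1 ≤ K0) :
    ∃ δ : ℝ, 0 < δ ∧ δ ≤ 1 / 8 ∧ ∀ η' : ℝ, 0 < η' → ∃ ε' C T0 t0 : ℝ, 0 < ε' ∧ 1 ≤ T0 ∧ 0 < t0 ∧
    ∀ T : ℝ, T0 ≤ T → (∀ T' : ℝ, |T' - T| ≤ C → LocA κ ε' T') → ∀ (B u : ℂ) (h : ℂ → ℂ), Frame T B u h →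
    ∀ t : ℝ, 0 < t → t ≤ t0 → κ' - t ≤ t * Real.log T → t * Real.log T ≤ K0 →
    ∀ v : ℂ, ‖v‖ ≤ δ →
      1 / 4 * √(Real.pi * t) * Real.exp (-2 * (η' * Real.log T)) ≤ ‖HL t h (v + t * u / 2)‖ ∧
      ‖HL t h (v + t * u / 2)‖ ≤ 3 * √(Real.pi * t) * Real.exp (2 * (η' * Real.log T)) := by
  have hK0 : 0 < K0 := by linarith
  set D : ℝ := min (κ' - κ) 1 with hD
  have hD0 : 0 < D := lt_min (by linarith) one_pos
  have hD1 : D ≤ 1 := min_le_right _ _
  have hDκ : D ≤ κ' - κ := min_le_left _ _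
  have hD2 : D ^ 2 ≤ D := pow_le_of_le_one hD0.le hD1 two_ne_zero
  have hD2p : 0 < D ^ 2 := by positivity
  set δ : ℝ := D ^ 2 / (256 * K0) with hδ
  have hδ0 : 0 < δ := by positivity
  have hδK : δ * K0 = D ^ 2 / 256 := by rw [hδ]; field_simp
  have hδ1 : δ ≤ D ^ 2 / 256 := by
    rw [hδ]
    gcongr
    linarith
  refine ⟨δ, hδ0, by linarith, fun η' hη' => ?_⟩
  set X0 : ℝ := 64 + K0 / 4 with hX0
  set θ0 : ℝ := D ^ 2 / 102400 with hθ0
  have hθ0pos : 0 < θ0 := by positivity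
  set η : ℝ := min η' (D ^ 2 / (4000000 * K0)) with hη
  have hηpos : 0 < η := lt_min hη' (by positivity)
  have hηη : η ≤ η' := min_le_left _ _
  have hηK : η * K0 ≤ D ^ 2 / 4000000 := by
    calc η * K0 ≤ (D ^ 2 / (4000000 * K0)) * K0 := by
          gcongr; exact min_le_right _ _
      _ = _ := by field_simp
  set ε2 : ℝ := D ^ 2 / (409600 * K0) with hε2
  have hε2pos : 0 < ε2 := by positivity
  have hεK : ε2 * K0 = θ0 / 4 := by rw [hε2, hθ0]; field_simp; norm_num
  obtain ⟨T1, hT11, hq'⟩ := zlogL (κ / 4) X0 (D / 64) η 1 (by positivity) (by positivity)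
    (by rw [hX0]; linarith) hηpos zero_le_one
  obtain ⟨T2, hT21, hm'⟩ := mboundL κ ε2 2 hκ hε2pos (by norm_num)
  obtain ⟨T3, t3, hT31, ht3, ht3', hmain⟩ := half_bound
  obtain ⟨t4, ht4, hell⟩ := ell_small (min (θ0 / 4) (D ^ 2 / 1000000)) (by positivity)
  refine ⟨min (D / 64) (ε2 / 2), X0 + 1, max (max (max T1 (X0 + 2)) T2) (max T3 (Real.exp 1)),
    min (min t3 t4) (min (D ^ 2 / (10000000 * K0)) (θ0 / (4 * X0))), by positivity,
    hT11.trans ((le_max_left _ _).trans ((le_max_left _ _).trans (le_max_left _ _))), by positivity, ?_⟩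
  intro T hT hloc B u h hF t ht ht0 hτ1 hτ2 v hv
  have hTa : T1 ≤ T := (le_max_left _ _).trans ((le_max_left _ _).trans ((le_max_left _ _).trans hT))
  have hTX : X0 + 2 ≤ T := (le_max_right _ _).trans ((le_max_left _ _).trans ((le_max_left _ _).trans hT))
  have hq := hq' T hTa (fun T' σ h1 h2 => (hloc T' h1).1 σ (by
    have := min_le_left (D / 64) (ε2 / 2)
    linarith))
  have hm := hm' T ((le_max_right _ _).trans ((le_max_left _ _).trans hT)) (fun T' h1 =>
    (hloc T' (h1.trans (by rw [hX0]; linarith))).mono (by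
      have := (abs_le.1 h1).1
      rw [hX0] at hTX
      linarith) (min_le_right _ _))
  have hTb : T2 ≤ T := (le_max_right _ _).trans ((le_max_left _ _).trans hT)
  have hTc : T3 ≤ T := (le_max_left _ _).trans ((le_max_right _ _).trans hT)
  have hTd : Real.exp 1 ≤ T := (le_max_right _ _).trans ((le_max_right _ _).trans hT)
  have hta : t ≤ t3 := ht0.trans ((min_le_left _ _).trans (min_le_left _ _))
  have htb : t ≤ t4 := ht0.trans ((min_le_left _ _).trans (min_le_right _ _))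
  have htc : t ≤ D ^ 2 / (10000000 * K0) := ht0.trans ((min_le_right _ _).trans (min_le_left _ _))
  have hte : t ≤ θ0 / (4 * X0) := ht0.trans ((min_le_right _ _).trans (min_le_right _ _))
  have hTpos : 0 < T := (Real.exp_pos _).trans_le hTd
  have hL1 : 1 ≤ Real.log T := by rw [Real.le_log_iff_exp_le hTpos]; exact hTd
  set L := Real.log T with hL
  set τ := t * L with hτ
  have hτ0 : 0 < τ := by positivity
  have hX0pos : 0 < X0 := by positivity
  have hel := hell t ht htb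
  have hel1 : t * ell t ≤ θ0 / 4 := hel.trans (min_le_left _ _)
  have hel2 : t * ell t ≤ D ^ 2 / 1000000 := hel.trans (min_le_right _ _)
  have htK : t * K0 ≤ D ^ 2 / 10000000 := by
    rw [le_div_iff₀ (by positivity)] at htc
    linarith
  have htD : t ≤ D ^ 2 / 10000000 := (le_mul_of_one_le_right ht.le hK1).trans htK
  have htX : t * X0 ≤ θ0 / 4 := by
    rw [le_div_iff₀ (by positivity)] at hte
    linarith
  have hlam := abs_le.1 hF.lam
  have hvre := abs_le.1 ((Complex.abs_re_le_norm v).trans hv)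
  have hvim := (Complex.abs_im_le_norm v).trans hv
  set Λ := u.re with hΛ
  set c0 : ℝ := v.re + t * Λ / 2 with hc0
  have hlow : τ / 4 - 2 * t ≤ t * Λ / 2 := by
    have : t * (L / 2 - 4) ≤ t * Λ := by gcongr; linarith [hlam.1]
    linarith
  have hup : t * Λ / 2 ≤ τ / 4 + 2 * t := by
    have : t * Λ ≤ t * (L / 2 + 4) := by gcongr; linarith [hlam.2]
    linarith
  set e : ℝ := 2 * t + δ with he
  have he0 : 0 < e := by positivity
  have heK : K0 * e ≤ D ^ 2 / 250 := by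
    have : K0 * e = 2 * (t * K0) + δ * K0 := by rw [he]; ring
    rw [this, hδK]
    linarith
  have heD : e ≤ D ^ 2 / 250 := (le_mul_of_one_le_left he0.le hK1).trans heK
  have hc0low : τ / 4 - e ≤ c0 := by linarith
  have hc0up : c0 ≤ X0 := by rw [hX0]; linarith
  have hτκ : κ + D - t ≤ τ := by linarith
  have hc0low2 : κ / 4 + D / 8 ≤ c0 := by linarith
  -- complex centre
  have hcre : (v + t * u / 2).re = c0 := by
    rw [hc0, add_re]
    congr 1
    rw [show (t * u / 2 : ℂ) = ((t / 2 : ℝ) : ℂ) * u by push_cast; ring, Complex.re_ofReal_mul]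
    ring
  set ci : ℝ := v.im + t * u.im / 2 with hci
  have hcim : (v + t * u / 2).im = ci := by
    rw [hci, add_im]
    congr 1
    rw [show (t * u / 2 : ℂ) = ((t / 2 : ℝ) : ℂ) * u by push_cast; ring, Complex.im_ofReal_mul]
    ring
  have hci1 : |ci| ≤ 1 := by
    rw [hci]
    refine (abs_add_le _ _).trans ?_
    have := num_l0 ht hF.him
    linarith
  obtain ⟨q, hq1, hq2, hq3⟩ := hq B u h hF ci hci1
  have hcsplit : (X0 : ℂ) + ci * I + ((c0 - X0 : ℝ) : ℂ) = v + t * u / 2 := by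
    rw [← re_add_im (v + t * u / 2), hcre, hcim]
    push_cast; ring
  have hin : ∀ z ∈ ball (0 : ℂ) (D / 64), ‖((c0 - X0 : ℝ) : ℂ) + z‖ ≤
      X0 - κ / 4 - 2 * (D / 64) := by
    intro z hz
    rw [mem_ball_zero_iff] at hz
    refine (norm_add_le _ _).trans ?_
    rw [Complex.norm_real, Real.norm_eq_abs, abs_of_nonpos (by linarith)]
    linarith
  have hQ : 0 < η * L := by positivity
  have hητ : η * τ ≤ D ^ 2 / 4000000 := by
    calc η * τ ≤ η * K0 := by gcongr
      _ ≤ _ := hηK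
  have hετ : ε2 * τ ≤ θ0 / 4 := by
    calc ε2 * τ ≤ ε2 * K0 := by gcongr
      _ = _ := hεK
  have hτe : τ * e ≤ D ^ 2 / 250 := by
    calc τ * e ≤ K0 * e := by gcongr
      _ ≤ _ := heK
  have key := hmain T hTc B u h hF t ht hta v δ (D / 64) (η * L)
    (fun z => q (((c0 - X0 : ℝ) : ℂ) + z)) hδ0.le (by linarith) hv (by positivity) (by linarith)
    hQ (by linarith) ?_ ?_ ?_ ?_ ?_ ?_
  · have hmono : η * L ≤ η' * L := by gcongr
    refine ⟨le_trans ?_ key.1, key.2.trans ?_⟩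
    · refine mul_le_mul_of_nonneg_left (Real.exp_le_exp.2 (by linarith)) (by positivity)
    · refine mul_le_mul_of_nonneg_left (Real.exp_le_exp.2 (by linarith)) (by positivity)
  · rw [le_div_iff₀ (by positivity)]
    have e1 : (ell t + 4 * (η * L) + 8) * (50 * t) = 50 * (t * ell t) + 200 * (η * τ) + 400 * t := by
      rw [hτ]; ring
    rw [e1]
    have e2 : (D / 64) ^ 2 = D ^ 2 / 4096 := by ring
    rw [e2]
    linarith
  · refine hq1.comp (by fun_prop) ?_
    intro z hz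
    rw [mem_ball_zero_iff]
    have := hin z hz
    linarith
  · intro z hz
    exact hq3 _ (hin z hz)
  · intro z hz
    rw [hq2 _ (by rw [mem_ball_zero_iff]; have := hin z hz; linarith), ← hcsplit]
    congr 1
    ring
  · intro x y hx0 hx3 hxc hy
    have m0 := hm B u h hF x y hx0 hx3 hy
    have hθR : θ0 ≤ (x - c0) ^ 2 := by
      rw [← sq_abs]
      have : (D / 64 / 5) ^ 2 ≤ |x - c0| ^ 2 := by gcongr
      rw [hθ0]
      linarith
    have habs : |x - c0| ≤ X0 := by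
      rw [abs_le]; constructor <;> linarith
    -- reduce to an inequality
    have hred : ∀ m : ℝ, τ * m + θ0 ≤ (x - c0) ^ 2 → (m + ε2) * L ≤
        (x - c0) ^ 2 / t - |x - c0| - (ell t + 3 * (η * L)) := by
      intro m hm1
      have h5 : (m + ε2) * L + |x - c0| + ell t + 3 * (η * L) ≤ (x - c0) ^ 2 / t := by
        rw [le_div_iff₀ ht]
        have e1 : ((m + ε2) * L + |x - c0| + ell t + 3 * (η * L)) * t =
            τ * m + ε2 * τ + t * |x - c0| + t * ell t + 3 * (η * τ) := by rw [hτ]; ring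
        rw [e1]
        have h8 : t * |x - c0| ≤ t * X0 := by gcongr
        have h9 : θ0 = D ^ 2 / 102400 := hθ0
        linarith
      linarith
    rcases le_total x (κ / 4) with hxb | hxb
    · rw [max_eq_left (by linarith)] at m0
      refine m0.trans (Real.exp_le_exp.2 ?_)
      refine hred _ ?_
      exact half_ineq1 hκ hD0 hD1 ht htD hτκ hx0 hxb hc0low he0 heD hτe
    · rw [max_eq_right (by linarith)] at m0
      refine m0.trans (Real.exp_le_exp.2 ?_)
      have := hred 0 (by rw [mul_zero, zero_add]; exact hθR)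
      rw [zero_pow two_ne_zero, zero_div]
      exact this
  · intro y hy
    have m4 := hm B u h hF 0 y le_rfl (by norm_num) (by linarith)
    rw [sub_zero, max_eq_left (by positivity), show (κ / 4) ^ 2 / κ = (0 - 0) / 2 + κ / 16 by
      have e1 : (κ / 4) ^ 2 / κ = κ * κ / κ / 16 := by ring
      rw [e1, mul_div_cancel_right₀ _ hκ.ne']; ring] at m4
    have e0 : (((0 : ℝ) : ℂ) + y * I) = y * I := by push_cast; ring
    rw [e0] at m4
    refine m4.trans (Real.exp_le_exp.2 ?_)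
    have h5 : ((0 - 0) / 2 + κ / 16 + ε2) * L + (ell t + 3 * (η * L)) ≤
        (c0 ^ 2 - (δ + t + D / 64) ^ 2) / t := by
      rw [le_div_iff₀ ht]
      have e1 : (((0 - 0) / 2 + κ / 16 + ε2) * L + (ell t + 3 * (η * L))) * t =
          τ * (κ / 16) + ε2 * τ + t * ell t + 3 * (η * τ) := by rw [hτ]; ring
      rw [e1]
      have h9 : θ0 = D ^ 2 / 102400 := hθ0
      have h10 := half_ineq2 (X := ε2 * τ + t * ell t + 3 * (η * τ)) hκ hD0 hD1 ht htD hτκ hδ0 hδ1
        hc0low he0 heD hτe (by linarith)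
      linarith
    linarith

theorem half_mainL (κ κ' : ℝ) (hκ : 0 < κ) (hκ' : κ < κ') :
    ∃ δ : ℝ, 0 < δ ∧ δ ≤ 1 / 8 ∧ ∀ η : ℝ, 0 < η → ∃ ε' C T0 t0 : ℝ, 0 < ε' ∧ 1 ≤ T0 ∧ 0 < t0 ∧
    ∀ T : ℝ, T0 ≤ T → (∀ T' : ℝ, |T' - T| ≤ C → LocA κ ε' T') → ∀ (B u : ℂ) (h : ℂ → ℂ), Frame T B u h →
    ∀ t : ℝ, 0 < t → t ≤ t0 → κ' - t ≤ t * Real.log T →
    ∀ v : ℂ, ‖v‖ ≤ δ →
      1 / 4 * √(Real.pi * t) * Real.exp (-2 * (η * Real.log T)) ≤ ‖HL t h (v + t * u / 2)‖ ∧
      ‖HL t h (v + t * u / 2)‖ ≤ 3 * √(Real.pi * t) * Real.exp (2 * (η * Real.log T)) := by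
  set K0 : ℝ := max κ' 2000 with hK0
  have hK1 : 1 ≤ K0 := (by norm_num : (1 : ℝ) ≤ 2000).trans (le_max_right _ _)
  obtain ⟨δ, hδ, hδ1, hg⟩ := half_gammaL κ κ' K0 hκ hκ' (le_max_left _ _) hK1
  refine ⟨δ, hδ, hδ1, fun η hη => ?_⟩
  obtain ⟨ε', C, T1, t1, hε', hT1, ht1, hg1⟩ := hg η hη
  obtain ⟨T2, t2, hT2, ht2, ht2', hr⟩ := half_right
  refine ⟨ε', C, max (max T1 T2) (Real.exp (2 / η)), min t1 t2, hε', hT1.trans ((le_max_left _ _).trans (le_max_left _ _)),
    by positivity, ?_⟩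
  intro T hT hloc B u h hF t ht ht0 hτ v hv
  have hTa : T1 ≤ T := (le_max_left _ _).trans ((le_max_left _ _).trans hT)
  have hTb : T2 ≤ T := (le_max_right _ _).trans ((le_max_left _ _).trans hT)
  have hTc : Real.exp (2 / η) ≤ T := (le_max_right _ _).trans hT
  have hta : t ≤ t1 := ht0.trans (min_le_left _ _)
  have htb : t ≤ t2 := ht0.trans (min_le_right _ _)
  rcases le_total (t * Real.log T) K0 with h1 | h1
  · exact hg1 T hTa hloc B u h hF t ht hta hτ h1 v hv
  · have h2000 : 2000 ≤ t * Real.log T := (le_max_right _ _).trans h1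
    have key := hr T hTb B u h hF t ht htb h2000 v (hv.trans hδ1)
    have hTpos : 0 < T := (Real.exp_pos _).trans_le hTc
    have hL : 2 / η ≤ Real.log T := by rw [Real.le_log_iff_exp_le hTpos]; exact hTc
    have hQ : 2 ≤ η * Real.log T := by
      rw [div_le_iff₀ hη] at hL; linarith
    refine ⟨le_trans ?_ key.1, key.2.trans ?_⟩
    · refine mul_le_mul_of_nonneg_left (Real.exp_le_exp.2 (by linarith)) (by positivity)
    · refine mul_le_mul_of_nonneg_left (Real.exp_le_exp.2 (by linarith)) (by positivity)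

theorem real_simpleL (κ κ' : ℝ) (hκ : 0 < κ) (hκ' : κ < κ') :
    ∃ ε' C T0 t0 : ℝ, 0 < ε' ∧ 0 < t0 ∧ t0 ≤ 1 / 40 ∧ ∀ T : ℝ, T0 ≤ T →
      (∀ T' : ℝ, |T' - T| ≤ C → LocA κ ε' T') →
      ∀ t : ℝ, 0 < t → t ≤ t0 → κ' - t ≤ t * Real.log T →
      (∀ σ : ℝ, 0 < σ → σ ≤ 60 → GT t fx (T * I + σ) ≠ 0) ∧
      (GT t fx (T * I) = 0 → deriv (GT t fx) (T * I) ≠ 0) := by
  obtain ⟨δ, hδ, hδ1, hmain⟩ := half_mainL κ κ' hκ hκ'
  set η : ℝ := δ / 256 with hη
  have hηpos : 0 < η := by positivity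
  obtain ⟨ε1, C1, T1, t1, hε1, hT1, ht1, hg⟩ := hmain η hηpos
  obtain ⟨ε2, C2, T2, t2, hε2, ht2, hdir⟩ := directL κ (δ / 4) hκ (by positivity)
  obtain ⟨Tf, hTf1, hTf⟩ := exists_frame
  set T0 : ℝ := max (max T1 Tf) (max (max T2 (max C1 C2 + 1)) (Real.exp (3 * (4 + 24 / δ)))) with hT0
  have hT01 : 1 ≤ T0 := hT1.trans ((le_max_left _ _).trans (le_max_left _ _))
  refine ⟨min ε1 ε2, max C1 C2, T0, min (min t1 t2) (1 / 40), by positivity, by positivity,
    min_le_right _ _, ?_⟩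
  intro T hTT0 hloc t ht ht0 hτ
  have hta : t ≤ t1 := ht0.trans ((min_le_left _ _).trans (min_le_left _ _))
  have htb : t ≤ t2 := ht0.trans ((min_le_left _ _).trans (min_le_right _ _))
  have htc : t ≤ 1 / 40 := ht0.trans (min_le_right _ _)
  have hTa : T1 ≤ T := (le_max_left _ _).trans ((le_max_left _ _).trans hTT0)
  have hTb : Tf ≤ T := (le_max_right _ _).trans ((le_max_left _ _).trans hTT0)
  have hTc : Real.exp (3 * (4 + 24 / δ)) ≤ T := (le_max_right _ _).trans ((le_max_right _ _).trans hTT0)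
  have hTd : T2 ≤ T := (le_max_left _ _).trans ((le_max_left _ _).trans ((le_max_right _ _).trans hTT0))
  have hTe : max C1 C2 + 1 ≤ T := (le_max_right _ _).trans ((le_max_left _ _).trans ((le_max_right _ _).trans hTT0))
  have hl1 : ∀ T' : ℝ, |T' - T| ≤ C1 → LocA κ ε1 T' := fun T' h1 =>
    (hloc T' (h1.trans (le_max_left _ _))).mono (by
      have := (abs_le.1 h1).1
      have := le_max_left C1 C2
      linarith) (min_le_left _ _)
  have hl2 : ∀ T' : ℝ, |T' - T| ≤ C2 → LocA κ ε2 T' := fun T' h1 =>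
    (hloc T' (h1.trans (le_max_right _ _))).mono (by
      have := (abs_le.1 h1).1
      have := le_max_right C1 C2
      linarith) (min_le_right _ _)
  have hT1' : 1 ≤ T := hT01.trans hTT0
  obtain ⟨B, u, h, hF⟩ := hTf T hTb
  have hL0 : 0 ≤ Real.log T := Real.log_nonneg hT1'
  have hLbig : 3 * (4 + 24 / δ) ≤ Real.log T := by
    rw [Real.le_log_iff_exp_le (by linarith)]; exact hTc
  have hlam := abs_le.1 hF.lam
  have hb := hg T hTa hl1 B u h hF t ht hta hτ
  set L := Real.log T with hL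
  set G : ℂ → ℂ := fun v => HL t h (v + t * u / 2) with hGdef
  have hRT : ∀ v : ℂ, RT t T v = B * exp (u * v + (t * u / 2) ^ 2 / t) * G v :=
    fun v => RT_frame hF ht v
  have hGd : Differentiable ℂ G := by
    have e : G = fun v => RT t T v / (B * exp (u * v + (t * u / 2) ^ 2 / t)) := by
      funext v
      rw [hRT v, mul_div_cancel_left₀]
      exact mul_ne_zero hF.hB (exp_ne_zero _)
    rw [e]
    intro v
    exact ((RT_diff ht htc T) v).div (by fun_prop) (mul_ne_zero hF.hB (exp_ne_zero _))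
  have hG0 : 0 < √(Real.pi * t) := Real.sqrt_pos.2 (by positivity)
  have hM0 : 0 < 4 * (η * L) + 3 := by positivity
  obtain ⟨q, hq, hqe, hq'⟩ := log_deriv_bound (G := G) (δ := δ) (M := 4 * (η * L) + 3)
    (A1 := 1 / 4 * √(Real.pi * t) * Real.exp (-2 * (η * L)))
    (A2 := 3 * √(Real.pi * t) * Real.exp (2 * (η * L))) hδ hM0 hGd.differentiableOn (by positivity)
    (by
      have e1 : 1 / 4 * √(Real.pi * t) * Real.exp (-2 * (η * L)) * Real.exp (4 * (η * L) + 3) =
          √(Real.pi * t) * Real.exp (2 * (η * L)) * (Real.exp 3 / 4) := by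
        have : Real.exp (-2 * (η * L)) * Real.exp (4 * (η * L) + 3) = Real.exp (2 * (η * L)) * Real.exp 3 := by
          rw [← Real.exp_add, ← Real.exp_add]; congr 1; ring
        calc _ = 1 / 4 * √(Real.pi * t) * (Real.exp (-2 * (η * L)) * Real.exp (4 * (η * L) + 3)) := by ring
          _ = _ := by rw [this]; ring
      rw [e1]
      have h3 : 12 ≤ Real.exp 3 := by
        have := Real.exp_one_gt_d9
        have h15 : Real.exp 3 = Real.exp 1 ^ 3 := by rw [← Real.exp_nat_mul]; norm_num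
        rw [h15]
        calc (12 : ℝ) ≤ 2.7 ^ 3 := by norm_num
          _ ≤ Real.exp 1 ^ 3 := by gcongr; linarith
      have h4 : 0 < √(Real.pi * t) * Real.exp (2 * (η * L)) := by positivity
      nlinarith)
    (fun v hv => (hb v (mem_ball_zero_iff.1 hv).le).1) (fun v hv => (hb v (mem_ball_zero_iff.1 hv).le).2)
  have hMlt : 8 * (4 * (η * L) + 3) / δ < u.re := by
    have e1 : 8 * (4 * (η * L) + 3) / δ = L / 8 + 24 / δ := by
      rw [hη]; field_simp; ring
    rw [e1]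
    have : 0 < 24 / δ := by positivity
    linarith [hlam.1]
  obtain ⟨r1, r2⟩ := real_simple_abs ht htc hδ hF.hB hRT hq hqe hq' hMlt
  refine ⟨fun σ hσ hσ60 => ?_, r2⟩
  rcases le_total σ (δ / 4) with h1 | h1
  · exact r1 σ hσ h1
  · exact hdir T hTd hl2 t ht htb (by linarith) σ h1 hσ60

end Pool.Agent.Helper87.HF
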