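import Pool.Agent.Helper87.HF.Inv3

set_option autoImplicit false

open Complex Set Filter Topology Metric MeasureTheory

namespace Pool.Agent.Helper87.HF

/-- zero-free region of the Gaussian average near height `T` at the time `κ / log T` -/
def LocF (κ a ε C T : ℝ) : Prop :=
  ∀ σ T' : ℝ, a + ε ≤ σ → σ ≤ 1 → |T' - T| ≤ C → GT (κ / Real.log T) fx (T' * I + σ) ≠ 0

lemma LocF.mono {κ a ε C C' T : ℝ} (h : LocF κ a ε C T) (hC : C' ≤ C) : LocF κ a ε C' T :=
  fun σ T' h1 h2 h3 => h σ T' h1 h2 (h3.trans hC)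

/-- logarithm of the Gaussian average -/
theorem KlogL (κ a ε η Y1 : ℝ) (hκ : 0 < κ) (ha : 0 ≤ a) (ha1 : a ≤ 1 / 2) (hε : 0 < ε)
    (hε1 : ε ≤ 1 / 4) (hη : 0 < η) (hY1 : 0 ≤ Y1) :
    ∃ T0 : ℝ, Real.exp 1 ≤ T0 ∧ ∀ T : ℝ, T0 ≤ T → LocF κ a ε (Y1 + 30) T → ∀ (B u : ℂ) (h : ℂ → ℂ), Frame T B u h →
    ∀ t : ℝ, t = κ / Real.log T → ∀ y1 : ℝ, |y1| ≤ Y1 →
    ∃ q : ℂ → ℂ, DifferentiableOn ℂ q (ball 0 (30 - a - ε)) ∧
      (∀ z ∈ ball (0 : ℂ) (30 - a - ε), exp (q z) =
        GT t h ((30 : ℝ) + y1 * I + t * u / 2 + z) / √(Real.pi * t)) ∧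
      ∀ z : ℂ, ‖z‖ ≤ 30 - a - 2 * ε → ‖q z‖ ≤ η * Real.log T := by
  obtain ⟨tb, htb, hA2⟩ := direct κ (1 / 2) (1 / 4) hκ (by norm_num) le_rfl (by norm_num)
    (ZSide_half κ hκ)
  obtain ⟨Tr, tr, hTr1, htr, htr', hr⟩ := right_gen (Y1 + 1) 1 (by linarith) one_pos
  -- size constant
  set S : ℝ := 82 + κ + Y1 with hS
  have hS0 : 0 < S := by positivity
  set A : ℝ := 10 + 6 * S ^ 2 + 2 * S + 4 * κ with hAdef
  have hA10 : 10 ≤ A := num_i1 hS0 hκ hAdef
  have hA6 : 6 ≤ A := by linarith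
  obtain ⟨L0, hL0⟩ := loc A 1 (30 - a - ε) ε η (by linarith) one_pos hε (by linarith) hη
  set t0 : ℝ := min tb (min (min tr (1 / 400)) 1) with ht0
  have ht0pos : 0 < t0 := by positivity
  refine ⟨Real.exp (max (max L0 8) (κ / t0)) + Tr + 2 * (Y1 + 30), ?_, ?_⟩
  · have h1 : Real.exp 1 ≤ Real.exp (max (max L0 8) (κ / t0)) := by
      apply Real.exp_le_exp.2
      exact (by norm_num : (1 : ℝ) ≤ 8).trans ((le_max_right _ _).trans (le_max_left _ _))
    linarith
  intro T hT hLoc B u h hF t htdef y1 hy1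
  have hTe : Real.exp (max (max L0 8) (κ / t0)) ≤ T := by linarith
  have hTpos : 0 < T := (Real.exp_pos _).trans_le hTe
  have hLL : max (max L0 8) (κ / t0) ≤ Real.log T := by
    rw [Real.le_log_iff_exp_le hTpos]; exact hTe
  have hLa : L0 ≤ Real.log T := (le_max_left _ _).trans ((le_max_left _ _).trans hLL)
  have hLb : 8 ≤ Real.log T := (le_max_right _ _).trans ((le_max_left _ _).trans hLL)
  have hLc : κ / t0 ≤ Real.log T := (le_max_right _ _).trans hLL
  have hT1 : 1 ≤ T := by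
    have := Real.add_one_le_exp (max (max L0 8) (κ / t0))
    have h8 : (8 : ℝ) ≤ max (max L0 8) (κ / t0) := (le_max_right _ _).trans (le_max_left _ _)
    linarith
  have hTr : Tr ≤ T := by
    have := Real.exp_pos (max (max L0 8) (κ / t0)); linarith
  have hTY : 2 * (Y1 + 30) ≤ T := by
    have := Real.exp_pos (max (max L0 8) (κ / t0)); linarith
  set L := Real.log T with hL
  have hLpos : 0 < L := by linarith
  have ht : 0 < t := by rw [htdef]; positivity
  have htt0 : t ≤ t0 := by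
    rw [htdef, div_le_iff₀ hLpos]
    rw [div_le_iff₀ ht0pos] at hLc
    linarith
  have htL : t * L = κ := by rw [htdef]; field_simp
  have htb' : t ≤ tb := htt0.trans (min_le_left _ _)
  have htr'' : t ≤ tr := htt0.trans ((min_le_right _ _).trans ((min_le_left _ _).trans (min_le_left _ _)))
  have ht400 : t ≤ 1 / 400 := htt0.trans ((min_le_right _ _).trans ((min_le_left _ _).trans (min_le_right _ _)))
  have ht40 : t ≤ 1 / 40 := by linarith
  have hlam := abs_le.1 hF.lam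
  have him := hF.him
  have hexp : Real.exp (κ / t) = T := by
    have : κ / t = L := by rw [← htL]; field_simp
    rw [this, hL, Real.exp_log hTpos]
  have hsq : 0 < √(Real.pi * t) := Real.sqrt_pos.2 (by positivity)
  -- rewriting points
  have hpt : ∀ z : ℂ, (((30 : ℝ) : ℂ) + y1 * I + t * u / 2 + z) = ((30 : ℝ) + y1 * I + z) + t * u / 2 := by
    intro z; ring
  suffices hex : ∃ q : ℂ → ℂ, DifferentiableOn ℂ q (ball 0 (30 - a - ε)) ∧
      (∀ z ∈ ball (0 : ℂ) (30 - a - ε), exp (q z) =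
        GT t h ((30 : ℝ) + y1 * I + t * u / 2 + z) / √(Real.pi * t)) ∧
      ∀ z : ℂ, ‖z‖ ≤ 30 - a - ε - ε → ‖q z‖ ≤ η * L by
    obtain ⟨q, hq1, hq2, hq3⟩ := hex
    exact ⟨q, hq1, hq2, fun z hz => hq3 z (by linarith)⟩
  refine hL0 L hLa (fun z => GT t h ((30 : ℝ) + y1 * I + t * u / 2 + z) / √(Real.pi * t)) ?_ ?_ ?_ ?_
  · intro z _
    have h1 : DifferentiableAt ℂ (fun z => GT t h (((30 : ℝ) : ℂ) + y1 * I + t * u / 2 + z)) z :=
      ((GT_diff_frame hT1 hF ht ht40) _).comp z (by fun_prop)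
    exact (h1.div_const _).differentiableWithinAt
  · intro z hz
    rw [mem_ball_zero_iff] at hz
    have hzre := abs_le.1 ((Complex.abs_re_le_norm z).trans hz.le)
    have hzim := abs_le.1 ((Complex.abs_im_le_norm z).trans hz.le)
    have hy1' := abs_le.1 hy1
    refine div_ne_zero ?_ (by exact_mod_cast hsq.ne')
    rw [hpt z, ← GT_fx_ne hT1 hF ht ht40]
    have e1 : (T * I + ((30 : ℝ) + y1 * I + z) : ℂ) = ((T + y1 + z.im : ℝ) : ℂ) * I +
        ((30 + z.re : ℝ) : ℂ) := by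
      conv_lhs => rw [← re_add_im z]
      push_cast; ring
    rw [e1]
    have hexp2 : Real.exp (κ / t) ≤ 2 * (T + y1 + z.im) := by rw [hexp]; linarith
    rcases le_total (30 + z.re) 1 with h1 | h1
    · rw [htdef]
      refine hLoc (30 + z.re) (T + y1 + z.im) (by linarith [hz]) h1 ?_
      rw [abs_le]; constructor <;> linarith
    · exact hA2 t ht htb' (30 + z.re) (T + y1 + z.im) (by linarith) (by linarith) hexp2
  · intro z hz
    rw [mem_ball_zero_iff] at hz
    rw [norm_div, Complex.norm_real, Real.norm_of_nonneg hsq.le, div_le_iff₀ hsq]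
    refine (K_bound hT1 hF ht (by linarith) _).trans ?_
    have hlamL : |u.re| ≤ L := by rw [abs_le]; constructor <;> linarith
    have hun : ‖u‖ ≤ L := by
      have h1 := norm_sub_norm_le u (Real.log T / 2 : ℝ)
      rw [Complex.norm_real, Real.norm_of_nonneg (by positivity)] at h1
      have := hF.hu
      linarith
    have hsn : ‖(((30 : ℝ) : ℂ) + y1 * I + t * u / 2 + z)‖ ≤ S := by
      have b1 : ‖(t * u / 2 : ℂ)‖ ≤ κ / 2 := by
        rw [show (t * u / 2 : ℂ) = ((t / 2 : ℝ) : ℂ) * u by push_cast; ring, norm_mul,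
          Complex.norm_real, Real.norm_of_nonneg (by positivity)]
        calc t / 2 * ‖u‖ ≤ t / 2 * L := by gcongr
          _ = κ / 2 := by rw [← htL]; ring
      have b2 : ‖(((30 : ℝ) : ℂ) + y1 * I)‖ ≤ 30 + Y1 := by
        refine (norm_add_le _ _).trans ?_
        rw [norm_mul, Complex.norm_I, mul_one, Complex.norm_real, Complex.norm_real,
          Real.norm_of_nonneg (by norm_num), Real.norm_eq_abs]
        linarith
      have b3 := norm_add_le (((30 : ℝ) : ℂ) + y1 * I + t * u / 2) z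
      have b4 := norm_add_le (((30 : ℝ) : ℂ) + y1 * I) (t * u / 2 : ℂ)
      linarith
    set N := ‖(((30 : ℝ) : ℂ) + y1 * I + t * u / 2 + z)‖ with hN
    have hN0 : 0 ≤ N := norm_nonneg _
    have c1 : 7 / 2 * N ^ 2 ≤ 6 * S ^ 2 * L := by
      have : N ^ 2 ≤ S ^ 2 := by gcongr
      exact num_i2 this hLb
    have c2 : 2 * |u.re| * N ≤ 2 * S * L := by
      calc 2 * |u.re| * N ≤ 2 * L * S := by gcongr
        _ = _ := by ring
    have c3 : 4 * t * |u.re| ^ 2 ≤ 4 * κ * L := by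
      calc 4 * t * |u.re| ^ 2 ≤ 4 * t * L ^ 2 := by gcongr
        _ = 4 * (t * L) * L := by ring
        _ = _ := by rw [htL]
    have c4 : (2 : ℝ) ≤ Real.exp L := by
      have := Real.add_one_le_exp L; linarith
    calc 2 * √(Real.pi * t) * Real.exp (6 * L + 7 / 2 * N ^ 2 + 2 * |u.re| * N + 4 * t * |u.re| ^ 2) ≤
        Real.exp L * √(Real.pi * t) * Real.exp (6 * L + 6 * S ^ 2 * L + 2 * S * L + 4 * κ * L) := by
          gcongr
      _ = Real.exp (L + (6 * L + 6 * S ^ 2 * L + 2 * S * L + 4 * κ * L)) * √(Real.pi * t) := by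
          rw [Real.exp_add L]; ring
      _ ≤ Real.exp (A * L) * √(Real.pi * t) := by
          gcongr
          exact num_i3 hLpos hAdef
  · intro z hz
    rw [mem_ball_zero_iff] at hz
    have hzre := abs_le.1 ((Complex.abs_re_le_norm z).trans hz.le)
    have hzim := abs_le.1 ((Complex.abs_im_le_norm z).trans hz.le)
    have hy1' := abs_le.1 hy1
    have e2 : (((30 : ℝ) : ℂ) + y1 * I + t * u / 2 + z) =
        ((30 + z.re : ℝ) : ℂ) + ((y1 + z.im : ℝ) : ℂ) * I + t * u / 2 := by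
      conv_lhs => rw [← re_add_im z]
      push_cast; ring
    have hlow : κ / 4 - 2 * t ≤ t * u.re / 2 := by
      have : t * (L / 2 - 4) ≤ t * u.re := by gcongr; linarith [hlam.1]
      have : t * (L / 2) = κ / 2 := by rw [← htL]; ring
      linarith
    have key := hr T hTr B u h hF t ht htr'' (30 + z.re) (y1 + z.im) (by linarith) (by linarith)
      (by rw [abs_le]; constructor <;> linarith) (by linarith) ?_
    · rw [norm_div, Complex.norm_real, Real.norm_of_nonneg hsq.le, e2]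
      obtain ⟨k1, k2⟩ := key
      constructor
      · rw [le_div_iff₀ hsq]
        refine le_trans ?_ k1
        have d1 : Real.exp (-A) ≤ 1 / 8 * Real.exp (-2 * 2) := num_i5 hA10
        calc Real.exp (-A) * √(Real.pi * t) ≤ (1 / 8 * Real.exp (-2 * 2)) * √(Real.pi * t) := by
              gcongr
          _ = _ := by ring
      · rw [div_le_iff₀ hsq]
        refine k2.trans ?_
        have d1 : 4 * Real.exp (2 * 2) ≤ Real.exp A := num_i4 hA6
        calc 4 * √(Real.pi * t) * Real.exp (2 * 2) = (4 * Real.exp (2 * 2)) * √(Real.pi * t) := by ring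
          _ ≤ _ := by gcongr
    · rw [le_div_iff₀ (by positivity)]
      have e3 : (7 * Real.log T + 200 / t) * (2 * t) = 14 * κ + 400 := by
        rw [← htL]; field_simp; ring
      rw [e3]
      have h5 : 25 + κ / 4 ≤ 30 + z.re + t * u.re / 2 - 3 := by linarith
      have h6 : (25 + κ / 4) ^ 2 ≤ (30 + z.re + t * u.re / 2 - 3) ^ 2 := by gcongr
      exact num_i6 h6

/-- combined bound for the Gaussian average on the critical scale -/
theorem KBL (κ a ε η : ℝ) (hκ : 0 < κ) (ha : 0 ≤ a) (ha1 : a ≤ 1 / 2) (hε : 0 < ε)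
    (hε1 : ε ≤ 1 / 4) (hη : 0 < η) :
    ∃ C T0 : ℝ, Real.exp 1 ≤ T0 ∧ ∀ T : ℝ, T0 ≤ T → LocF κ a ε C T → ∀ (B u : ℂ) (h : ℂ → ℂ), Frame T B u h →
    ∀ t : ℝ, t = κ / Real.log T → t ≤ 1 / 400 ∧ ∀ s : ℂ, a + 2 * ε ≤ s.re - t * u.re / 2 →
    s.re - t * u.re / 2 ≤ 30 →
    ‖GT t h s‖ ≤ √(Real.pi * t) * Real.exp (η * Real.log T + s.im ^ 2 / (2 * t)) := by
  set S : ℝ := 31 + κ with hS
  set W : ℝ := 7 + 12 * S ^ 2 + 2 * S + 12 * κ with hW
  have hW0 : 0 < W := by positivity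
  set Y0 : ℝ := 1 + 4 * κ * W with hY0
  have hY01 : 1 ≤ Y0 := by rw [hY0]; have : 0 < 4 * κ * W := by positivity
                           linarith
  obtain ⟨T1, hT1e, hq⟩ := KlogL κ a ε η (Y0 + 1) hκ ha ha1 hε hε1 hη (by linarith)
  refine ⟨Y0 + 1 + 30, T1 + Real.exp (96 * κ + 400 * κ + 8), by have := Real.exp_pos (96 * κ + 400 * κ + 8); linarith, ?_⟩
  intro T hT hLoc B u h hF t htdef
  have hTa : T1 ≤ T := by have := Real.exp_pos (96 * κ + 400 * κ + 8); linarith
  have hT1pos : 0 < T1 := (Real.exp_pos 1).trans_le hT1e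
  have hTb : Real.exp (96 * κ + 400 * κ + 8) ≤ T := by linarith
  have hTpos : 0 < T := by linarith
  have hLb : 96 * κ + 400 * κ + 8 ≤ Real.log T := by
    rw [Real.le_log_iff_exp_le hTpos]; exact hTb
  have hT1 : 1 ≤ T := by
    have := Real.add_one_le_exp (1 : ℝ); linarith
  set L := Real.log T with hL
  have hLpos : 0 < L := by linarith
  have ht : 0 < t := by rw [htdef]; positivity
  have htL : t * L = κ := by rw [htdef]; field_simp
  have ht400 : t ≤ 1 / 400 := by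
    rw [htdef, div_le_iff₀ hLpos]; linarith
  refine ⟨ht400, ?_⟩
  intro s hs1 hs2
  have hlam := abs_le.1 hF.lam
  have him := abs_le.1 hF.him
  have hsq : 0 < √(Real.pi * t) := Real.sqrt_pos.2 (by positivity)
  rcases le_total |s.im| Y0 with hy | hy
  · have hy' := abs_le.1 hy
    have hy1 : |s.im - t * u.im / 2| ≤ Y0 + 1 := by
      exact num_j0 ht (by linarith) hy hF.him
    obtain ⟨q, hq1, hq2, hq3⟩ := hq T hTa hLoc B u h hF t htdef _ hy1
    have e1 : (((30 : ℝ) : ℂ) + ((s.im - t * u.im / 2 : ℝ) : ℂ) * I + t * u / 2 +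
        ((s.re - t * u.re / 2 - 30 : ℝ) : ℂ)) = s := by
      apply Complex.ext
      · simp; ring
      · simp
    have hn : ‖((s.re - t * u.re / 2 - 30 : ℝ) : ℂ)‖ ≤ 30 - a - 2 * ε := by
      rw [Complex.norm_real, Real.norm_eq_abs, abs_of_nonpos (by linarith)]
      linarith
    have h1 := hq2 _ (by rw [mem_ball_zero_iff]; linarith)
    have h2 := hq3 _ hn
    rw [e1] at h1
    have h3 : GT t h s = exp (q ((s.re - t * u.re / 2 - 30 : ℝ) : ℂ)) * √(Real.pi * t) := by
      rw [h1, div_mul_cancel₀]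
      exact_mod_cast hsq.ne'
    rw [h3, norm_mul, Complex.norm_exp, Complex.norm_real, Real.norm_of_nonneg hsq.le, mul_comm]
    refine mul_le_mul_of_nonneg_left (Real.exp_le_exp.2 ?_) hsq.le
    have h4 := (Complex.re_le_norm _).trans h2
    have : 0 ≤ s.im ^ 2 / (2 * t) := by positivity
    linarith
  · refine (K_bound hT1 hF ht (by linarith) s).trans ?_
    have hlamL : |u.re| ≤ L := by rw [abs_le]; constructor <;> linarith
    have htu : t * |u.re| ≤ κ := by
      calc t * |u.re| ≤ t * L := by gcongr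
        _ = κ := htL
    have hsre : |s.re| ≤ S := by
      have h1 : t * u.re ≤ κ := (mul_le_mul_of_nonneg_left (le_abs_self _) ht.le).trans htu
      have h2 : -κ ≤ t * u.re := by
        have := mul_le_mul_of_nonneg_left (neg_abs_le u.re) ht.le
        linarith
      rw [abs_le]; constructor <;> linarith
    set y := |s.im| with hyd
    have hy2 : s.im ^ 2 = y ^ 2 := by rw [hyd, sq_abs]
    have hy0 : 0 ≤ y := abs_nonneg _
    have hsn : ‖s‖ ≤ S + y := (Complex.norm_le_abs_re_add_abs_im s).trans (by linarith)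
    have hsn2 : ‖s‖ ^ 2 = s.re ^ 2 + s.im ^ 2 := by
      rw [← Complex.normSq_eq_norm_sq, Complex.normSq_apply]; ring
    have hsre2 : s.re ^ 2 ≤ S ^ 2 := by rw [← sq_abs]; gcongr
    have c2 : 2 * |u.re| * ‖s‖ ≤ 2 * L * (S + y) := by gcongr
    have c3 : 4 * t * |u.re| ^ 2 ≤ 4 * κ * L := by
      calc 4 * t * |u.re| ^ 2 ≤ 4 * t * L ^ 2 := by gcongr
        _ = 4 * (t * L) * L := by ring
        _ = _ := by rw [htL]
    have c4 : (2 : ℝ) ≤ Real.exp L := by
      have := Real.add_one_le_exp L; linarith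
    have hyt : y ^ 2 / (2 * t) = y ^ 2 * L / (2 * κ) := by
      rw [← htL]; field_simp
    rw [hy2, hyt]
    set P := y ^ 2 * L / (8 * κ) with hP
    have hP0 : 0 ≤ P := by positivity
    have hP4 : y ^ 2 * L / (2 * κ) = 4 * P := by rw [hP]; field_simp; ring
    have d1 : 12 * y ^ 2 ≤ P := by
      rw [hP, le_div_iff₀ (by positivity)]
      exact num_j1 (by linarith)
    have d2 : 2 * L * y ≤ P + 8 * κ * L := by
      rw [← sub_nonneg]
      have e : P + 8 * κ * L - 2 * L * y = L * (y - 8 * κ) ^ 2 / (8 * κ) := by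
        rw [hP]; field_simp; ring
      rw [e]; positivity
    have d3 : W * L ≤ 2 * P := by
      rw [hP]
      have e : 2 * (y ^ 2 * L / (8 * κ)) = y ^ 2 * L / (4 * κ) := by field_simp; ring
      rw [e, le_div_iff₀ (by positivity)]
      exact num_j2 hy (by positivity) hLpos
    have d4 : 12 * S ^ 2 ≤ 12 * S ^ 2 * L := num_j4 (by linarith)
    rw [hP4]
    calc 2 * √(Real.pi * t) * Real.exp (6 * L + 7 / 2 * ‖s‖ ^ 2 + 2 * |u.re| * ‖s‖ + 4 * t * |u.re| ^ 2) ≤
        Real.exp L * √(Real.pi * t) * Real.exp (6 * L + 7 / 2 * (S ^ 2 + y ^ 2) + 2 * L * (S + y) + 4 * κ * L) := by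
          gcongr
          rw [hsn2, hy2]
          linarith
      _ = √(Real.pi * t) * Real.exp (L + (6 * L + 7 / 2 * (S ^ 2 + y ^ 2) + 2 * L * (S + y) + 4 * κ * L)) := by
          rw [Real.exp_add L]; ring
      _ ≤ _ := by
          refine mul_le_mul_of_nonneg_left (Real.exp_le_exp.2 ?_) hsq.le
          exact num_j5 hW d1 d2 d3 d4 (by positivity)

/-- Converse part, growth, local form: zero-free regions of the Gaussian averages bound zeta. -/
theorem inverse_ML (κ a ε' : ℝ) (hκ : 0 < κ) (ha : 0 ≤ a) (ha1 : a ≤ 1 / 2) (hε' : 0 < ε') :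
    ∃ ε C T0 : ℝ, 0 < ε ∧ ∀ T v : ℝ, T0 ≤ T → LocF κ a ε C T → 0 ≤ v → v ≤ 3 / 2 →
    ‖riemannZeta (1 / 2 + T * I + ((a + v : ℝ) : ℂ))‖ ≤
      Real.exp (((max (κ / 4 - v) 0) ^ 2 / κ + ε') * Real.log T) := by
  have hmax : ∀ v : ℝ, 0 ≤ v → max (κ / 4 - v) 0 ≤ κ / 4 := fun v hv =>
    max_le (by linarith) (by linarith)
  set ε : ℝ := min (1 / 4) (min (κ / 16) (ε' / 16)) with hε
  have hε0 : 0 < ε := by positivity
  have hε14 : ε ≤ 1 / 4 := min_le_left _ _
  have hε2 : ε ≤ κ / 16 := (min_le_right _ _).trans (min_le_left _ _)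
  have hε3 : ε ≤ ε' / 16 := (min_le_right _ _).trans (min_le_right _ _)
  obtain ⟨Cl, T1, hT1e, hKB⟩ := KBL κ a ε (ε' / 4) hκ ha ha1 hε0 hε14 (by linarith)
  obtain ⟨Tf, hTf1, hTf⟩ := exists_frame
  refine ⟨ε, Cl, max (max T1 Tf) (max (Real.exp (8 / ε' + 4 * κ / ε)) ((2 + κ) ^ 3)), hε0, ?_⟩
  intro T v hT hLoc hv0 hv1
  have hTa : T1 ≤ T := (le_max_left _ _).trans ((le_max_left _ _).trans hT)
  have hTb : Tf ≤ T := (le_max_right _ _).trans ((le_max_left _ _).trans hT)
  have hTc : Real.exp (8 / ε' + 4 * κ / ε) ≤ T := (le_max_left _ _).trans ((le_max_right _ _).trans hT)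
  have hTd : (2 + κ) ^ 3 ≤ T := (le_max_right _ _).trans ((le_max_right _ _).trans hT)
  have hT1 : 1 ≤ T := hTf1.trans hTb
  have hTpos : 0 < T := by linarith
  have hL8 : 8 / ε' + 4 * κ / ε ≤ Real.log T := by
    rw [Real.le_log_iff_exp_le hTpos]; exact hTc
  obtain ⟨B, u, h, hF⟩ := hTf T hTb
  set L := Real.log T with hL
  have hLpos : 0 < L := by
    have : 0 < 8 / ε' + 4 * κ / ε := by positivity
    linarith
  set t : ℝ := κ / L with htdef
  obtain ⟨ht400, hK⟩ := hKB T hTa hLoc B u h hF t rfl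
  have ht : 0 < t := by positivity
  have htL : t * L = κ := by rw [htdef]; field_simp
  have hlam := abs_le.1 hF.lam
  have ht2ε : 4 * t ≤ ε := by
    have h1 : 4 * κ / ε ≤ L := by
      have : 0 < 8 / ε' := by positivity
      linarith
    rw [div_le_iff₀ hε0] at h1
    rw [htdef, ← mul_div_assoc, div_le_iff₀ hLpos]
    linarith
  have hε'L : 8 ≤ ε' * L := by
    have h1 : 8 / ε' ≤ L := by
      have : 0 < 4 * κ / ε := by positivity
      linarith
    rw [div_le_iff₀ hε'] at h1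
    linarith
  have hb1 : κ / 4 - 2 * t ≤ t * u.re / 2 := by
    have h1 : t * (L / 2 - 4) ≤ t * u.re := by gcongr; linarith [hlam.1]
    have h2 : t * (L / 2) = κ / 2 := by rw [← htL]; ring
    linarith
  have hb2 : t * u.re / 2 ≤ κ / 4 + 2 * t := by
    have h1 : t * u.re ≤ t * (L / 2 + 4) := by gcongr; linarith [hlam.2]
    have h2 : t * (L / 2) = κ / 2 := by rw [← htL]; ring
    linarith
  set b0 := t * u.re / 2 with hb0
  set s : ℝ := a + v with hs
  set w : ℝ := max (κ / 4 - v) 0 with hw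
  have hw0 : 0 ≤ w := le_max_right _ _
  have hw1 : κ / 4 - v ≤ w := le_max_left _ _
  have hw2 : w ≤ κ / 4 := hmax v hv0
  set x0 : ℝ := max (b0 + a + 3 * ε - s) 0 with hx0
  have hx0c : b0 + a + 3 * ε - s ≤ x0 := le_max_left _ _
  have hx0d : 0 ≤ x0 := le_max_right _ _
  have hx0b : x0 ≤ w + 4 * ε := max_le (by rw [hs]; linarith) (by linarith)
  have hx0e : x0 ≤ 30 + b0 - s := by
    have : s ≤ 2 := by rw [hs]; linarith
    exact max_le (by linarith) (by linarith)
  have hsq : 0 < √(Real.pi * t) := Real.sqrt_pos.2 (by positivity)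
  -- inverse formula
  have hgr : ∀ z : ℂ, ‖h z‖ ≤ (T ^ 6 * Real.exp (2 * |u.re| ^ 2 + 28 * ‖(0 : ℂ)‖ ^ 2)) *
      Real.exp (4 * ‖z‖ ^ 2) := by
    have := hF.growth hT1 0
    simpa only [add_zero] using this
  have hinv := GT_inv ht (by linarith) hF.hd hgr (s : ℂ)
  obtain ⟨C, hC⟩ := rot_growth hT1 hF ht (by linarith) s
  have hrd := rot_diff hT1 hF ht (by linarith) s
  set g : ℂ → ℂ := fun z => GT t h (s + z * I) with hg
  set k : ℂ → ℂ := fun z => exp (-(z - 0) ^ 2 / t) * g z with hk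
  have hkd : Differentiable ℂ k := by
    rw [hk]; fun_prop
  have hC0 : 0 ≤ C := by
    have := (norm_nonneg _).trans (hC 0)
    exact nonneg_of_mul_nonneg_left this (Real.exp_pos _)
  have hshift := shift_line hkd (y0 := -x0)
    (C := C * Real.exp ((0 : ℂ).re ^ 2 / t + (|(-x0)| + |(0 : ℂ).im|) ^ 2 / t + 4 * |(-x0)| ^ 2))
    (fun x y hy => by
      refine (gauss_growth ht (by linarith) hC 0 x y |(-x0)| hy).trans ?_
      refine mul_le_mul_of_nonneg_left (Real.exp_le_exp.2 ?_) (by positivity)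
      exact num_k0 x)
  have hki : ∫ y : ℝ, k y = Real.pi * t * h s := by
    rw [← hinv]
    refine integral_congr_ae (Eventually.of_forall fun y => ?_)
    simp only [hk, hg, sub_zero]
  rw [hki] at hshift
  -- bound of the shifted integral
  obtain ⟨gi, gv⟩ := gauss_int ht (1 / 2) (by norm_num)
  have hbd : ‖∫ y : ℝ, k (y + (-x0 : ℝ) * I)‖ ≤
      ∫ y : ℝ, (Real.exp (x0 ^ 2 / t + ε' / 4 * L) * √(Real.pi * t)) * Real.exp (-(1 / 2 * y ^ 2 / t)) := by
    refine norm_integral_le_of_norm_le (gi.const_mul _) (Eventually.of_forall fun y => ?_)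
    simp only [hk]
    rw [norm_mul, norm_gauss]
    have e1 : ((y : ℂ) + (-x0 : ℝ) * I).re = y := by simp
    have e2 : ((y : ℂ) + (-x0 : ℝ) * I).im = -x0 := by simp
    rw [e1, e2, Complex.zero_re, Complex.zero_im, sub_zero, sub_zero]
    have e3 : (s : ℂ) + ((y : ℂ) + (-x0 : ℝ) * I) * I = ((s + x0 : ℝ) : ℂ) + y * I := by
      push_cast
      linear_combination (-(x0 : ℂ)) * I_mul_I
    have h1 := hK (((s + x0 : ℝ) : ℂ) + y * I) (by simp; linarith)
      (by simp; linarith)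
    have e4 : (((s + x0 : ℝ) : ℂ) + y * I).im = y := by simp
    rw [e4] at h1
    simp only [hg]
    rw [e3]
    calc Real.exp (-(y ^ 2 - (-x0) ^ 2) / t) * ‖GT t h (((s + x0 : ℝ) : ℂ) + y * I)‖ ≤
        Real.exp (-(y ^ 2 - (-x0) ^ 2) / t) * (√(Real.pi * t) *
          Real.exp (ε' / 4 * L + y ^ 2 / (2 * t))) := by gcongr
      _ = √(Real.pi * t) * (Real.exp (-(y ^ 2 - (-x0) ^ 2) / t) *
          Real.exp (ε' / 4 * L + y ^ 2 / (2 * t))) := by ring
      _ = √(Real.pi * t) * (Real.exp (x0 ^ 2 / t + ε' / 4 * L) * Real.exp (-(1 / 2 * y ^ 2 / t))) := by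
          rw [← Real.exp_add, ← Real.exp_add]
          congr 2
          field_simp
          ring
      _ = _ := by ring
  rw [integral_const_mul, gv] at hbd
  have e5 : √(Real.pi * t / (1 / 2)) ≤ 2 * √(Real.pi * t) := by
    rw [Real.sqrt_le_left (by positivity), mul_pow, Real.sq_sqrt (by positivity)]
    have : 0 < Real.pi * t := by positivity
    rw [div_le_iff₀ (by norm_num)]
    linarith
  have hnorm : Real.pi * t * ‖h s‖ ≤ 2 * (Real.pi * t) * Real.exp (x0 ^ 2 / t + ε' / 4 * L) := by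
    have e6 : ‖(Real.pi * t * h s : ℂ)‖ = Real.pi * t * ‖h s‖ := by
      rw [norm_mul, norm_mul, Complex.norm_real, Complex.norm_real,
        Real.norm_of_nonneg Real.pi_pos.le, Real.norm_of_nonneg ht.le]
    rw [← e6, hshift]
    refine hbd.trans ?_
    calc Real.exp (x0 ^ 2 / t + ε' / 4 * L) * √(Real.pi * t) * √(Real.pi * t / (1 / 2)) ≤
        Real.exp (x0 ^ 2 / t + ε' / 4 * L) * √(Real.pi * t) * (2 * √(Real.pi * t)) := by gcongr
      _ = 2 * (√(Real.pi * t) * √(Real.pi * t)) * Real.exp (x0 ^ 2 / t + ε' / 4 * L) := by ring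
      _ = _ := by rw [Real.mul_self_sqrt (by positivity)]
  have hhs : ‖h s‖ ≤ 2 * Real.exp (x0 ^ 2 / t + ε' / 4 * L) := by
    have hpt : 0 < Real.pi * t := by positivity
    have : Real.pi * t * ‖h s‖ ≤ Real.pi * t * (2 * Real.exp (x0 ^ 2 / t + ε' / 4 * L)) := by linarith
    exact le_of_mul_le_mul_left this hpt
  have hs0 : 0 ≤ s := by positivity
  have h4 := hF.h1 s (by rw [Complex.ofReal_re]; exact hs0) (by
    rw [Complex.norm_real, Real.norm_of_nonneg hs0]
    refine le_trans ?_ hTd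
    have : s ≤ 2 + κ := by rw [hs]; linarith
    gcongr)
  set Z := riemannZeta (1 / 2 + T * I + s)
  have h5 : ‖Z‖ ≤ 2 * ‖h s‖ := by
    have := norm_sub_norm_le Z (h s)
    rw [norm_sub_rev] at this
    linarith [norm_nonneg Z]
  have h6 : x0 ^ 2 / t ≤ (w ^ 2 / κ + ε' / 4) * L := by
    have e7 : x0 ^ 2 / t = x0 ^ 2 / κ * L := by rw [← htL]; field_simp
    rw [e7]
    refine mul_le_mul_of_nonneg_right ?_ hLpos.le
    rw [div_le_iff₀ hκ, add_mul, div_mul_cancel₀ _ hκ.ne']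
    have h7 : x0 ^ 2 ≤ (κ / 4 - (κ / 4 - w) + 4 * ε) ^ 2 := by
      have e9 : κ / 4 - (κ / 4 - w) + 4 * ε = w + 4 * ε := by ring
      rw [e9]
      gcongr
    have h70 := num_k1 hκ (show 0 ≤ κ / 4 - w by linarith) hε0 hε2 hε3 h7
    have e10 : κ / 4 - (κ / 4 - w) = w := by ring
    rwa [e10] at h70
  have h8 : (4 : ℝ) ≤ Real.exp (ε' / 2 * L) := by
    have := Real.add_one_le_exp (ε' / 2 * L); linarith
  calc ‖Z‖ ≤ 2 * ‖h s‖ := h5
    _ ≤ 2 * (2 * Real.exp (x0 ^ 2 / t + ε' / 4 * L)) := by gcongr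
    _ ≤ Real.exp (ε' / 2 * L) * Real.exp ((w ^ 2 / κ + ε' / 4) * L + ε' / 4 * L) := by
        have h9 : Real.exp (x0 ^ 2 / t + ε' / 4 * L) ≤
            Real.exp ((w ^ 2 / κ + ε' / 4) * L + ε' / 4 * L) := by gcongr
        exact num_k2 h8 h9 (Real.exp_pos _).le
    _ = _ := by rw [← Real.exp_add]; congr 1; ring

/-- Converse part, zeros, local form. -/
theorem inverse_ZL (κ a ε' : ℝ) (hκ : 0 < κ) (ha : 0 ≤ a) (ha1 : a ≤ 1 / 2) (hε' : 0 < ε') :
    ∃ ε C T0 : ℝ, 0 < ε ∧ ∀ T σ : ℝ, T0 ≤ T → LocF κ a ε C T → a + κ / 4 + ε' ≤ σ →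
    riemannZeta (1 / 2 + T * I + σ) ≠ 0 := by
  set ε : ℝ := min (1 / 4) (ε' / 8) with hε
  have hε0 : 0 < ε := by positivity
  have hε14 : ε ≤ 1 / 4 := min_le_left _ _
  have hε2 : ε ≤ ε' / 8 := min_le_right _ _
  set η : ℝ := ε ^ 2 / (800 * κ) with hη
  have hη0 : 0 < η := by positivity
  obtain ⟨Cl, T1, hT1e, hKB⟩ := KBL κ a ε η hκ ha ha1 hε0 hε14 hη0
  obtain ⟨T2, hT2e, hq⟩ := KlogL κ a ε η 1 hκ ha ha1 hε0 hε14 hη0 zero_le_one
  obtain ⟨Tf, hTf1, hTf⟩ := exists_frame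
  obtain ⟨t4, ht4, hell⟩ := ell_small (ε ^ 2 / 400) (by positivity)
  refine ⟨ε, max Cl (1 + 30), max (max T1 (max T2 Tf)) (Real.exp (κ / t4 + 4000 * κ / ε ^ 2 + 1)), hε0, ?_⟩
  intro T σ hT hLoc hσ
  rcases le_total (1 / 2) σ with hσ2 | hσ2
  · refine riemannZeta_ne_zero_of_one_le_re ?_
    have : (1 / 2 + T * I + σ : ℂ).re = 1 / 2 + σ := by simp
    rw [this]
    linarith
  have hTa : T1 ≤ T := (le_max_left _ _).trans ((le_max_left _ _).trans hT)
  have hTb : T2 ≤ T := (le_max_left _ _).trans ((le_max_right _ _).trans ((le_max_left _ _).trans hT))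
  have hTb2 : Tf ≤ T := (le_max_right _ _).trans ((le_max_right _ _).trans ((le_max_left _ _).trans hT))
  have hTc : Real.exp (κ / t4 + 4000 * κ / ε ^ 2 + 1) ≤ T := (le_max_right _ _).trans hT
  have hT1 : 1 ≤ T := hTf1.trans hTb2
  have hTpos : 0 < T := by linarith
  have hL8 : κ / t4 + 4000 * κ / ε ^ 2 + 1 ≤ Real.log T := by
    rw [Real.le_log_iff_exp_le hTpos]; exact hTc
  obtain ⟨B, u, h, hF⟩ := hTf T hTb2
  set L := Real.log T with hL
  have hLpos : 0 < L := by
    have : 0 < κ / t4 + 4000 * κ / ε ^ 2 := by positivity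
    linarith
  set t : ℝ := κ / L with htdef
  obtain ⟨ht400, hK⟩ := hKB T hTa (hLoc.mono (le_max_left _ _)) B u h hF t rfl
  have ht : 0 < t := by positivity
  have htL : t * L = κ := by rw [htdef]; field_simp
  have hlam := abs_le.1 hF.lam
  have htt4 : t ≤ t4 := by
    have h1 : κ / t4 ≤ L := by
      have : 0 < 4000 * κ / ε ^ 2 := by positivity
      linarith
    rw [div_le_iff₀ ht4] at h1
    rw [htdef, div_le_iff₀ hLpos]
    linarith
  have htε : t ≤ ε ^ 2 / 4000 := by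
    have h1 : 4000 * κ / ε ^ 2 ≤ L := by
      have : 0 < κ / t4 := by positivity
      linarith
    rw [div_le_iff₀ (by positivity)] at h1
    rw [htdef, div_le_iff₀ hLpos]
    linarith
  have hεsq : ε ^ 2 ≤ ε := pow_le_of_le_one hε0.le (by linarith) two_ne_zero
  have hel := hell t ht htt4
  have hb1 : κ / 4 - 2 * t ≤ t * u.re / 2 := by
    have h1 : t * (L / 2 - 4) ≤ t * u.re := by gcongr; linarith [hlam.1]
    have h2 : t * (L / 2) = κ / 2 := by rw [← htL]; ring
    linarith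
  have hb2 : t * u.re / 2 ≤ κ / 4 + 2 * t := by
    have h1 : t * u.re ≤ t * (L / 2 + 4) := by gcongr; linarith [hlam.2]
    have h2 : t * (L / 2) = κ / 2 := by rw [← htL]; ring
    linarith
  set b0 := t * u.re / 2 with hb0
  have hsq : 0 < √(Real.pi * t) := Real.sqrt_pos.2 (by positivity)
  have hgr : ∀ z : ℂ, ‖h z‖ ≤ (T ^ 6 * Real.exp (2 * |u.re| ^ 2 + 28 * ‖(0 : ℂ)‖ ^ 2)) *
      Real.exp (4 * ‖z‖ ^ 2) := by
    have := hF.growth hT1 0
    simpa only [add_zero] using this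
  have hinv := GT_inv ht (by linarith) hF.hd hgr (σ : ℂ)
  obtain ⟨C, hC⟩ := rot_growth hT1 hF ht (by linarith) σ
  have hrd := rot_diff hT1 hF ht (by linarith) σ
  set g : ℂ → ℂ := fun z => GT t h (σ + z * I) / √(Real.pi * t) with hg
  -- logarithm
  have him := abs_le.1 hF.him
  have hy1 : |(-(t * u.im / 2))| ≤ 1 := by
    rw [abs_neg]
    exact num_g0 ht hF.him (by linarith)
  obtain ⟨q, hq1, hq2, hq3⟩ := hq T hTb (hLoc.mono (le_max_right _ _)) B u h hF t rfl _ hy1
  have hin : ∀ z ∈ ball (0 : ℂ) ε, ‖((σ - b0 - 30 : ℝ) : ℂ) + z * I‖ ≤ 30 - a - 2 * ε := by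
    intro z hz
    rw [mem_ball_zero_iff] at hz
    refine (norm_add_le _ _).trans ?_
    rw [norm_mul, Complex.norm_I, mul_one, Complex.norm_real, Real.norm_eq_abs,
      abs_of_nonpos (by linarith)]
    linarith
  have hpt : ∀ z : ℂ, ((30 : ℝ) : ℂ) + ((-(t * u.im / 2) : ℝ) : ℂ) * I + t * u / 2 +
      (((σ - b0 - 30 : ℝ) : ℂ) + z * I) = σ + z * I := by
    intro z
    apply Complex.ext
    · simp [hb0]; ring
    · simp
  have hQ : 0 < η * L := by positivity
  have hηκ : η * κ = ε ^ 2 / 800 := by rw [hη]; field_simp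
  have htη : t * (η * L) = ε ^ 2 / 800 := by
    rw [← hηκ, ← htL]; ring
  have key := L_bound (h := g) (q := fun z => q (((σ - b0 - 30 : ℝ) : ℂ) + z * I)) (R := ε)
    (Q := η * L) (t := t) (C := C / √(Real.pi * t)) (E := √t * Real.exp (-3 * (η * L)) / 20)
    (by rw [hg]; fun_prop) ?_ ht (by linarith) hε0 (by linarith) hQ ?_ ?_ ?_ (by rw [htη]; linarith [sq_nonneg ε]) (by linarith)
    le_rfl ?_
  · intro hz
    -- conclude
    have h4 := hF.h1 σ (by rw [Complex.ofReal_re]; linarith) (by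
      rw [Complex.norm_real, Real.norm_of_nonneg (by linarith)]
      have : σ ^ 3 ≤ (1 / 2) ^ 3 := by
        have : 0 ≤ σ := by linarith
        gcongr
      linarith)
    rw [hz, sub_zero, norm_zero, mul_zero] at h4
    have h5 : h σ = 0 := norm_le_zero_iff.1 h4
    rw [h5, mul_zero] at hinv
    have h6 : ∫ x : ℝ, exp (-(x : ℂ) ^ 2 / t) * g x = 0 := by
      have e1 : ∀ x : ℝ, exp (-(x : ℂ) ^ 2 / t) * g x =
          (exp (-(x : ℂ) ^ 2 / t) * GT t h (σ + x * I)) / √(Real.pi * t) := by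
        intro x; simp only [hg]; ring
      simp_rw [e1]
      rw [integral_div, hinv, zero_div]
    rw [h6, norm_zero] at key
    have : 0 < 1 / 4 * √(Real.pi * t) * Real.exp (-2 * (η * L)) := by positivity
    linarith
  · intro z
    simp only [hg]
    rw [norm_div, Complex.norm_real, Real.norm_of_nonneg hsq.le, div_mul_eq_mul_div]
    gcongr
    exact hC z
  · refine hq1.comp (by fun_prop) ?_
    intro z hz
    rw [mem_ball_zero_iff]
    have := hin z hz
    linarith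
  · intro z hz
    exact hq3 _ (hin z hz)
  · intro z hz
    rw [hq2 _ (by rw [mem_ball_zero_iff]; have := hin z hz; linarith), hpt z]
  · intro s hs1 hs2
    have hs2' := abs_le.1 hs2
    have e3 : (σ : ℂ) + s * I = ((σ - s.im : ℝ) : ℂ) + (s.re : ℝ) * I := by
      apply Complex.ext <;> simp; ring
    have h1 := hK (((σ - s.im : ℝ) : ℂ) + (s.re : ℝ) * I) (by simp; linarith) (by simp; linarith)
    have e4 : (((σ - s.im : ℝ) : ℂ) + (s.re : ℝ) * I).im = s.re := by simp
    rw [e4, ← e3] at h1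
    simp only [hg]
    rw [norm_div, Complex.norm_real, Real.norm_of_nonneg hsq.le, div_le_iff₀ hsq, E_eq ht,
      ← Real.exp_add]
    refine h1.trans ?_
    rw [mul_comm]
    refine mul_le_mul_of_nonneg_right (Real.exp_le_exp.2 ?_) hsq.le
    set x := |s.re| with hx
    have hx2 : s.re ^ 2 = x ^ 2 := by rw [hx, sq_abs]
    rw [hx2]
    have hxpos : 0 < x := by linarith
    have h4t : 4 * t ≤ x := by linarith
    have h5 : x ≤ x ^ 2 / (4 * t) := by
      rw [le_div_iff₀ (by positivity)]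
      exact num_k3 h4t hxpos
    have h6 : ell t + 4 * (η * L) ≤ x ^ 2 / (4 * t) := by
      rw [le_div_iff₀ (by positivity)]
      have e5 : (ell t + 4 * (η * L)) * (4 * t) = 4 * (t * ell t) + 16 * (t * (η * L)) := by ring
      rw [e5, htη]
      have h7 : (ε / 5) ^ 2 ≤ x ^ 2 := by gcongr
      exact num_k4 h7 hel
    have e6 : x ^ 2 / t = x ^ 2 / (2 * t) + x ^ 2 / (4 * t) + x ^ 2 / (4 * t) := by field_simp; ring
    rw [e6]
    linarith

end Pool.Agent.Helper87.HF
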