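import Pool.Agent.Helper87.HF.Bridge2
import Pool.Agent.Helper87.HF.Half5
import Pool.Agent.Helper87.HF.Inv3

set_option autoImplicit false

open Complex Set Filter Topology Metric MeasureTheory

namespace Pool.Agent.Helper87.HF

/-! ### symmetries -/

lemma Ht_neg (t : ℝ) (z : ℂ) : Ht t (-z) = Ht t z := by
  simp only [Ht, neg_mul, Complex.cos_neg]

lemma Ht_conj (t : ℝ) (z : ℂ) : Ht t ((starRingEnd ℂ) z) = (starRingEnd ℂ) (Ht t z) := by
  rw [Ht, Ht, ← integral_conj]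
  refine setIntegral_congr_fun measurableSet_Ioi fun u _ => ?_
  rw [map_mul, Complex.conj_ofReal, ← Complex.cos_conj, map_mul, Complex.conj_ofReal]

lemma Ht_zero_abs (t : ℝ) (z : ℂ) : Ht t (((|z.re| : ℝ) : ℂ) - ((|z.im| : ℝ) : ℂ) * I) = 0 ↔ Ht t z = 0 := by
  have hz : z = z.re + z.im * I := (re_add_im z).symm
  rcases le_total 0 z.re with h1 | h1 <;> rcases le_total 0 z.im with h2 | h2
  · have e : (((|z.re| : ℝ) : ℂ) - ((|z.im| : ℝ) : ℂ) * I) = (starRingEnd ℂ) z := by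
      rw [abs_of_nonneg h1, abs_of_nonneg h2]
      apply Complex.ext <;> simp
    rw [e, Ht_conj, map_eq_zero]
  · have e : (((|z.re| : ℝ) : ℂ) - ((|z.im| : ℝ) : ℂ) * I) = z := by
      rw [abs_of_nonneg h1, abs_of_nonpos h2]
      apply Complex.ext <;> simp
    rw [e]
  · have e : (((|z.re| : ℝ) : ℂ) - ((|z.im| : ℝ) : ℂ) * I) = -z := by
      rw [abs_of_nonpos h1, abs_of_nonneg h2]
      apply Complex.ext <;> simp
    rw [e, Ht_neg]
  · have e : (((|z.re| : ℝ) : ℂ) - ((|z.im| : ℝ) : ℂ) * I) = -(starRingEnd ℂ) z := by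
      rw [abs_of_nonpos h1, abs_of_nonpos h2]
      apply Complex.ext <;> simp
    rw [e, Ht_neg, Ht_conj, map_eq_zero]

lemma Ht_zero_iff {t : ℝ} (ht : 0 < t) (ht2 : t ≤ 1 / 40) (z : ℂ) :
    Ht t z = 0 ↔ GT t fx (((|z.re| / 2 : ℝ) : ℂ) * I + ((|z.im| / 2 : ℝ) : ℂ)) = 0 := by
  rw [← Ht_zero_abs]
  have h1 := GT_Ht ht ht2 (((|z.re| : ℝ) : ℂ) - ((|z.im| : ℝ) : ℂ) * I)
  have e : I * (((|z.re| : ℝ) : ℂ) - ((|z.im| : ℝ) : ℂ) * I) / 2 =
      ((|z.re| / 2 : ℝ) : ℂ) * I + ((|z.im| / 2 : ℝ) : ℂ) := by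
    push_cast
    linear_combination (-((|z.im| : ℝ) : ℂ) / 2) * I_sq
  rw [e] at h1
  rw [h1]
  have hG : ((Real.sqrt (Real.pi * t) : ℝ) : ℂ) ≠ 0 := by
    exact_mod_cast (Real.sqrt_pos.2 (mul_pos Real.pi_pos ht)).ne'
  constructor
  · intro h; rw [h, mul_zero]
  · intro h
    rcases mul_eq_zero.1 h with h2 | h2
    · exfalso
      exact mul_ne_zero (by norm_num) hG h2
    · exact h2

lemma Ht_deriv_ne {t : ℝ} (ht : 0 < t) (ht2 : t ≤ 1 / 40) {z : ℂ}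
    (h : deriv (GT t fx) (I * z / 2) ≠ 0) : deriv (Ht t) z ≠ 0 := by
  obtain ⟨K, hK⟩ := fx_growth4
  have hG0 : (64 * (Real.sqrt (Real.pi * t) : ℝ) : ℂ) ≠ 0 := by
    refine mul_ne_zero (by norm_num) ?_
    exact_mod_cast (Real.sqrt_pos.2 (mul_pos Real.pi_pos ht)).ne'
  have hG : HasDerivAt (GT t fx) (deriv (GT t fx) (I * z / 2)) (I * z / 2) :=
    ((GT_diff ht ht2 fx_diff hK) (I * z / 2)).hasDerivAt
  have h1 : HasDerivAt (fun z : ℂ => I * z / 2) (I / 2) z := by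
    have := ((hasDerivAt_id z).const_mul I).div_const 2
    simpa using this
  have h2 : HasDerivAt (fun z : ℂ => GT t fx (I * z / 2)) (deriv (GT t fx) (I * z / 2) * (I / 2)) z :=
    hG.comp_of_eq z h1 rfl
  have h3 := h2.div_const (64 * (Real.sqrt (Real.pi * t) : ℝ) : ℂ)
  have e : (fun z : ℂ => GT t fx (I * z / 2) / (64 * (Real.sqrt (Real.pi * t) : ℝ) : ℂ)) = Ht t := by
    funext z
    rw [GT_Ht ht ht2, mul_div_cancel_left₀ _ hG0]
  rw [e] at h3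
  rw [h3.deriv]
  exact div_ne_zero (mul_ne_zero h (div_ne_zero I_ne_zero two_ne_zero)) hG0

lemma Ht_deriv_neg (t : ℝ) (z : ℂ) : deriv (Ht t) (-z) = -deriv (Ht t) z := by
  have h := deriv_comp_neg (Ht t) z
  have e : (fun x => Ht t (-x)) = Ht t := funext (Ht_neg t)
  rw [e] at h
  rw [h, neg_neg]

/-! ### the two sides -/

/-- For each `κ' > κ` and all small `t`, all zeros with `|Re z| ≥ exp(κ'/t)`, `|Im z| ≤ 2` are real
and simple. -/
def RealBeyond (κ : ℝ) : Prop :=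
  ∀ κ' : ℝ, κ < κ' → ∃ t0 : ℝ, 0 < t0 ∧ ∀ t : ℝ, 0 < t → t ≤ t0 → ∀ z : ℂ,
    Real.exp (κ' / t) ≤ |z.re| → |z.im| ≤ 2 → Ht t z = 0 → z.im = 0 ∧ deriv (Ht t) z ≠ 0

/-- For each `y' > y` and all small `t`, the zeros with `|Re z| ≥ exp(κ/t)`, `|Im z| ≤ 2` satisfy
`|Im z| < y'`. -/
def InStrip (κ y : ℝ) : Prop :=
  ∀ y' : ℝ, y < y' → ∃ t0 : ℝ, 0 < t0 ∧ ∀ t : ℝ, 0 < t → t ≤ t0 → ∀ z : ℂ,
    Real.exp (κ / t) ≤ |z.re| → |z.im| ≤ 2 → Ht t z = 0 → |z.im| < y'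

lemma InStrip_iff (κ a : ℝ) (ha : 0 ≤ a) : InStrip κ (2 * a) ↔ FSide κ a := by
  constructor
  · intro h ε hε
    obtain ⟨t0, ht0, h0⟩ := h (2 * a + 2 * ε) (by linarith)
    refine ⟨min t0 (1 / 40), by positivity, fun t ht htt σ T h1 h2 h3 hz => ?_⟩
    have hta : t ≤ t0 := htt.trans (min_le_left _ _)
    have htb : t ≤ 1 / 40 := htt.trans (min_le_right _ _)
    have hT : 0 < 2 * T := (Real.exp_pos _).trans_le h3
    have hσ0 : 0 ≤ σ := by linarith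
    set z : ℂ := ((2 * T : ℝ) : ℂ) - ((2 * σ : ℝ) : ℂ) * I with hzd
    have hre : z.re = 2 * T := by simp [hzd]
    have him : z.im = -(2 * σ) := by simp [hzd]
    have hre' : |z.re| = 2 * T := by rw [hre, abs_of_pos hT]
    have him' : |z.im| = 2 * σ := by rw [him, abs_neg, abs_of_nonneg (by linarith)]
    have hzero : Ht t z = 0 := by
      rw [Ht_zero_iff ht htb, hre', him', mul_div_cancel_left₀ _ (two_ne_zero),
        mul_div_cancel_left₀ _ (two_ne_zero)]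
      exact hz
    have := h0 t ht hta z (by rw [hre']; exact h3) (by rw [him']; linarith) hzero
    rw [him'] at this
    linarith
  · intro h y' hy'
    obtain ⟨t0, ht0, h0⟩ := h ((y' - 2 * a) / 2) (by linarith)
    refine ⟨min t0 (1 / 40), by positivity, fun t ht htt z h1 h2 h3 => ?_⟩
    have hta : t ≤ t0 := htt.trans (min_le_left _ _)
    have htb : t ≤ 1 / 40 := htt.trans (min_le_right _ _)
    by_contra hcon
    push Not at hcon
    rw [Ht_zero_iff ht htb] at h3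
    exact h0 t ht hta (|z.im| / 2) (|z.re| / 2) (by linarith) (by linarith)
      (by rw [mul_div_cancel₀ _ (two_ne_zero)]; exact h1) h3

lemma RealBeyond_of_ZSide {κ κ' : ℝ} (hκ : 0 < κ) (hκ' : κ < κ') (hB : ZSide κ 0) :
    ∃ t0 : ℝ, 0 < t0 ∧ ∀ t : ℝ, 0 < t → t ≤ t0 → ∀ z : ℂ,
    Real.exp (κ' / t) ≤ |z.re| → |z.im| ≤ 2 → Ht t z = 0 → z.im = 0 ∧ deriv (Ht t) z ≠ 0 := by
  obtain ⟨t0, ht0, h0⟩ := real_simple κ κ' hκ hκ' hB
  refine ⟨min t0 (1 / 40), by positivity, fun t ht htt z h1 h2 h3 => ?_⟩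
  have hta : t ≤ t0 := htt.trans (min_le_left _ _)
  have htb : t ≤ 1 / 40 := htt.trans (min_le_right _ _)
  have h3' := (Ht_zero_iff ht htb z).1 h3
  obtain ⟨r1, r2⟩ := h0 t ht hta (|z.re| / 2) (by rw [mul_div_cancel₀ _ (two_ne_zero)]; exact h1)
  have him : z.im = 0 := by
    by_contra hne
    have hpos : 0 < |z.im| := abs_pos.2 hne
    exact r1 (|z.im| / 2) (by linarith) (by linarith) h3'
  refine ⟨him, ?_⟩
  rw [him, abs_zero, zero_div, Complex.ofReal_zero, add_zero] at h3'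
  have h4 := r2 h3'
  have hzr : z = (z.re : ℂ) := by
    apply Complex.ext
    · simp
    · rw [him, Complex.ofReal_im]
  rcases le_total 0 z.re with h5 | h5
  · refine Ht_deriv_ne ht htb ?_
    rw [abs_of_nonneg h5] at h4
    have e : I * z / 2 = ((z.re / 2 : ℝ) : ℂ) * I := by
      rw [hzr]; push_cast; rw [Complex.ofReal_re]; ring
    rw [e]; exact h4
  · have h6 : deriv (Ht t) (-z) ≠ 0 := by
      refine Ht_deriv_ne ht htb ?_
      rw [abs_of_nonpos h5] at h4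
      have e : I * -z / 2 = ((-z.re / 2 : ℝ) : ℂ) * I := by
        rw [hzr]; push_cast; rw [Complex.ofReal_re]; ring
      rw [e]; exact h4
    intro h7
    rw [Ht_deriv_neg, h7, neg_zero] at h6
    exact h6 rfl

lemma FSide_of_RealBeyond {κ κ' : ℝ} (hκ' : κ < κ') (h : RealBeyond κ) : FSide κ' 0 := by
  rw [← InStrip_iff κ' 0 le_rfl]
  intro y' hy'
  rw [mul_zero] at hy'
  obtain ⟨t0, ht0, h0⟩ := h κ' hκ'
  refine ⟨t0, ht0, fun t ht htt z h1 h2 h3 => ?_⟩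
  rw [(h0 t ht htt z h1 h2 h3).1, abs_zero]
  exact hy'

lemma ZSide_closed {κ : ℝ} (hκ : 0 < κ) (h : ∀ κ' : ℝ, κ < κ' → ZSide κ' 0) : ZSide κ 0 := by
  constructor
  · intro ε hε
    obtain ⟨T0, hT0⟩ := (h (κ + 2 * ε) (by linarith)).1 (ε / 2) (by linarith)
    exact ⟨T0, fun T σ hT hσ => hT0 T σ hT (by linarith)⟩
  · intro ε hε
    obtain ⟨T0, hT0⟩ := (h (κ + ε) (by linarith)).2 (ε / 2) (by linarith)
    refine ⟨max T0 1, fun T v hT hv0 hv1 => (hT0 T v ((le_max_left _ _).trans hT) hv0 (by linarith)).trans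
      (Real.exp_le_exp.2 ?_)⟩
    have hL0 : 0 ≤ Real.log T := Real.log_nonneg ((le_max_right _ _).trans hT)
    refine mul_le_mul_of_nonneg_right ?_ hL0
    have e1 : ((κ + ε) / 4 - v) ^ 2 / (κ + ε) = (κ + ε) / 16 - v / 2 + v ^ 2 / (κ + ε) := by
      field_simp; ring
    have e2 : (κ / 4 - v) ^ 2 / κ = κ / 16 - v / 2 + v ^ 2 / κ := by
      field_simp; ring
    have h5 : v ^ 2 / (κ + ε) ≤ v ^ 2 / κ := by gcongr; linarith
    rw [e1, e2]
    linarith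

/-- The horizon law for real and simple zeros. -/
theorem horizon_real (κ : ℝ) (hκ : 0 < κ) : RealBeyond κ ↔ ZSide κ 0 := by
  constructor
  · intro h
    refine ZSide_closed hκ fun κ' hκ' => ?_
    exact (law κ' 0 (by linarith) le_rfl (by norm_num)).1 (FSide_of_RealBeyond hκ' h)
  · intro h κ' hκ'
    exact RealBeyond_of_ZSide hκ hκ' h

/-- The horizon law for strips. -/
theorem horizon_strip (κ y : ℝ) (hκ : 0 < κ) (hy : 0 ≤ y) (hy1 : y ≤ 1) :
    InStrip κ y ↔ ZSide κ (y / 2) := by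
  have h := InStrip_iff κ (y / 2) (by linarith)
  rw [mul_div_cancel₀ _ (two_ne_zero)] at h
  rw [h]
  exact law κ (y / 2) hκ (by linarith) (by linarith)

/-- strips from zero-free half planes -/
lemma ZSide_of_ZFree' (d κ a : ℝ) (hd0 : 0 ≤ d) (hd1 : d ≤ 1 / 2) (hκ : 0 < κ) (ha : 0 ≤ a)
    (hdκ : d - κ / 8 ≤ a) (hz : ZFree d) : ZSide κ a := by
  constructor
  · intro ε hε
    obtain ⟨T0, hT0⟩ := hz ε hε
    exact ⟨T0, fun T σ hT hσ => hT0 T σ hT (by linarith)⟩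
  · intro ε hε
    obtain ⟨T0, hT01, hT0⟩ := growth_of_ZFree d hd0 hd1 hz ε hε
    refine ⟨T0, fun T v hT hv0 hv1 => ?_⟩
    refine (hT0 T (a + v) hT (by positivity)).trans (Real.exp_le_exp.2 ?_)
    have hL0 : 0 ≤ Real.log T := Real.log_nonneg (by linarith)
    refine mul_le_mul_of_nonneg_right ?_ hL0
    have h2 : max 0 ((d - (a + v)) / 2) ≤ (κ / 4 - v) ^ 2 / κ := by
      apply max_le
      · positivity
      · rw [le_div_iff₀ hκ]
        nlinarith [sq_nonneg v]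
    linarith

lemma RealBeyond_of_ZFree (d : ℝ) (hd0 : 0 ≤ d) (hd1 : d ≤ 1 / 2) (hz : ZFree d) : RealBeyond (8 * d) := by
  intro κ' hκ'
  refine RealBeyond_of_ZSide (κ := (8 * d + κ') / 2) (by linarith) (by linarith) ?_
  exact ZSide_of_ZFree d _ hd0 hd1 (by linarith) (by linarith) hz

lemma ZFree_of_RealBeyond (κ : ℝ) (hκ : 0 ≤ κ) (h : RealBeyond κ) : ZFree (κ / 4) := by
  intro ε hε
  have h1 := (law (κ + 2 * ε) 0 (by linarith) le_rfl (by norm_num)).1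
    (FSide_of_RealBeyond (by linarith) h)
  obtain ⟨T0, hT0⟩ := h1.1 (ε / 2) (by linarith)
  exact ⟨T0, fun T σ hT hσ => hT0 T σ hT (by linarith)⟩

lemma ZFree_of_InStrip (κ y : ℝ) (hκ : 0 < κ) (hy : 0 ≤ y) (hy1 : y ≤ 1) (h : InStrip κ y) :
    ZFree (y / 2 + κ / 4) := by
  obtain h1 := ((horizon_strip κ y hκ hy hy1).1 h).1
  intro ε hε
  obtain ⟨T0, hT0⟩ := h1 ε hε
  exact ⟨T0, fun T σ hT hσ => hT0 T σ hT (by linarith)⟩

end Pool.Agent.Helper87.HF
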