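import Pool.Agent.Helper87.HF.LInv
import Pool.Agent.Helper87.HF.LHalf
import Pool.Agent.Helper87.HF.Main

set_option autoImplicit false

open Complex Set Filter Topology Metric MeasureTheory

namespace Pool.Agent.Helper87.HF

lemma LocF_of_real {κ ε C T : ℝ} (hκ : 0 < κ) (hε : 0 < ε) (hT : Real.exp (40 * κ) ≤ T) (hC : C ≤ T)
    (h : ∀ z : ℂ, |z.re - 2 * T| ≤ 2 * C → |z.im| ≤ 2 → Ht (κ / Real.log T) z = 0 → z.im = 0) :
    LocF κ 0 ε C T := by
  intro σ T' h1 h2 h3 hz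
  have hTpos : 0 < T := (Real.exp_pos _).trans_le hT
  have hL : 40 * κ ≤ Real.log T := by
    rw [Real.le_log_iff_exp_le hTpos]; exact hT
  have hL0 : 0 < Real.log T := by linarith
  set t := κ / Real.log T with ht
  have ht0 : 0 < t := by positivity
  have ht40 : t ≤ 1 / 40 := by
    rw [ht, div_le_iff₀ hL0]; linarith
  have h3' := abs_le.1 h3
  have hT' : 0 ≤ T' := by linarith [h3'.1]
  have hσ : 0 < σ := by linarith
  set z : ℂ := ((2 * T' : ℝ) : ℂ) - ((2 * σ : ℝ) : ℂ) * I with hzd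
  have hre : z.re = 2 * T' := by simp [hzd]
  have him : z.im = -(2 * σ) := by simp [hzd]
  have hre' : |z.re| = 2 * T' := by rw [hre, abs_of_nonneg (by linarith)]
  have him' : |z.im| = 2 * σ := by rw [him, abs_neg, abs_of_nonneg (by linarith)]
  have hzero : Ht t z = 0 := by
    rw [Ht_zero_iff ht0 ht40, hre', him', mul_div_cancel_left₀ _ (two_ne_zero),
      mul_div_cancel_left₀ _ (two_ne_zero)]
    exact hz
  have := h z (by
    rw [hre, abs_le]; constructor <;> linarith [h3'.1, h3'.2]) (by rw [him']; linarith) hzero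
  rw [him] at this
  linarith

/-- Local form of the converse part. -/
theorem local_inv (κ ε : ℝ) (hκ : 0 < κ) (hε : 0 < ε) : ∃ C T0 : ℝ, ∀ T : ℝ, T0 ≤ T →
    (∀ z : ℂ, |z.re - 2 * T| ≤ C → |z.im| ≤ 2 → Ht (κ / Real.log T) z = 0 → z.im = 0) →
    LocA κ ε T := by
  obtain ⟨e1, C1, T1, he1, h1⟩ := inverse_ZL κ 0 ε hκ le_rfl (by norm_num) hε
  obtain ⟨e2, C2, T2, he2, h2⟩ := inverse_ML κ 0 ε hκ le_rfl (by norm_num) hε
  refine ⟨2 * max C1 C2, max (max T1 T2) (max (max C1 C2) (max (Real.exp (40 * κ)) (Real.exp (2 / ε)))), ?_⟩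
  intro T hT h
  have a1 : T1 ≤ T := (le_max_left _ _).trans ((le_max_left _ _).trans hT)
  have a2 : T2 ≤ T := (le_max_right _ _).trans ((le_max_left _ _).trans hT)
  have a3 : max C1 C2 ≤ T := (le_max_left _ _).trans ((le_max_right _ _).trans hT)
  have a4 : Real.exp (40 * κ) ≤ T :=
    (le_max_left _ _).trans ((le_max_right _ _).trans ((le_max_right _ _).trans hT))
  have a5 : Real.exp (2 / ε) ≤ T :=
    (le_max_right _ _).trans ((le_max_right _ _).trans ((le_max_right _ _).trans hT))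
  have hTpos : 0 < T := (Real.exp_pos _).trans_le a4
  have hL : 2 / ε ≤ Real.log T := by rw [Real.le_log_iff_exp_le hTpos]; exact a5
  rw [div_le_iff₀ hε] at hL
  have l1 := (LocF_of_real hκ he1 a4 a3 h).mono (le_max_left C1 C2)
  have l2 := (LocF_of_real hκ he2 a4 a3 h).mono (le_max_right C1 C2)
  refine ⟨fun v hv => h1 T v a1 l1 (by linarith), fun v hv => ?_⟩
  rcases le_total v (3 / 2) with h3 | h3
  · have := h2 T v a2 l2 hv h3
    rwa [zero_add] at this
  · refine (zeta_le_two (T := T) h3).trans ?_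
    have h6 : (2 : ℝ) ≤ Real.exp 1 := by linarith [Real.add_one_le_exp (1 : ℝ)]
    refine h6.trans (Real.exp_le_exp.2 ?_)
    have : 0 ≤ (max (κ / 4 - v) 0) ^ 2 / κ * Real.log T := by
      have : 0 ≤ Real.log T := by nlinarith
      positivity
    linarith

lemma real_simple_z {t : ℝ} (ht : 0 < t) (htb : t ≤ 1 / 40) {z : ℂ}
    (r1 : ∀ σ : ℝ, 0 < σ → σ ≤ 60 → GT t fx (((|z.re| / 2 : ℝ) : ℂ) * I + σ) ≠ 0)
    (r2 : GT t fx (((|z.re| / 2 : ℝ) : ℂ) * I) = 0 → deriv (GT t fx) (((|z.re| / 2 : ℝ) : ℂ) * I) ≠ 0)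
    (h2 : |z.im| ≤ 2) (h3 : Ht t z = 0) : z.im = 0 ∧ deriv (Ht t) z ≠ 0 := by
  have h3' := (Ht_zero_iff ht htb z).1 h3
  have him : z.im = 0 := by
    by_contra hne
    have hpos : 0 < |z.im| := abs_pos.2 hne
    exact r1 (|z.im| / 2) (by linarith) (by linarith) h3'
  refine ⟨him, ?_⟩
  rw [him, abs_zero, zero_div, Complex.ofReal_zero, add_zero] at h3'
  have h4 := r2 h3'
  have hzr : z = (z.re : ℂ) := by
    apply Complex.ext
    · simp
    · rw [him, Complex.ofReal_im]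
  rcases le_total 0 z.re with h5 | h5
  · refine Ht_deriv_ne ht htb ?_
    rw [abs_of_nonneg h5] at h4
    have e : I * z / 2 = ((z.re / 2 : ℝ) : ℂ) * I := by
      rw [hzr]; push_cast; rw [Complex.ofReal_re]; ring
    rw [e]; exact h4
  · have h6 : deriv (Ht t) (-z) ≠ 0 := by
      refine Ht_deriv_ne ht htb ?_
      rw [abs_of_nonpos h5] at h4
      have e : I * -z / 2 = ((-z.re / 2 : ℝ) : ℂ) * I := by
        rw [hzr]; push_cast; rw [Complex.ofReal_re]; ring
      rw [e]; exact h4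
    intro h7
    rw [Ht_deriv_neg, h7, neg_zero] at h6
    exact h6 rfl

/-- Local form of the direct part. -/
theorem local_dir (κ κ' R : ℝ) (hκ : 0 < κ) (hκ' : κ < κ') (hR : 0 ≤ R) :
    ∃ ε C T0 t0 : ℝ, 0 < ε ∧ 0 < t0 ∧ ∀ T : ℝ, T0 ≤ T → (∀ T' : ℝ, |T' - T| ≤ C → LocA κ ε T') →
    ∀ t : ℝ, t ≤ t0 → κ' / Real.log T ≤ t → ∀ z : ℂ, |z.re - 2 * T| ≤ R → |z.im| ≤ 2 → Ht t z = 0 →
      z.im = 0 ∧ deriv (Ht t) z ≠ 0 := by
  obtain ⟨ε, C, T0, t0, hε, ht0, ht40, h0⟩ := real_simpleL κ κ' hκ hκ'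
  refine ⟨ε, C + R, max T0 0 + R + 3, t0, hε, ht0, ?_⟩
  intro T hT hloc t htt hκt z hz1 hz2 hz3
  have hm1 := le_max_left T0 0
  have hm2 := le_max_right T0 0
  have hT3 : 3 ≤ T := by linarith
  have hL1 : 1 ≤ Real.log T := by
    rw [Real.le_log_iff_exp_le (by linarith)]
    have := Real.exp_one_lt_d9
    linarith
  have ht : 0 < t := lt_of_lt_of_le (by have : 0 < κ' := by linarith
                                        positivity) hκt
  have htb : t ≤ 1 / 40 := htt.trans ht40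
  have hz1' := abs_le.1 hz1
  have hre : 0 < z.re := by linarith [hz1'.1]
  have hre' : |z.re| / 2 = z.re / 2 := by rw [abs_of_pos hre]
  have hd : |z.re| / 2 - T ≤ R ∧ -R ≤ |z.re| / 2 - T := by
    rw [hre']; constructor <;> linarith [hz1'.1, hz1'.2]
  have hlog : Real.log T - 1 ≤ Real.log (|z.re| / 2) := by
    have e1 : Real.log T - 1 = Real.log (T / Real.exp 1) := by
      rw [Real.log_div (by linarith) (Real.exp_ne_zero _), Real.log_exp]
    rw [e1]
    refine Real.log_le_log (by positivity) ?_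
    rw [div_le_iff₀ (Real.exp_pos _), hre']
    have h5 : 2 ≤ Real.exp 1 := by linarith [Real.add_one_le_exp (1 : ℝ)]
    have h6 : T / 2 ≤ z.re / 2 := by linarith [hz1'.1]
    nlinarith
  have hτ : κ' - t ≤ t * Real.log (|z.re| / 2) := by
    rw [div_le_iff₀ (by linarith)] at hκt
    have : t * (Real.log T - 1) ≤ t * Real.log (|z.re| / 2) := by gcongr
    linarith
  obtain ⟨r1, r2⟩ := h0 (|z.re| / 2) (by linarith [hd.2]) (fun T' hT' => hloc T' (by
    have := abs_le.1 hT'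
    rw [abs_le]; constructor <;> linarith [hd.1, hd.2, this.1, this.2])) t ht htt hτ
  exact real_simple_z ht htb r1 r2 hz2 hz3

lemma LocA_closed {κ ε T : ℝ} (hκ : 0 < κ) (hε : 0 < ε) (hT : 1 ≤ T) (h : LocA (κ + ε) (ε / 2) T) :
    LocA κ ε T := by
  refine ⟨fun v hv => h.1 v (by linarith), fun v hv => (h.2 v hv).trans (Real.exp_le_exp.2 ?_)⟩
  refine mul_le_mul_of_nonneg_right ?_ (Real.log_nonneg hT)
  have hκε : 0 < κ + ε := by linarith
  have key : (max ((κ + ε) / 4 - v) 0) ^ 2 / (κ + ε) ≤ (max (κ / 4 - v) 0) ^ 2 / κ + ε / 16 := by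
    rcases le_total v (κ / 4) with h1 | h1
    · rw [max_eq_left (by linarith), max_eq_left (by linarith)]
      have e1 : ((κ + ε) / 4 - v) ^ 2 / (κ + ε) = (κ + ε) / 16 - v / 2 + v ^ 2 / (κ + ε) := by
        field_simp; ring
      have e2 : (κ / 4 - v) ^ 2 / κ = κ / 16 - v / 2 + v ^ 2 / κ := by
        field_simp; ring
      have h5 : v ^ 2 / (κ + ε) ≤ v ^ 2 / κ := by gcongr; linarith
      rw [e1, e2]
      linarith
    · have h2 : max ((κ + ε) / 4 - v) 0 ≤ ε / 4 := max_le (by linarith) (by linarith)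
      have h3 : 0 ≤ max ((κ + ε) / 4 - v) 0 := le_max_right _ _
      have h4 : (max ((κ + ε) / 4 - v) 0) ^ 2 / (κ + ε) ≤ ε / 16 := by
        rw [div_le_iff₀ hκε]
        calc (max ((κ + ε) / 4 - v) 0) ^ 2 ≤ (ε / 4) ^ 2 := by gcongr
          _ ≤ ε / 16 * (κ + ε) := by nlinarith [mul_pos hε hκ]
      have h6 : 0 ≤ (max (κ / 4 - v) 0) ^ 2 / κ := by positivity
      linarith
  linarith

/-- The horizon law in terms of the local condition. -/
theorem horizon_loc (κ : ℝ) (hκ : 0 < κ) :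
    RealBeyond κ ↔ ∀ ε : ℝ, 0 < ε → ∃ T0 : ℝ, ∀ T : ℝ, T0 ≤ T → LocA κ ε T := by
  constructor
  · intro h ε hε
    obtain ⟨C, T0, h0⟩ := local_inv (κ + ε) (ε / 2) (by linarith) (by linarith)
    obtain ⟨t0, ht0, h1⟩ := h (κ + ε / 2) (by linarith)
    refine ⟨max (max T0 1) (max (max C 1) (Real.exp ((κ + ε) / t0))), ?_⟩
    intro T hT
    have a1 : T0 ≤ T := (le_max_left _ _).trans ((le_max_left _ _).trans hT)
    have a2 : 1 ≤ T := (le_max_right _ _).trans ((le_max_left _ _).trans hT)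
    have a3 : C ≤ T := (le_max_left _ _).trans ((le_max_left _ _).trans ((le_max_right _ _).trans hT))
    have a4 : Real.exp ((κ + ε) / t0) ≤ T := (le_max_right _ _).trans ((le_max_right _ _).trans hT)
    have hpos : 0 < (κ + ε) / t0 := by positivity
    have hL : (κ + ε) / t0 ≤ Real.log T := by
      rw [Real.le_log_iff_exp_le (by linarith)]; exact a4
    have hL0 : 0 < Real.log T := by linarith
    refine LocA_closed hκ hε a2 (h0 T a1 fun z hz1 hz2 hz3 => ?_)
    have ht : 0 < (κ + ε) / Real.log T := by positivity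
    refine (h1 ((κ + ε) / Real.log T) ht ?_ z ?_ hz2 hz3).1
    · rw [div_le_iff₀ hL0]
      rw [div_le_iff₀ ht0] at hL
      linarith
    · have hz1' := abs_le.1 hz1
      have h5 : T ≤ z.re := by linarith
      refine le_trans ?_ (h5.trans (le_abs_self _))
      have e1 : (κ + ε / 2) / ((κ + ε) / Real.log T) ≤ Real.log T := by
        rw [div_le_iff₀ ht]
        have e2 : Real.log T * ((κ + ε) / Real.log T) = κ + ε := by field_simp
        rw [e2]; linarith
      calc Real.exp ((κ + ε / 2) / ((κ + ε) / Real.log T)) ≤ Real.exp (Real.log T) :=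
            Real.exp_le_exp.2 e1
        _ = T := Real.exp_log (by linarith)
  · intro h
    rw [horizon_real κ hκ]
    constructor
    · intro ε hε
      obtain ⟨T0, h0⟩ := h ε hε
      exact ⟨T0, fun T σ hT hσ => (h0 T hT).1 σ (by linarith)⟩
    · intro ε hε
      obtain ⟨T0, h0⟩ := h ε hε
      refine ⟨T0, fun T v hT hv0 hv1 => ?_⟩
      have := (h0 T hT).2 v hv0
      rw [max_eq_left (by linarith)] at this
      rwa [zero_add]

/-- A zero of zeta off the line leaves a zero of `H_t` at the expected height. -/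
lemma fall_one (κ a ε : ℝ) (hκ : 0 < κ) (ha : 0 ≤ a) (ha1 : a ≤ 1 / 2) (hε : 0 < ε) :
    ∃ C T0 : ℝ, 0 ≤ C ∧ ∀ T σ : ℝ, T0 ≤ T → a + κ / 4 + ε ≤ σ → riemannZeta (1 / 2 + T * I + σ) = 0 →
    ∃ z : ℂ, Ht (κ / Real.log T) z = 0 ∧ |z.re - 2 * T| ≤ C ∧ 2 * a ≤ |z.im| ∧ |z.im| ≤ 2 ∧ z.im ≠ 0 := by
  obtain ⟨e1, C1, T1, he1, h1⟩ := inverse_ZL κ a ε hκ ha ha1 hε
  refine ⟨2 * max C1 0, max T1 (max (max C1 0) (Real.exp (40 * κ))), by positivity, ?_⟩
  intro T σ hT hσ hz
  have a1 : T1 ≤ T := (le_max_left _ _).trans hT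
  have a2 : max C1 0 ≤ T := (le_max_left _ _).trans ((le_max_right _ _).trans hT)
  have a3 : Real.exp (40 * κ) ≤ T := (le_max_right _ _).trans ((le_max_right _ _).trans hT)
  have h2 : ¬ LocF κ a e1 C1 T := fun hl => h1 T σ a1 hl hσ hz
  unfold LocF at h2
  push Not at h2
  obtain ⟨σ', T', b1, b2, b3, b4⟩ := h2
  have hTpos : 0 < T := (Real.exp_pos _).trans_le a3
  have hL : 40 * κ ≤ Real.log T := by
    rw [Real.le_log_iff_exp_le hTpos]; exact a3
  have hL0 : 0 < Real.log T := by linarith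
  set t := κ / Real.log T with ht
  have ht0 : 0 < t := by positivity
  have ht40 : t ≤ 1 / 40 := by
    rw [ht, div_le_iff₀ hL0]; linarith
  have b3' := abs_le.1 b3
  have hC := le_max_left C1 0
  have hT' : 0 ≤ T' := by linarith [b3'.1]
  have hσ' : 0 < σ' := by linarith
  set z : ℂ := ((2 * T' : ℝ) : ℂ) - ((2 * σ' : ℝ) : ℂ) * I with hzd
  have hre : z.re = 2 * T' := by simp [hzd]
  have him : z.im = -(2 * σ') := by simp [hzd]
  have hre' : |z.re| = 2 * T' := by rw [hre, abs_of_nonneg (by linarith)]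
  have him' : |z.im| = 2 * σ' := by rw [him, abs_neg, abs_of_nonneg (by linarith)]
  refine ⟨z, ?_, ?_, ?_, ?_, ?_⟩
  · rw [Ht_zero_iff ht0 ht40, hre', him', mul_div_cancel_left₀ _ (two_ne_zero),
      mul_div_cancel_left₀ _ (two_ne_zero)]
    exact b4
  · rw [hre, abs_le]; constructor <;> linarith [b3'.1, b3'.2]
  · rw [him']; linarith
  · rw [him']; linarith
  · rw [him]; intro h; linarith

/-- The falling speed: a zero `1/2 + δ + iγ` of zeta leaves at the time `κ / log γ` a zero of `H_t` with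
imaginary part at least `2δ - κ/2 - ε`. -/
theorem local_fall (κ ε : ℝ) (hκ : 0 < κ) (hε : 0 < ε) :
    ∃ C T0 : ℝ, ∀ T σ : ℝ, T0 ≤ T → κ / 4 + ε ≤ σ → riemannZeta (1 / 2 + T * I + σ) = 0 →
    ∃ z : ℂ, Ht (κ / Real.log T) z = 0 ∧ |z.re - 2 * T| ≤ C ∧ 2 * σ - κ / 2 - ε ≤ |z.im| ∧
      |z.im| ≤ 2 ∧ z.im ≠ 0 := by
  set e : ℝ := ε / 4 with he
  have he0 : 0 < e := by positivity
  have hex : ∀ j : ℕ, ∃ C T0 : ℝ, 0 ≤ C ∧ (j * e ≤ 1 / 2 → ∀ T σ : ℝ, T0 ≤ T →
      j * e + κ / 4 + e ≤ σ → riemannZeta (1 / 2 + T * I + σ) = 0 →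
      ∃ z : ℂ, Ht (κ / Real.log T) z = 0 ∧ |z.re - 2 * T| ≤ C ∧ 2 * (j * e) ≤ |z.im| ∧ |z.im| ≤ 2 ∧
        z.im ≠ 0) := by
    intro j
    by_cases hj : j * e ≤ 1 / 2
    · obtain ⟨C, T0, hC, h⟩ := fall_one κ (j * e) e hκ (by positivity) hj he0
      exact ⟨C, T0, hC, fun _ => h⟩
    · exact ⟨0, 0, le_rfl, fun h => absurd h hj⟩
  choose C T0 hC h using hex
  obtain ⟨N, hN⟩ := exists_nat_gt (1 / e)
  refine ⟨∑ j ∈ Finset.range (N + 1), C j, ∑ j ∈ Finset.range (N + 1), |T0 j|, ?_⟩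
  intro T σ hT hσ hz
  have hσ1 : σ < 1 / 2 := by
    by_contra hcon
    push Not at hcon
    refine riemannZeta_ne_zero_of_one_le_re ?_ hz
    have : (1 / 2 + T * I + σ : ℂ).re = 1 / 2 + σ := by simp
    rw [this]
    linarith
  set w : ℝ := σ - κ / 4 - e with hw
  have hw0 : 0 ≤ w := by linarith
  set j : ℕ := ⌊w / e⌋₊ with hj
  have hj1 : (j : ℝ) * e ≤ w := by
    have := Nat.floor_le (show 0 ≤ w / e by positivity)
    rwa [le_div_iff₀ he0] at this
  have hj2 : w < ((j : ℝ) + 1) * e := by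
    have := Nat.lt_floor_add_one (w / e)
    rwa [div_lt_iff₀ he0] at this
  have hjN : j ∈ Finset.range (N + 1) := by
    rw [Finset.mem_range]
    have h1 : (j : ℝ) < N := by
      have h2 : (j : ℝ) ≤ w / e := Nat.floor_le (by positivity)
      have h3 : w / e ≤ 1 / e := by gcongr; linarith
      linarith
    have : j < N := by exact_mod_cast h1
    omega
  have hT0 : T0 j ≤ T := (le_abs_self _).trans
    ((Finset.single_le_sum (f := fun j => |T0 j|) (fun _ _ => abs_nonneg _) hjN).trans hT)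
  have hCj : C j ≤ ∑ j ∈ Finset.range (N + 1), C j :=
    Finset.single_le_sum (f := C) (fun i _ => hC i) hjN
  obtain ⟨z, z1, z2, z3, z4, z5⟩ := h j (by linarith) T σ hT0 (by linarith) hz
  refine ⟨z, z1, z2.trans hCj, ?_, z4, z5⟩
  refine le_trans ?_ z3
  have : ((j : ℝ) + 1) * e = j * e + e := by ring
  linarith

end Pool.Agent.Helper87.HF
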