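import Pool.Agent.Helper87.HF.LConv
import Pool.Agent.Helper87.HF.Local

set_option autoImplicit false

open Complex Set Filter Topology Metric MeasureTheory

namespace Pool.Agent.Helper87.HF

theorem gamma_caseS (κ a ε K0 : ℝ) (hκ : 0 < κ) (ha : 0 ≤ a) (ha1 : a ≤ 1 / 2) (hε : 0 < ε)
    (hK : κ ≤ K0) (hK1 : 1 ≤ K0) :
    ∃ ε' C T0 t0 : ℝ, 0 < ε' ∧ 1 ≤ T0 ∧ 0 < t0 ∧ ∀ T : ℝ, T0 ≤ T →
    (∀ T' : ℝ, |T' - T| ≤ C → LocS κ a ε' T') → ∀ (B u : ℂ) (h : ℂ → ℂ), Frame T B u h →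
    ∀ t : ℝ, 0 < t → t ≤ t0 → κ - t ≤ t * Real.log T → t * Real.log T ≤ K0 →
    ∀ σ : ℝ, a + ε ≤ σ → σ ≤ 60 → GT t h (σ + t * u / 2) ≠ 0 := by
  set ε1 : ℝ := min ε 1 with hε1
  have hε1pos : 0 < ε1 := lt_min hε one_pos
  have hε1ε : ε1 ≤ ε := min_le_left _ _
  have hε11 : ε1 ≤ 1 := min_le_right _ _
  have hK0 : 0 < K0 := by linarith
  set X0 : ℝ := 64 + K0 / 4 with hX0
  set θ0 : ℝ := ε1 ^ 2 / 1600 with hθ0
  have hθ0pos : 0 < θ0 := by positivity
  set η : ℝ := ε1 ^ 2 / (51200 * K0) with hη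
  have hηpos : 0 < η := by positivity
  set ε2 : ℝ := ε1 ^ 2 / (6400 * K0) with hε2
  have hε2pos : 0 < ε2 := by positivity
  obtain ⟨T1, hT11, hq'⟩ := zlogL (a + κ / 4) X0 (ε1 / 8) η 1 (by positivity) (by positivity)
    (by rw [hX0]; linarith) hηpos zero_le_one
  obtain ⟨C2, T2, hC2, hT21, hm'⟩ := mboundS κ a ε2 2 hκ ha ha1 hε2pos (by norm_num)
  obtain ⟨T3, t3, hT31, ht3, ht3', hmain⟩ := frame_bound 0 le_rfl
  obtain ⟨t4, ht4, hell⟩ := ell_small (min (θ0 / 4) (ε1 ^ 2)) (by positivity)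
  refine ⟨min (ε1 / 8) (ε2 / 4), max (X0 + 1) C2, max (max (max T1 (max (X0 + 1) C2 + 2)) T2) (max T3 (Real.exp 1)),
    min (min t3 t4) (min (min (ε1 ^ 2 / 102400) (ε1 ^ 2 / κ)) (θ0 / (4 * X0))),
    by positivity, hT11.trans ((le_max_left _ _).trans ((le_max_left _ _).trans (le_max_left _ _))), by positivity, ?_⟩
  intro T hT hloc B u h hF t ht ht0 hτ1 hτ2 σ hσ1 hσ2
  have hTa : T1 ≤ T := (le_max_left _ _).trans ((le_max_left _ _).trans ((le_max_left _ _).trans hT))
  have hTX : max (X0 + 1) C2 + 2 ≤ T := (le_max_right _ _).trans ((le_max_left _ _).trans ((le_max_left _ _).trans hT))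
  have hq := hq' T hTa (fun T' σ h1 h2 => by
    have h3 := (hloc T' (h1.trans (le_max_left _ _))).1 (σ - a) (by
      have := min_le_left (ε1 / 8) (ε2 / 4)
      linarith)
    rwa [add_sub_cancel] at h3)
  have hm := hm' T ((le_max_right _ _).trans ((le_max_left _ _).trans hT)) (fun T' h1 =>
    (hloc T' (h1.trans (le_max_right _ _))).mono (by
      have := (abs_le.1 h1).1
      have := le_max_right (X0 + 1) C2
      linarith) (min_le_right _ _))
  have hTb : T2 ≤ T := (le_max_right _ _).trans ((le_max_left _ _).trans hT)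
  have hTc : T3 ≤ T := (le_max_left _ _).trans ((le_max_right _ _).trans hT)
  have hTd : Real.exp 1 ≤ T := (le_max_right _ _).trans ((le_max_right _ _).trans hT)
  have hta : t ≤ t3 := ht0.trans ((min_le_left _ _).trans (min_le_left _ _))
  have htb : t ≤ t4 := ht0.trans ((min_le_left _ _).trans (min_le_right _ _))
  have htc : t ≤ ε1 ^ 2 / 102400 :=
    ht0.trans ((min_le_right _ _).trans ((min_le_left _ _).trans (min_le_left _ _)))
  have htd : t ≤ ε1 ^ 2 / κ :=
    ht0.trans ((min_le_right _ _).trans ((min_le_left _ _).trans (min_le_right _ _)))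
  have hte : t ≤ θ0 / (4 * X0) := ht0.trans ((min_le_right _ _).trans (min_le_right _ _))
  have hTpos : 0 < T := (Real.exp_pos _).trans_le hTd
  have hL1 : 1 ≤ Real.log T := by rw [Real.le_log_iff_exp_le hTpos]; exact hTd
  set L := Real.log T with hL
  set τ := t * L with hτ
  have hτ0 : 0 < τ := by positivity
  have hX0pos : 0 < X0 := by positivity
  have hel := hell t ht htb
  have hel1 : t * ell t ≤ θ0 / 4 := hel.trans (min_le_left _ _)
  have hel2 : t * ell t ≤ ε1 ^ 2 := hel.trans (min_le_right _ _)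
  have hε12 : ε1 ^ 2 ≤ ε1 := pow_le_of_le_one hε1pos.le hε11 two_ne_zero
  have htκ : t * κ ≤ ε1 ^ 2 := by rwa [le_div_iff₀ hκ] at htd
  have htX : t * X0 ≤ θ0 / 4 := by
    rw [le_div_iff₀ (by positivity)] at hte
    linarith
  have hηK : η * K0 = ε1 ^ 2 / 51200 := by rw [hη]; field_simp
  have hεK : ε2 * K0 = θ0 / 4 := by rw [hε2, hθ0]; field_simp; norm_num
  have hlam := abs_le.1 hF.lam
  set Λ := u.re with hΛ
  set c0 : ℝ := σ + t * Λ / 2 with hc0
  have hlow : τ / 4 - 2 * t ≤ t * Λ / 2 := by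
    have : t * (L / 2 - 4) ≤ t * Λ := by gcongr; linarith [hlam.1]
    linarith
  have hup : t * Λ / 2 ≤ τ / 4 + 2 * t := by
    have : t * Λ ≤ t * (L / 2 + 4) := by gcongr; linarith [hlam.2]
    linarith
  have hc0low : a + ε1 + τ / 4 - 2 * t ≤ c0 := by linarith
  have hc0up : c0 ≤ X0 := by rw [hX0]; linarith
  have hc0low2 : a + κ / 4 + ε1 / 4 + ε1 / 8 ≤ c0 := by linarith
  -- complex centre
  have hcre : ((σ : ℂ) + t * u / 2).re = c0 := by
    rw [hc0, add_re, Complex.ofReal_re]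
    congr 1
    rw [show (t * u / 2 : ℂ) = ((t / 2 : ℝ) : ℂ) * u by push_cast; ring, Complex.re_ofReal_mul]
    ring
  set ci : ℝ := t * u.im / 2 with hci
  have hcim : ((σ : ℂ) + t * u / 2).im = ci := by
    rw [add_im, Complex.ofReal_im, zero_add]
    rw [show (t * u / 2 : ℂ) = ((t / 2 : ℝ) : ℂ) * u by push_cast; ring, Complex.im_ofReal_mul]
    ring
  have hci1 : |ci| ≤ 1 := num_g0 ht hF.him (by linarith)
  obtain ⟨q, hq1, hq2, hq3⟩ := hq B u h hF ci hci1
  have hcsplit : (X0 : ℂ) + ci * I + ((c0 - X0 : ℝ) : ℂ) = (σ : ℂ) + t * u / 2 := by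
    rw [← re_add_im ((σ : ℂ) + t * u / 2), hcre, hcim]
    push_cast; ring
  have hin : ∀ z ∈ ball (0 : ℂ) (ε1 / 8), ‖((c0 - X0 : ℝ) : ℂ) + z‖ ≤
      X0 - (a + κ / 4) - 2 * (ε1 / 8) := by
    intro z hz
    rw [mem_ball_zero_iff] at hz
    refine (norm_add_le _ _).trans ?_
    rw [Complex.norm_real, Real.norm_eq_abs, abs_of_nonpos (by linarith)]
    linarith
  have hsigma : σ + (0 : ℝ) * I + t * u / 2 = (σ : ℂ) + t * u / 2 := by push_cast; ring
  have hQ : 0 < η * L := by positivity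
  have key := hmain T hTc B u h hF t ht hta σ 0 (ε1 / 8) (η * L)
    (fun z => q (((c0 - X0 : ℝ) : ℂ) + z)) (by linarith) hσ2 (by simp) (by positivity) (by linarith)
    hQ (by linarith) ?_ ?_ ?_ ?_ ?_ ?_
  · rw [hsigma] at key
    intro h0
    have hk1 := key.1
    rw [h0, norm_zero] at hk1
    have : 0 < 1 / 8 * √(Real.pi * t) * Real.exp (-2 * (η * L)) := by
      have := Real.sqrt_pos.2 (mul_pos Real.pi_pos ht)
      positivity
    linarith
  · rw [le_div_iff₀ (by positivity)]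
    have e1 : (ell t + 4 * (η * L) + 8) * (50 * t) = 50 * (t * ell t) + 200 * (η * τ) + 400 * t := by
      rw [hτ]; ring
    rw [e1]
    have h5 : η * τ ≤ η * K0 := by gcongr
    rw [hηK] at h5
    have e2 : (ε1 / 8) ^ 2 = ε1 ^ 2 / 64 := by ring
    rw [e2]
    have h6 : θ0 = ε1 ^ 2 / 1600 := hθ0
    linarith
  · rw [le_div_iff₀ ht]
    have e1 : (ell t + 3 * (η * L)) * t = t * ell t + 3 * (η * τ) := by rw [hτ]; ring
    have h5 : η ≤ ε1 / 8 := num_g1 hε1pos hε11 hK1
    have h6 : τ / 4 + ε1 / 2 ≤ c0 := by linarith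
    have h7 : 3 * (τ / 4 + ε1 / 2) * ε1 ≤ 3 * c0 * σ := by
      have h70 : ε1 ≤ σ := by linarith
      have h71 : 0 ≤ 3 * c0 := by linarith
      exact mul_le_mul (by linarith) h70 hε1pos.le h71
    have h8 : η * τ ≤ ε1 / 8 * τ := by gcongr
    have h10 : 0 < ε1 * τ := by positivity
    rw [e1]
    exact num_g2 hel2 h8 h7 h10
  · refine hq1.comp (by fun_prop) ?_
    intro z hz
    rw [mem_ball_zero_iff]
    have := hin z hz
    linarith
  · intro z hz
    exact hq3 _ (hin z hz)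
  · intro z hz
    rw [hsigma, hq2 _ (by rw [mem_ball_zero_iff]; have := hin z hz; linarith), ← hcsplit]
    congr 1
    ring
  · intro x y hx0 hx3 hxc hy
    rw [zero_add] at hy
    obtain ⟨m1, m2⟩ := hm B u h hF x y hx0 hx3 hy
    obtain ⟨g1, g2⟩ := f3_ineq (κ := κ) (a := a) (τ := τ) (t := t) (ε1 := ε1) (θ0 := θ0) (x := x)
      (c0 := c0) hκ hε1pos ht (by linarith) htκ hτ1 hτ0 hc0low (by rw [hθ0]; linarith [sq_nonneg ε1])
    have hθR : θ0 ≤ (x - c0) ^ 2 := by
      rw [← sq_abs]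
      have : (ε1 / 8 / 5) ^ 2 ≤ |x - c0| ^ 2 := by gcongr
      rw [hθ0]
      linarith
    have habs : |x - c0| ≤ X0 := by
      rw [abs_le]; constructor <;> linarith
    -- reduce to an inequality
    have hred : ∀ m : ℝ, τ * m + θ0 ≤ (x - c0) ^ 2 → (m + ε2) * L ≤
        (x - c0) ^ 2 / t - |x - c0| - (ell t + 3 * (η * L)) := by
      intro m hm1
      have h5 : (m + ε2) * L + |x - c0| + ell t + 3 * (η * L) ≤ (x - c0) ^ 2 / t := by
        rw [le_div_iff₀ ht]
        have e1 : ((m + ε2) * L + |x - c0| + ell t + 3 * (η * L)) * t =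
            τ * m + ε2 * τ + t * |x - c0| + t * ell t + 3 * (η * τ) := by rw [hτ]; ring
        rw [e1]
        have h6 : ε2 * τ ≤ ε2 * K0 := by gcongr
        have h7 : η * τ ≤ η * K0 := by gcongr
        have h8 : t * |x - c0| ≤ t * X0 := by gcongr
        rw [hεK] at h6
        rw [hηK] at h7
        have h9 : θ0 = ε1 ^ 2 / 1600 := hθ0
        have := sq_nonneg ε1
        linarith
      linarith
    rcases le_total x a with hxa | hxa
    · refine (m1 hxa).trans (Real.exp_le_exp.2 ?_)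
      exact hred _ (g1 hxa)
    · have m0 := m2 hxa
      rcases le_total x (a + κ / 4) with hxb | hxb
      · rw [max_eq_left (by linarith)] at m0
        refine m0.trans (Real.exp_le_exp.2 ?_)
        exact hred _ (g2 hxa hxb)
      · rw [max_eq_right (by linarith)] at m0
        refine m0.trans (Real.exp_le_exp.2 ?_)
        have := hred 0 (by rw [mul_zero, zero_add]; exact hθR)
        rw [zero_pow two_ne_zero, zero_div]
        exact this

/-- Direct part: zeta information gives zero-free regions for the Gaussian averages. -/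
theorem directS (κ a ε : ℝ) (hκ : 0 < κ) (ha : 0 ≤ a) (ha1 : a ≤ 1 / 2) (hε : 0 < ε) :
    ∃ ε' C T0 t0 : ℝ, 0 < ε' ∧ 0 < t0 ∧ ∀ T : ℝ, T0 ≤ T → (∀ T' : ℝ, |T' - T| ≤ C → LocS κ a ε' T') →
    ∀ t : ℝ, 0 < t → t ≤ t0 → κ - t ≤ t * Real.log T → ∀ σ : ℝ, a + ε ≤ σ → σ ≤ 60 →
      GT t fx (T * I + σ) ≠ 0 := by
  set K0 : ℝ := max κ 2000 with hK0
  obtain ⟨ε', C, T1, t1, hε', hT11, ht1, hg⟩ := gamma_caseS κ a ε K0 hκ ha ha1 hε (le_max_left _ _)
    ((by norm_num : (1 : ℝ) ≤ 2000).trans (le_max_right _ _))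
  obtain ⟨T2, t2, hT21, ht2, ht2', hr⟩ := right_gen 0 ε le_rfl hε
  obtain ⟨Tf, hTf1, hTf⟩ := exists_frame
  set T0 : ℝ := max (max T1 T2) Tf with hT0
  have hT01 : 1 ≤ T0 := hTf1.trans (le_max_right _ _)
  refine ⟨ε', C, T0, min (min t1 t2) (1 / 40), hε', by positivity, ?_⟩
  intro T hTT0 hloc t ht ht0 hτ σ hσ1 hσ2
  have hta : t ≤ t1 := ht0.trans ((min_le_left _ _).trans (min_le_left _ _))
  have htb : t ≤ t2 := ht0.trans ((min_le_left _ _).trans (min_le_right _ _))
  have htc : t ≤ 1 / 40 := ht0.trans (min_le_right _ _)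
  have hTa : T1 ≤ T := (le_max_left _ _).trans ((le_max_left _ _).trans hTT0)
  have hTb : T2 ≤ T := (le_max_right _ _).trans ((le_max_left _ _).trans hTT0)
  have hTc : Tf ≤ T := (le_max_right _ _).trans hTT0
  have hT1 : 1 ≤ T := hT01.trans hTT0
  obtain ⟨B, u, h, hF⟩ := hTf T hTc
  rw [GT_fx_ne hT1 hF ht htc]
  have hL0 : 0 ≤ Real.log T := Real.log_nonneg hT1
  rcases le_total (t * Real.log T) K0 with h1 | h1
  · exact hg T hTa hloc B u h hF t ht hta hτ h1 σ hσ1 hσ2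
  · have h2000 : 2000 ≤ t * Real.log T := (le_max_right _ _).trans h1
    have hlam := abs_le.1 hF.lam
    have hlow : t * Real.log T / 4 - 2 * t ≤ t * u.re / 2 := by
      have : t * (Real.log T / 2 - 4) ≤ t * u.re := by gcongr; linarith [hlam.1]
      linarith
    have hc : t * Real.log T / 5 ≤ σ + t * u.re / 2 - 3 := by linarith
    have key := (hr T hTb B u h hF t ht htb σ 0 (by linarith) hσ2 (by simp) (by linarith) ?_).1
    · have e1 : (σ : ℂ) + ((0 : ℝ) : ℂ) * I + t * u / 2 = σ + t * u / 2 := by push_cast; ring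
      rw [e1] at key
      intro h0
      rw [h0, norm_zero] at key
      have : 0 < 1 / 8 * √(Real.pi * t) * Real.exp (-2 * 2) := by
        have := Real.sqrt_pos.2 (mul_pos Real.pi_pos ht)
        positivity
      linarith
    · have h3 : (t * Real.log T / 5) ^ 2 / (2 * t) ≤ (σ + t * u.re / 2 - 3) ^ 2 / (2 * t) := by
        gcongr
      refine le_trans ?_ h3
      rw [le_div_iff₀ (by positivity)]
      have e2 : (7 * Real.log T + 200 / t) * (2 * t) = 14 * (t * Real.log T) + 400 := by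
        field_simp
        ring
      rw [e2]
      nlinarith


end Pool.Agent.Helper87.HF
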