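import Pool.Agent.Helper87.HF.Main

set_option autoImplicit false

open Complex Set Filter Topology Metric MeasureTheory

namespace Pool.Agent.Helper87.HF

lemma zeta_conj_zero {s : ℂ} (h : riemannZeta s = 0) : riemannZeta ((starRingEnd ℂ) s) = 0 := by
  have := riemannZeta_conj s
  simp_all

/-- A zero-free half-plane exists iff the zeros of large height stay away from `Re s = 1`. -/
theorem Q1_iff : (∃ σ0 : ℝ, 1 / 2 < σ0 ∧ σ0 < 1 ∧ ∀ s : ℂ, σ0 ≤ s.re → riemannZeta s ≠ 0) ↔
    ∃ d : ℝ, 0 ≤ d ∧ d < 1 / 2 ∧ ZFree d := by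
  constructor
  · rintro ⟨σ0, h1, h2, h3⟩
    refine ⟨σ0 - 1 / 2, by linarith, by linarith, fun ε hε => ⟨0, fun T σ _ hσ => h3 _ ?_⟩⟩
    have : (1 / 2 + T * I + σ : ℂ).re = 1 / 2 + σ := by simp
    rw [this]
    linarith
  · rintro ⟨d, hd0, hd1, hz⟩
    set ε : ℝ := (1 / 2 - d) / 2 with hε
    have hε0 : 0 < ε := by rw [hε]; linarith
    obtain ⟨T0, hT0⟩ := hz ε hε0
    set K : Set ℂ := {w : ℂ | fx w = 0} ∩ closedBall 0 (2 + |T0|) with hK
    have hKc : IsCompact K := by
      refine (isCompact_closedBall _ _).inter_left ?_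
      exact isClosed_eq fx_diff.continuous continuous_const
    -- a bound for the real parts of the zeros in K
    obtain ⟨m, hm1, hm2⟩ : ∃ m : ℝ, m < 1 / 2 ∧ ∀ w ∈ K, w.re ≤ m := by
      rcases K.eq_empty_or_nonempty with h0 | h0
      · exact ⟨0, by norm_num, fun w hw => by rw [h0] at hw; exact absurd hw (notMem_empty w)⟩
      · obtain ⟨w0, hw0, hmax⟩ := hKc.exists_isMaxOn h0 Complex.continuous_re.continuousOn
        refine ⟨w0.re, ?_, fun w hw => hmax hw⟩
        exact (abs_lt.1 (fx_zero_re hw0.1)).2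
    refine ⟨max (1 / 2 + d + ε) (1 / 2 + (m + 1 / 2) / 2), ?_, ?_, ?_⟩
    · exact lt_max_of_lt_left (by linarith)
    · apply max_lt
      · rw [hε]; linarith
      · linarith
    · intro s hs h0
      have hs1 : 1 / 2 + d + ε ≤ s.re := (le_max_left _ _).trans hs
      have hs2 : 1 / 2 + (m + 1 / 2) / 2 ≤ s.re := (le_max_right _ _).trans hs
      have hs3 : s.re < 1 := by
        by_contra hcon
        push Not at hcon
        exact riemannZeta_ne_zero_of_one_le_re hcon h0
      have hfx : fx (s - 1 / 2) = 0 := by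
        have hre : (s - 1 / 2).re = s.re - 1 / 2 := by
          rw [sub_re]; norm_num
        rw [fx_eq (by rw [hre]; linarith) (by
          intro h5
          have := congrArg Complex.re h5
          rw [hre] at this
          norm_num at this
          linarith)]
        rw [show (1 / 2 + (s - 1 / 2) : ℂ) = s by ring, h0, mul_zero]
      rcases le_total |s.im| |T0| with h5 | h5
      · have hmem : s - 1 / 2 ∈ K := by
          refine ⟨hfx, ?_⟩
          rw [mem_closedBall_zero_iff]
          refine (Complex.norm_le_abs_re_add_abs_im _).trans ?_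
          have hre : (s - 1 / 2).re = s.re - 1 / 2 := by
            rw [sub_re]; norm_num
          have him : (s - 1 / 2).im = s.im := by
            rw [sub_im]; norm_num
          rw [hre, him]
          have : |s.re - 1 / 2| ≤ 2 := by
            rw [abs_le]; constructor <;> linarith
          linarith
        have := hm2 _ hmem
        rw [sub_re] at this
        norm_num at this
        linarith
      · have key : ∀ s : ℂ, 1 / 2 + d + ε ≤ s.re → T0 ≤ s.im → riemannZeta s ≠ 0 := by
          intro s h6 h7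
          have := hT0 s.im (s.re - 1 / 2) h7 (by linarith)
          have e : (1 / 2 + s.im * I + ((s.re - 1 / 2 : ℝ) : ℂ) : ℂ) = s := by
            apply Complex.ext
            · simp
            · simp
          rwa [e] at this
        rcases le_total 0 s.im with h6 | h6
        · rw [abs_of_nonneg h6] at h5
          exact key s hs1 ((le_abs_self T0).trans h5) h0
        · rw [abs_of_nonpos h6] at h5
          refine key ((starRingEnd ℂ) s) ?_ ?_ (zeta_conj_zero h0)
          · rw [Complex.conj_re]; exact hs1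
          · rw [Complex.conj_im]; exact (le_abs_self T0).trans h5

/-- A zero-free half-plane exists iff for some `κ > 0` the zeros of `H_t` beyond `exp(κ/t)` stay in a
strip narrower than `1 - κ/2`. -/
theorem Q1_strip : (∃ σ0 : ℝ, 1 / 2 < σ0 ∧ σ0 < 1 ∧ ∀ s : ℂ, σ0 ≤ s.re → riemannZeta s ≠ 0) ↔
    ∃ c κ : ℝ, 1 / 2 < c ∧ 0 < κ ∧ c * κ ≤ 1 ∧ InStrip κ (1 - c * κ) := by
  rw [Q1_iff]
  constructor
  · rintro ⟨d, hd0, hd1, hz⟩
    have h1 : 0 < 1 - 2 * d := by linarith
    refine ⟨1, 1 - 2 * d, by norm_num, h1, by linarith, ?_⟩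
    rw [horizon_strip _ _ h1 (by linarith) (by linarith)]
    refine ZSide_of_ZFree' d _ _ hd0 hd1.le h1 (by linarith) (by linarith) hz
  · rintro ⟨c, κ, hc, hκ, hcκ, h⟩
    have h1 := ZFree_of_InStrip κ (1 - c * κ) hκ (by linarith) (by nlinarith) h
    refine ⟨(1 - c * κ) / 2 + κ / 4, by positivity, by nlinarith, h1⟩

end Pool.Agent.Helper87.HF
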