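import Pool.Agent.Helper87.HF.Direct

set_option autoImplicit false

open Complex Set Filter Topology Metric MeasureTheory

namespace Pool.Agent.Helper87.HF

/-- Zeros of zeta to the right of `1/2 + d` are bounded in height. -/
def ZFree (d : ℝ) : Prop :=
  ∀ ε : ℝ, 0 < ε → ∃ T0 : ℝ, ∀ T σ : ℝ, T0 ≤ T → d + ε ≤ σ → riemannZeta (1 / 2 + T * I + σ) ≠ 0

lemma ZFree_half : ZFree (1 / 2) := by
  intro ε hε
  refine ⟨1, fun T σ hT hσ => ?_⟩
  refine riemannZeta_ne_zero_of_one_le_re ?_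
  have : (1 / 2 + T * I + σ : ℂ).re = 1 / 2 + σ := by simp
  rw [this]
  linarith

/-- Growth of zeta in and to the left of a zero-free half-plane. -/
lemma growth_of_ZFree (d : ℝ) (hd0 : 0 ≤ d) (hd1 : d ≤ 1 / 2) (hz : ZFree d) (ε : ℝ) (hε : 0 < ε) :
    ∃ T0 : ℝ, 1 ≤ T0 ∧ ∀ T x : ℝ, T0 ≤ T → 0 ≤ x →
    ‖riemannZeta (1 / 2 + T * I + x)‖ ≤ Real.exp ((max 0 ((d - x) / 2) + ε) * Real.log T) := by
  set e : ℝ := min (ε / 8) 1 with he
  have he0 : 0 < e := by positivity
  have he1 : e ≤ 1 := min_le_right _ _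
  have he8 : e ≤ ε / 8 := min_le_left _ _
  obtain ⟨Tz, hTz⟩ := hz e he0
  obtain ⟨Tf, hTf1, hTf⟩ := exists_frame
  obtain ⟨T1, hT11, hq⟩ := zlog d 8 e e 1 Tz hd0 he0 (by linarith) he0 zero_le_one hTz
  -- step 1: bound for x in [d + 2e, 3]
  set T2 : ℝ := max (max Tf T1) (max (Real.exp (2 / e)) 1000) with hT2
  have s1 : ∀ T x : ℝ, T2 ≤ T → d + 2 * e ≤ x → x ≤ 8 →
      ‖riemannZeta (1 / 2 + T * I + x)‖ ≤ Real.exp (2 * e * Real.log T) := by
    intro T x hT hx1 hx2
    have a1 : Tf ≤ T := (le_max_left _ _).trans ((le_max_left _ _).trans hT)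
    have a2 : T1 ≤ T := (le_max_right _ _).trans ((le_max_left _ _).trans hT)
    have a3 : Real.exp (2 / e) ≤ T := (le_max_left _ _).trans ((le_max_right _ _).trans hT)
    have a4 : 1000 ≤ T := (le_max_right _ _).trans ((le_max_right _ _).trans hT)
    obtain ⟨B, u, h, hF⟩ := hTf T a1
    obtain ⟨q, hq1, hq2, hq3⟩ := hq T a2 B u h hF 0 (by simp)
    have hxn : ‖((x - 8 : ℝ) : ℂ)‖ ≤ 8 - d - 2 * e := by
      rw [Complex.norm_real, Real.norm_eq_abs, abs_of_nonpos (by linarith)]
      linarith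
    have h1 := hq3 _ hxn
    have h2 := hq2 ((x - 8 : ℝ) : ℂ) (by rw [mem_ball_zero_iff]; linarith)
    have e1 : (((8 : ℝ) : ℂ) + ((0 : ℝ) : ℂ) * I + ((x - 8 : ℝ) : ℂ)) = (x : ℂ) := by push_cast; ring
    rw [e1] at h2
    have h3 : ‖h x‖ ≤ Real.exp (e * Real.log T) := by
      rw [← h2, Complex.norm_exp]
      exact Real.exp_le_exp.2 ((Complex.re_le_norm _).trans h1)
    have h4 := hF.h1 x (by rw [Complex.ofReal_re]; linarith) (by
      rw [Complex.norm_real, Real.norm_of_nonneg (by linarith)]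
      have : x ^ 3 ≤ 8 ^ 3 := by
        have : 0 ≤ x := by linarith
        gcongr
      linarith)
    set Z := riemannZeta (1 / 2 + T * I + x)
    have h5 : ‖Z‖ ≤ 2 * ‖h x‖ := by
      have := norm_sub_norm_le Z (h x)
      rw [norm_sub_rev] at this
      linarith [norm_nonneg Z]
    have h6 : 2 ≤ e * Real.log T := by
      have h7 : 2 / e ≤ Real.log T := by
        rw [Real.le_log_iff_exp_le (by linarith)]; exact a3
      rw [div_le_iff₀ he0] at h7
      linarith
    have h8 : (2 : ℝ) ≤ Real.exp (e * Real.log T) := by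
      have := Real.add_one_le_exp (e * Real.log T)
      linarith
    calc ‖Z‖ ≤ 2 * ‖h x‖ := h5
      _ ≤ Real.exp (e * Real.log T) * Real.exp (e * Real.log T) := by gcongr
      _ = _ := by rw [← Real.exp_add]; congr 1; ring
  -- step 2: hull
  obtain ⟨T3, hT31, hT3⟩ := hull_left (d + 2 * e) T2 1 e (d + 2 * e + 2) (by positivity) he0
    zero_le_one (by linarith)
  refine ⟨max T2 T3, hT31.trans (le_max_right _ _), ?_⟩
  intro T x hT hx0
  have hTa : T2 ≤ T := (le_max_left _ _).trans hT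
  have hTb : T3 ≤ T := (le_max_right _ _).trans hT
  have a1 : Tf ≤ T := (le_max_left _ _).trans ((le_max_left _ _).trans hTa)
  have a3 : Real.exp (2 / e) ≤ T := (le_max_left _ _).trans ((le_max_right _ _).trans hTa)
  have a4 : 1000 ≤ T := (le_max_right _ _).trans ((le_max_right _ _).trans hTa)
  have hL0 : 0 ≤ Real.log T := Real.log_nonneg (by linarith)
  have h6 : 2 ≤ e * Real.log T := by
    have h7 : 2 / e ≤ Real.log T := by
      rw [Real.le_log_iff_exp_le (by linarith)]; exact a3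
    rw [div_le_iff₀ he0] at h7
    linarith
  have h8 : (2 : ℝ) ≤ Real.exp (e * Real.log T) := by
    have := Real.add_one_le_exp (e * Real.log T)
    linarith
  rcases le_total x (d + 2 * e) with hx | hx
  · obtain ⟨B, u, h, hF⟩ := hTf T a1
    have h1 := hT3 T hTb B u h hF (2 * e) (by positivity) (by linarith) (fun T' hT' => by
      have := s1 T' (d + 2 * e) hT' le_rfl (by linarith)
      exact this) x 0 (by linarith) hx (by simp)
    have e2 : ((x : ℂ) + ((0 : ℝ) : ℂ) * I) = x := by push_cast; ring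
    rw [e2] at h1
    have h4 := hF.h1 x (by rw [Complex.ofReal_re]; linarith) (by
      rw [Complex.norm_real, Real.norm_of_nonneg (by linarith)]
      have : x ^ 3 ≤ 8 ^ 3 := by
        have : x ≤ 8 := by linarith
        gcongr
      linarith)
    set Z := riemannZeta (1 / 2 + T * I + x)
    have h5 : ‖Z‖ ≤ 2 * ‖h x‖ := by
      have := norm_sub_norm_le Z (h x)
      rw [norm_sub_rev] at this
      linarith [norm_nonneg Z]
    calc ‖Z‖ ≤ 2 * ‖h x‖ := h5
      _ ≤ Real.exp (e * Real.log T) * Real.exp (((d + 2 * e - x) / 2 + 2 * e + e) * Real.log T) := by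
          gcongr
      _ = Real.exp ((e + ((d + 2 * e - x) / 2 + 2 * e + e)) * Real.log T) := by
          rw [← Real.exp_add]; congr 1; ring
      _ ≤ _ := by
          apply Real.exp_le_exp.2
          have : (d - x) / 2 ≤ max 0 ((d - x) / 2) := le_max_right _ _
          refine mul_le_mul_of_nonneg_right ?_ hL0
          linarith
  · rcases le_total x 8 with hx8 | hx8
    · refine (s1 T x hTa hx hx8).trans (Real.exp_le_exp.2 ?_)
      have : 0 ≤ max 0 ((d - x) / 2) := le_max_left _ _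
      refine mul_le_mul_of_nonneg_right ?_ hL0
      linarith
    · refine (zeta_le_two (T := T) (x := x) (by linarith)).trans (h8.trans (Real.exp_le_exp.2 ?_))
      have : 0 ≤ max 0 ((d - x) / 2) := le_max_left _ _
      refine mul_le_mul_of_nonneg_right ?_ hL0
      linarith

lemma ZSide_half (κ : ℝ) (hκ : 0 < κ) : ZSide κ (1 / 2) := by
  constructor
  · intro ε hε
    obtain ⟨T0, hT0⟩ := ZFree_half (κ / 4 + ε) (by positivity)
    exact ⟨T0, fun T σ hT hσ => hT0 T σ hT (by linarith)⟩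
  · intro ε hε
    obtain ⟨T0, hT01, hT0⟩ := growth_of_ZFree (1 / 2) (by norm_num) le_rfl ZFree_half ε hε
    refine ⟨T0, fun T v hT hv0 hv1 => ?_⟩
    refine (hT0 T (1 / 2 + v) hT (by positivity)).trans (Real.exp_le_exp.2 ?_)
    have h1 : max 0 ((1 / 2 - (1 / 2 + v)) / 2) = 0 := max_eq_left (by linarith)
    rw [h1]
    have hL0 : 0 ≤ Real.log T := Real.log_nonneg (by linarith)
    refine mul_le_mul_of_nonneg_right ?_ hL0
    have : 0 ≤ (κ / 4 - v) ^ 2 / κ := by positivity
    linarith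

/-- the horizon exponent is at most `8 d` if zeta is eventually zero-free to the right of `1/2+d` -/
lemma ZSide_of_ZFree (d κ : ℝ) (hd0 : 0 ≤ d) (hd1 : d ≤ 1 / 2) (hκ : 0 < κ) (hdκ : 8 * d ≤ κ)
    (hz : ZFree d) : ZSide κ 0 := by
  constructor
  · intro ε hε
    obtain ⟨T0, hT0⟩ := hz ε hε
    exact ⟨T0, fun T σ hT hσ => hT0 T σ hT (by linarith)⟩
  · intro ε hε
    obtain ⟨T0, hT01, hT0⟩ := growth_of_ZFree d hd0 hd1 hz ε hε
    refine ⟨T0, fun T v hT hv0 hv1 => ?_⟩
    rw [zero_add]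
    refine (hT0 T v hT hv0).trans (Real.exp_le_exp.2 ?_)
    have hL0 : 0 ≤ Real.log T := Real.log_nonneg (by linarith)
    refine mul_le_mul_of_nonneg_right ?_ hL0
    have h2 : max 0 ((d - v) / 2) ≤ (κ / 4 - v) ^ 2 / κ := by
      apply max_le
      · positivity
      · rw [le_div_iff₀ hκ]
        nlinarith [sq_nonneg v]
    linarith

end Pool.Agent.Helper87.HF
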