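import Pool.Agent.Helper85.LG.Mu
import Pool.Agent.Helper87.HF.Main

set_option autoImplicit false

open Complex Set Filter Topology Metric MeasureTheory

namespace Pool.Agent.Helper87.HF

/-- Vinogradov's bound near the line `Re s = 1`, uniform -/
lemma vino_growth (ε1 : ℝ) (hε1 : 0 < ε1) : ∃ s0 : ℝ, 0 < s0 ∧ s0 ≤ 1 / 4 ∧ ∀ ε2 : ℝ, 0 < ε2 →
    ∃ T0 : ℝ, 1 ≤ T0 ∧ ∀ T s : ℝ, T0 ≤ T → 0 < s → s ≤ s0 →
      ‖riemannZeta ⟨1 - s, T⟩‖ ≤ Real.exp ((ε1 * s + ε2) * Real.log T) := by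
  obtain ⟨C, c, hc, hc1, hZ⟩ := Pool.Agent.Helper85.LG.zs_all
  set K : ℝ := 1 / ε1 + 1 with hK
  have hK1 : 1 ≤ K := by
    rw [hK]; have : 0 < 1 / ε1 := by positivity
    linarith
  have hK0 : 0 < K := by linarith
  set E : ℝ := Real.exp (C * (1 + K) ^ C) with hE
  have hE0 : 0 < E := Real.exp_pos _
  refine ⟨min (1 / 4) (c / (1 + K) ^ 2), by positivity, min_le_left _ _, fun ε2 hε2 => ?_⟩
  set A : ℝ := 15 + 4 * E with hA
  have hA0 : 0 < A := by positivity
  refine ⟨Real.exp (max 4 (2 * A / ε2 ^ 2)), Real.one_le_exp (by positivity), ?_⟩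
  intro T s hT hs0 hs
  have hs1 : s ≤ 1 / 4 := hs.trans (min_le_left _ _)
  have hsK : s * (1 + K) ^ 2 ≤ c := by
    have := hs.trans (min_le_right _ _)
    rwa [le_div_iff₀ (by positivity)] at this
  have hTpos : 0 < T := (Real.exp_pos _).trans_le hT
  set L := Real.log T with hL
  have hLbig : max 4 (2 * A / ε2 ^ 2) ≤ L := by
    rw [hL, Real.le_log_iff_exp_le hTpos]; exact hT
  have hL4 : 4 ≤ L := (le_max_left _ _).trans hLbig
  have hLA : 2 * A / ε2 ^ 2 ≤ L := (le_max_right _ _).trans hLbig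
  have hTL : |T| = Real.exp L := by rw [hL, Real.exp_log hTpos, abs_of_pos hTpos]
  have h1 := Pool.Agent.Helper85.LG.mu_core hZ hc hL4 hK1 hs0 hs1 hsK hTL
  refine h1.trans ?_
  have h2 : s * (L / K + 1) ≤ ε1 * s * L + 1 / 4 := by
    have a1 : L / K ≤ ε1 * L := by
      rw [div_le_iff₀ hK0]
      have : ε1 * K = 1 + ε1 := by rw [hK]; field_simp
      nlinarith
    nlinarith
  have h3 : Real.exp (s * (L / K + 1)) ≤ 2 * Real.exp (ε1 * s * L) := by
    have a1 : Real.exp (1 / 4) ≤ 2 := by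
      have := Real.exp_one_lt_d9
      have h11 : Real.exp (1 / 4) ^ 4 = Real.exp 1 := by rw [← Real.exp_nat_mul]; norm_num
      by_contra hcon
      push Not at hcon
      have : (2 : ℝ) ^ 4 < Real.exp (1 / 4) ^ 4 := by gcongr
      rw [h11] at this
      linarith
    calc Real.exp (s * (L / K + 1)) ≤ Real.exp (ε1 * s * L + 1 / 4) := Real.exp_le_exp.2 h2
      _ = Real.exp (ε1 * s * L) * Real.exp (1 / 4) := Real.exp_add _ _
      _ ≤ Real.exp (ε1 * s * L) * 2 := by gcongr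
      _ = _ := by ring
  have h4 : 1 ≤ Real.exp (ε1 * s * L) := Real.one_le_exp (by positivity)
  have h5 : A * L ≤ Real.exp (ε2 * L) := by
    have a1 := Real.quadratic_le_exp_of_nonneg (x := ε2 * L) (by positivity)
    have a2 : A * L ≤ (ε2 * L) ^ 2 / 2 := by
      rw [div_le_iff₀ (by positivity)] at hLA
      nlinarith
    have a3 : 0 ≤ ε2 * L := by positivity
    linarith
  calc Real.exp (s * (L / K + 1)) * (2 + L) + (3 * L + 1) * E + 9 ≤
      2 * Real.exp (ε1 * s * L) * (2 + L) + ((3 * L + 1) * E + 9) * Real.exp (ε1 * s * L) := by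
        have a1 : Real.exp (s * (L / K + 1)) * (2 + L) ≤ 2 * Real.exp (ε1 * s * L) * (2 + L) := by
          gcongr
        have a2 : 0 ≤ (3 * L + 1) * E + 9 := by positivity
        nlinarith
    _ = Real.exp (ε1 * s * L) * (2 * (2 + L) + ((3 * L + 1) * E + 9)) := by ring
    _ ≤ Real.exp (ε1 * s * L) * (A * L) := by
        gcongr
        rw [hA]
        nlinarith
    _ ≤ Real.exp (ε1 * s * L) * Real.exp (ε2 * L) := by gcongr
    _ = _ := by rw [← Real.exp_add]; congr 1; ring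

theorem ZSide_vino (c : ℝ) (hc : 0 < c) (hc2 : c < 1 / 2) : ∃ κ0 : ℝ, 0 < κ0 ∧ κ0 ≤ 1 ∧
    ∀ κ : ℝ, 0 < κ → κ ≤ κ0 → ZSide κ ((1 - c * κ) / 2) := by
  obtain ⟨s0, hs0, hs04, hv⟩ := vino_growth (1 - 2 * c) (by linarith)
  refine ⟨min 1 (4 * s0), by positivity, min_le_left _ _, fun κ hκ hκ0 => ?_⟩
  have hκ1 : κ ≤ 1 := hκ0.trans (min_le_left _ _)
  have hκs : κ ≤ 4 * s0 := hκ0.trans (min_le_right _ _)
  have hcκ : c * κ ≤ κ / 2 := by nlinarith
  constructor
  · intro ε hε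
    obtain ⟨T0, hT0⟩ := ZFree_half ε hε
    exact ⟨T0, fun T σ hT hσ => hT0 T σ hT (by linarith)⟩
  · intro ε hε
    obtain ⟨T1, hT11, hT1⟩ := growth_of_ZFree (1 / 2) (by norm_num) le_rfl ZFree_half ε hε
    obtain ⟨T2, hT21, hT2⟩ := hv ε hε
    refine ⟨max T1 T2, fun T v hT hv0 hv1 => ?_⟩
    have hTa : T1 ≤ T := (le_max_left _ _).trans hT
    have hTb : T2 ≤ T := (le_max_right _ _).trans hT
    have hL0 : 0 ≤ Real.log T := Real.log_nonneg (hT11.trans hTa)
    set x : ℝ := (1 - c * κ) / 2 + v with hx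
    rcases le_total (1 / 2) x with h1 | h1
    · refine (hT1 T x hTa (by linarith)).trans (Real.exp_le_exp.2 ?_)
      rw [max_eq_left (by linarith)]
      refine mul_le_mul_of_nonneg_right ?_ hL0
      have : 0 ≤ (κ / 4 - v) ^ 2 / κ := by positivity
      linarith
    · rcases eq_or_lt_of_le h1 with h2 | h2
      · refine (hT1 T x hTa (by linarith)).trans (Real.exp_le_exp.2 ?_)
        rw [max_eq_left (by linarith)]
        refine mul_le_mul_of_nonneg_right ?_ hL0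
        have : 0 ≤ (κ / 4 - v) ^ 2 / κ := by positivity
        linarith
      · have h3 := hT2 T (1 / 2 - x) hTb (by linarith) (by linarith)
        have e : (⟨1 - (1 / 2 - x), T⟩ : ℂ) = 1 / 2 + T * I + (x : ℂ) := by
          apply Complex.ext
          · simp; ring
          · simp
        rw [e] at h3
        refine h3.trans (Real.exp_le_exp.2 ?_)
        refine mul_le_mul_of_nonneg_right ?_ hL0
        have h4 : (1 - 2 * c) * (1 / 2 - x) ≤ (κ / 4 - v) ^ 2 / κ := by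
          rw [le_div_iff₀ hκ]
          have e2 : κ / 4 - v = (1 / 2 - x) + κ * (1 - 2 * c) / 4 := by rw [hx]; ring
          rw [e2]
          nlinarith [sq_nonneg ((1 / 2 - x) - κ * (1 - 2 * c) / 4)]
        linarith

/-- unconditional narrowing of the strip -/
theorem InStrip_vino (c : ℝ) (hc : 0 < c) (hc2 : c < 1 / 2) : ∃ κ0 : ℝ, 0 < κ0 ∧ κ0 ≤ 1 ∧
    ∀ κ : ℝ, 0 < κ → κ ≤ κ0 → InStrip κ (1 - c * κ) := by
  obtain ⟨κ0, h1, h2, h3⟩ := ZSide_vino c hc hc2
  refine ⟨κ0, h1, h2, fun κ hκ hκ0 => ?_⟩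
  rw [horizon_strip κ _ hκ (by nlinarith) (by nlinarith)]
  exact h3 κ hκ hκ0

end Pool.Agent.Helper87.HF
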