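import Pool.Agent.Helper87.HF.ClosedS
import Pool.Agent.Helper87.HF.Vino
import Pool.Agent.Helper87.HF.QOne

set_option autoImplicit false

/-!
# Unconditional bounds for the width, zero-free half-planes
-/

open Complex Set Filter Topology Metric MeasureTheory

namespace Pool.Agent.Helper87.HF

/-- Vinogradov's bound near the line `Re s = 1`, uniform, with the range -/
lemma vino_growthC : ∃ c : ℝ, 0 < c ∧ ∀ ε1 : ℝ, 0 < ε1 → ∀ ε2 : ℝ, 0 < ε2 →
    ∃ T0 : ℝ, 1 ≤ T0 ∧ ∀ T s : ℝ, T0 ≤ T → 0 < s → s ≤ 1 / 4 → s * (2 + 1 / ε1) ^ 2 ≤ c →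
      ‖riemannZeta ⟨1 - s, T⟩‖ ≤ Real.exp ((ε1 * s + ε2) * Real.log T) := by
  obtain ⟨C, c, hc, hc1, hZ⟩ := Pool.Agent.Helper85.LG.zs_all
  refine ⟨c, hc, fun ε1 hε1 ε2 hε2 => ?_⟩
  set K : ℝ := 1 / ε1 + 1 with hK
  have hK1 : 1 ≤ K := by
    rw [hK]; have : 0 < 1 / ε1 := by positivity
    linarith
  have hK0 : 0 < K := by linarith
  set E : ℝ := Real.exp (C * (1 + K) ^ C) with hE
  have hE0 : 0 < E := Real.exp_pos _
  set A : ℝ := 15 + 4 * E with hA
  have hA0 : 0 < A := by positivity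
  refine ⟨Real.exp (max 4 (2 * A / ε2 ^ 2)), Real.one_le_exp (by positivity), ?_⟩
  intro T s hT hs0 hs1 hsK'
  have hsK : s * (1 + K) ^ 2 ≤ c := by
    rw [hK, show 1 + (1 / ε1 + 1) = 2 + 1 / ε1 by ring]
    exact hsK'
  have hTpos : 0 < T := (Real.exp_pos _).trans_le hT
  set L := Real.log T with hL
  have hLbig : max 4 (2 * A / ε2 ^ 2) ≤ L := by
    rw [hL, Real.le_log_iff_exp_le hTpos]; exact hT
  have hL4 : 4 ≤ L := (le_max_left _ _).trans hLbig
  have hLA : 2 * A / ε2 ^ 2 ≤ L := (le_max_right _ _).trans hLbig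
  have hTL : |T| = Real.exp L := by rw [hL, Real.exp_log hTpos, abs_of_pos hTpos]
  have h1 := Pool.Agent.Helper85.LG.mu_core hZ hc hL4 hK1 hs0 hs1 hsK hTL
  refine h1.trans ?_
  have h2 : s * (L / K + 1) ≤ ε1 * s * L + 1 / 4 := by
    have a1 : L / K ≤ ε1 * L := by
      rw [div_le_iff₀ hK0]
      have : ε1 * K = 1 + ε1 := by rw [hK]; field_simp
      nlinarith
    nlinarith
  have h3 : Real.exp (s * (L / K + 1)) ≤ 2 * Real.exp (ε1 * s * L) := by
    have a1 : Real.exp (1 / 4) ≤ 2 := by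
      have := Real.exp_one_lt_d9
      have h11 : Real.exp (1 / 4) ^ 4 = Real.exp 1 := by rw [← Real.exp_nat_mul]; norm_num
      by_contra hcon
      push Not at hcon
      have : (2 : ℝ) ^ 4 < Real.exp (1 / 4) ^ 4 := by gcongr
      rw [h11] at this
      linarith
    calc Real.exp (s * (L / K + 1)) ≤ Real.exp (ε1 * s * L + 1 / 4) := Real.exp_le_exp.2 h2
      _ = Real.exp (ε1 * s * L) * Real.exp (1 / 4) := Real.exp_add _ _
      _ ≤ Real.exp (ε1 * s * L) * 2 := by gcongr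
      _ = _ := by ring
  have h4 : 1 ≤ Real.exp (ε1 * s * L) := Real.one_le_exp (by positivity)
  have h5 : A * L ≤ Real.exp (ε2 * L) := by
    have a1 := Real.quadratic_le_exp_of_nonneg (x := ε2 * L) (by positivity)
    have a2 : A * L ≤ (ε2 * L) ^ 2 / 2 := by
      rw [div_le_iff₀ (by positivity)] at hLA
      nlinarith
    have a3 : 0 ≤ ε2 * L := by positivity
    linarith
  calc Real.exp (s * (L / K + 1)) * (2 + L) + (3 * L + 1) * E + 9 ≤
      2 * Real.exp (ε1 * s * L) * (2 + L) + ((3 * L + 1) * E + 9) * Real.exp (ε1 * s * L) := by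
        have a1 : Real.exp (s * (L / K + 1)) * (2 + L) ≤ 2 * Real.exp (ε1 * s * L) * (2 + L) := by
          gcongr
        have a2 : 0 ≤ (3 * L + 1) * E + 9 := by positivity
        nlinarith
    _ = Real.exp (ε1 * s * L) * (2 * (2 + L) + ((3 * L + 1) * E + 9)) := by ring
    _ ≤ Real.exp (ε1 * s * L) * (A * L) := by
        gcongr
        rw [hA]
        nlinarith
    _ ≤ Real.exp (ε1 * s * L) * Real.exp (ε2 * L) := by gcongr
    _ = _ := by rw [← Real.exp_add]; congr 1; ring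

lemma mu_crude {s : ℝ} (h0 : 0 ≤ s) (h1 : s ≤ 1 / 2) : mu (1 - s) ≤ s / 2 := by
  refine mu_le_of_Gr (by linarith) ?_
  have := Gr_crude (v := 1 - s - 1 / 2) (by linarith)
  rwa [max_eq_right (by linarith), show (1 / 2 - (1 - s - 1 / 2)) / 2 = s / 2 by ring] at this

/-- Vinogradov: `μ(1 - s) ≤ C s^(3/2)` -/
lemma mu_vino : ∃ C : ℝ, 1 ≤ C ∧ ∀ s : ℝ, 0 ≤ s → s ≤ 1 / 2 → mu (1 - s) ≤ C * s * √s := by
  obtain ⟨c, hc, hv⟩ := vino_growthC
  set q : ℝ := √c with hq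
  have hq0 : 0 < q := Real.sqrt_pos.2 hc
  have hq2 : q ^ 2 = c := Real.sq_sqrt hc.le
  set s1 : ℝ := min (1 / 4) (c / 9) with hs1
  have hs10 : 0 < s1 := by positivity
  refine ⟨max 1 (max (3 / q) (1 / (2 * √s1))), le_max_left _ _, fun s hs0 hs => ?_⟩
  set C : ℝ := max 1 (max (3 / q) (1 / (2 * √s1))) with hC
  have hC1 : 3 / q ≤ C := (le_max_left _ _).trans (le_max_right _ _)
  have hC2 : 1 / (2 * √s1) ≤ C := (le_max_right _ _).trans (le_max_right _ _)
  have hC0 : 0 < C := lt_of_lt_of_le one_pos (le_max_left _ _)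
  rcases eq_or_lt_of_le hs0 with h0 | h0
  · rw [← h0]
    have := mu_crude (s := 0) le_rfl (by norm_num)
    simpa using this
  set w : ℝ := √s with hw
  have hw0 : 0 < w := Real.sqrt_pos.2 h0
  have hw2 : w ^ 2 = s := Real.sq_sqrt hs0
  rcases le_total s s1 with h1 | h1
  · have h14 : s ≤ 1 / 4 := h1.trans (min_le_left _ _)
    have hc9 : s ≤ c / 9 := h1.trans (min_le_right _ _)
    have hwq : w ≤ q / 3 := by
      rw [← hw2, ← hq2] at hc9
      refine le_of_sq_le_sq (a := w) (b := q / 3) ?_ (by positivity)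
      rw [div_pow]; norm_num; linarith
    refine le_trans (mu_le_of_Gr (a := 3 * w / q * s) (by positivity) ?_) ?_
    · intro ε hε
      obtain ⟨T0, _, h2⟩ := hv (3 * w / q) (by positivity) ε hε
      refine ⟨T0, fun T hT => ?_⟩
      have h3 := h2 T s hT h0 h14 (by
        have e1 : s * (2 + 1 / (3 * w / q)) ^ 2 = (2 * w + q / 3) ^ 2 := by
          rw [← hw2]; field_simp
        rw [e1, ← hq2]
        exact pow_le_pow_left₀ (by positivity) (by linarith) 2)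
      have e : (⟨1 - s, T⟩ : ℂ) = 1 / 2 + T * I + ((1 - s - 1 / 2 : ℝ) : ℂ) := by
        apply Complex.ext
        · simp
        · simp
      rwa [e] at h3
    · have e2 : 3 * w / q * s = 3 / q * s * w := by ring
      rw [e2]
      gcongr
  · refine (mu_crude hs0 hs).trans ?_
    have h5 : √s1 ≤ w := Real.sqrt_le_sqrt h1
    have h6 : 0 < √s1 := Real.sqrt_pos.2 hs10
    have h7 : 1 / (2 * √s1) * s * w ≤ C * s * w := by gcongr
    refine le_trans ?_ h7
    have e3 : 1 / (2 * √s1) * s * w = s / 2 * (w / √s1) := by field_simp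
    rw [e3]
    have h8 : 1 ≤ w / √s1 := by rw [le_div_iff₀ h6]; linarith
    nlinarith

/-- Unconditionally the width is at most `1 - κ/2 + Cκ²`. -/
theorem yStar_vino : ∃ C : ℝ, 0 < C ∧ ∀ κ : ℝ, 0 < κ → yStar κ ≤ 1 - κ / 2 + C * κ ^ 2 := by
  obtain ⟨C0, hC0, hm⟩ := mu_vino
  refine ⟨2 * C0 ^ 2, by positivity, fun κ hκ => ?_⟩
  have hC2 : 1 ≤ C0 ^ 2 := one_le_pow₀ hC0
  have hy0 : 0 ≤ 1 - κ / 2 + 2 * C0 ^ 2 * κ ^ 2 := by
    have : 0 ≤ (C0 ^ 2 - 1) * κ ^ 2 := mul_nonneg (by linarith) (by positivity)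
    nlinarith [sq_nonneg (κ - 1 / 8)]
  rcases le_total 1 (1 - κ / 2 + 2 * C0 ^ 2 * κ ^ 2) with h1 | h1
  · exact (yStar_le_one hκ).trans h1
  refine (yStar_formula hκ hy0 h1).2 fun σ hσ1 hσ2 => ?_
  have hΘ1 := Theta_le
  set s : ℝ := 1 - σ with hs
  have hs0 : 0 ≤ s := by linarith
  have hs2 : s ≤ 1 / 2 := by linarith
  have h2 := hm s hs0 hs2
  rw [show (1 - s : ℝ) = σ by rw [hs]; ring] at h2
  set w : ℝ := √(√s) with hw
  have hw0 : 0 ≤ w := Real.sqrt_nonneg _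
  have hw2 : w ^ 2 = √s := Real.sq_sqrt (Real.sqrt_nonneg _)
  have hw4 : w ^ 4 = s := by
    rw [show w ^ 4 = (w ^ 2) ^ 2 by ring, hw2, Real.sq_sqrt hs0]
  set A : ℝ := √(κ * C0) with hA
  have hA0 : 0 ≤ A := Real.sqrt_nonneg _
  have hA2 : A ^ 2 = κ * C0 := Real.sq_sqrt (by positivity)
  have h3 : A * w ^ 3 ≤ w ^ 4 + A ^ 4 := by
    rcases le_total A w with h4 | h4
    · have e1 : A * w ^ 3 ≤ w * w ^ 3 := by gcongr
      have e2 : 0 ≤ A ^ 4 := by positivity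
      nlinarith
    · have e1 : A * w ^ 3 ≤ A * A ^ 3 := by gcongr
      have e2 : 0 ≤ w ^ 4 := by positivity
      nlinarith
  have h5 : √(κ * mu σ) ≤ w ^ 4 + A ^ 4 := by
    rw [Real.sqrt_le_left (by positivity)]
    have e1 : κ * mu σ ≤ κ * (C0 * s * √s) := by gcongr
    have e2 : κ * (C0 * s * √s) = (A * w ^ 3) ^ 2 := by
      rw [mul_pow, hA2, ← hw2, ← hw4]; ring
    rw [e2] at e1
    refine e1.trans (pow_le_pow_left₀ (by positivity) h3 2)
  have h6 : A ^ 4 = C0 ^ 2 * κ ^ 2 := by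
    rw [show A ^ 4 = (A ^ 2) ^ 2 by ring, hA2]; ring
  rw [hw4, h6] at h5
  have h7 : σ = 1 - s := by rw [hs]; ring
  linarith

/-- Explicit unconditional bounds. -/
theorem yStar_corput {κ : ℝ} (hκ : 0 < κ) :
    yStar κ ≤ max (1 - 3 * κ / 8) (max (3 / 4 - 5 * κ / 18) 0) := by
  set y : ℝ := max (1 - 3 * κ / 8) (max (3 / 4 - 5 * κ / 18) 0) with hy
  have h1 : 1 - 3 * κ / 8 ≤ y := le_max_left _ _
  have h2 : 3 / 4 - 5 * κ / 18 ≤ y := (le_max_left _ _).trans (le_max_right _ _)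
  have h3 : 0 ≤ y := (le_max_right _ _).trans (le_max_right _ _)
  have h4 : y ≤ 1 := max_le (by linarith) (max_le (by linarith) (by norm_num))
  exact (yStar_le_iff hκ h3 h4).2 ((horizon_strip κ y hκ h3 h4).1 (InStrip_corput κ y hκ h3 h4 h1 h2))

lemma Q1_Theta : (∃ σ0 : ℝ, 1 / 2 < σ0 ∧ σ0 < 1 ∧ ∀ s : ℂ, σ0 ≤ s.re → riemannZeta s ≠ 0) ↔ Theta < 1 := by
  have h1 := Theta_ge
  rw [Q1_iff]
  constructor
  · rintro ⟨d, hd0, hd1, hz⟩
    have := (Theta_le_iff hd0).2 hz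
    linarith
  · intro h
    exact ⟨Theta - 1 / 2, by linarith, by linarith, (Theta_le_iff (by linarith)).1 (by linarith)⟩

/-- A zero-free half-plane exists iff for some `κ > 0` the width is less than `1 - κ/2`. -/
theorem Q1_yStar : (∃ σ0 : ℝ, 1 / 2 < σ0 ∧ σ0 < 1 ∧ ∀ s : ℂ, σ0 ≤ s.re → riemannZeta s ≠ 0) ↔
    ∃ κ : ℝ, 0 < κ ∧ yStar κ < 1 - κ / 2 := by
  have h0 := Theta_ge
  rw [Q1_Theta]
  constructor
  · intro h
    refine ⟨min 1 (4 * (1 - Theta)), lt_min one_pos (by linarith), ?_⟩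
    set κ : ℝ := min 1 (4 * (1 - Theta)) with hκ
    have hκ0 : 0 < κ := lt_min one_pos (by linarith)
    have h1 : κ ≤ 1 := min_le_left _ _
    have h2 : κ ≤ 4 * (1 - Theta) := min_le_right _ _
    exact lt_of_le_of_lt (yStar_le hκ0) (max_lt (by linarith) (by linarith))
  · rintro ⟨κ, hκ, h⟩
    have := yStar_ge hκ
    linarith

end Pool.Agent.Helper87.HF
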