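import Pool.Graph.R_seed8.W22.EH.EX
import Pool.Graph.R_seed8.W903.EH.BK
import Pool.Graph.R_seed8.W347.EH.KT
import Pool.Agent.Helper87.HF.Main

set_option autoImplicit false

open Complex Set Filter Topology Metric MeasureTheory

namespace Pool.Agent.Helper87.HF

/-- three lines between two vertical lines -/
lemma hull_mid (a b T1 ε M0 : ℝ) (ha : 0 ≤ a) (hab : a < b) (hε : 0 < ε) (hbM : b ≤ M0) :
    ∃ T2 : ℝ, 1 ≤ T2 ∧ ∀ T : ℝ, T2 ≤ T →
    ∀ (B u : ℂ) (h : ℂ → ℂ), Frame T B u h → ∀ μ ν : ℝ, 0 ≤ μ → μ ≤ M0 → 0 ≤ ν → ν ≤ M0 →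
    (∀ T' : ℝ, T1 ≤ T' → ‖riemannZeta (1 / 2 + T' * I + a)‖ ≤ Real.exp (μ * Real.log T')) →
    (∀ T' : ℝ, T1 ≤ T' → ‖riemannZeta (1 / 2 + T' * I + b)‖ ≤ Real.exp (ν * Real.log T')) →
    ∀ x : ℝ, a ≤ x → x ≤ b → ‖h x‖ ≤
      Real.exp (((μ * (b - x) + ν * (x - a)) / (b - a) + ε) * Real.log T) := by
  obtain ⟨C, T2, hC1, hT21, hv⟩ := vline M0 T1 (by linarith)
  set D : ℝ := Real.log C + 5 * (b - a) ^ 2 with hD
  refine ⟨max T2 (Real.exp (|D| / ε)), hT21.trans (le_max_left _ _), ?_⟩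
  intro T hT B u h hF μ ν hμ0 hμM hν0 hνM hza hzb x hx1 hx2
  have hT2 : T2 ≤ T := (le_max_left _ _).trans hT
  have hT1 : 1 ≤ T := hT21.trans hT2
  have hL0 : 0 ≤ Real.log T := Real.log_nonneg hT1
  have hba : 0 < b - a := by linarith
  have hDL : D ≤ ε * Real.log T := by
    have h1 : |D| / ε ≤ Real.log T := by
      rw [Real.le_log_iff_exp_le (by linarith)]
      exact (le_max_right _ _).trans hT
    rw [div_le_iff₀ hε] at h1
    linarith [le_abs_self D]
  have hla := hv T hT2 B u h hF a μ ha (by linarith) hμ0 hμM hza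
  have hlb := hv T hT2 B u h hF b ν (by linarith) hbM hν0 hνM hzb
  set w : ℝ := (μ - ν) * Real.log T / (b - a) with hw
  have hwab : w * b = w * a + (μ - ν) * Real.log T := by
    rw [hw]; field_simp; ring
  set k : ℂ → ℂ := fun v => exp (w * v) * h v with hk
  have hkd : Differentiable ℂ k := by
    have := hF.hd
    rw [hk]; fun_prop
  have hne : ∀ v : ℂ, ‖exp (w * v)‖ = Real.exp (w * v.re) := by
    intro v; rw [Complex.norm_exp, Complex.re_ofReal_mul]
  set M : ℝ := C * Real.exp (μ * Real.log T + w * a) with hM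
  have hM0 : 0 ≤ M := by positivity
  have hPL := PL2 hkd (x1 := a) (x2 := b) (M := M) (y0 := 0)
    (C0 := Real.exp (|w| * b) * (T ^ 6 * Real.exp (3 * b ^ 2))) hab ?_ ?_ ?_ hx1 hx2
  · have e0 : ((x : ℂ) + ((0 : ℝ) : ℂ) * I) = x := by push_cast; ring
    rw [e0] at hPL
    simp only [hk] at hPL
    rw [norm_mul, hne, Complex.ofReal_re] at hPL
    have h4 : ‖h x‖ ≤ Real.exp (-(w * x)) * (M * Real.exp (5 * (b - a) ^ 2)) := by
      rw [Real.exp_neg, ← div_eq_inv_mul, le_div_iff₀ (Real.exp_pos _), mul_comm]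
      exact hPL
    refine h4.trans ?_
    have hCe : C = Real.exp (Real.log C) := by rw [Real.exp_log (by linarith)]
    rw [hM, hCe]
    simp only [← Real.exp_add]
    apply Real.exp_le_exp.2
    have e1 : (μ * (b - x) + ν * (x - a)) / (b - a) * Real.log T = μ * Real.log T + w * a - w * x := by
      rw [hw]; field_simp; ring
    rw [add_mul, e1]
    linarith
  · intro v hv1 hv2
    simp only [hk]
    rw [norm_mul, hne]
    have hre0 : 0 ≤ v.re := ha.trans hv1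
    have h1 := hF.h2 v hre0
    have hvn2 : ‖v‖ ^ 2 = v.re ^ 2 + v.im ^ 2 := by
      rw [← Complex.normSq_eq_norm_sq, Complex.normSq_apply]; ring
    have hvre2 : v.re ^ 2 ≤ b ^ 2 := by gcongr
    have h2 : w * v.re ≤ |w| * b := by
      calc w * v.re ≤ |w| * v.re := by gcongr; exact le_abs_self w
        _ ≤ |w| * b := by gcongr
    calc Real.exp (w * v.re) * ‖h v‖ ≤ Real.exp (|w| * b) * (T ^ 6 * Real.exp (3 * ‖v‖ ^ 2)) := by
          gcongr
      _ ≤ Real.exp (|w| * b) * (T ^ 6 * Real.exp (3 * b ^ 2 + 4 * v.im ^ 2)) := by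
          gcongr
          rw [hvn2]
          linarith [sq_nonneg v.im]
      _ = _ := by rw [Real.exp_add]; ring
  · intro v hv1
    simp only [hk]
    rw [norm_mul, hne, hv1, sub_zero]
    have h1 := hla v hv1
    calc Real.exp (w * a) * ‖h v‖ ≤ Real.exp (w * a) * (C * Real.exp (μ * Real.log T) *
        Real.exp (7 / 2 * v.im ^ 2)) := by gcongr
      _ = M * Real.exp (7 / 2 * v.im ^ 2) := by rw [hM, Real.exp_add]; ring
      _ ≤ M * Real.exp (4 * v.im ^ 2) := by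
          gcongr
          norm_num
  · intro v hv1
    simp only [hk]
    rw [norm_mul, hne, hv1, sub_zero]
    have h1 := hlb v hv1
    calc Real.exp (w * b) * ‖h v‖ ≤ Real.exp (w * b) * (C * Real.exp (ν * Real.log T) *
        Real.exp (7 / 2 * v.im ^ 2)) := by gcongr
      _ = C * Real.exp (w * b + ν * Real.log T) * Real.exp (7 / 2 * v.im ^ 2) := by
          rw [Real.exp_add]; ring
      _ = M * Real.exp (7 / 2 * v.im ^ 2) := by
          rw [hM, hwab]; congr 3; ring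
      _ ≤ M * Real.exp (4 * v.im ^ 2) := by
          gcongr
          norm_num

/-- growth of zeta from two lines -/
lemma growth_mid (a b μ ν : ℝ) (ha : 0 ≤ a) (hab : a < b) (hb : b ≤ 3) (hμ : 0 ≤ μ) (hν : 0 ≤ ν)
    (h1 : ∀ ε : ℝ, 0 < ε → ∃ T0 : ℝ, ∀ T : ℝ, T0 ≤ T →
      ‖riemannZeta (1 / 2 + T * I + a)‖ ≤ Real.exp ((μ + ε) * Real.log T))
    (h2 : ∀ ε : ℝ, 0 < ε → ∃ T0 : ℝ, ∀ T : ℝ, T0 ≤ T →
      ‖riemannZeta (1 / 2 + T * I + b)‖ ≤ Real.exp ((ν + ε) * Real.log T)) (ε : ℝ) (hε : 0 < ε) :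
    ∃ T0 : ℝ, 1 ≤ T0 ∧ ∀ T x : ℝ, T0 ≤ T → a ≤ x → x ≤ b →
      ‖riemannZeta (1 / 2 + T * I + x)‖ ≤
        Real.exp (((μ * (b - x) + ν * (x - a)) / (b - a) + ε) * Real.log T) := by
  obtain ⟨Ta, hTa⟩ := h1 (ε / 3) (by positivity)
  obtain ⟨Tb, hTb⟩ := h2 (ε / 3) (by positivity)
  obtain ⟨Tf, hTf1, hTf⟩ := exists_frame
  obtain ⟨T2, hT21, hT2⟩ := hull_mid a b (max Ta Tb) (ε / 3) (3 + μ + ν + ε / 3) ha hab (by positivity)
    (by linarith)
  refine ⟨max (max Tf T2) (max 1000 (Real.exp (3 / ε))), hT21.trans ((le_max_right _ _).trans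
    (le_max_left _ _)), fun T x hT hx1 hx2 => ?_⟩
  have a1 : Tf ≤ T := (le_max_left _ _).trans ((le_max_left _ _).trans hT)
  have a2 : T2 ≤ T := (le_max_right _ _).trans ((le_max_left _ _).trans hT)
  have a3 : 1000 ≤ T := (le_max_left _ _).trans ((le_max_right _ _).trans hT)
  have a4 : Real.exp (3 / ε) ≤ T := (le_max_right _ _).trans ((le_max_right _ _).trans hT)
  have hL0 : 0 ≤ Real.log T := Real.log_nonneg (by linarith)
  have h6 : 1 ≤ ε / 3 * Real.log T := by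
    have h7 : 3 / ε ≤ Real.log T := by
      rw [Real.le_log_iff_exp_le (by linarith)]; exact a4
    rw [div_le_iff₀ hε] at h7
    linarith
  have h8 : (2 : ℝ) ≤ Real.exp (ε / 3 * Real.log T) := by
    have := Real.add_one_le_exp (ε / 3 * Real.log T)
    linarith
  obtain ⟨B, u, h, hF⟩ := hTf T a1
  have h3 := hT2 T a2 B u h hF (μ + ε / 3) (ν + ε / 3) (by positivity) (by linarith) (by positivity)
    (by linarith) (fun T' hT' => hTa T' ((le_max_left _ _).trans hT'))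
    (fun T' hT' => hTb T' ((le_max_right _ _).trans hT')) x hx1 hx2
  have hx0 : 0 ≤ x := ha.trans hx1
  have h4 := hF.h1 x (by rw [Complex.ofReal_re]; exact hx0) (by
    rw [Complex.norm_real, Real.norm_of_nonneg hx0]
    have : x ^ 3 ≤ 3 ^ 3 := by
      have : x ≤ 3 := by linarith
      gcongr
    linarith)
  set Z := riemannZeta (1 / 2 + T * I + x)
  have h5 : ‖Z‖ ≤ 2 * ‖h x‖ := by
    have := norm_sub_norm_le Z (h x)
    rw [norm_sub_rev] at this
    linarith [norm_nonneg Z]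
  have hba : 0 < b - a := by linarith
  calc ‖Z‖ ≤ 2 * ‖h x‖ := h5
    _ ≤ Real.exp (ε / 3 * Real.log T) * Real.exp ((((μ + ε / 3) * (b - x) + (ν + ε / 3) * (x - a)) /
          (b - a) + ε / 3) * Real.log T) := by gcongr
    _ = Real.exp (((μ * (b - x) + ν * (x - a)) / (b - a) + ε) * Real.log T) := by
        rw [← Real.exp_add]; congr 1; field_simp; ring

/-- the exponents of van der Corput on the lines `1/2` and `5/7` -/
lemma corput (ε : ℝ) (hε : 0 < ε) : ∃ T0 : ℝ, ∀ T : ℝ, T0 ≤ T →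
    ‖riemannZeta (1 / 2 + T * I + (0 : ℝ))‖ ≤ Real.exp ((1 / 6 + ε) * Real.log T) ∧
    ‖riemannZeta (1 / 2 + T * I + (3 / 14 : ℝ))‖ ≤ Real.exp ((1 / 14 + ε) * Real.log T) := by
  obtain ⟨T0, hT0⟩ := Pool.Agent.W22.EH.ex (Pool.Agent.W903.EH.bk Pool.Agent.W347.EH.kt)
      Pool.Agent.W903.EH.b1 ε hε
  refine ⟨max T0 1, fun T hT => ?_⟩
  have h1 := hT0 T ((le_max_left _ _).trans hT)
  have hT1 : 1 ≤ T := (le_max_right _ _).trans hT
  have e1 : (1 / 2 + T * I + ((0 : ℝ) : ℂ) : ℂ) = 1 / 2 + T * I := by push_cast; ring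
  have e2 : (1 / 2 + T * I + ((3 / 14 : ℝ) : ℂ) : ℂ) = 5 / 7 + T * I := by push_cast; ring
  rw [e1, e2]
  rw [Real.rpow_def_of_pos (by linarith), Real.rpow_def_of_pos (by linarith), mul_comm (Real.log T),
    mul_comm (Real.log T)] at h1
  exact h1

/-- unconditional strips from the exponents of van der Corput -/
theorem ZSide_corput' (κ a : ℝ) (hκ : 0 < κ) (ha : 0 ≤ a) (h1 : 1 / 2 - 3 * κ / 16 ≤ a)
    (h2 : 3 / 8 - 5 * κ / 36 ≤ a) : ZSide κ a := by
  constructor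
  · intro ε hε
    obtain ⟨T0, hT0⟩ := ZFree_half ε hε
    exact ⟨T0, fun T σ hT hσ => hT0 T σ hT (by linarith)⟩
  · intro ε hε
    obtain ⟨T1, hT11, hT1⟩ := growth_mid 0 (3 / 14) (1 / 6) (1 / 14) le_rfl (by norm_num) (by norm_num)
      (by norm_num) (by norm_num)
      (fun e he => by obtain ⟨T0, h0⟩ := corput e he; exact ⟨T0, fun T hT => (h0 T hT).1⟩)
      (fun e he => by obtain ⟨T0, h0⟩ := corput e he; exact ⟨T0, fun T hT => (h0 T hT).2⟩) ε hε
    have hone : ∀ e : ℝ, 0 < e → ∃ T0 : ℝ, ∀ T : ℝ, T0 ≤ T →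
        ‖riemannZeta (1 / 2 + T * I + (1 / 2 : ℝ))‖ ≤ Real.exp ((0 + e) * Real.log T) := by
      intro e he
      obtain ⟨T0, _, h0⟩ := growth_of_ZFree (1 / 2) (by norm_num) le_rfl ZFree_half e he
      refine ⟨T0, fun T hT => ?_⟩
      have := h0 T (1 / 2) hT (by norm_num)
      rwa [show max 0 ((1 / 2 - 1 / 2 : ℝ) / 2) = 0 by norm_num] at this
    obtain ⟨T2, hT21, hT2⟩ := growth_mid (3 / 14) (1 / 2) (1 / 14) 0 (by norm_num) (by norm_num)
      (by norm_num) (by norm_num) le_rfl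
      (fun e he => by obtain ⟨T0, h0⟩ := corput e he; exact ⟨T0, fun T hT => (h0 T hT).2⟩) hone ε hε
    obtain ⟨T3, hT31, hT3⟩ := growth_of_ZFree (1 / 2) (by norm_num) le_rfl ZFree_half ε hε
    refine ⟨max T1 (max T2 T3), fun T v hT hv0 hv1 => ?_⟩
    have b1 : T1 ≤ T := (le_max_left _ _).trans hT
    have b2 : T2 ≤ T := (le_max_left _ _).trans ((le_max_right _ _).trans hT)
    have b3 : T3 ≤ T := (le_max_right _ _).trans ((le_max_right _ _).trans hT)
    have hL0 : 0 ≤ Real.log T := Real.log_nonneg (by linarith)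
    set x : ℝ := a + v with hx
    have hx0 : 0 ≤ x := by positivity
    have hs : κ / 4 - v = κ / 4 + a - x := by rw [hx]; ring
    rcases le_total x (3 / 14) with h | h
    · refine (hT1 T x b1 hx0 h).trans (Real.exp_le_exp.2 ?_)
      refine mul_le_mul_of_nonneg_right ?_ hL0
      have e1 : (1 / 6 * (3 / 14 - x) + 1 / 14 * (x - 0)) / (3 / 14 - 0) = 1 / 6 - 4 * x / 9 := by
        ring
      have : 1 / 6 - 4 * x / 9 ≤ (κ / 4 - v) ^ 2 / κ := by
        rw [le_div_iff₀ hκ, hs]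
        have e2 : (κ / 4 + a - x) ^ 2 - (1 / 6 - 4 * x / 9) * κ = (κ / 4 + a - x - 2 * κ / 9) ^ 2 +
            4 * κ / 9 * (κ / 4 + a - κ / 9 - 3 / 8) := by ring
        have e3 : 0 ≤ 4 * κ / 9 * (κ / 4 + a - κ / 9 - 3 / 8) :=
          mul_nonneg (by positivity) (by linarith)
        linarith [sq_nonneg (κ / 4 + a - x - 2 * κ / 9)]
      rw [e1]
      linarith
    · rcases le_total x (1 / 2) with h' | h'
      · refine (hT2 T x b2 h h').trans (Real.exp_le_exp.2 ?_)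
        refine mul_le_mul_of_nonneg_right ?_ hL0
        have e1 : (1 / 14 * (1 / 2 - x) + 0 * (x - 3 / 14)) / (1 / 2 - 3 / 14) = (1 / 2 - x) / 4 := by
          ring
        have : (1 / 2 - x) / 4 ≤ (κ / 4 - v) ^ 2 / κ := by
          rw [le_div_iff₀ hκ, hs]
          have e2 : (κ / 4 + a - x) ^ 2 - (1 / 2 - x) / 4 * κ = (κ / 4 + a - x - κ / 8) ^ 2 +
              κ / 4 * (κ / 4 + a - κ / 16 - 1 / 2) := by ring
          have e3 : 0 ≤ κ / 4 * (κ / 4 + a - κ / 16 - 1 / 2) :=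
            mul_nonneg (by positivity) (by linarith)
          linarith [sq_nonneg (κ / 4 + a - x - κ / 8)]
        rw [e1]
        linarith
      · refine (hT3 T x b3 hx0).trans (Real.exp_le_exp.2 ?_)
        refine mul_le_mul_of_nonneg_right ?_ hL0
        rw [max_eq_left (by linarith)]
        have : 0 ≤ (κ / 4 - v) ^ 2 / κ := by positivity
        linarith

/-- unconditionally the horizon exponent is at most `27/10` -/
theorem ZSide_corput : ZSide (27 / 10) 0 :=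
  ZSide_corput' (27 / 10) 0 (by norm_num) le_rfl (by norm_num) (by norm_num)

theorem RealBeyond_corput : RealBeyond (27 / 10) :=
  (horizon_real (27 / 10) (by norm_num)).2 ZSide_corput

/-- `S(κ, y)` for `y ≥ 1 - 3κ/8` and `y ≥ 3/4 - 5κ/18` -/
theorem InStrip_corput (κ y : ℝ) (hκ : 0 < κ) (hy : 0 ≤ y) (hy1 : y ≤ 1) (h1 : 1 - 3 * κ / 8 ≤ y)
    (h2 : 3 / 4 - 5 * κ / 18 ≤ y) : InStrip κ y :=
  (horizon_strip κ y hκ hy hy1).2 (ZSide_corput' κ (y / 2) hκ (by linarith) (by linarith) (by linarith))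

end Pool.Agent.Helper87.HF
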